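import Pool.Agent.Work.MP_0cd883_co.Rig.SideDefs

/-!
Many pairs of points of two levels with prescribed sum off one coordinate.
-/

namespace Pool.Agent.Work.MP_0cd883_co.Rig

open Finset

/-- a box inside a box, with the sums in a given interval -/
theorem box_point {m : ℕ} (hm : 1 ≤ m) {ι θ M lo hi : ℝ} (hι : 0 < ι) (hθ : 0 < θ) (hθ1 : θ ≤ 1)
    (hM : 1 ≤ M) (a : Fin m → ℝ) (ha : ∀ i, θ * M ≤ a i) (ha1 : ∀ i, a i ≤ M) (hlo : 0 ≤ lo)
    (hlh : lo + ι * M ≤ hi) (hhi : hi ≤ ∑ i, a i) (h4 : 4 * m ≤ ι * M) :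
    ∃ b : Fin m → ℕ, ∀ t : Fin m → ℕ, (∀ i, (t i : ℝ) ≤ ι * θ / (2 * m) * M) →
      (∀ i, (b i : ℝ) + t i ≤ a i) ∧ lo ≤ ∑ i, ((b i : ℝ) + t i) ∧ ∑ i, ((b i : ℝ) + t i) ≤ hi := by
  have hm0 : (0 : ℝ) < m := by exact_mod_cast hm
  have hM0 : 0 < M := by linarith
  have hιM : 0 < ι * M := by positivity
  obtain ⟨A, hA⟩ : ∃ A, A = ∑ i, a i := ⟨_, rfl⟩
  rw [← hA] at hhi
  have hAm : A ≤ m * M := by
    rw [hA]
    calc ∑ i, a i ≤ ∑ i : Fin m, M := Finset.sum_le_sum fun i _ => ha1 i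
      _ = m * M := by simp
  have hApos : 0 < A := by linarith
  obtain ⟨lam, hlam⟩ : ∃ lam, lam = (lo + hi) / (2 * A) := ⟨_, rfl⟩
  have hιA : ι * A ≤ ι * (m * M) := by gcongr
  have hlam1 : ι / (2 * m) ≤ lam := by
    rw [hlam, div_le_div_iff₀ (by positivity) (by positivity)]
    have : (lo + hi) * (2 * m) ≥ (ι * M) * (2 * m) := by
      apply mul_le_mul_of_nonneg_right _ (by positivity)
      linarith
    linarith
  have hlam2 : ι / (2 * m) ≤ 1 - lam := by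
    have h : 1 - lam = (2 * A - lo - hi) / (2 * A) := by rw [hlam]; field_simp; ring
    rw [h, div_le_div_iff₀ (by positivity) (by positivity)]
    have : (2 * A - lo - hi) * (2 * m) ≥ (ι * M) * (2 * m) := by
      apply mul_le_mul_of_nonneg_right _ (by positivity)
      linarith
    linarith
  have hlamA : lam * A = (lo + hi) / 2 := by rw [hlam]; field_simp
  have hlam0 : 0 ≤ lam := le_trans (by positivity) hlam1
  have hlam0' : 0 ≤ 1 - lam := le_trans (by positivity) hlam2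
  have ha0 : ∀ i, 0 ≤ a i := fun i => le_trans (by positivity) (ha i)
  refine ⟨fun i => ⌊lam * a i⌋₊, ?_⟩
  intro t ht
  have hble : ∀ i, ((⌊lam * a i⌋₊ : ℕ) : ℝ) ≤ lam * a i := fun i =>
    Nat.floor_le (mul_nonneg hlam0 (ha0 i))
  have hbge : ∀ i, lam * a i ≤ ((⌊lam * a i⌋₊ : ℕ) : ℝ) + 1 := fun i =>
    (Nat.lt_floor_add_one _).le
  refine ⟨?_, ?_, ?_⟩
  · intro i
    have h1 := hble i
    have h2 := ht i
    have h3 : ι * θ / (2 * m) * M ≤ (1 - lam) * a i := by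
      calc ι * θ / (2 * m) * M = ι / (2 * m) * (θ * M) := by ring
        _ ≤ (1 - lam) * (θ * M) := mul_le_mul_of_nonneg_right hlam2 (by positivity)
        _ ≤ (1 - lam) * a i := mul_le_mul_of_nonneg_left (ha i) hlam0'
    show ((⌊lam * a i⌋₊ : ℕ) : ℝ) + t i ≤ a i
    linarith
  · have h : ∑ i : Fin m, (lam * a i - 1) ≤ ∑ i, (((⌊lam * a i⌋₊ : ℕ) : ℝ) + t i) := by
      apply Finset.sum_le_sum
      intro i _
      have := hbge i
      have h0 : (0 : ℝ) ≤ (t i : ℝ) := Nat.cast_nonneg _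
      linarith
    rw [Finset.sum_sub_distrib, ← Finset.mul_sum, ← hA, hlamA] at h
    simp only [Finset.sum_const, Finset.card_univ, Fintype.card_fin, nsmul_eq_mul, mul_one] at h
    show lo ≤ ∑ i, (((⌊lam * a i⌋₊ : ℕ) : ℝ) + t i)
    linarith
  · have h : ∑ i, (((⌊lam * a i⌋₊ : ℕ) : ℝ) + t i) ≤
        ∑ i : Fin m, (lam * a i + ι * θ / (2 * m) * M) := by
      apply Finset.sum_le_sum
      intro i _
      have := hble i
      have h0 := ht i
      linarith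
    have e : ∑ i : Fin m, (lam * a i + ι * θ / (2 * m) * M)
        = (lo + hi) / 2 + m * (ι * θ / (2 * m) * M) := by
      rw [Finset.sum_add_distrib, ← Finset.mul_sum, ← hA, hlamA]
      simp
    rw [e] at h
    have h' : (m : ℝ) * (ι * θ / (2 * m) * M) ≤ ι * M / 2 := by
      have e : (m : ℝ) * (ι * θ / (2 * m) * M) = ι * θ * M / 2 := by field_simp
      rw [e]
      have : ι * θ * M ≤ ι * 1 * M := by gcongr
      linarith
    show ∑ i, (((⌊lam * a i⌋₊ : ℕ) : ℝ) + t i) ≤ hi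
    linarith

/-- a box of pairs -/
theorem pair_of_box {m M k₁ k₂ T : ℕ} (b q : Fin m → ℕ)
    (h1 : ∀ (t : Fin m → Fin T) (i : Fin m), b i + (t i : ℕ) + q i ≤ M)
    (h2 : ∀ t : Fin m → Fin T, ∑ i, (b i + (t i : ℕ)) ≤ k₁ ∧ k₁ ≤ M + ∑ i, (b i + (t i : ℕ)))
    (h3 : ∀ t : Fin m → Fin T, ∑ i, (M - (b i + (t i : ℕ) + q i)) ≤ k₂ ∧
      k₂ ≤ M + ∑ i, (M - (b i + (t i : ℕ) + q i)))
    (X W : Finset (Fin (m + 1) → Fin (M + 1)))
    (hXW : (Lev.lev (m + 1) M k₁ \ X).card + (Lev.lev (m + 1) M k₂ \ W).card < T ^ m) :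
    ∃ x ∈ Lev.lev (m + 1) M k₁ ∩ X, ∃ w ∈ Lev.lev (m + 1) M k₂ ∩ W,
      ∀ i : Fin m, (x i.succ : ℕ) + (w i.succ : ℕ) + q i = M := by
  classical
  obtain ⟨px, hpx⟩ : ∃ px : (Fin m → Fin T) → (Fin (m + 1) → Fin (M + 1)), ∀ t,
      ((px t 0 : ℕ) = k₁ - ∑ i, (b i + (t i : ℕ))) ∧ ∀ i : Fin m,
        (px t i.succ : ℕ) = b i + (t i : ℕ) := by
    refine ⟨fun t => Fin.cons ⟨k₁ - ∑ i, (b i + (t i : ℕ)), by have := h2 t; omega⟩
      (fun i => ⟨b i + (t i : ℕ), by have := h1 t i; omega⟩), ?_⟩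
    intro t
    exact ⟨rfl, fun i => rfl⟩
  obtain ⟨pw, hpw⟩ : ∃ pw : (Fin m → Fin T) → (Fin (m + 1) → Fin (M + 1)), ∀ t,
      ((pw t 0 : ℕ) = k₂ - ∑ i, (M - (b i + (t i : ℕ) + q i))) ∧ ∀ i : Fin m,
        (pw t i.succ : ℕ) = M - (b i + (t i : ℕ) + q i) := by
    refine ⟨fun t => Fin.cons ⟨k₂ - ∑ i, (M - (b i + (t i : ℕ) + q i)), by
      have := h3 t; omega⟩ (fun i => ⟨M - (b i + (t i : ℕ) + q i), by omega⟩), ?_⟩
    intro t
    exact ⟨rfl, fun i => rfl⟩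
  have hpx1 : ∀ t, px t ∈ Lev.lev (m + 1) M k₁ := by
    intro t
    rw [Lev.mem_lev, Fin.sum_univ_succ, (hpx t).1]
    simp only [(hpx t).2]
    have := h2 t
    omega
  have hpw1 : ∀ t, pw t ∈ Lev.lev (m + 1) M k₂ := by
    intro t
    rw [Lev.mem_lev, Fin.sum_univ_succ, (hpw t).1]
    simp only [(hpw t).2]
    have := h3 t
    omega
  have hrel : ∀ t (i : Fin m), (px t i.succ : ℕ) + (pw t i.succ : ℕ) + q i = M := by
    intro t i
    rw [(hpx t).2, (hpw t).2]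
    have := h1 t i
    omega
  have hpxinj : Function.Injective px := by
    intro t t' h
    funext i
    have e1 := (hpx t).2 i
    have e2 := (hpx t').2 i
    rw [h] at e1
    apply Fin.ext
    omega
  have hpwinj : Function.Injective pw := by
    intro t t' h
    funext i
    have e1 := (hpw t).2 i
    have e2 := (hpw t').2 i
    rw [h] at e1
    have e3 := h1 t i
    have e4 := h1 t' i
    apply Fin.ext
    omega
  by_contra hcon
  push Not at hcon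
  have hall : ∀ t : Fin m → Fin T, px t ∉ X ∨ pw t ∉ W := by
    intro t
    by_contra h
    push Not at h
    obtain ⟨i, hi'⟩ := hcon (px t) (mem_inter.2 ⟨hpx1 t, h.1⟩) (pw t) (mem_inter.2 ⟨hpw1 t, h.2⟩)
    exact hi' (hrel t i)
  have hcard : (univ : Finset (Fin m → Fin T)).card ≤
      (Lev.lev (m + 1) M k₁ \ X).card + (Lev.lev (m + 1) M k₂ \ W).card := by
    have hsub : (univ : Finset (Fin m → Fin T)) ⊆
        univ.filter (fun t => px t ∉ X) ∪ univ.filter (fun t => pw t ∉ W) := by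
      intro t _
      rcases hall t with h | h
      · exact mem_union_left _ (by simp [h])
      · exact mem_union_right _ (by simp [h])
    refine (card_le_card hsub).trans ((card_union_le _ _).trans (add_le_add ?_ ?_))
    · apply card_le_card_of_injOn px
      · intro t ht
        simp only [coe_filter, Set.mem_ofPred_eq, mem_univ, true_and] at ht
        simp only [coe_sdiff, Set.mem_sdiff, mem_coe]
        exact ⟨hpx1 t, ht⟩
      · exact hpxinj.injOn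
    · apply card_le_card_of_injOn pw
      · intro t ht
        simp only [coe_filter, Set.mem_ofPred_eq, mem_univ, true_and] at ht
        simp only [coe_sdiff, Set.mem_sdiff, mem_coe]
        exact ⟨hpw1 t, ht⟩
      · exact hpwinj.injOn
  rw [Finset.card_univ, Fintype.card_fun, Fintype.card_fin, Fintype.card_fin] at hcard
  omega

/-- pairs of points of two levels with prescribed sum off the coordinate `0` -/
theorem pair_exists {m : ℕ} (hm : 1 ≤ m) {ι θ : ℝ} (hι : 0 < ι) (hι1 : ι ≤ 1) (hθ : 0 < θ)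
    (hθ1 : θ ≤ 1) :
    ∃ κ : ℝ, 0 < κ ∧ ∃ M₀ : ℕ, ∀ M : ℕ, M₀ ≤ M → ∀ k₁ k₂ : ℕ, ∀ q : Fin m → ℕ,
    (∀ j, (q j : ℝ) ≤ (1 - θ) * M) → ∀ Q : ℝ, Q = ∑ i : Fin m, (q i : ℝ) →
    ι * M ≤ k₁ → ι * M ≤ (m + 1) * M - Q - k₂ → ι * M ≤ m * M - Q →
    (k₁ : ℝ) - M + ι * M ≤ (m + 1) * M - Q - k₂ → (k₁ : ℝ) - M + ι * M ≤ m * M - Q →
    m * M - Q - k₂ + ι * M ≤ k₁ → ι * M ≤ k₂ →
    ∀ X W : Finset (Fin (m + 1) → Fin (M + 1)),
    ((Lev.lev (m + 1) M k₁ \ X).card : ℝ) + ((Lev.lev (m + 1) M k₂ \ W).card : ℝ)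
      ≤ κ * (M : ℝ) ^ m →
    ∃ x ∈ Lev.lev (m + 1) M k₁ ∩ X, ∃ w ∈ Lev.lev (m + 1) M k₂ ∩ W,
      ∀ i : Fin m, (x i.succ : ℕ) + (w i.succ : ℕ) + q i = M := by
  have hm0 : (0 : ℝ) < m := by exact_mod_cast hm
  obtain ⟨η, hηdef⟩ : ∃ η : ℝ, η = ι * θ / (2 * m) := ⟨_, rfl⟩
  have hη : 0 < η := by rw [hηdef]; positivity
  obtain ⟨N1, hN1⟩ := exists_nat_ge (2 / η)
  obtain ⟨N2, hN2⟩ := exists_nat_ge ((4 : ℝ) * m / ι)
  refine ⟨(η / 2) ^ m / 2, by positivity, N1 + N2 + 1, ?_⟩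
  intro M hM k₁ k₂ q hq Q hQ h1 h2 h3 h4 h5 h6 h7 X W hXW
  have hMr : ((N1 : ℝ) + N2 + 1) ≤ M := by exact_mod_cast hM
  have hN10 : (0 : ℝ) ≤ N1 := Nat.cast_nonneg _
  have hN20 : (0 : ℝ) ≤ N2 := Nat.cast_nonneg _
  have hM1 : (1 : ℝ) ≤ M := by linarith
  have hMη : 2 ≤ η * M := by
    have h : 2 / η ≤ M := by linarith
    rw [div_le_iff₀ hη] at h
    linarith
  have hMι : 4 * m ≤ ι * M := by
    have h : (4 : ℝ) * m / ι ≤ M := by linarith
    rw [div_le_iff₀ hι] at h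
    linarith
  have hιM : ι * M ≤ M := by
    have := mul_le_mul_of_nonneg_right hι1 (by linarith : (0 : ℝ) ≤ M)
    linarith
  have hAsum : ∑ i : Fin m, ((M : ℝ) - q i) = m * M - Q := by
    rw [hQ, Finset.sum_sub_distrib]
    simp
  obtain ⟨b, hb⟩ := box_point (lo := max 0 (max ((k₁ : ℝ) - M) (m * M - Q - k₂)))
    (hi := min (k₁ : ℝ) (min ((m + 1) * M - Q - k₂) (m * M - Q))) hm hι hθ hθ1 hM1
    (fun i => (M : ℝ) - q i) (fun i => by have := hq i; linarith)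
    (fun i => by have : (0 : ℝ) ≤ q i := Nat.cast_nonneg _
                 linarith) (le_max_left _ _)
    (by
      rw [← max_add_add_right, ← max_add_add_right]
      refine max_le ?_ (max_le ?_ ?_)
      · refine le_min ?_ (le_min ?_ ?_) <;> linarith
      · refine le_min ?_ (le_min ?_ ?_) <;> linarith
      · refine le_min ?_ (le_min ?_ ?_) <;> linarith)
    (by rw [hAsum]; exact (min_le_right _ _).trans (min_le_right _ _)) hMι
  obtain ⟨T, hT⟩ : ∃ T : ℕ, T = ⌊η * M⌋₊ := ⟨_, rfl⟩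
  have hTle : (T : ℝ) ≤ η * M := by rw [hT]; exact Nat.floor_le (by positivity)
  have hTge : η / 2 * M ≤ T := by
    have := Nat.lt_floor_add_one (η * M)
    rw [← hT] at this
    linarith
  have ht : ∀ (t : Fin m → Fin T) (i : Fin m), (((t i : ℕ) : ℕ) : ℝ) ≤ ι * θ / (2 * m) * M := by
    intro t i
    have h2 : ((t i : ℕ) : ℝ) ≤ T := by exact_mod_cast (t i).isLt.le
    rw [← hηdef]
    linarith
  have hb' := fun t : Fin m → Fin T => hb (fun i => (t i : ℕ)) (ht t)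
  have g1 : ∀ (t : Fin m → Fin T) (i : Fin m), b i + (t i : ℕ) + q i ≤ M := by
    intro t i
    have := (hb' t).1 i
    have : ((b i + (t i : ℕ) + q i : ℕ) : ℝ) ≤ M := by push_cast; linarith
    exact_mod_cast this
  have hlo1 : ∀ t : Fin m → Fin T, (k₁ : ℝ) - M ≤ ∑ i, ((b i : ℝ) + (t i : ℕ)) := fun t =>
    ((le_max_left _ _).trans (le_max_right _ _)).trans (hb' t).2.1
  have hlo2 : ∀ t : Fin m → Fin T, m * M - Q - k₂ ≤ ∑ i, ((b i : ℝ) + (t i : ℕ)) := fun t =>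
    ((le_max_right _ _).trans (le_max_right _ _)).trans (hb' t).2.1
  have hhi1 : ∀ t : Fin m → Fin T, ∑ i, ((b i : ℝ) + (t i : ℕ)) ≤ k₁ := fun t =>
    (hb' t).2.2.trans (min_le_left _ _)
  have hhi2 : ∀ t : Fin m → Fin T, ∑ i, ((b i : ℝ) + (t i : ℕ)) ≤ (m + 1) * M - Q - k₂ :=
    fun t => (hb' t).2.2.trans ((min_le_right _ _).trans (min_le_left _ _))
  have hAN : ∀ t : Fin m → Fin T, ((∑ i, (M - (b i + (t i : ℕ) + q i)) : ℕ) : ℝ)
      = m * M - Q - ∑ i, ((b i : ℝ) + (t i : ℕ)) := by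
    intro t
    rw [← hAsum, ← Finset.sum_sub_distrib, Nat.cast_sum]
    apply Finset.sum_congr rfl
    intro i _
    rw [Nat.cast_sub (g1 t i)]
    push_cast
    ring
  have g2 : ∀ t : Fin m → Fin T, ∑ i, (b i + (t i : ℕ)) ≤ k₁ ∧
      k₁ ≤ M + ∑ i, (b i + (t i : ℕ)) := by
    intro t
    constructor
    · have : ((∑ i, (b i + (t i : ℕ)) : ℕ) : ℝ) ≤ k₁ := by
        push_cast
        exact hhi1 t
      exact_mod_cast this
    · have : (k₁ : ℝ) ≤ ((M + ∑ i, (b i + (t i : ℕ)) : ℕ) : ℝ) := by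
        push_cast
        have := hlo1 t
        linarith
      exact_mod_cast this
  have g3 : ∀ t : Fin m → Fin T, ∑ i, (M - (b i + (t i : ℕ) + q i)) ≤ k₂ ∧
      k₂ ≤ M + ∑ i, (M - (b i + (t i : ℕ) + q i)) := by
    intro t
    constructor
    · have : ((∑ i, (M - (b i + (t i : ℕ) + q i)) : ℕ) : ℝ) ≤ k₂ := by
        rw [hAN t]
        have := hlo2 t
        linarith
      exact_mod_cast this
    · have : (k₂ : ℝ) ≤ ((M + ∑ i, (M - (b i + (t i : ℕ) + q i)) : ℕ) : ℝ) := by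
        rw [Nat.cast_add, hAN t]
        have := hhi2 t
        linarith
      exact_mod_cast this
  apply pair_of_box b q g1 g2 g3 X W
  have hpow : (η / 2 * M) ^ m ≤ (T : ℝ) ^ m := pow_le_pow_left₀ (by positivity) hTge m
  rw [mul_pow] at hpow
  have hpos : 0 < (η / 2) ^ m * (M : ℝ) ^ m := by positivity
  have : (((Lev.lev (m + 1) M k₁ \ X).card + (Lev.lev (m + 1) M k₂ \ W).card : ℕ) : ℝ)
      < ((T ^ m : ℕ) : ℝ) := by
    push_cast
    linarith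
  exact_mod_cast this

/-- pairs of points of two levels with prescribed sum off the coordinate `0`: a positive proportion,
so that one pair avoids small exceptional sets. Here `p` is thick. -/
theorem cnt_low {m : ℕ} (hm : 2 ≤ m) {c u κ₁ κ₂ : ℝ} (hG : Cube.Good m c u κ₁ κ₂) {θ : ℝ}
    (hθ : 0 < θ) : ∃ κ : ℝ, 0 < κ ∧ ∃ M₀ : ℕ, ∀ M : ℕ, M₀ ≤ M → ∀ k k₃ : ℕ,
    2 * k + k₃ = (m + 1) * M → |(k : ℝ) - c * M| ≤ κ * M → ∀ p : Fin (m + 1) → ℕ,
    (∀ j, (p j : ℝ) ≤ (1 - θ) * M) → |(∑ j, (p j : ℝ)) - k| ≤ κ * M →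
    ∀ X W : Finset (Fin (m + 1) → Fin (M + 1)),
    ((Lev.lev (m + 1) M k \ X).card : ℝ) + ((Lev.lev (m + 1) M k₃ \ W).card : ℝ)
      ≤ κ * (M : ℝ) ^ m →
    ∃ x ∈ Lev.lev (m + 1) M k ∩ X, ∃ w ∈ Lev.lev (m + 1) M k₃ ∩ W,
      ∀ j, j ≠ 0 → (x j : ℕ) + (w j : ℕ) + p j = M := by
  have hsum := hG.sum
  have hc1 := hG.one_lt
  have hu := hG.u_pos
  have hm2 : (2 : ℝ) ≤ m := by exact_mod_cast hm
  obtain ⟨θ', hθ'⟩ : ∃ θ' : ℝ, θ' = min θ 1 := ⟨_, rfl⟩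
  have hθ'0 : 0 < θ' := by rw [hθ']; exact lt_min hθ one_pos
  have hθ'1 : θ' ≤ 1 := by rw [hθ']; exact min_le_right _ _
  have hθ'θ : θ' ≤ θ := by rw [hθ']; exact min_le_left _ _
  obtain ⟨ι, hιd⟩ : ∃ ι : ℝ, ι = min (θ' / 2) (min (u / 4) (1 / 4)) := ⟨_, rfl⟩
  have hι0 : 0 < ι := by rw [hιd]; exact lt_min (by linarith) (lt_min (by linarith) (by norm_num))
  have hι1 : ι ≤ θ' / 2 := by rw [hιd]; exact min_le_left _ _
  have hι2 : ι ≤ u / 4 := by rw [hιd]; exact (min_le_right _ _).trans (min_le_left _ _)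
  have hι3 : ι ≤ 1 / 4 := by rw [hιd]; exact (min_le_right _ _).trans (min_le_right _ _)
  obtain ⟨κ', hκ', M₀, h⟩ := pair_exists (m := m) (by omega) hι0 (by linarith) hθ'0 hθ'1
  refine ⟨min κ' (ι / 8), lt_min hκ' (by linarith), M₀ + 1, ?_⟩
  intro M hM k k₃ hk hkc p hp hps X W hXW
  have hM1 : (1 : ℝ) ≤ M := by exact_mod_cast (by omega : 1 ≤ M)
  have hM0 : (0 : ℝ) ≤ M := by linarith
  have hκ1 : min κ' (ι / 8) * M ≤ ι * M / 8 := by
    have := mul_le_mul_of_nonneg_right (min_le_right κ' (ι / 8)) hM0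
    linarith
  have a1 : ι * M ≤ θ' * M / 2 := by
    have := mul_le_mul_of_nonneg_right hι1 hM0
    linarith
  have a2 : ι * M ≤ u * M / 4 := by
    have := mul_le_mul_of_nonneg_right hι2 hM0
    linarith
  have a3 : ι * M ≤ M / 4 := by
    have := mul_le_mul_of_nonneg_right hι3 hM0
    linarith
  have a4 : 2 * (c * M) + u * M = (m + 1) * M := by rw [← hsum]; ring
  have a5 : (M : ℝ) ≤ c * M := by
    have := mul_le_mul_of_nonneg_right hc1.le hM0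
    linarith
  have a6 : 2 * (M : ℝ) ≤ m * M := mul_le_mul_of_nonneg_right hm2 hM0
  have a7 : ((m : ℝ) + 1) * M = m * M + M := by ring
  have a8 : 0 ≤ ι * M := by positivity
  have hkr : 2 * (k : ℝ) + k₃ = m * M + M := by
    have : ((2 * k + k₃ : ℕ) : ℝ) = (((m + 1) * M : ℕ) : ℝ) := by rw [hk]
    push_cast at this
    linarith
  obtain ⟨b1, b2⟩ := abs_le.1 hkc
  obtain ⟨b3, b4⟩ := abs_le.1 hps
  rw [Fin.sum_univ_succ] at b3 b4
  have hp0 : (p 0 : ℝ) ≤ M - θ' * M := by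
    have h1 := hp 0
    have h2 : (1 - θ) * M ≤ (1 - θ') * M := mul_le_mul_of_nonneg_right (by linarith) hM0
    linarith
  have hp00 : (0 : ℝ) ≤ p 0 := Nat.cast_nonneg _
  obtain ⟨Q, hQ⟩ : ∃ Q : ℝ, Q = ∑ i : Fin m, (p i.succ : ℝ) := ⟨_, rfl⟩
  rw [← hQ] at b3 b4
  obtain ⟨x, hx, w, hw, hxw⟩ := h M (by omega) k k₃ (fun i => p i.succ)
    (fun j => by
      have h1 := hp j.succ
      have h2 : (1 - θ) * M ≤ (1 - θ') * M := mul_le_mul_of_nonneg_right (by linarith) hM0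
      linarith) Q hQ (by linarith) (by linarith) (by linarith) (by linarith) (by linarith)
    (by linarith) (by linarith) X W (by
      refine hXW.trans ?_
      exact mul_le_mul_of_nonneg_right (min_le_left _ _) (by positivity))
  refine ⟨x, hx, w, hw, ?_⟩
  intro j hj
  obtain ⟨i, rfl⟩ := Fin.exists_succ_eq.2 hj
  exact hxw i

/-- the same for the pairs of points of the level `k` -/
theorem cnt_high {m : ℕ} (hm : 2 ≤ m) {c u κ₁ κ₂ : ℝ} (hG : Cube.Good m c u κ₁ κ₂) {θ : ℝ}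
    (hθ : 0 < θ) : ∃ κ : ℝ, 0 < κ ∧ ∃ M₀ : ℕ, ∀ M : ℕ, M₀ ≤ M → ∀ k k₃ : ℕ,
    2 * k + k₃ = (m + 1) * M → |(k : ℝ) - c * M| ≤ κ * M → ∀ z : Fin (m + 1) → ℕ,
    (∀ j, (z j : ℝ) ≤ (1 - θ) * M) → |(∑ j, (z j : ℝ)) - k₃| ≤ κ * M →
    ∀ X : Finset (Fin (m + 1) → Fin (M + 1)),
    2 * ((Lev.lev (m + 1) M k \ X).card : ℝ) ≤ κ * (M : ℝ) ^ m →
    ∃ x ∈ Lev.lev (m + 1) M k ∩ X, ∃ y ∈ Lev.lev (m + 1) M k ∩ X,
      ∀ j, j ≠ 0 → (x j : ℕ) + (y j : ℕ) + z j = M := by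
  have hsum := hG.sum
  have hc1 := hG.one_lt
  have hu := hG.u_pos
  have hm2 : (2 : ℝ) ≤ m := by exact_mod_cast hm
  obtain ⟨θ', hθ'⟩ : ∃ θ' : ℝ, θ' = min θ 1 := ⟨_, rfl⟩
  have hθ'0 : 0 < θ' := by rw [hθ']; exact lt_min hθ one_pos
  have hθ'1 : θ' ≤ 1 := by rw [hθ']; exact min_le_right _ _
  have hθ'θ : θ' ≤ θ := by rw [hθ']; exact min_le_left _ _
  obtain ⟨ι, hιd⟩ : ∃ ι : ℝ, ι = min (θ' / 2) (min (u / 4) (1 / 4)) := ⟨_, rfl⟩
  have hι0 : 0 < ι := by rw [hιd]; exact lt_min (by linarith) (lt_min (by linarith) (by norm_num))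
  have hι1 : ι ≤ θ' / 2 := by rw [hιd]; exact min_le_left _ _
  have hι2 : ι ≤ u / 4 := by rw [hιd]; exact (min_le_right _ _).trans (min_le_left _ _)
  have hι3 : ι ≤ 1 / 4 := by rw [hιd]; exact (min_le_right _ _).trans (min_le_right _ _)
  obtain ⟨κ', hκ', M₀, h⟩ := pair_exists (m := m) (by omega) hι0 (by linarith) hθ'0 hθ'1
  refine ⟨min κ' (ι / 8), lt_min hκ' (by linarith), M₀ + 1, ?_⟩
  intro M hM k k₃ hk hkc z hz hzs X hXW
  have hM1 : (1 : ℝ) ≤ M := by exact_mod_cast (by omega : 1 ≤ M)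
  have hM0 : (0 : ℝ) ≤ M := by linarith
  have hκ1 : min κ' (ι / 8) * M ≤ ι * M / 8 := by
    have := mul_le_mul_of_nonneg_right (min_le_right κ' (ι / 8)) hM0
    linarith
  have a1 : ι * M ≤ θ' * M / 2 := by
    have := mul_le_mul_of_nonneg_right hι1 hM0
    linarith
  have a2 : ι * M ≤ u * M / 4 := by
    have := mul_le_mul_of_nonneg_right hι2 hM0
    linarith
  have a3 : ι * M ≤ M / 4 := by
    have := mul_le_mul_of_nonneg_right hι3 hM0
    linarith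
  have a4 : 2 * (c * M) + u * M = (m + 1) * M := by rw [← hsum]; ring
  have a5 : (M : ℝ) ≤ c * M := by
    have := mul_le_mul_of_nonneg_right hc1.le hM0
    linarith
  have a6 : 2 * (M : ℝ) ≤ m * M := mul_le_mul_of_nonneg_right hm2 hM0
  have a7 : ((m : ℝ) + 1) * M = m * M + M := by ring
  have a8 : 0 ≤ ι * M := by positivity
  have hkr : 2 * (k : ℝ) + k₃ = m * M + M := by
    have : ((2 * k + k₃ : ℕ) : ℝ) = (((m + 1) * M : ℕ) : ℝ) := by rw [hk]
    push_cast at this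
    linarith
  obtain ⟨b1, b2⟩ := abs_le.1 hkc
  obtain ⟨b3, b4⟩ := abs_le.1 hzs
  rw [Fin.sum_univ_succ] at b3 b4
  have hp0 : (z 0 : ℝ) ≤ M - θ' * M := by
    have h1 := hz 0
    have h2 : (1 - θ) * M ≤ (1 - θ') * M := mul_le_mul_of_nonneg_right (by linarith) hM0
    linarith
  have hp00 : (0 : ℝ) ≤ z 0 := Nat.cast_nonneg _
  obtain ⟨Q, hQ⟩ : ∃ Q : ℝ, Q = ∑ i : Fin m, (z i.succ : ℝ) := ⟨_, rfl⟩
  rw [← hQ] at b3 b4
  obtain ⟨x, hx, w, hw, hxw⟩ := h M (by omega) k k (fun i => z i.succ)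
    (fun j => by
      have h1 := hz j.succ
      have h2 : (1 - θ) * M ≤ (1 - θ') * M := mul_le_mul_of_nonneg_right (by linarith) hM0
      linarith) Q hQ (by linarith) (by linarith) (by linarith) (by linarith) (by linarith)
    (by linarith) (by linarith) X X (by
      refine le_trans (le_of_eq (by ring)) (hXW.trans ?_)
      exact mul_le_mul_of_nonneg_right (min_le_left _ _) (by positivity))
  refine ⟨x, hx, w, hw, ?_⟩
  intro j hj
  obtain ⟨i, rfl⟩ := Fin.exists_succ_eq.2 hj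
  exact hxw i

end Pool.Agent.Work.MP_0cd883_co.Rig
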