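import Pool.Agent.Work.MP_0cd883_co.Rig.S9
import Pool.Agent.Work.MP_0cd883_co.Rig.S8

/-! From the constancy of the two fibre functions to the thin extra points. -/

namespace Pool.Agent.Work.MP_0cd883_co.Rig

open Finset

/-- the exceptional set of a function nearly constant on a level is small -/
theorem pt_card {m M k : ℕ} {f : (Fin (m + 1) → Fin (M + 1)) → ℤ} {a : ℤ} {δ : ℝ}
    (h : pn (Lev.lev (m + 1) M k) f a ≤ δ) (hδ : 0 ≤ δ) :
    ((Lev.lev (m + 1) M k \ univ.filter (fun x => f x = a)).card : ℝ) ≤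
      δ * ((M : ℝ) + 1) ^ m := by
  classical
  have h1 : Lev.lev (m + 1) M k \ univ.filter (fun x => f x = a) =
      (Lev.lev (m + 1) M k).filter fun x => f x ≠ a := by
    ext x
    simp
  have hup := lev_upper (n := m + 1) (by omega) M k
  rw [Nat.add_sub_cancel] at hup
  rw [h1]
  unfold pn at h
  rcases Nat.eq_zero_or_pos (Lev.lev (m + 1) M k).card with h0 | h0
  · have : ((Lev.lev (m + 1) M k).filter fun x => f x ≠ a).card = 0 :=
      Nat.le_zero.mp (h0 ▸ card_filter_le _ _)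
    rw [this]
    simpa using mul_nonneg hδ (by positivity)
  · have hpos : (0 : ℝ) < (Lev.lev (m + 1) M k).card := by exact_mod_cast h0
    rw [div_le_iff₀ hpos] at h
    exact h.trans (mul_le_mul_of_nonneg_left hup hδ)

theorem pt_pow {m : ℕ} {κ : ℝ} (hκ : 0 < κ) {M : ℕ} (hM : 1 ≤ M) :
    κ / 2 ^ (m + 1) * ((M : ℝ) + 1) ^ m * 2 ≤ κ * (M : ℝ) ^ m := by
  have h1 : (1 : ℝ) ≤ M := by exact_mod_cast hM
  have h2 : ((M : ℝ) + 1) ^ m ≤ (2 * M) ^ m :=
    pow_le_pow_left₀ (by positivity) (by linarith) m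
  have h3 : ((2 : ℝ) * M) ^ m = 2 ^ m * (M : ℝ) ^ m := mul_pow _ _ _
  have h4 : κ / 2 ^ (m + 1) * 2 = κ / 2 ^ m := by
    rw [pow_succ]; field_simp
  calc κ / 2 ^ (m + 1) * ((M : ℝ) + 1) ^ m * 2 = κ / 2 ^ m * ((M : ℝ) + 1) ^ m := by
        rw [← h4]; ring
    _ ≤ κ / 2 ^ m * (2 ^ m * (M : ℝ) ^ m) := by
        rw [← h3]; exact mul_le_mul_of_nonneg_left h2 (by positivity)
    _ = κ * (M : ℝ) ^ m := by field_simp

theorem part_t {m : ℕ} (hm : 2 ≤ m) {c : ℝ} (hc : ∃ u κ₁ κ₂, Cube.Good m c u κ₁ κ₂) {ε : ℝ}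
    (hε : 0 < ε) : ∃ N₀ : ℕ, ∀ N : ℕ, N₀ ≤ N → ∀ A : Finset (Fin (m + 1) → ℕ),
    A ⊆ grid (m + 1) N → SumFree A → (∀ v, (Exact.Astar (m + 1) N v).card ≤ A.card) →
    ∃ u : ℕ, |(u : ℝ) - c * N| ≤ ε * N ∧
      (∀ p ∈ A, ∑ j, p j < u → (∀ j, p j < N) → ∃ j, (N : ℝ) - p j ≤ ε * N) ∧
      (∀ p ∈ A, 2 * u ≤ ∑ j, p j → (∀ j, 2 ≤ p j) → ∃ j, (p j : ℝ) ≤ ε * N) := by
  classical
  obtain ⟨u₀, κ₁, κ₂, hG⟩ := hc
  -- the constants
  obtain ⟨κa, hκa, Ma, hlow⟩ := cnt_low hm hG (θ := ε / 2) (by positivity)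
  obtain ⟨κb, hκb, Mb, hhigh⟩ := cnt_high hm hG (θ := ε / 2) (by positivity)
  set κ := min (min κa κb) 1 with hκdef
  have hκ : 0 < κ := lt_min (lt_min hκa hκb) one_pos
  have hκa' : κ ≤ κa := (min_le_left _ _).trans (min_le_left _ _)
  have hκb' : κ ≤ κb := (min_le_left _ _).trans (min_le_right _ _)
  have hκ1 : κ ≤ 1 := min_le_right _ _
  set η := min (ε / 2) (κ / 4) with hηdef
  have hη : 0 < η := lt_min (by positivity) (by positivity)
  have hη1 : η ≤ ε / 2 := min_le_left _ _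
  have hη2 : η ≤ κ / 4 := min_le_right _ _
  set δ := min (min (ε / 2) (κ / 8)) (κ / 2 ^ (m + 1)) with hδdef
  have hδ : 0 < δ := lt_min (lt_min (by positivity) (by positivity)) (by positivity)
  have hδ1 : δ ≤ ε / 2 := (min_le_left _ _).trans (min_le_left _ _)
  have hδ2 : δ ≤ κ / 8 := (min_le_left _ _).trans (min_le_right _ _)
  have hδ3 : δ ≤ κ / 2 ^ (m + 1) := min_le_right _ _
  obtain ⟨M₁, hnear⟩ := near hm hG hη
  obtain ⟨M₂, hconst⟩ := const hm hG hδ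
  obtain ⟨M₃, hM₃⟩ := exists_nat_ge ((8 * ((m : ℝ) + c + 4)) / ε + (8 * ((m : ℝ) + c + 4)) / κ
    + (c + 4) / u₀ + 1)
  have hsum : 2 * c + u₀ = m + 1 := hG.sum
  have hc1 : 1 < c := hG.one_lt
  have hu0 : 0 < u₀ := hG.u_pos
  refine ⟨Ma + Mb + M₁ + M₂ + M₃ + 3, fun N hN A hA hs hbig => ?_⟩
  obtain ⟨M, rfl⟩ : ∃ M, N = M + 2 := ⟨N - 2, by omega⟩
  have hMa : Ma ≤ M := by omega
  have hMb : Mb ≤ M := by omega
  have hM1 : M₁ ≤ M := by omega
  have hM2 : M₂ ≤ M := by omega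
  have hM3 : M₃ ≤ M := by omega
  have hMpos : 1 ≤ M := by omega
  have hMR : (8 * ((m : ℝ) + c + 4)) / ε + (8 * ((m : ℝ) + c + 4)) / κ + (c + 4) / u₀ + 1 ≤ M :=
    hM₃.trans (by exact_mod_cast hM3)
  have hq1 : 0 ≤ (8 * ((m : ℝ) + c + 4)) / ε := by positivity
  have hq2 : 0 ≤ (8 * ((m : ℝ) + c + 4)) / κ := by positivity
  have hq3 : 0 ≤ (c + 4) / u₀ := by positivity
  have hMε : 8 * ((m : ℝ) + c + 4) ≤ ε * M := by
    have : (8 * ((m : ℝ) + c + 4)) / ε ≤ M := by linarith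
    rw [div_le_iff₀ hε] at this
    linarith
  have hMκ : 8 * ((m : ℝ) + c + 4) ≤ κ * M := by
    have : (8 * ((m : ℝ) + c + 4)) / κ ≤ M := by linarith
    rw [div_le_iff₀ hκ] at this
    linarith
  have hMu : c + 4 ≤ u₀ * M := by
    have : (c + 4) / u₀ ≤ M := by linarith
    rw [div_le_iff₀ hu0] at this
    linarith
  have hM0 : (0 : ℝ) ≤ M := Nat.cast_nonneg M
  have hm0 : (0 : ℝ) ≤ m := Nat.cast_nonneg m
  -- the rounded level
  obtain ⟨k, hk1, hk2⟩ : ∃ k : ℕ, (k : ℝ) ≤ c * M ∧ c * M < k + 1 :=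
    ⟨⌊c * M⌋₊, Nat.floor_le (by positivity), Nat.lt_floor_add_one _⟩
  have hkk : 2 * k ≤ (m + 1) * M := by
    have : (2 * (k : ℝ)) ≤ (m + 1) * M := by
      have h1 : (2 * c + u₀) * (M : ℝ) = (m + 1) * M := by rw [hsum]
      have h2 : 0 ≤ u₀ * M := by positivity
      linarith
    exact_mod_cast this
  obtain ⟨k₃, hk3⟩ : ∃ k₃ : ℕ, 2 * k + k₃ = (m + 1) * M := ⟨(m + 1) * M - 2 * k, by omega⟩
  have hNr : Nr m M k k₃ c A :=
    ⟨hk3, by rw [abs_le]; constructor <;> linarith, hA, hs, hbig _⟩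
  obtain ⟨-, -, hn1, hn2⟩ := hnear M hM1 k k₃ A hNr
  obtain ⟨a, ha, hpa, hpc⟩ := hconst M hM2 k k₃ A hNr
  have hab := abs_le.mp ha
  have hδM : δ * M ≤ κ / 8 * M := mul_le_mul_of_nonneg_right hδ2 hM0
  have hδM' : δ * M ≤ ε / 2 * M := mul_le_mul_of_nonneg_right hδ1 hM0
  have hηM : η * M ≤ κ / 4 * M := mul_le_mul_of_nonneg_right hη2 hM0
  have hηM' : η * M ≤ ε / 2 * M := mul_le_mul_of_nonneg_right hη1 hM0
  have hcM : (M : ℝ) ≤ c * M := le_mul_of_one_le_left hM0 hc1.le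
  have hkM : (M : ℝ) - 1 ≤ k := by linarith
  have hc0 : 0 < c := by linarith
  -- the exceptional sets
  have hkc : |(k : ℝ) - c * M| ≤ κ * M := by
    rw [abs_le]; constructor <;> linarith
  have hX := pt_card hpa hδ.le
  have hW := pt_card hpc hδ.le
  have hpow := pt_pow (m := m) hκ hMpos
  have hpm : (0 : ℝ) ≤ ((M : ℝ) + 1) ^ m := by positivity
  have hδp : δ * ((M : ℝ) + 1) ^ m ≤ κ / 2 ^ (m + 1) * ((M : ℝ) + 1) ^ m :=
    mul_le_mul_of_nonneg_right hδ3 hpm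
  have hMm : (0 : ℝ) ≤ (M : ℝ) ^ m := by positivity
  -- the level
  have hunn : 0 ≤ (k : ℤ) + a + m + 1 := by
    have h8 : κ / 8 * M ≤ (k : ℝ) := by
      have : κ / 8 * M ≤ 1 / 8 * M := mul_le_mul_of_nonneg_right (by linarith) hM0
      have h1M : (2 : ℝ) ≤ M := by
        have : κ * M ≤ 1 * M := mul_le_mul_of_nonneg_right hκ1 hM0
        linarith
      linarith
    have : (0 : ℝ) ≤ (k : ℝ) + a + m + 1 := by linarith
    exact_mod_cast this
  obtain ⟨u, hu⟩ := Int.eq_ofNat_of_zero_le hunn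
  have huR : (u : ℝ) = k + a + m + 1 := by
    have : ((k : ℤ) + a + m + 1 : ℤ) = (u : ℤ) := hu
    have h2 : (((k : ℤ) + a + m + 1 : ℤ) : ℝ) = ((u : ℤ) : ℝ) := by rw [this]
    push_cast at h2
    exact h2.symm
  have hgrid : ∀ p ∈ A, ∀ j, 1 ≤ p j ∧ p j ≤ M + 2 := fun p hp j => by
    have := hA hp
    unfold grid at this
    rw [Fintype.mem_piFinset] at this
    exact mem_Icc.mp (this j)
  have hκaM : κ * M ≤ κa * M := mul_le_mul_of_nonneg_right hκa' hM0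
  have hκbM : κ * M ≤ κb * M := mul_le_mul_of_nonneg_right hκb' hM0
  have hκap : κ * (M : ℝ) ^ m ≤ κa * (M : ℝ) ^ m := mul_le_mul_of_nonneg_right hκa' hMm
  have hκbp : κ * (M : ℝ) ^ m ≤ κb * (M : ℝ) ^ m := mul_le_mul_of_nonneg_right hκb' hMm
  have hεe : (1 - ε / 2) * (M : ℝ) = M - ε * M / 2 := by ring
  have hεη : (1 - η) * (M : ℝ) = M - η * M := by ring
  have hεη' : ε / 2 * (M : ℝ) = ε * M / 2 := by ring
  refine ⟨u, ?_, ?_, ?_⟩
  · rw [huR, abs_le]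
    push_cast
    constructor <;> linarith
  · intro p hp hpu hpN
    by_contra hcon
    push Not at hcon
    have hpt : ∀ j, (p j : ℝ) ≤ (1 - ε / 2) * M := fun j => by
      have := hcon j
      push_cast at this
      rw [hεe]
      linarith
    have hlo : (k : ℝ) - η * M < ∑ j, (p j : ℝ) := hn1 p hp fun j => by
      have := hpt j
      rw [hεη]
      linarith
    have hpsum : ∑ j, (p j : ℝ) + 1 ≤ u := by exact_mod_cast hpu
    have hp1 : ∀ j, 1 ≤ p j ∧ p j ≤ M + 1 := fun j =>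
      ⟨(hgrid p hp j).1, by have := hpN j; omega⟩
    have hcast : ∀ j, (((p j - 1 : ℕ)) : ℝ) = (p j : ℝ) - 1 := fun j => by
      rw [Nat.cast_sub (hp1 j).1, Nat.cast_one]
    have hsum' : ∑ j, (((p j - 1 : ℕ)) : ℝ) = ∑ j, (p j : ℝ) - (m + 1) := by
      rw [sum_congr rfl fun j _ => hcast j, sum_sub_distrib]
      simp
    obtain ⟨x, hx, w, hw, hxw⟩ := hlow M hMa k k₃ hk3 (hkc.trans hκaM) (fun j => p j - 1)
      (fun j => by rw [hcast]; have := hpt j; linarith)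
      (by rw [hsum', abs_le]; constructor <;> linarith)
      (univ.filter fun x => ph1 m M A x = a) (univ.filter fun x => ph3 m M A x = -2 * a)
      (by linarith)
    rw [mem_inter, mem_filter] at hx hw
    have := thr_low hs hk3 hp hp1 hx.1 hw.1 fun j hj => by
      have h1 := hxw j hj
      have h2 := (hp1 j).1
      omega
    rw [hx.2.2, hw.2.2] at this
    have h3 : ((∑ j, p j : ℕ) : ℤ) < (u : ℤ) := by exact_mod_cast hpu
    push_cast at h3
    linarith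
  · intro z hz hzu hz2
    by_contra hcon
    push Not at hcon
    have hz1 : ∀ j, 2 ≤ z j ∧ z j ≤ M + 2 := fun j => ⟨hz2 j, (hgrid z hz j).2⟩
    have hzt : ∀ j, ε * M < (z j : ℝ) := fun j => by
      have := hcon j
      push_cast at this
      linarith
    have hhi : ∑ j, (z j : ℝ) < 2 * k + η * M := hn2 z hz fun j => by
      have := hzt j
      linarith
    have hzsum : 2 * (u : ℝ) ≤ ∑ j, (z j : ℝ) := by exact_mod_cast hzu
    have hcast : ∀ j, (((M + 2 - z j : ℕ)) : ℝ) = (M : ℝ) + 2 - (z j : ℝ) := fun j => by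
      rw [Nat.cast_sub (hz1 j).2]; push_cast; ring
    have hsum' : ∑ j, (((M + 2 - z j : ℕ)) : ℝ) = (m + 1) * (M + 2) - ∑ j, (z j : ℝ) := by
      rw [sum_congr rfl fun j _ => hcast j, sum_sub_distrib]
      simp
      ring
    have hk3R : (k₃ : ℝ) = (m + 1) * M - 2 * k := by
      have : (2 * (k : ℝ)) + k₃ = (m + 1) * M := by exact_mod_cast hk3
      linarith
    obtain ⟨x, hx, y, hy, hxy⟩ := hhigh M hMb k k₃ hk3 (hkc.trans hκbM) (fun j => M + 2 - z j)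
      (fun j => by rw [hcast, hεe]; have := hzt j; linarith)
      (by rw [hsum', hk3R, abs_le]; constructor <;> linarith)
      (univ.filter fun x => ph1 m M A x = a)
      (by linarith)
    rw [mem_inter, mem_filter] at hx hy
    have := thr_high hs hk3 hz hz1 hx.1 hy.1 fun j hj => by
      have h1 := hxy j hj
      have h2 := (hz1 j).2
      omega
    rw [hx.2.2, hy.2.2] at this
    have h3 : (2 * u : ℤ) ≤ ((∑ j, z j : ℕ) : ℤ) := by exact_mod_cast hzu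
    push_cast at h3
    linarith

end Pool.Agent.Work.MP_0cd883_co.Rig
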