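import Pool.Agent.Work.MP_0cd883_co.Cube.ModT2
import Pool.Agent.Work.MP_0cd883_co.Exact.Defs

/-!
The number of points of level at most `s` in `[n]^d`, and the extended slab (helper25).
-/

namespace Pool.Agent.Work.MP_0cd883_co.Rig

open Finset

theorem Astar_eq_star (d N v : ℕ) : Exact.Astar d N v = Cube.star d N v := by
  classical
  unfold Exact.Astar Cube.star
  refine filter_congr (fun x _ => ?_)
  constructor
  · rintro ⟨h1, h2⟩
    refine ⟨h1, ?_⟩
    rcases h2 with h2 | h2
    · left; omega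
    · right; exact h2
  · rintro ⟨h1, h2⟩
    refine ⟨h1, ?_⟩
    rcases h2 with h2 | h2
    · left; omega
    · right; exact h2

theorem low_zero {d : ℕ} (hd : 1 ≤ d) (n : ℕ) : Cube.low d n 0 = 0 := by
  unfold Cube.low
  rw [card_eq_zero, filter_eq_empty_iff]
  intro x hx h
  have h1 : 1 ≤ x ⟨0, hd⟩ := by
    have := Fintype.mem_piFinset.1 hx ⟨0, hd⟩
    exact (mem_Icc.1 this).1
  have h2 : x ⟨0, hd⟩ ≤ ∑ i, x i := single_le_sum (fun i _ => Nat.zero_le _) (mem_univ _)
  omega

theorem low_succ {d : ℕ} (hd : 1 ≤ d) (n s : ℕ) :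
    Cube.low (d + 1) n s = ∑ t ∈ Icc 1 n, Cube.low d n (s - t) := by
  classical
  unfold Cube.low
  rw [card_eq_sum_card_fiberwise (f := fun x : Fin (d + 1) → ℕ => x 0) (t := Icc 1 n)]
  · refine sum_congr rfl (fun t ht => ?_)
    by_cases hts : t ≤ s
    · refine card_bij' (fun x _ => Fin.tail x) (fun y _ => Fin.cons t y) ?_ ?_ ?_ ?_
      · intro x hx
        rw [mem_filter, mem_filter] at hx
        obtain ⟨⟨hx1, hx2⟩, hx3⟩ := hx
        rw [mem_filter]
        have hx1' := Fintype.mem_piFinset.1 hx1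
        refine ⟨Fintype.mem_piFinset.2 (fun i => hx1' i.succ), ?_⟩
        rw [Fin.sum_univ_succ] at hx2
        have h5 : ∑ i, Fin.tail x i = ∑ i : Fin d, x i.succ := rfl
        rw [h5]
        omega
      · intro y hy
        rw [mem_filter] at hy
        obtain ⟨hy1, hy2⟩ := hy
        have hy1' := Fintype.mem_piFinset.1 hy1
        rw [mem_filter, mem_filter]
        refine ⟨⟨Fintype.mem_piFinset.2 (fun i => ?_), ?_⟩, ?_⟩
        · refine Fin.cases ?_ (fun j => ?_) i
          · rw [Fin.cons_zero]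
            exact ht
          · rw [Fin.cons_succ]
            exact hy1' j
        · rw [Fin.sum_univ_succ, Fin.cons_zero]
          simp only [Fin.cons_succ]
          omega
        · exact Fin.cons_zero _ _
      · intro x hx
        rw [mem_filter] at hx
        have hx3 := hx.2
        rw [← hx3]
        exact Fin.cons_self_tail x
      · intro y hy
        exact Fin.tail_cons _ _
    · have h1 : s - t = 0 := by omega
      rw [h1]
      have h2 := low_zero hd n
      unfold Cube.low at h2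
      rw [h2, card_eq_zero, filter_eq_empty_iff]
      intro x hx h3
      rw [mem_filter] at hx
      have h4 : x 0 ≤ ∑ i, x i := single_le_sum (fun i _ => Nat.zero_le _) (mem_univ _)
      omega
  · intro x hx
    rw [mem_coe, mem_filter] at hx
    exact mem_coe.2 (Fintype.mem_piFinset.1 hx.1 0)

theorem hockey {d : ℕ} (hd : 1 ≤ d) (a n : ℕ) :
    ∑ t ∈ Icc 1 n, ((a - t).choose d : ℤ) = (a.choose (d + 1) : ℤ) - ((a - n).choose (d + 1) : ℤ) := by
  induction n with
  | zero => simp
  | succ n ih =>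
    rw [sum_Icc_succ_top (by omega), ih]
    by_cases h : n + 1 ≤ a
    · obtain ⟨b, hb⟩ : ∃ b, a - n = b + 1 := ⟨a - n - 1, by omega⟩
      have h2 : a - (n + 1) = b := by omega
      rw [hb, h2, Nat.choose_succ_succ]
      push_cast
      ring
    · have h2 : a - (n + 1) = 0 := by omega
      have h3 : a - n = 0 := by omega
      rw [h2, h3, Nat.choose_eq_zero_of_lt (by omega : 0 < d)]
      simp

theorem low_one (n s : ℕ) : Cube.low 1 n s = min n s := by
  classical
  unfold Cube.low
  have h1 : ((grid 1 n).filter fun x => ∑ i, x i ≤ s).card = (Icc 1 (min n s)).card := by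
    refine card_bij' (fun x _ => x 0) (fun t _ _ => t) ?_ ?_ ?_ ?_
    · intro x hx
      rw [mem_filter] at hx
      have h2 := mem_Icc.1 (Fintype.mem_piFinset.1 hx.1 0)
      have h3 := hx.2
      rw [Fin.sum_univ_one] at h3
      rw [mem_Icc]
      omega
    · intro t ht
      rw [mem_Icc] at ht
      rw [mem_filter]
      refine ⟨Fintype.mem_piFinset.2 (fun i => mem_Icc.2 ⟨ht.1, by omega⟩), ?_⟩
      rw [Fin.sum_univ_one]
      omega
    · intro x hx
      funext i
      rw [Subsingleton.elim i 0]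
    · intro t ht
      rfl
  rw [h1, Nat.card_Icc]
  omega

theorem low_formula {d : ℕ} (hd : 1 ≤ d) (n s : ℕ) :
    (Cube.low d n s : ℤ) =
      ∑ j ∈ range (d + 1), (-1 : ℤ) ^ j * (d.choose j : ℤ) * ((s - j * n).choose d : ℤ) := by
  induction d, hd using Nat.le_induction generalizing s with
  | base =>
    rw [low_one, sum_range_succ, sum_range_one]
    simp only [pow_zero, Nat.choose_zero_right, Nat.choose_one_right, Nat.choose_self, pow_one,
      zero_mul, one_mul, Nat.sub_zero, Nat.cast_one]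
    omega
  | succ d hd ih =>
    rw [low_succ hd]
    push_cast
    have h1 : ∀ t ∈ Icc 1 n, (Cube.low d n (s - t) : ℤ) =
        ∑ j ∈ range (d + 1), (-1 : ℤ) ^ j * (d.choose j : ℤ) * (((s - j * n) - t).choose d : ℤ) := by
      intro t _
      rw [ih]
      refine sum_congr rfl (fun j _ => ?_)
      rw [Nat.sub_right_comm]
    rw [sum_congr rfl h1, sum_comm]
    have h2 : ∀ j ∈ range (d + 1), ∑ t ∈ Icc 1 n,
        (-1 : ℤ) ^ j * (d.choose j : ℤ) * (((s - j * n) - t).choose d : ℤ) =
        (-1 : ℤ) ^ j * (d.choose j : ℤ) * ((s - j * n).choose (d + 1) : ℤ) +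
        (-1 : ℤ) ^ (j + 1) * (d.choose j : ℤ) * ((s - (j + 1) * n).choose (d + 1) : ℤ) := by
      intro j _
      rw [← mul_sum, hockey hd]
      have h3 : s - j * n - n = s - (j + 1) * n := by
        rw [Nat.sub_sub]
        congr 1
        ring
      rw [h3]
      ring
    rw [sum_congr rfl h2, sum_add_distrib, sum_range_succ' _ (d + 1)]
    have h4 : ∀ j ∈ range (d + 1),
        (-1 : ℤ) ^ (j + 1) * ((d + 1).choose (j + 1) : ℤ) * ((s - (j + 1) * n).choose (d + 1) : ℤ) =
        (-1 : ℤ) ^ (j + 1) * (d.choose j : ℤ) * ((s - (j + 1) * n).choose (d + 1) : ℤ) +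
        (-1 : ℤ) ^ (j + 1) * (d.choose (j + 1) : ℤ) * ((s - (j + 1) * n).choose (d + 1) : ℤ) := by
      intro j _
      rw [Nat.choose_succ_succ]
      push_cast
      ring
    rw [sum_congr rfl h4, sum_add_distrib]
    have h5 : ∑ j ∈ range (d + 1), (-1 : ℤ) ^ j * (d.choose j : ℤ) *
        ((s - j * n).choose (d + 1) : ℤ) =
        ∑ j ∈ range (d + 1), (-1 : ℤ) ^ (j + 1) * (d.choose (j + 1) : ℤ) *
        ((s - (j + 1) * n).choose (d + 1) : ℤ) + (s.choose (d + 1) : ℤ) := by
      rw [sum_range_succ' _ d, sum_range_succ _ d]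
      rw [Nat.choose_eq_zero_of_lt (Nat.lt_succ_self d)]
      simp
    rw [h5]
    simp only [pow_zero, Nat.choose_zero_right, zero_mul, one_mul, Nat.sub_zero, Nat.cast_one]
    ring

/-- closed form of the size of the extended slab -/
theorem star_formula {d N : ℕ} (hd : 1 ≤ d) (hN : 1 ≤ N) (v : ℕ) :
    ((Cube.star d N v).card : ℤ) = (N : ℤ) ^ d -
      ∑ j ∈ range (d + 1), (-1 : ℤ) ^ j * (d.choose j : ℤ) *
        (((v - 1 - j * (N - 1)).choose d : ℤ) +
          ((d * (N + 1) - 2 * v - j * (N - 1)).choose d : ℤ)) := by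
  have h1 := Cube.star_card hd hN v
  have h2 : ((Cube.star d N v).card : ℤ) + (Cube.low d (N - 1) (v - 1) : ℤ) +
      (Cube.low d (N - 1) (d * (N + 1) - 2 * v) : ℤ) = (N : ℤ) ^ d := by exact_mod_cast h1
  rw [low_formula hd, low_formula hd] at h2
  have h3 : ∑ j ∈ range (d + 1), (-1 : ℤ) ^ j * (d.choose j : ℤ) *
        (((v - 1 - j * (N - 1)).choose d : ℤ) +
          ((d * (N + 1) - 2 * v - j * (N - 1)).choose d : ℤ)) =
      ∑ j ∈ range (d + 1), (-1 : ℤ) ^ j * (d.choose j : ℤ) *
        ((v - 1 - j * (N - 1)).choose d : ℤ) +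
      ∑ j ∈ range (d + 1), (-1 : ℤ) ^ j * (d.choose j : ℤ) *
        ((d * (N + 1) - 2 * v - j * (N - 1)).choose d : ℤ) := by
    rw [← sum_add_distrib]
    exact sum_congr rfl (fun j _ => by ring)
  rw [h3]
  linarith

end Pool.Agent.Work.MP_0cd883_co.Rig
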