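import Pool.Agent.Work.MP_0cd883_co.Lev.Lev2

/-!
Rigidity of near-tight integer functions on three levels of the discrete cube: definitions.
-/

namespace Pool.Agent.Work.MP_0cd883_co.Rig

open Finset

/-- average of a function on a finite set -/
noncomputable def av {ι : Type*} (S : Finset ι) (f : ι → ℝ) : ℝ := (∑ x ∈ S, f x) / (S.card : ℝ)

/-- proportion of the points of `S` at which `f` is not `a` -/
noncomputable def pn {ι : Type*} (S : Finset ι) (f : ι → ℤ) (a : ℤ) : ℝ :=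
  ((S.filter fun x => f x ≠ a).card : ℝ) / (S.card : ℝ)

/-- least proportion of the points of `S` at which `f` is not equal to a constant -/
noncomputable def dev {ι : Type*} (S : Finset ι) (f : ι → ℤ) : ℝ := ⨅ a : ℤ, pn S f a

/-- three integer functions whose sum is nonnegative on all triples of points of the levels
`k 0, k 1, k 2` with constant sum `M` -/
def Ad (n M : ℕ) (k : Fin 3 → ℕ) (φ : Fin 3 → (Fin n → Fin (M + 1)) → ℤ) : Prop :=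
  ∀ x : Fin 3 → Fin n → Fin (M + 1), (∀ i, x i ∈ Lev.lev n M (k i)) →
    (∀ j, ∑ i, (x i j : ℕ) = M) → 0 ≤ ∑ i, φ i (x i)

/-- rigidity in dimension `n`: if the sum of the averages is small then each function is nearly
constant -/
def RigD (n : ℕ) : Prop :=
  ∀ ρ δ : ℝ, 0 < ρ → 0 < δ → ∃ c C : ℝ, 0 < c ∧ 0 ≤ C ∧ ∃ M₀ : ℕ, ∀ M : ℕ, M₀ ≤ M →
    ∀ k : Fin 3 → ℕ, ∑ i, k i = n * M → (∀ i, ρ * M ≤ k i ∧ (k i : ℝ) ≤ (n - ρ) * M) →
    ∀ φ : Fin 3 → (Fin n → Fin (M + 1)) → ℤ, Ad n M k φ →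
    ∀ K : ℝ, 0 ≤ K → (∀ i, ∀ x ∈ Lev.lev n M (k i), -K ≤ φ i x) →
    c * ∑ i, (dev (Lev.lev n M (k i)) (φ i) - δ) ≤
      ∑ i, av (Lev.lev n M (k i)) (fun x => (φ i x : ℝ))
      + C / M * (∑ i, av (Lev.lev n M (k i)) (fun x => |(φ i x : ℝ)|) + K)

/-- the constants have sum `0` -/
def RigS (n : ℕ) : Prop :=
  ∀ ρ δ : ℝ, 0 < ρ → 0 < δ → ∃ c C D : ℝ, 0 < c ∧ 0 ≤ C ∧ 0 ≤ D ∧ ∃ M₀ : ℕ, ∀ M : ℕ, M₀ ≤ M →
    ∀ k : Fin 3 → ℕ, ∑ i, k i = n * M → (∀ i, ρ * M ≤ k i ∧ (k i : ℝ) ≤ (n - ρ) * M) →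
    ∀ φ : Fin 3 → (Fin n → Fin (M + 1)) → ℤ, Ad n M k φ →
    ∀ K : ℝ, 0 ≤ K → (∀ i, ∀ x ∈ Lev.lev n M (k i), -K ≤ φ i x) →
    ∀ a : Fin 3 → ℤ, ∑ i, a i ≠ 0 →
    c * (1 - δ - D * ∑ i, pn (Lev.lev n M (k i)) (φ i) (a i)) ≤
      ∑ i, av (Lev.lev n M (k i)) (fun x => (φ i x : ℝ))
      + C / M * (∑ i, av (Lev.lev n M (k i)) (fun x => |(φ i x : ℝ)|) + K)

theorem pn_nonneg {ι : Type*} (S : Finset ι) (f : ι → ℤ) (a : ℤ) : 0 ≤ pn S f a := by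
  unfold pn; positivity

theorem pn_le_one {ι : Type*} (S : Finset ι) (f : ι → ℤ) (a : ℤ) : pn S f a ≤ 1 := by
  unfold pn
  exact div_le_one_of_le₀ (by exact_mod_cast card_filter_le _ _) (Nat.cast_nonneg _)

theorem bdd_pn {ι : Type*} (S : Finset ι) (f : ι → ℤ) : BddBelow (Set.range (pn S f)) :=
  ⟨0, by rintro _ ⟨a, rfl⟩; exact pn_nonneg S f a⟩

theorem dev_le {ι : Type*} (S : Finset ι) (f : ι → ℤ) (a : ℤ) : dev S f ≤ pn S f a :=
  ciInf_le (bdd_pn S f) a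

theorem dev_nonneg {ι : Type*} (S : Finset ι) (f : ι → ℤ) : 0 ≤ dev S f :=
  le_ciInf (pn_nonneg S f)

theorem dev_le_one {ι : Type*} (S : Finset ι) (f : ι → ℤ) : dev S f ≤ 1 :=
  (dev_le S f 0).trans (pn_le_one S f 0)

theorem exists_dev {ι : Type*} (S : Finset ι) (f : ι → ℤ) : ∃ a, pn S f a = dev S f := by
  classical
  -- the proportion takes finitely many values
  have hfin : (Set.range (pn S f)).Finite := by
    refine Set.Finite.subset (s := (fun n : ℕ => (n : ℝ) / (S.card : ℝ)) '' (Set.Iic S.card))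
      ((Set.finite_Iic _).image _) ?_
    rintro _ ⟨a, rfl⟩
    exact ⟨_, card_filter_le _ _, rfl⟩
  have hne : (Set.range (pn S f)).Nonempty := ⟨_, 0, rfl⟩
  exact hne.csInf_mem hfin

end Pool.Agent.Work.MP_0cd883_co.Rig
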