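import Pool.Agent.Work.MP_0cd883_co.Rig.Lam

/-!
Gluing: a function on a level which is nearly a function of the first coordinate and nearly a
function of the second coordinate is nearly constant.
-/

namespace Pool.Agent.Work.MP_0cd883_co.Rig

open Finset

/-- the sections `x 0 = s` of a level are small -/
theorem fib_upper {m M k : ℕ} (s : ℕ) :
    (((Lev.lev (m + 2) M k).filter fun x => (x 0 : ℕ) = s).card : ℝ) ≤ ((M : ℝ) + 1) ^ m := by
  have h1 : ((Lev.lev (m + 2) M k).filter fun x => (x 0 : ℕ) = s).card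
      ≤ (Lev.lev (m + 1) M (k - s)).card := by
    refine card_le_card_of_injOn (fun x => Fin.tail x) ?_ ?_
    · intro x hx
      simp only [coe_filter, Set.mem_ofPred_eq, Lev.mem_lev] at hx
      simp only [mem_coe, Lev.mem_lev]
      rw [Fin.sum_univ_succ] at hx
      obtain ⟨h1, h2⟩ := hx
      simp only [Fin.tail]
      omega
    · intro x hx y hy hxy
      simp only [coe_filter, Set.mem_ofPred_eq] at hx hy
      have h0 : x 0 = y 0 := Fin.ext (hx.2.trans hy.2.symm)
      have h1 : Fin.tail x = Fin.tail y := hxy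
      rw [← Fin.cons_self_tail x, ← Fin.cons_self_tail y, h0, h1]
  calc _ ≤ ((Lev.lev (m + 1) M (k - s)).card : ℝ) := by exact_mod_cast h1
    _ ≤ _ := by simpa using lev_upper (n := m + 1) (by omega) M (k - s)

/-- the sections `x 0 = s, x 1 = t` of a level contain copies of the levels of dimension two
less -/
theorem fib2_lower {m M k s t : ℕ} (hs : s ≤ M) (ht : t ≤ M) (hk : s + t ≤ k) :
    (Lev.lev m M (k - s - t)).card ≤
      ((Lev.lev (m + 2) M k).filter fun x => (x 0 : ℕ) = s ∧ (x 1 : ℕ) = t).card := by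
  refine card_le_card_of_injOn (fun y => Fin.cons (⟨s, by omega⟩ : Fin (M + 1))
    (Fin.cons (⟨t, by omega⟩ : Fin (M + 1)) y : Fin (m + 1) → Fin (M + 1))) ?_ ?_
  · intro y hy
    simp only [mem_coe, Lev.mem_lev] at hy
    simp only [coe_filter, Set.mem_ofPred_eq, Lev.mem_lev]
    refine ⟨?_, ?_, ?_⟩
    · rw [Fin.sum_univ_succ, Fin.sum_univ_succ]
      simp only [Fin.cons_zero, Fin.cons_succ]
      omega
    · simp
    · rfl
  · intro y _ z _ h
    have h1 := (Fin.cons_injective2 h).2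
    exact (Fin.cons_injective2 h1).2

/-- the points whose first coordinate belongs to a given set -/
theorem fib_set {m M k : ℕ} (B : Finset ℕ) :
    (((Lev.lev (m + 2) M k).filter fun x => (x 0 : ℕ) ∈ B).card : ℝ)
      ≤ B.card * ((M : ℝ) + 1) ^ m := by
  have h1 : ((Lev.lev (m + 2) M k).filter fun x => (x 0 : ℕ) ∈ B).card
      = ∑ s ∈ B, ((Lev.lev (m + 2) M k).filter fun x => (x 0 : ℕ) = s).card := by
    rw [card_eq_sum_card_fiberwise (f := fun x => (x 0 : ℕ)) (t := B)]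
    · refine sum_congr rfl fun s hs => ?_
      congr 1
      ext x
      simp only [mem_filter]
      constructor
      · rintro ⟨⟨h1, _⟩, h3⟩
        exact ⟨h1, h3⟩
      · rintro ⟨h1, h3⟩
        exact ⟨⟨h1, h3 ▸ hs⟩, h3⟩
    · intro x hx
      simp only [coe_filter, Set.mem_ofPred_eq] at hx
      exact hx.2
  rw [h1]
  push_cast
  calc _ ≤ ∑ s ∈ B, ((M : ℝ) + 1) ^ m := sum_le_sum fun s _ => fib_upper s
    _ = _ := by rw [sum_const, nsmul_eq_mul]

theorem glue_count {m M k r : ℕ} (hm : 1 ≤ m) {L : ℝ} (hL0 : 0 ≤ L)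
    (hL : ∀ j : ℕ, r ≤ j → j + r ≤ m * M → L ≤ ((Lev.lev m M j).card : ℝ))
    (f : (Fin (m + 2) → Fin (M + 1)) → ℤ) (α β : ℕ → ℤ) : ∃ a : ℤ,
    (r * L) * (((Lev.lev (m + 2) M k).filter fun x => f x ≠ a).card : ℝ) ≤
      (r * L) * ((((Lev.lev (m + 2) M k).filter fun x => f x ≠ α (x 0)).card : ℝ)
        + 8 * r * ((M : ℝ) + 1) ^ m)
      + 2 * ((M : ℝ) + 1) ^ m * ((((Lev.lev (m + 2) M k).filter fun x => f x ≠ α (x 0)).card : ℝ)
        + (((Lev.lev (m + 2) M k).filter fun x => f x ≠ β (x 1)).card : ℝ)) := by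
  classical
  obtain ⟨A, hA⟩ : ∃ A, A = m * M := ⟨_, rfl⟩
  have hAM : M ≤ A := by
    rw [hA]
    exact Nat.le_mul_of_pos_left M (by omega)
  set X := Lev.lev (m + 2) M k with hX
  set G : Finset ℕ := (range (M + 1)).filter
    (fun s => 2 * r ≤ s ∧ s + 2 * r ≤ M ∧ s + 2 * r ≤ k ∧ k + 2 * r ≤ s + A + M) with hG
  let B : Finset ℕ := range (2 * r) ∪ (Ico (M + 1 - 2 * r) (M + 1) ∪ (Ico (k + 1 - 2 * r) (k + 1)
    ∪ Ico (k - (A + M)) (k + 2 * r - (A + M))))
  have hBcard : B.card ≤ 8 * r := by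
    refine (card_union_le _ _).trans ?_
    have h1 := card_union_le (Ico (M + 1 - 2 * r) (M + 1)) (Ico (k + 1 - 2 * r) (k + 1)
      ∪ Ico (k - (A + M)) (k + 2 * r - (A + M)))
    have h2 := card_union_le (Ico (k + 1 - 2 * r) (k + 1))
      (Ico (k - (A + M)) (k + 2 * r - (A + M)))
    rw [Nat.card_Ico] at h1
    rw [Nat.card_Ico, Nat.card_Ico] at h2
    rw [card_range]
    omega
  -- points with first coordinate outside of `G`
  have hXb : ∀ x ∈ X, (x 0 : ℕ) ∉ G → (x 0 : ℕ) ∈ B := by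
    intro x hx hxG
    rw [hX, Lev.mem_lev, Fin.sum_univ_succ] at hx
    have h1 : ∑ i : Fin (m + 1), ((x i.succ : Fin (M + 1)) : ℕ) ≤ A + M := by
      calc _ ≤ ∑ _i : Fin (m + 1), M := sum_le_sum fun i _ => by
            have := (x i.succ).isLt
            omega
        _ = A + M := by
            rw [sum_const, card_univ, Fintype.card_fin, smul_eq_mul, hA]
            ring
    have h2 := (x 0).isLt
    simp only [hG, mem_filter, mem_range, not_and, not_le] at hxG
    simp only [B, mem_union, mem_range, mem_Ico]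
    by_contra hcon
    push Not at hcon
    obtain ⟨c1, c2, c3, c4⟩ := hcon
    have d2 := hxG h2 c1 (by
      by_contra h
      have := c2 (by omega)
      omega) (by
      by_contra h
      have := c3 (by omega)
      omega)
    have := c4 (by omega)
    omega
  have hXG : ((X.filter fun x => (x 0 : ℕ) ∉ G).card : ℝ) ≤ 8 * r * ((M : ℝ) + 1) ^ m := by
    have h1 : (X.filter fun x => (x 0 : ℕ) ∉ G).card ≤ (X.filter fun x => (x 0 : ℕ) ∈ B).card := by
      refine card_le_card fun x hx => ?_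
      rw [mem_filter] at hx ⊢
      exact ⟨hx.1, hXb x hx.1 hx.2⟩
    calc _ ≤ ((X.filter fun x => (x 0 : ℕ) ∈ B).card : ℝ) := by exact_mod_cast h1
      _ ≤ B.card * ((M : ℝ) + 1) ^ m := fib_set B
      _ ≤ (8 * r : ℝ) * ((M : ℝ) + 1) ^ m := by
          refine mul_le_mul_of_nonneg_right ?_ (by positivity)
          exact_mod_cast hBcard
  set P : ℝ := ((X.filter fun x => f x ≠ α (x 0)).card : ℝ) with hP
  set Q : ℝ := ((X.filter fun x => f x ≠ β (x 1)).card : ℝ) with hQ
  have hP0 : 0 ≤ P := Nat.cast_nonneg _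
  have hQ0 : 0 ≤ Q := Nat.cast_nonneg _
  have hD0 : (0 : ℝ) ≤ ((M : ℝ) + 1) ^ m := by positivity
  rcases G.eq_empty_or_nonempty with hGe | hGne
  · -- no good value
    refine ⟨0, ?_⟩
    have h1 : ((X.filter fun x => f x ≠ 0).card : ℝ) ≤ 8 * r * ((M : ℝ) + 1) ^ m := by
      refine le_trans ?_ hXG
      have : (X.filter fun x => f x ≠ 0).card ≤ (X.filter fun x => (x 0 : ℕ) ∉ G).card := by
        refine card_le_card fun x hx => ?_
        rw [mem_filter] at hx ⊢
        refine ⟨hx.1, ?_⟩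
        rw [hGe]
        exact notMem_empty _
      exact_mod_cast this
    have h2 : (0 : ℝ) ≤ r * L := by positivity
    have h3 := mul_le_mul_of_nonneg_left h1 h2
    have h4 : 0 ≤ (r * L) * P := by positivity
    have h5 : 0 ≤ 2 * ((M : ℝ) + 1) ^ m * (P + Q) := by positivity
    linarith
  -- the common values of the second coordinate
  let T : ℕ → ℕ → Finset ℕ := fun s s' => (range (M + 1)).filter
    (fun t => s + t + r ≤ k ∧ s' + t + r ≤ k ∧ k + r ≤ s + t + A ∧ k + r ≤ s' + t + A)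
  have hT : ∀ s ∈ G, ∀ s' ∈ G, r ≤ (T s s').card := by
    intro s hs s' hs'
    simp only [hG, mem_filter, mem_range] at hs hs'
    have h1 : Icc (k + r - A - min s s') (min M (k - r - max s s')) ⊆ T s s' := by
      intro t ht
      rw [mem_Icc] at ht
      simp only [T, mem_filter, mem_range]
      omega
    refine le_trans ?_ (card_le_card h1)
    rw [Nat.card_Icc]
    omega
  let E : ℕ → ℕ → ℝ := fun s t => ((X.filter fun x => ((x 0 : ℕ) = s ∧ (x 1 : ℕ) = t)
    ∧ (f x ≠ α s ∨ f x ≠ β t)).card : ℝ)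
  have hE0 : ∀ s t, 0 ≤ E s t := fun s t => Nat.cast_nonneg _
  have hEsum : ∑ s ∈ range (M + 1), ∑ t ∈ range (M + 1), E s t ≤ P + Q := by
    have h1 : (X.filter fun x => f x ≠ α (x 0) ∨ f x ≠ β (x 1)).card
        = ∑ p ∈ range (M + 1) ×ˢ range (M + 1),
          (X.filter fun x => ((x 0 : ℕ) = p.1 ∧ (x 1 : ℕ) = p.2)
            ∧ (f x ≠ α p.1 ∨ f x ≠ β p.2)).card := by
      rw [card_eq_sum_card_fiberwise (f := fun x => ((x 0 : ℕ), (x 1 : ℕ)))
        (t := range (M + 1) ×ˢ range (M + 1))]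
      · refine sum_congr rfl fun p _ => ?_
        obtain ⟨s, t⟩ := p
        congr 1
        ext x
        simp only [mem_filter, Prod.mk.injEq]
        constructor
        · rintro ⟨⟨h1, h2⟩, h3, h4⟩
          subst h3
          subst h4
          exact ⟨h1, ⟨rfl, rfl⟩, h2⟩
        · rintro ⟨h1, ⟨h3, h4⟩, h2⟩
          subst h3
          subst h4
          exact ⟨⟨h1, h2⟩, rfl, rfl⟩
      · intro x _
        simp only [coe_product, coe_range, Set.mem_prod, Set.mem_Iio]
        exact ⟨(x 0).isLt, (x 1).isLt⟩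
    have h2 : ∑ s ∈ range (M + 1), ∑ t ∈ range (M + 1), E s t
        = ((X.filter fun x => f x ≠ α (x 0) ∨ f x ≠ β (x 1)).card : ℝ) := by
      rw [h1, sum_product]
      push_cast
      rfl
    rw [h2, filter_or]
    have h3 := card_union_le (X.filter fun x => f x ≠ α (x 0)) (X.filter fun x => f x ≠ β (x 1))
    have h4 := Nat.cast_le (α := ℝ).2 h3
    rw [Nat.cast_add] at h4
    exact h4
  have hEL : ∀ s ∈ G, ∀ s' ∈ G, α s ≠ α s' → ∀ t ∈ T s s', L ≤ E s t + E s' t := by
    intro s hs s' hs' hne t ht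
    simp only [hG, mem_filter, mem_range] at hs hs'
    simp only [T, mem_filter, mem_range] at ht
    have key : ∀ u : ℕ, u ≤ M → u + t + r ≤ k → k + r ≤ u + t + A → α u ≠ β t → L ≤ E u t := by
      intro u hu h1 h2 h3
      have h4 : L ≤ ((Lev.lev m M (k - u - t)).card : ℝ) := hL _ (by omega) (by omega)
      have h5 := fib2_lower (m := m) (M := M) (k := k) (s := u) (t := t) hu (by omega) (by omega)
      refine h4.trans ?_
      have h6 : (X.filter fun x => (x 0 : ℕ) = u ∧ (x 1 : ℕ) = t).card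
          ≤ (X.filter fun x => ((x 0 : ℕ) = u ∧ (x 1 : ℕ) = t)
            ∧ (f x ≠ α u ∨ f x ≠ β t)).card := by
        refine card_le_card fun x hx => ?_
        rw [mem_filter] at hx ⊢
        refine ⟨hx.1, hx.2, ?_⟩
        by_contra hcon
        push Not at hcon
        exact h3 (hcon.1.symm.trans hcon.2)
      exact Nat.cast_le (α := ℝ).2 (h5.trans h6)
    by_cases hc : α s = β t
    · have h1 := key s' (by omega) (by omega) (by omega) (fun h => hne (hc.trans h.symm))
      have h2 := hE0 s t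
      linarith
    · have h1 := key s (by omega) (by omega) (by omega) hc
      have h2 := hE0 s' t
      linarith
  -- the pairs of good values of the first coordinate with different constants
  have hGsub : G ⊆ range (M + 1) := filter_subset _ _
  have hpairs : ∑ s' ∈ G, ((G.filter fun s => α s ≠ α s').card : ℝ) * (r * L)
      ≤ 2 * (G.card : ℝ) * (P + Q) := by
    have h1 : ∀ s' ∈ G, ((G.filter fun s => α s ≠ α s').card : ℝ) * (r * L)
        ≤ ∑ s ∈ G, ∑ t ∈ range (M + 1), (E s t + E s' t) := by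
      intro s' hs'
      calc ((G.filter fun s => α s ≠ α s').card : ℝ) * (r * L)
          = ∑ s ∈ G.filter fun s => α s ≠ α s', (r * L) := by
            rw [sum_const, nsmul_eq_mul]
        _ ≤ ∑ s ∈ G.filter fun s => α s ≠ α s', ∑ t ∈ range (M + 1), (E s t + E s' t) := by
            refine sum_le_sum fun s hs => ?_
            rw [mem_filter] at hs
            calc (r * L : ℝ) ≤ (T s s').card * L := by
                  refine mul_le_mul_of_nonneg_right ?_ hL0
                  exact_mod_cast hT s hs.1 s' hs'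
              _ = ∑ t ∈ T s s', L := by rw [sum_const, nsmul_eq_mul]
              _ ≤ ∑ t ∈ T s s', (E s t + E s' t) :=
                  sum_le_sum fun t ht => hEL s hs.1 s' hs' hs.2 t ht
              _ ≤ _ := sum_le_sum_of_subset_of_nonneg (filter_subset _ _)
                  fun t _ _ => add_nonneg (hE0 _ _) (hE0 _ _)
        _ ≤ _ := sum_le_sum_of_subset_of_nonneg (filter_subset _ _)
            fun s _ _ => sum_nonneg fun t _ => add_nonneg (hE0 _ _) (hE0 _ _)
    have h2 : ∑ s ∈ G, ∑ t ∈ range (M + 1), E s t ≤ P + Q :=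
      (sum_le_sum_of_subset_of_nonneg hGsub fun s _ _ => sum_nonneg fun t _ => hE0 _ _).trans hEsum
    calc _ ≤ ∑ s' ∈ G, ∑ s ∈ G, ∑ t ∈ range (M + 1), (E s t + E s' t) := sum_le_sum h1
      _ = (G.card : ℝ) * ∑ s ∈ G, ∑ t ∈ range (M + 1), E s t
          + (G.card : ℝ) * ∑ s ∈ G, ∑ t ∈ range (M + 1), E s t := by
          simp only [sum_add_distrib, sum_const, nsmul_eq_mul]
          rw [← mul_sum]
      _ ≤ (G.card : ℝ) * (P + Q) + (G.card : ℝ) * (P + Q) := by
          have := mul_le_mul_of_nonneg_left h2 (Nat.cast_nonneg (α := ℝ) G.card)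
          linarith
      _ = _ := by ring
  -- the best value
  obtain ⟨s₀, hs₀, hmin⟩ := exists_min_image G (fun s' => (G.filter fun s => α s ≠ α s').card) hGne
  have hs₀2 : ((G.filter fun s => α s ≠ α s₀).card : ℝ) * (r * L) ≤ 2 * (P + Q) := by
    have h1 : (G.card : ℝ) * (((G.filter fun s => α s ≠ α s₀).card : ℝ) * (r * L))
        ≤ 2 * (G.card : ℝ) * (P + Q) := by
      refine le_trans ?_ hpairs
      rw [← nsmul_eq_mul]
      refine card_nsmul_le_sum _ _ _ fun s' hs' => ?_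
      refine mul_le_mul_of_nonneg_right ?_ (by positivity)
      exact_mod_cast hmin s' hs'
    have h2 : (0 : ℝ) < G.card := by exact_mod_cast hGne.card_pos
    have h3 : (G.card : ℝ) * (((G.filter fun s => α s ≠ α s₀).card : ℝ) * (r * L))
        ≤ (G.card : ℝ) * (2 * (P + Q)) := by linarith
    exact le_of_mul_le_mul_left h3 h2
  refine ⟨α s₀, ?_⟩
  have hcount : ((X.filter fun x => f x ≠ α s₀).card : ℝ) ≤ P + 8 * r * ((M : ℝ) + 1) ^ m
      + ((G.filter fun s => α s ≠ α s₀).card : ℝ) * ((M : ℝ) + 1) ^ m := by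
    have h1 : (X.filter fun x => f x ≠ α s₀) ⊆ ((X.filter fun x => f x ≠ α (x 0))
        ∪ (X.filter fun x => (x 0 : ℕ) ∉ G))
        ∪ (X.filter fun x => (x 0 : ℕ) ∈ G.filter fun s => α s ≠ α s₀) := by
      intro x hx
      simp only [mem_union, mem_filter] at hx ⊢
      by_cases h1 : f x = α (x 0)
      · by_cases h2 : (x 0 : ℕ) ∈ G
        · right
          refine ⟨hx.1, h2, ?_⟩
          rw [← h1]
          exact hx.2
        · left; right
          exact ⟨hx.1, h2⟩
      · left; left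
        exact ⟨hx.1, h1⟩
    have h2 := (card_le_card h1).trans ((card_union_le _ _).trans
      (Nat.add_le_add_right (card_union_le _ _) _))
    have h3 : ((X.filter fun x => f x ≠ α s₀).card : ℝ) ≤ P
        + ((X.filter fun x => (x 0 : ℕ) ∉ G).card : ℝ)
        + ((X.filter fun x => (x 0 : ℕ) ∈ G.filter fun s => α s ≠ α s₀).card : ℝ) := by
      have h5 := Nat.cast_le (α := ℝ).2 h2
      rw [Nat.cast_add, Nat.cast_add] at h5
      exact h5
    have h4 := fib_set (m := m) (M := M) (k := k) (G.filter fun s => α s ≠ α s₀)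
    linarith
  have h2 : (0 : ℝ) ≤ r * L := by positivity
  have h3 := mul_le_mul_of_nonneg_left hcount h2
  have h4 := mul_le_mul_of_nonneg_right hs₀2 hD0
  nlinarith [h3, h4]

theorem glue {m : ℕ} (hm : 1 ≤ m) {ρ δ : ℝ} (hρ : 0 < ρ) (hδ : 0 < δ) : ∃ C : ℝ, 0 ≤ C ∧
    ∃ M₀ : ℕ, ∀ M : ℕ, M₀ ≤ M → ∀ k : ℕ, ρ * M ≤ k → (k : ℝ) ≤ (m + 2 - ρ) * M →
    ∀ (f : (Fin (m + 2) → Fin (M + 1)) → ℤ) (α β : ℕ → ℤ),
    dev (Lev.lev (m + 2) M k) f ≤
      C * ((((Lev.lev (m + 2) M k).filter fun x => f x ≠ α (x 0)).card : ℝ)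
          / ((Lev.lev (m + 2) M k).card : ℝ)
        + (((Lev.lev (m + 2) M k).filter fun x => f x ≠ β (x 1)).card : ℝ)
          / ((Lev.lev (m + 2) M k).card : ℝ)) + δ := by
  obtain ⟨c₀, hc₀, M₁, h₁⟩ := lev_lower (n := m + 2) (by omega) hρ
  obtain ⟨ρ', hρ'⟩ : ∃ ρ' : ℝ, ρ' = δ * c₀ / 2 ^ (m + 4) := ⟨_, rfl⟩
  have hρ'0 : 0 < ρ' := by
    rw [hρ']
    positivity
  obtain ⟨c₁, hc₁, M₂, h₂⟩ := lev_lower (n := m) hm hρ'0
  refine ⟨1 + 2 ^ (m + 1) / (ρ' * c₁), by positivity, max (max M₁ M₂) (⌈1 / ρ'⌉₊ + 1), ?_⟩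
  intro M hM k hk1 hk2 f α β
  have hM1 : M₁ ≤ M := le_trans (le_max_left _ _) (le_trans (le_max_left _ _) hM)
  have hM2 : M₂ ≤ M := le_trans (le_max_right _ _) (le_trans (le_max_left _ _) hM)
  have hM3 : ⌈1 / ρ'⌉₊ + 1 ≤ M := le_trans (le_max_right _ _) hM
  have hMpos : 1 ≤ M := by omega
  have hMr : (1 : ℝ) ≤ M := by exact_mod_cast hMpos
  have hMρ : 1 ≤ ρ' * M := by
    have h1 : (1 / ρ') ≤ M := by
      refine (Nat.le_ceil (1 / ρ')).trans ?_
      exact_mod_cast (by omega : ⌈1 / ρ'⌉₊ ≤ M)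
    rw [div_le_iff₀ hρ'0] at h1
    linarith
  have hN : c₀ * (M : ℝ) ^ (m + 1) ≤ ((Lev.lev (m + 2) M k).card : ℝ) := by
    have := h₁ M hM1 k hk1 (by
      push_cast
      linarith)
    simpa using this
  have hM0 : (0 : ℝ) < M := by linarith
  have hNpos : (0 : ℝ) < ((Lev.lev (m + 2) M k).card : ℝ) := lt_of_lt_of_le (by positivity) hN
  obtain ⟨r, hr⟩ : ∃ r : ℕ, r = ⌈ρ' * M⌉₊ := ⟨_, rfl⟩
  have hr1 : ρ' * M ≤ r := by
    rw [hr]
    exact Nat.le_ceil _
  have hr2 : (r : ℝ) ≤ 2 * (ρ' * M) := by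
    have := Nat.ceil_lt_add_one (show 0 ≤ ρ' * M by positivity)
    rw [hr]
    linarith
  obtain ⟨a, ha⟩ := glue_count (m := m) (M := M) (k := k) (r := r) hm
    (L := c₁ * (M : ℝ) ^ (m - 1)) (by positivity)
    (by
      intro j hj1 hj2
      refine h₂ M hM2 j (hr1.trans (by exact_mod_cast hj1)) ?_
      have h3 : (j : ℝ) + r ≤ m * M := by exact_mod_cast hj2
      linarith) f α β
  refine (dev_le _ f a).trans ?_
  unfold pn
  set N : ℝ := ((Lev.lev (m + 2) M k).card : ℝ) with hNdef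
  set P : ℝ := (((Lev.lev (m + 2) M k).filter fun x => f x ≠ α (x 0)).card : ℝ) with hP
  set Q : ℝ := (((Lev.lev (m + 2) M k).filter fun x => f x ≠ β (x 1)).card : ℝ) with hQ
  set F : ℝ := (((Lev.lev (m + 2) M k).filter fun x => f x ≠ a).card : ℝ) with hF
  have hP0 : 0 ≤ P := Nat.cast_nonneg _
  have hQ0 : 0 ≤ Q := Nat.cast_nonneg _
  set D : ℝ := ((M : ℝ) + 1) ^ m with hD
  have hD0 : 0 < D := by positivity
  have hDle : D ≤ 2 ^ m * (M : ℝ) ^ m := by
    rw [hD, ← mul_pow]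
    exact pow_le_pow_left₀ (by positivity) (by linarith) m
  have hMm : (M : ℝ) ^ m = (M : ℝ) ^ (m - 1) * M := by
    rw [← pow_succ]
    congr 1
    omega
  have hrL : ρ' * c₁ * (M : ℝ) ^ m ≤ r * (c₁ * (M : ℝ) ^ (m - 1)) := by
    rw [hMm]
    have : 0 ≤ c₁ * (M : ℝ) ^ (m - 1) := by positivity
    calc ρ' * c₁ * ((M : ℝ) ^ (m - 1) * M) = (ρ' * M) * (c₁ * (M : ℝ) ^ (m - 1)) := by ring
      _ ≤ _ := mul_le_mul_of_nonneg_right hr1 this
  set R : ℝ := r * (c₁ * (M : ℝ) ^ (m - 1)) with hR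
  have hRpos : 0 < R := lt_of_lt_of_le (by positivity) hrL
  -- divide
  have h5 : F ≤ P + 8 * r * D + 2 * D * (P + Q) / R := by
    have h6 : R * F ≤ R * (P + 8 * r * D + 2 * D * (P + Q) / R) := by
      have : R * (P + 8 * r * D + 2 * D * (P + Q) / R)
          = R * (P + 8 * r * D) + 2 * D * (P + Q) := by
        field_simp
      rw [this]
      exact ha
    exact le_of_mul_le_mul_left h6 hRpos
  have h7 : 2 * D * (P + Q) / R ≤ 2 ^ (m + 1) / (ρ' * c₁) * (P + Q) := by
    rw [div_le_iff₀ hRpos]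
    have h8 : 2 * D ≤ 2 ^ (m + 1) / (ρ' * c₁) * R := by
      calc 2 * D ≤ 2 * (2 ^ m * (M : ℝ) ^ m) := by linarith
        _ = 2 ^ (m + 1) / (ρ' * c₁) * (ρ' * c₁ * (M : ℝ) ^ m) := by
            field_simp
            ring
        _ ≤ _ := mul_le_mul_of_nonneg_left hrL (by positivity)
    calc 2 * D * (P + Q) ≤ 2 ^ (m + 1) / (ρ' * c₁) * R * (P + Q) :=
          mul_le_mul_of_nonneg_right h8 (by positivity)
      _ = _ := by ring
  have h9 : 8 * r * D ≤ δ * N := by
    calc 8 * r * D ≤ 8 * (2 * (ρ' * M)) * (2 ^ m * (M : ℝ) ^ m) := by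
          refine mul_le_mul ?_ hDle hD0.le (by positivity)
          linarith
      _ = δ * (c₀ * (M : ℝ) ^ (m + 1)) := by
          rw [hρ']
          field_simp
          ring
      _ ≤ δ * N := mul_le_mul_of_nonneg_left hN hδ.le
  rw [← add_div, div_le_iff₀ hNpos]
  have h10 : ((1 + 2 ^ (m + 1) / (ρ' * c₁)) * ((P + Q) / N) + δ) * N
      = (1 + 2 ^ (m + 1) / (ρ' * c₁)) * (P + Q) + δ * N := by
    field_simp
  rw [h10]
  linarith

end Pool.Agent.Work.MP_0cd883_co.Rig
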