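import Pool.Agent.Work.MP_0cd883_co.Rig.Defs
import Pool.Agent.Work.MP_0cd883_co.Exact.RigD

/-!
Rigidity on a hexagon of lines: the hexagon is the union of three parallelograms whose weights are
as `b₁ b₃ : b₁ b₂ : b₂ b₃`.
-/

namespace Pool.Agent.Work.MP_0cd883_co.Rig

open Finset

/-- splitting of the average over a line -/
theorem line_w {b b' : ℕ} (φ : ℕ → ℝ) {K : ℝ} (hφ : ∀ x ≤ b + b', -K ≤ φ x) {μ₁ μ₂ μ₃ : ℝ}
    (h3 : 0 ≤ μ₃)
    (ha : μ₁ / (b + 1) + μ₃ / (b + b') ≤ 1 / (b + b' + 1))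
    (hb : μ₂ / b' + μ₃ / (b + b') ≤ 1 / (b + b' + 1))
    (hb' : b' = 0 → μ₂ = 0) (ha' : b + b' = 0 → μ₃ = 0) :
    μ₁ * ((∑ x ∈ range (b + 1), φ x) / (b + 1)) + μ₂ * ((∑ i ∈ range b', φ (b + 1 + i)) / b') +
      μ₃ * ((∑ x ∈ range (b + b'), φ x) / (b + b')) + K * (μ₁ + μ₂ + μ₃) ≤
    (∑ x ∈ range (b + b' + 1), φ x) / (b + b' + 1) + K := by
  set A := ∑ x ∈ range (b + 1), φ x with hA
  set B := ∑ i ∈ range b', φ (b + 1 + i) with hB
  set C := ∑ x ∈ range (b + b'), φ x with hC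
  have hT : ∑ x ∈ range (b + b' + 1), φ x = A + B := by
    rw [show b + b' + 1 = b + 1 + b' by ring, sum_range_add]
  have hC' : C + φ (b + b') = A + B := by
    rw [← hT, sum_range_succ]
  have hA0 : 0 ≤ A + K * (b + 1) := by
    have : ∑ x ∈ range (b + 1), (φ x + K) = A + K * (b + 1) := by
      rw [sum_add_distrib, sum_const, card_range, nsmul_eq_mul]; push_cast; ring
    rw [← this]
    exact sum_nonneg fun x hx => by
      have := hφ x (by rw [mem_range] at hx; omega)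
      linarith
  have hB0 : 0 ≤ B + K * b' := by
    have : ∑ x ∈ range b', (φ (b + 1 + x) + K) = B + K * b' := by
      rw [sum_add_distrib, sum_const, card_range, nsmul_eq_mul]; ring
    rw [← this]
    exact sum_nonneg fun x hx => by
      have := hφ (b + 1 + x) (by rw [mem_range] at hx; omega)
      linarith
  have hCT : C + K * (b + b') ≤ A + B + K * (b + b' + 1) := by
    have := hφ (b + b') le_rfl
    rw [← hC']; linarith
  rw [hT]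
  have e1 : μ₁ * (A / (b + 1)) = μ₁ / (b + 1) * (A + K * (b + 1)) - K * μ₁ := by
    field_simp; ring
  have e2 : μ₂ * (B / b') = μ₂ / b' * (B + K * b') - K * μ₂ := by
    rcases Nat.eq_zero_or_pos b' with h0 | h0
    · rw [hb' h0]; simp
    · have : (b' : ℝ) ≠ 0 := by positivity
      field_simp; ring
  have e3 : μ₃ * (C / (b + b')) = μ₃ / (b + b') * (C + K * (b + b')) - K * μ₃ := by
    rcases Nat.eq_zero_or_pos (b + b') with h0 | h0
    · rw [ha' h0]; simp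
    · have : ((b : ℝ) + b') ≠ 0 := by
        have : (0 : ℝ) < (b + b' : ℕ) := by exact_mod_cast h0
        push_cast at this; exact this.ne'
      field_simp; ring
  have e4 : (A + B) / (b + b' + 1) = 1 / (b + b' + 1) * (A + B + K * (b + b' + 1)) - K := by
    have : ((b : ℝ) + b' + 1) ≠ 0 := by positivity
    field_simp; ring
  have hw : 0 ≤ μ₃ / (b + b') := by positivity
  rw [e1, e2, e3, e4]
  have k1 : μ₃ / (b + b') * (C + K * (b + b')) ≤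
      μ₃ / (b + b') * ((A + K * (b + 1)) + (B + K * b')) :=
    mul_le_mul_of_nonneg_left (by linarith) hw
  have k2 := mul_le_mul_of_nonneg_right ha hA0
  have k3 := mul_le_mul_of_nonneg_right hb hB0
  have k4 : 1 / ((b : ℝ) + b' + 1) * (A + B + K * (b + b' + 1)) =
    1 / ((b : ℝ) + b' + 1) * (A + K * (b + 1)) + 1 / ((b : ℝ) + b' + 1) * (B + K * b') := by ring
  rw [k4]
  nlinarith [k1, k2, k3]

/-- rigidity on a parallelogram, in terms of three functions with nonnegative sum -/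
theorem hex_piece {b b' : ℕ} (hb' : 1 ≤ b') (f g F : ℕ → ℤ) {K : ℝ}
    (h : ∀ x ≤ b, ∀ i < b', 0 ≤ f x + g i + F (b + b' - 1 - (x + i)))
    (hf : ∀ x ≤ b, -K ≤ f x) (hg : ∀ i < b', -K ≤ g i) :
    ∃ a c e : ℤ, a + c + e = 0 ∧
      min ((b : ℝ) + 1) b' / (b + b') / 4 *
        (pn (range (b + 1)) f a + pn (range b') g c + pn (range (b + b')) F e) -
        ((∑ x ∈ range (b + 1), |(f x : ℝ)|) / (b + 1) + (∑ i ∈ range b', |(g i : ℝ)|) / b' + 2 * K)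
          / (b + b') ≤
      (∑ x ∈ range (b + 1), (f x : ℝ)) / (b + 1) + (∑ i ∈ range b', (g i : ℝ)) / b' +
        (∑ y ∈ range (b + b'), (F y : ℝ)) / (b + b') := by
  obtain ⟨q, rfl⟩ : ∃ q, b' = q + 1 := ⟨b' - 1, by omega⟩
  obtain ⟨a, c, hac⟩ := Exact.rd_piece b q (fun s => -F (b + q - s)) f g K
    (fun y hy w hw => by
      have := h y hy w (by omega)
      rw [show b + (q + 1) - 1 - (y + w) = b + q - (y + w) by omega] at this
      show -F (b + q - (y + w)) ≤ _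
      linarith) hf (fun w hw => hg w (by omega))
  refine ⟨a, c, -(a + c), by ring, ?_⟩
  have e1 : (((range (b + q + 1)).filter (fun s => -F (b + q - s) ≠ a + c)).card : ℝ) =
      (((range (b + (q + 1))).filter (fun s => F s ≠ -(a + c))).card : ℝ) := by
    have h1 : ((range (b + q + 1)).filter (fun s => -F (b + q - s) ≠ a + c)).card =
      ∑ s ∈ range (b + q + 1), (fun s => if F s ≠ -(a + c) then 1 else 0) (b + q + 1 - 1 - s) := by
      rw [card_filter]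
      refine sum_congr rfl fun s hs => ?_
      show _ = if F (b + q + 1 - 1 - s) ≠ -(a + c) then 1 else 0
      rw [show b + q + 1 - 1 - s = b + q - s by omega]
      by_cases h2 : F (b + q - s) = -(a + c)
      · rw [if_neg (by rw [h2]; simp), if_neg (by simpa using h2)]
      · rw [if_pos (by intro h3; exact h2 (by linarith)), if_pos h2]
    rw [h1, sum_range_reflect (fun s => if F s ≠ -(a + c) then 1 else 0) (b + q + 1), card_filter]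
    rfl
  have e2 : (∑ s ∈ range (b + q + 1), (((-F (b + q - s) : ℤ)) : ℝ)) =
      -∑ y ∈ range (b + (q + 1)), (F y : ℝ) := by
    have h1 : ∑ s ∈ range (b + q + 1), (((-F (b + q - s) : ℤ)) : ℝ) =
      ∑ s ∈ range (b + q + 1), (fun s => -(F s : ℝ)) (b + q + 1 - 1 - s) := by
      refine sum_congr rfl fun s hs => ?_
      show _ = -(F (b + q + 1 - 1 - s) : ℝ)
      rw [show b + q + 1 - 1 - s = b + q - s by omega]
      push_cast; rfl
    rw [h1, sum_range_reflect (fun s => -(F s : ℝ)) (b + q + 1), sum_neg_distrib]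
    rfl
  unfold pn
  rw [card_range, card_range, card_range]
  simp only [e1, e2] at hac
  push_cast at hac ⊢
  rw [show (b : ℝ) + (q + 1) = b + q + 1 by ring]
  have e3 : ∀ z : ℝ, -z / (b + q + 1) = -(z / (b + q + 1)) := fun z => neg_div _ _
  rw [e3] at hac
  linarith

/-- `line_w` with the weights of the three parallelograms -/
theorem line_w2 {b b' : ℕ} (z : ℕ) (hab : 1 ≤ b + b') (φ : ℕ → ℝ) {K : ℝ}
    (hφ : ∀ x ≤ b + b', -K ≤ φ x) {t m : ℝ} (ht : 0 ≤ t)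
    (htm : t * (z * (b + b') + b * b') = m) (hm : m * (b + b' + 1) ≤ b + b') :
    t * z * b * ((∑ x ∈ range (b + 1), φ x) / (b + 1)) +
      t * z * b' * ((∑ i ∈ range b', φ (b + 1 + i)) / b') +
      t * b * b' * ((∑ x ∈ range (b + b'), φ x) / (b + b')) + K * m ≤
    (∑ x ∈ range (b + b' + 1), φ x) / (b + b' + 1) + K := by
  have hab' : (0 : ℝ) < (b : ℝ) + b' := by
    have : (0 : ℝ) < (b + b' : ℕ) := by exact_mod_cast hab
    push_cast at this; exact this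
  have hm1 : m / (b + b') ≤ 1 / (b + b' + 1) := by
    rw [div_le_div_iff₀ hab' (by linarith)]; linarith
  have key : t * z + t * b * b' / (b + b') = m / (b + b') := by
    rw [← htm]; field_simp
  have h1 : t * z * b / (b + 1) ≤ t * z := by
    rw [div_le_iff₀ (by positivity)]
    have : 0 ≤ t * z := by positivity
    nlinarith
  have h2 : t * z * b' / b' ≤ t * z := by
    rcases Nat.eq_zero_or_pos b' with h0 | h0
    · rw [h0]; simp; positivity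
    · have : (b' : ℝ) ≠ 0 := by positivity
      rw [mul_div_assoc, div_self this, mul_one]
  have := line_w (b := b) (b' := b') φ hφ (μ₁ := t * z * b) (μ₂ := t * z * b')
    (μ₃ := t * b * b') (by positivity) (by linarith) (by linarith)
    (fun h => by rw [h]; simp) (fun h => by omega)
  have e : t * z * b + t * z * b' + t * b * b' = m := by rw [← htm]; ring
  rw [e] at this
  exact this

theorem line_abs {b b' : ℕ} (z : ℕ) (hab : 1 ≤ b + b') (φ : ℕ → ℝ) {t m : ℝ} (ht : 0 ≤ t)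
    (htm : t * (z * (b + b') + b * b') = m) (hm : m * (b + b' + 1) ≤ b + b') :
    t * z * b * ((∑ x ∈ range (b + 1), |φ x|) / (b + 1)) ≤
      (∑ x ∈ range (b + b' + 1), |φ x|) / (b + b' + 1) ∧
    t * z * b' * ((∑ i ∈ range b', |φ (b + 1 + i)|) / b') ≤
      (∑ x ∈ range (b + b' + 1), |φ x|) / (b + b' + 1) := by
  have h := line_w2 z hab (fun x => |φ x|) (K := 0) (fun x _ => by simp) ht htm hm
  have h1 : 0 ≤ t * z * b * ((∑ x ∈ range (b + 1), |φ x|) / (b + 1)) :=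
    mul_nonneg (by positivity) (div_nonneg (sum_nonneg fun _ _ => abs_nonneg _) (by positivity))
  have h2 : 0 ≤ t * z * b' * ((∑ i ∈ range b', |φ (b + 1 + i)|) / b') :=
    mul_nonneg (by positivity) (div_nonneg (sum_nonneg fun _ _ => abs_nonneg _) (by positivity))
  have h3 : 0 ≤ t * b * b' * ((∑ x ∈ range (b + b'), |φ x|) / (b + b')) :=
    mul_nonneg (by positivity) (div_nonneg (sum_nonneg fun _ _ => abs_nonneg _) (by positivity))
  constructor <;> linarith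

/-- weighted form of `piece`, also valid for an empty parallelogram (with weight `0`) -/
theorem hex_piece' {b b' : ℕ} (f g F : ℕ → ℤ) {K μ L : ℝ} (hK : 0 ≤ K) (hL : 0 < L)
    (hLb : L ≤ b + b') (hμ : 0 ≤ μ) (hμ0 : b' = 0 → μ = 0)
    (h : ∀ x ≤ b, ∀ i < b', 0 ≤ f x + g i + F (b + b' - 1 - (x + i)))
    (hf : ∀ x ≤ b, -K ≤ f x) (hg : ∀ i < b', -K ≤ g i) {U V : ℝ}
    (hU : μ * ((∑ x ∈ range (b + 1), |(f x : ℝ)|) / (b + 1)) ≤ U)
    (hV : μ * ((∑ i ∈ range b', |(g i : ℝ)|) / b') ≤ V) (hU0 : 0 ≤ U) (hV0 : 0 ≤ V) :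
    ∃ a c e : ℤ, a + c + e = 0 ∧
      μ * (min ((b : ℝ) + 1) b' / (b + b') / 4 *
        (pn (range (b + 1)) f a + pn (range b') g c + pn (range (b + b')) F e)) ≤
      μ * ((∑ x ∈ range (b + 1), (f x : ℝ)) / (b + 1)) +
        μ * ((∑ i ∈ range b', (g i : ℝ)) / b') +
        μ * ((∑ y ∈ range (b + b'), (F y : ℝ)) / (b + b')) + (U + V + 2 * K * μ) / L := by
  rcases Nat.eq_zero_or_pos b' with h0 | h0
  · refine ⟨0, 0, 0, by ring, ?_⟩
    rw [hμ0 h0]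
    simp only [zero_mul, zero_add, mul_zero, add_zero]
    positivity
  · obtain ⟨a, c, e, hs, hp⟩ := hex_piece h0 f g F h hf hg
    refine ⟨a, c, e, hs, ?_⟩
    have hab' : (0 : ℝ) < (b : ℝ) + b' := by linarith
    have h1 := mul_le_mul_of_nonneg_left hp hμ
    have h2 : μ * (((∑ x ∈ range (b + 1), |(f x : ℝ)|) / (b + 1) +
      (∑ i ∈ range b', |(g i : ℝ)|) / b' + 2 * K) / (b + b')) ≤ (U + V + 2 * K * μ) / L := by
      calc _ = (μ * ((∑ x ∈ range (b + 1), |(f x : ℝ)|) / (b + 1)) +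
          μ * ((∑ i ∈ range b', |(g i : ℝ)|) / b') + 2 * K * μ) / (b + b') := by ring
        _ ≤ (U + V + 2 * K * μ) / (b + b') := div_le_div_of_nonneg_right (by linarith) hab'.le
        _ ≤ (U + V + 2 * K * μ) / L := div_le_div_of_nonneg_left (by positivity) hL hLb
    rw [mul_sub, mul_add, mul_add] at h1
    linarith

/-- the three parallelograms together -/
theorem hex_core {b₁ b₂ b₃ : ℕ} (hb₂ : 1 ≤ b₂) (hb₃ : 1 ≤ b₃) {L K : ℝ} (hL : 0 < L)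
    (hL₁ : L ≤ b₂ + b₃) (hL₂ : L ≤ b₁ + b₃) (hL₃ : L ≤ b₁ + b₂) (hK : 0 ≤ K)
    (φ₁ φ₂ φ₃ : ℕ → ℤ)
    (h : ∀ x ≤ b₂ + b₃, ∀ y ≤ b₁ + b₃, ∀ w ≤ b₁ + b₂, x + y + w = b₁ + b₂ + b₃ →
      0 ≤ φ₁ x + φ₂ y + φ₃ w)
    (h₁ : ∀ x ≤ b₂ + b₃, -K ≤ φ₁ x) (h₂ : ∀ y ≤ b₁ + b₃, -K ≤ φ₂ y)
    (h₃ : ∀ w ≤ b₁ + b₂, -K ≤ φ₃ w) {m t : ℝ} (hm : m = L / (L + 1))
    (ht : t * (b₁ * b₂ + b₁ * b₃ + b₂ * b₃) = m) :
    ∃ a c e e' e'' : ℤ, a + c + e = 0 ∧
      t * b₂ * b₃ * (min ((b₂ : ℝ) + 1) b₃ / (b₂ + b₃) / 4 *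
        (pn (range (b₂ + 1)) φ₃ a + pn (range b₃) (fun i => φ₂ (b₁ + 1 + i)) c +
          pn (range (b₂ + b₃)) φ₁ e)) +
      t * b₁ * b₃ * (min ((b₃ : ℝ) + 1) b₁ / (b₃ + b₁) / 4 * pn (range (b₃ + b₁)) φ₂ e') +
      t * b₁ * b₂ * (min ((b₁ : ℝ) + 1) b₂ / (b₁ + b₂) / 4 * pn (range (b₁ + b₂)) φ₃ e'') ≤
      av (range (b₂ + b₃ + 1)) (fun x => (φ₁ x : ℝ)) + av (range (b₁ + b₃ + 1)) (fun y => (φ₂ y : ℝ))
      + av (range (b₁ + b₂ + 1)) (fun w => (φ₃ w : ℝ))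
      + (2 * (av (range (b₂ + b₃ + 1)) (fun x => |(φ₁ x : ℝ)|)
        + av (range (b₁ + b₃ + 1)) (fun y => |(φ₂ y : ℝ)|)
        + av (range (b₁ + b₂ + 1)) (fun w => |(φ₃ w : ℝ)|)) + 5 * K) / L := by
  have hσ : (0 : ℝ) < b₁ * b₂ + b₁ * b₃ + b₂ * b₃ := by
    have h2 : (0 : ℝ) < b₂ := by exact_mod_cast hb₂
    have h3 : (0 : ℝ) < b₃ := by exact_mod_cast hb₃
    positivity
  have hm0 : 0 < m := by rw [hm]; positivity
  have ht0 : 0 ≤ t := by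
    by_contra hneg
    push Not at hneg
    have := mul_neg_of_neg_of_pos hneg hσ
    linarith
  have hmL : 1 - m ≤ 1 / L := by
    rw [hm, ← sub_nonneg]
    have : 1 / L - (1 - L / (L + 1)) = 1 / (L * (L + 1)) := by field_simp; ring
    rw [this]; positivity
  have hm1 : m ≤ 1 := by rw [hm]; rw [div_le_one (by linarith)]; linarith
  have hma : ∀ z : ℝ, L ≤ z → m * (z + 1) ≤ z := by
    intro z hz
    rw [hm, div_mul_eq_mul_div, div_le_iff₀ (by linarith)]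
    nlinarith
  -- the line inequalities
  have A1 := line_w2 (b := b₃) (b' := b₂) b₁ (by omega) (fun x => (φ₁ x : ℝ)) (K := K)
    (fun x hx => h₁ x (by omega)) ht0 (m := m) (by rw [← ht]; ring)
    (hma _ (by linarith))
  have A2 := line_w2 (b := b₁) (b' := b₃) b₂ (by omega) (fun x => (φ₂ x : ℝ)) (K := K)
    (fun x hx => h₂ x (by omega)) ht0 (m := m) (by rw [← ht]; ring)
    (hma _ (by linarith))
  have A3 := line_w2 (b := b₂) (b' := b₁) b₃ (by omega) (fun x => (φ₃ x : ℝ)) (K := K)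
    (fun x hx => h₃ x (by omega)) ht0 (m := m) (by rw [← ht]; ring)
    (hma _ (by linarith))
  obtain ⟨B1, B1'⟩ := line_abs (b := b₃) (b' := b₂) b₁ (by omega) (fun x => (φ₁ x : ℝ)) ht0 (m := m)
    (by rw [← ht]; ring) (hma _ (by linarith))
  obtain ⟨B2, B2'⟩ := line_abs (b := b₁) (b' := b₃) b₂ (by omega) (fun x => (φ₂ x : ℝ)) ht0 (m := m)
    (by rw [← ht]; ring) (hma _ (by linarith))
  obtain ⟨B3, B3'⟩ := line_abs (b := b₂) (b' := b₁) b₃ (by omega) (fun x => (φ₃ x : ℝ)) ht0 (m := m)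
    (by rw [← ht]; ring) (hma _ (by linarith))
  set S1 := (∑ x ∈ range (b₃ + b₂ + 1), |(φ₁ x : ℝ)|) / (b₃ + b₂ + 1) with hS1
  set S2 := (∑ x ∈ range (b₁ + b₃ + 1), |(φ₂ x : ℝ)|) / (b₁ + b₃ + 1) with hS2
  set S3 := (∑ x ∈ range (b₂ + b₁ + 1), |(φ₃ x : ℝ)|) / (b₂ + b₁ + 1) with hS3
  have hS10 : 0 ≤ S1 := div_nonneg (sum_nonneg fun _ _ => abs_nonneg _) (by positivity)
  have hS20 : 0 ≤ S2 := div_nonneg (sum_nonneg fun _ _ => abs_nonneg _) (by positivity)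
  have hS30 : 0 ≤ S3 := div_nonneg (sum_nonneg fun _ _ => abs_nonneg _) (by positivity)
  -- the three parallelograms
  obtain ⟨a, c, e, hace, P31⟩ := hex_piece' (b := b₂) (b' := b₃) φ₃ (fun i => φ₂ (b₁ + 1 + i)) φ₁
    (K := K) (μ := t * b₂ * b₃) (L := L) hK hL hL₁ (by positivity) (fun h0 => by omega)
    (fun x hx i hi => by
      have := h (b₂ + b₃ - 1 - (x + i)) (by omega) (b₁ + 1 + i) (by omega) x (by omega) (by omega)
      show 0 ≤ φ₃ x + φ₂ (b₁ + 1 + i) + _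
      linarith)
    (fun x hx => h₃ x (by omega)) (fun i hi => h₂ (b₁ + 1 + i) (by omega))
    (U := S3) (V := S2) (by rw [show t * (b₂ : ℝ) * b₃ = t * b₃ * b₂ by ring]; exact B3)
    (by exact B2') hS30 hS20
  obtain ⟨a', c', e', hace', P12⟩ := hex_piece' (b := b₃) (b' := b₁) φ₁ (fun i => φ₃ (b₂ + 1 + i)) φ₂
    (K := K) (μ := t * b₁ * b₃) (L := L) hK hL (by linarith) (by positivity)
    (fun h0 => by rw [h0]; simp)
    (fun x hx i hi => by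
      have := h x (by omega) (b₃ + b₁ - 1 - (x + i)) (by omega) (b₂ + 1 + i) (by omega) (by omega)
      show 0 ≤ φ₁ x + φ₃ (b₂ + 1 + i) + _
      linarith)
    (fun x hx => h₁ x (by omega)) (fun i hi => h₃ (b₂ + 1 + i) (by omega))
    (U := S1) (V := S3) (by exact B1)
    (by rw [show t * (b₁ : ℝ) * b₃ = t * b₃ * b₁ by ring]; exact B3') hS10 hS30
  obtain ⟨a'', c'', e'', hace'', P23⟩ := hex_piece' (b := b₁) (b' := b₂) φ₂ (fun i => φ₁ (b₃ + 1 + i)) φ₃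
    (K := K) (μ := t * b₁ * b₂) (L := L) hK hL hL₃ (by positivity) (fun h0 => by omega)
    (fun x hx i hi => by
      have := h (b₃ + 1 + i) (by omega) x (by omega) (b₁ + b₂ - 1 - (x + i)) (by omega) (by omega)
      show 0 ≤ φ₂ x + φ₁ (b₃ + 1 + i) + _
      linarith)
    (fun x hx => h₂ x (by omega)) (fun i hi => h₁ (b₃ + 1 + i) (by omega))
    (U := S2) (V := S1) (by rw [show t * (b₁ : ℝ) * b₂ = t * b₂ * b₁ by ring]; exact B2)
    (by exact B1') hS20 hS10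
  refine ⟨a, c, e, e', e'', hace, ?_⟩
  have c1 : b₃ + b₂ = b₂ + b₃ := add_comm _ _
  have c1' : (b₃ : ℝ) + b₂ = b₂ + b₃ := add_comm _ _
  have c2 : b₃ + b₁ = b₁ + b₃ := add_comm _ _
  have c2' : (b₃ : ℝ) + b₁ = b₁ + b₃ := add_comm _ _
  have c3 : b₂ + b₁ = b₁ + b₂ := add_comm _ _
  have c3' : (b₂ : ℝ) + b₁ = b₁ + b₂ := add_comm _ _
  rw [c1, c1'] at A1
  rw [c3, c3'] at A3
  rw [c1, c1'] at hS1
  rw [c3, c3'] at hS3
  -- drop the proportions that are not needed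
  have D12 : t * b₁ * b₃ * (min ((b₃ : ℝ) + 1) b₁ / (b₃ + b₁) / 4 * pn (range (b₃ + b₁)) φ₂ e') ≤
      t * b₁ * b₃ * (min ((b₃ : ℝ) + 1) b₁ / (b₃ + b₁) / 4 *
        (pn (range (b₃ + 1)) φ₁ a' + pn (range b₁) (fun i => φ₃ (b₂ + 1 + i)) c' +
          pn (range (b₃ + b₁)) φ₂ e')) := by
    refine mul_le_mul_of_nonneg_left (mul_le_mul_of_nonneg_left ?_ ?_) (by positivity)
    · have := pn_nonneg (range (b₃ + 1)) φ₁ a'
      have := pn_nonneg (range b₁) (fun i => φ₃ (b₂ + 1 + i)) c'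
      linarith
    · have : (0 : ℝ) ≤ min ((b₃ : ℝ) + 1) b₁ := le_min (by positivity) (by positivity)
      positivity
  have D23 : t * b₁ * b₂ * (min ((b₁ : ℝ) + 1) b₂ / (b₁ + b₂) / 4 * pn (range (b₁ + b₂)) φ₃ e'') ≤
      t * b₁ * b₂ * (min ((b₁ : ℝ) + 1) b₂ / (b₁ + b₂) / 4 *
        (pn (range (b₁ + 1)) φ₂ a'' + pn (range b₂) (fun i => φ₁ (b₃ + 1 + i)) c'' +
          pn (range (b₁ + b₂)) φ₃ e'')) := by
    refine mul_le_mul_of_nonneg_left (mul_le_mul_of_nonneg_left ?_ ?_) (by positivity)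
    · have := pn_nonneg (range (b₁ + 1)) φ₂ a''
      have := pn_nonneg (range b₂) (fun i => φ₁ (b₃ + 1 + i)) c''
      linarith
    · have : (0 : ℝ) ≤ min ((b₁ : ℝ) + 1) b₂ := le_min (by positivity) (by positivity)
      positivity
  refine (add_le_add (add_le_add P31 (D12.trans P12)) (D23.trans P23)).trans ?_
  unfold av
  rw [card_range, card_range, card_range]
  push_cast
  rw [← hS1, ← hS2, ← hS3, c2, c2']
  have hsum : S3 + S2 + 2 * K * (t * b₂ * b₃) + (S1 + S3 + 2 * K * (t * b₁ * b₃)) +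
      (S2 + S1 + 2 * K * (t * b₁ * b₂)) = 2 * (S1 + S2 + S3) + 2 * K * m := by
    rw [← ht]; ring
  have hdiv : (S3 + S2 + 2 * K * (t * b₂ * b₃)) / L + (S1 + S3 + 2 * K * (t * b₁ * b₃)) / L +
      (S2 + S1 + 2 * K * (t * b₁ * b₂)) / L = (2 * (S1 + S2 + S3) + 2 * K * m) / L := by
    rw [← hsum]; ring
  have hfin : (2 * (S1 + S2 + S3) + 2 * K * m) / L + 3 * (K * (1 - m)) ≤
      (2 * (S1 + S2 + S3) + 5 * K) / L := by
    have k1 : K * (1 - m) ≤ K * (1 / L) := mul_le_mul_of_nonneg_left hmL hK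
    have k2 : 2 * K * m / L ≤ 2 * K / L := div_le_div_of_nonneg_right (by nlinarith) hL.le
    rw [add_div, add_div]
    have k3 : 5 * K / L = 2 * K / L + 3 * (K * (1 / L)) := by ring
    rw [k3]
    linarith
  set Y1 := (∑ x ∈ range (b₂ + b₃ + 1), (φ₁ x : ℝ)) / (b₂ + b₃ + 1)
  set Y2 := (∑ x ∈ range (b₁ + b₃ + 1), (φ₂ x : ℝ)) / (b₁ + b₃ + 1)
  set Y3 := (∑ x ∈ range (b₁ + b₂ + 1), (φ₃ x : ℝ)) / (b₁ + b₂ + 1)
  have r1 : t * (b₃ : ℝ) * b₂ = t * b₂ * b₃ := by ring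
  have r2 : t * (b₂ : ℝ) * b₁ = t * b₁ * b₂ := by ring
  have r3 : t * (b₃ : ℝ) * b₁ = t * b₁ * b₃ := by ring
  rw [r1] at A1 A3
  rw [r2] at A2 A3
  rw [r3] at A3
  linarith

theorem pn_range_add (n k : ℕ) (hn : 0 < n + k) (f : ℕ → ℤ) (a : ℤ) :
    pn (range (n + k)) f a ≤ pn (range n) f a + k / (n + k) := by
  unfold pn
  rw [card_range, card_range]
  have h1 : ((range (n + k)).filter fun x => f x ≠ a).card ≤
      ((range n).filter fun x => f x ≠ a).card + k := by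
    rw [range_add_eq_union, filter_union]
    refine (card_union_le _ _).trans (Nat.add_le_add_left ((card_filter_le _ _).trans ?_) _)
    rw [card_map, card_range]
  have h2 : (((range (n + k)).filter fun x => f x ≠ a).card : ℝ) ≤
      ((range n).filter fun x => f x ≠ a).card + k := by exact_mod_cast h1
  have hN : (0 : ℝ) < (n : ℝ) + k := by
    have : (0 : ℝ) < (n + k : ℕ) := by exact_mod_cast hn
    push_cast at this; exact this
  push_cast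
  rw [div_le_iff₀ hN, add_mul, div_mul_cancel₀ _ hN.ne']
  rcases Nat.eq_zero_or_pos n with h0 | h0
  · subst h0
    simp at h2 ⊢
    exact h2
  · have hn0 : (0 : ℝ) < n := by exact_mod_cast h0
    have h3 : (((range n).filter fun x => f x ≠ a).card : ℝ) ≤
      (((range n).filter fun x => f x ≠ a).card : ℝ) / n * (n + k) := by
      rw [mul_add, div_mul_cancel₀ _ hn0.ne']
      have : (0 : ℝ) ≤ (((range n).filter fun x => f x ≠ a).card : ℝ) / n * k := by positivity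
      linarith
    linarith

theorem pn_range_shift (k n : ℕ) (hn : 0 < k + n) (f : ℕ → ℤ) (a : ℤ) :
    pn (range (k + n)) f a ≤ pn (range n) (fun i => f (k + i)) a + k / (k + n) := by
  unfold pn
  rw [card_range, card_range]
  have h1 : ((range (k + n)).filter fun x => f x ≠ a).card ≤
      ((range n).filter fun i => f (k + i) ≠ a).card + k := by
    rw [range_add_eq_union, filter_union]
    refine (card_union_le _ _).trans ?_
    rw [add_comm]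
    refine add_le_add ?_ ((card_filter_le _ _).trans (by rw [card_range]))
    rw [filter_map, card_map]
    rfl
  have h2 : (((range (k + n)).filter fun x => f x ≠ a).card : ℝ) ≤
      ((range n).filter fun i => f (k + i) ≠ a).card + k := by exact_mod_cast h1
  have hN : (0 : ℝ) < (k : ℝ) + n := by
    have : (0 : ℝ) < (k + n : ℕ) := by exact_mod_cast hn
    push_cast at this; exact this
  push_cast
  rw [div_le_iff₀ hN, add_mul, div_mul_cancel₀ _ hN.ne']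
  rcases Nat.eq_zero_or_pos n with h0 | h0
  · subst h0
    simp at h2 ⊢
    exact h2
  · have hn0 : (0 : ℝ) < n := by exact_mod_cast h0
    have h3 : (((range n).filter fun i => f (k + i) ≠ a).card : ℝ) ≤
      (((range n).filter fun i => f (k + i) ≠ a).card : ℝ) / n * (k + n) := by
      rw [mul_add, div_mul_cancel₀ _ hn0.ne']
      have : (0 : ℝ) ≤ (((range n).filter fun i => f (k + i) ≠ a).card : ℝ) / n * k := by positivity
      linarith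
    linarith

theorem pn_range_sub (n k : ℕ) (hn : 0 < n) {c : ℝ} (hc : ((n : ℝ) + k) ≤ c * n) (f : ℕ → ℤ)
    (a : ℤ) : pn (range n) f a ≤ c * pn (range (n + k)) f a := by
  unfold pn
  rw [card_range, card_range]
  have h1 : ((range n).filter fun x => f x ≠ a).card ≤
      ((range (n + k)).filter fun x => f x ≠ a).card :=
    card_le_card (filter_subset_filter _ (range_subset_range.2 (by omega)))
  have h2 : (((range n).filter fun x => f x ≠ a).card : ℝ) ≤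
      ((range (n + k)).filter fun x => f x ≠ a).card := by exact_mod_cast h1
  have hn0 : (0 : ℝ) < n := by exact_mod_cast hn
  push_cast
  rw [div_le_iff₀ hn0]
  have hN : (0 : ℝ) < (n : ℝ) + k := by positivity
  have h3 : (((range (n + k)).filter fun x => f x ≠ a).card : ℝ) ≤
      c * n * ((((range (n + k)).filter fun x => f x ≠ a).card : ℝ) / (n + k)) := by
    rw [mul_div_assoc', le_div_iff₀ hN, mul_comm]
    exact mul_le_mul_of_nonneg_right hc (Nat.cast_nonneg _)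
  calc _ ≤ _ := h2
    _ ≤ _ := h3
    _ = _ := by ring

theorem pn_shift_sub (k n : ℕ) (hn : 0 < n) {c : ℝ} (hc : ((k : ℝ) + n) ≤ c * n) (f : ℕ → ℤ)
    (a : ℤ) : pn (range n) (fun i => f (k + i)) a ≤ c * pn (range (k + n)) f a := by
  unfold pn
  rw [card_range, card_range]
  have h1 : ((range n).filter fun i => f (k + i) ≠ a).card ≤
      ((range (k + n)).filter fun x => f x ≠ a).card := by
    rw [range_add_eq_union, filter_union]
    refine le_trans (le_of_eq ?_) (card_le_card subset_union_right)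
    rw [filter_map, card_map]
    rfl
  have h2 : (((range n).filter fun i => f (k + i) ≠ a).card : ℝ) ≤
      ((range (k + n)).filter fun x => f x ≠ a).card := by exact_mod_cast h1
  have hn0 : (0 : ℝ) < n := by exact_mod_cast hn
  push_cast
  rw [div_le_iff₀ hn0]
  have hN : (0 : ℝ) < (k : ℝ) + n := by positivity
  have h3 : (((range (k + n)).filter fun x => f x ≠ a).card : ℝ) ≤
      c * n * ((((range (k + n)).filter fun x => f x ≠ a).card : ℝ) / (k + n)) := by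
    rw [mul_div_assoc', le_div_iff₀ hN, mul_comm]
    exact mul_le_mul_of_nonneg_right hc (Nat.cast_nonneg _)
  calc _ ≤ _ := h2
    _ ≤ _ := h3
    _ = _ := by ring

theorem pn_add_ge_one {ι : Type*} (S : Finset ι) (hS : S.Nonempty) (f : ι → ℤ) {a a' : ℤ}
    (h : a ≠ a') : 1 ≤ pn S f a + pn S f a' := by
  classical
  unfold pn
  have hS0 : (0 : ℝ) < S.card := by exact_mod_cast hS.card_pos
  rw [← add_div, le_div_iff₀ hS0, one_mul]
  have : S ⊆ (S.filter fun x => f x ≠ a) ∪ (S.filter fun x => f x ≠ a') := by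
    intro x hx
    rw [mem_union, mem_filter, mem_filter]
    by_cases h1 : f x = a
    · exact Or.inr ⟨hx, by rw [h1]; exact h⟩
    · exact Or.inl ⟨hx, h1⟩
  have h1 := (card_le_card this).trans (card_union_le _ _)
  exact_mod_cast h1

/-- the slack of a hexagon with the error term -/
noncomputable def hexE (ρ M K : ℝ) (b₁ b₂ b₃ : ℕ) (φ₁ φ₂ φ₃ : ℕ → ℤ) : ℝ :=
  av (range (b₂ + b₃ + 1)) (fun x => (φ₁ x : ℝ)) + av (range (b₁ + b₃ + 1)) (fun y => (φ₂ y : ℝ))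
      + av (range (b₁ + b₂ + 1)) (fun w => (φ₃ w : ℝ))
      + 5 / ρ / M * (av (range (b₂ + b₃ + 1)) (fun x => |(φ₁ x : ℝ)|)
        + av (range (b₁ + b₃ + 1)) (fun y => |(φ₂ y : ℝ)|)
        + av (range (b₁ + b₂ + 1)) (fun w => |(φ₃ w : ℝ)|) + K)

theorem av_nonneg {ι : Type*} (S : Finset ι) (f : ι → ℝ) (h : ∀ x ∈ S, 0 ≤ f x) : 0 ≤ av S f :=
  div_nonneg (sum_nonneg h) (Nat.cast_nonneg _)

theorem hex_main {ρ τ K : ℝ} (hρ : 0 < ρ) (hτ : 0 < τ) {M b₁ b₂ b₃ : ℕ} (hM : 2 ≤ ρ * M)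
    (hs : b₁ + b₂ + b₃ ≤ M) (h12 : b₁ ≤ b₂) (h13 : b₁ ≤ b₃) (hr₁ : ρ * M ≤ b₂ + b₃)
    (hr₂ : ρ * M ≤ b₁ + b₃) (hr₃ : ρ * M ≤ b₁ + b₂) (hK : 0 ≤ K) (φ₁ φ₂ φ₃ : ℕ → ℤ)
    (h : ∀ x ≤ b₂ + b₃, ∀ y ≤ b₁ + b₃, ∀ w ≤ b₁ + b₂, x + y + w = b₁ + b₂ + b₃ →
      0 ≤ φ₁ x + φ₂ y + φ₃ w)
    (h₁ : ∀ x ≤ b₂ + b₃, -K ≤ φ₁ x) (h₂ : ∀ y ≤ b₁ + b₃, -K ≤ φ₂ y)
    (h₃ : ∀ w ≤ b₁ + b₂, -K ≤ φ₃ w) :
    0 ≤ hexE ρ M K b₁ b₂ b₃ φ₁ φ₂ φ₃ ∧
    (∃ a c e : ℤ, a + c + e = 0 ∧ ρ / 48 * (pn (range (b₂ + 1)) φ₃ a +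
        pn (range b₃) (fun i => φ₂ (b₁ + 1 + i)) c + pn (range (b₂ + b₃)) φ₁ e) ≤
      hexE ρ M K b₁ b₂ b₃ φ₁ φ₂ φ₃) ∧
    (τ * M ≤ b₁ → ∃ e' e'' : ℤ,
      τ ^ 2 * ρ / 16 * pn (range (b₃ + b₁)) φ₂ e' ≤ hexE ρ M K b₁ b₂ b₃ φ₁ φ₂ φ₃ ∧
      τ ^ 2 * ρ / 16 * pn (range (b₁ + b₂)) φ₃ e'' ≤ hexE ρ M K b₁ b₂ b₃ φ₁ φ₂ φ₃) := by
  have h12' : (b₁ : ℝ) ≤ b₂ := by exact_mod_cast h12
  have h13' : (b₁ : ℝ) ≤ b₃ := by exact_mod_cast h13
  have hs' : (b₁ : ℝ) + b₂ + b₃ ≤ M := by exact_mod_cast hs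
  have hb10 : (0 : ℝ) ≤ b₁ := Nat.cast_nonneg _
  have hb2 : ρ * M / 2 ≤ b₂ := by linarith
  have hb3 : ρ * M / 2 ≤ b₃ := by linarith
  have hM0 : (0 : ℝ) < M := by
    by_contra hneg
    have : (M : ℝ) = 0 := le_antisymm (by linarith) (Nat.cast_nonneg _)
    rw [this] at hM
    linarith
  have hb2' : 1 ≤ b₂ := by
    have : (1 : ℝ) ≤ b₂ := by linarith
    exact_mod_cast this
  have hb3' : 1 ≤ b₃ := by
    have : (1 : ℝ) ≤ b₃ := by linarith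
    exact_mod_cast this
  have hb20 : (1 : ℝ) ≤ b₂ := by exact_mod_cast hb2'
  have hb30 : (1 : ℝ) ≤ b₃ := by exact_mod_cast hb3'
  have hσ : (0 : ℝ) < b₁ * b₂ + b₁ * b₃ + b₂ * b₃ := by positivity
  set σ : ℝ := b₁ * b₂ + b₁ * b₃ + b₂ * b₃ with hσd
  set L := ρ * M with hL
  have hL0 : 0 < L := by positivity
  set m := L / (L + 1) with hm
  have hm1 : 1 / 2 ≤ m := by
    rw [hm, div_le_div_iff₀ (by norm_num) (by linarith)]; linarith
  have hm2 : m ≤ 1 := by rw [hm, div_le_one (by linarith)]; linarith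
  set t := m / σ with ht
  have ht' : t * (b₁ * b₂ + b₁ * b₃ + b₂ * b₃) = m := div_mul_cancel₀ _ hσ.ne'
  have ht0 : 0 < t := by positivity
  obtain ⟨a, c, e, e', e'', hace, hc⟩ := hex_core hb2' hb3' hL0 hr₁ hr₂ hr₃ hK φ₁ φ₂ φ₃ h h₁ h₂ h₃
    hm ht'
  have hE : av (range (b₂ + b₃ + 1)) (fun x => (φ₁ x : ℝ)) + av (range (b₁ + b₃ + 1)) (fun y => (φ₂ y : ℝ))
      + av (range (b₁ + b₂ + 1)) (fun w => (φ₃ w : ℝ))
      + (2 * (av (range (b₂ + b₃ + 1)) (fun x => |(φ₁ x : ℝ)|)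
        + av (range (b₁ + b₃ + 1)) (fun y => |(φ₂ y : ℝ)|)
        + av (range (b₁ + b₂ + 1)) (fun w => |(φ₃ w : ℝ)|)) + 5 * K) / L ≤
      hexE ρ M K b₁ b₂ b₃ φ₁ φ₂ φ₃ := by
    unfold hexE
    have e1 := av_nonneg (range (b₂ + b₃ + 1)) (fun x => |(φ₁ x : ℝ)|) (fun _ _ => abs_nonneg _)
    have e2 := av_nonneg (range (b₁ + b₃ + 1)) (fun x => |(φ₂ x : ℝ)|) (fun _ _ => abs_nonneg _)
    have e3 := av_nonneg (range (b₁ + b₂ + 1)) (fun x => |(φ₃ x : ℝ)|) (fun _ _ => abs_nonneg _)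
    set X := av (range (b₂ + b₃ + 1)) (fun x => |(φ₁ x : ℝ)|)
        + av (range (b₁ + b₃ + 1)) (fun y => |(φ₂ y : ℝ)|)
        + av (range (b₁ + b₂ + 1)) (fun w => |(φ₃ w : ℝ)|) with hX
    have : (2 * X + 5 * K) / L ≤ 5 / ρ / M * (X + K) := by
      rw [div_div, ← hL, div_mul_eq_mul_div]
      exact div_le_div_of_nonneg_right (by linarith) hL0.le
    linarith
  have hc' := hc.trans hE
  have p1 := pn_nonneg (range (b₂ + 1)) φ₃ a
  have p2 := pn_nonneg (range b₃) (fun i => φ₂ (b₁ + 1 + i)) c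
  have p3 := pn_nonneg (range (b₂ + b₃)) φ₁ e
  have p4 := pn_nonneg (range (b₃ + b₁)) φ₂ e'
  have p5 := pn_nonneg (range (b₁ + b₂)) φ₃ e''
  set T1 := pn (range (b₂ + 1)) φ₃ a + pn (range b₃) (fun i => φ₂ (b₁ + 1 + i)) c +
          pn (range (b₂ + b₃)) φ₁ e with hT1
  have hT10 : 0 ≤ T1 := by linarith
  have q1 : 0 ≤ t * b₂ * b₃ * (min ((b₂ : ℝ) + 1) b₃ / (b₂ + b₃) / 4 * T1) := by
    have : (0 : ℝ) ≤ min ((b₂ : ℝ) + 1) b₃ := le_min (by positivity) (by positivity)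
    positivity
  have q2 : 0 ≤ t * b₁ * b₃ * (min ((b₃ : ℝ) + 1) b₁ / (b₃ + b₁) / 4 *
      pn (range (b₃ + b₁)) φ₂ e') := by
    have : (0 : ℝ) ≤ min ((b₃ : ℝ) + 1) b₁ := le_min (by positivity) (by positivity)
    positivity
  have q3 : 0 ≤ t * b₁ * b₂ * (min ((b₁ : ℝ) + 1) b₂ / (b₁ + b₂) / 4 *
      pn (range (b₁ + b₂)) φ₃ e'') := by
    have : (0 : ℝ) ≤ min ((b₁ : ℝ) + 1) b₂ := le_min (by positivity) (by positivity)
    positivity
  refine ⟨by linarith, ⟨a, c, e, hace, ?_⟩, fun hτM => ⟨e', e'', ?_, ?_⟩⟩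
  · -- the main parallelogram
    have k1 : 1 / 6 ≤ t * b₂ * b₃ := by
      have : σ ≤ 3 * (b₂ * b₃) := by
        rw [hσd]
        nlinarith [mul_le_mul_of_nonneg_right h13' (by linarith : (0 : ℝ) ≤ b₂),
          mul_le_mul_of_nonneg_right h12' (by linarith : (0 : ℝ) ≤ b₃)]
      rw [ht, mul_assoc, div_mul_eq_mul_div, le_div_iff₀ hσ]
      nlinarith [mul_nonneg (by linarith : (0 : ℝ) ≤ b₂) (by linarith : (0 : ℝ) ≤ b₃)]
    have k2 : ρ / 8 ≤ min ((b₂ : ℝ) + 1) b₃ / (b₂ + b₃) / 4 := by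
      have h1 : ρ * M / 2 ≤ min ((b₂ : ℝ) + 1) b₃ := le_min (by linarith) hb3
      rw [div_div, le_div_iff₀ (by linarith)]
      have : ρ * (b₂ + b₃) ≤ ρ * M := mul_le_mul_of_nonneg_left (by linarith) hρ.le
      linarith
    have k3 : ρ / 48 * T1 ≤ t * b₂ * b₃ * (min ((b₂ : ℝ) + 1) b₃ / (b₂ + b₃) / 4 * T1) := by
      rw [← mul_assoc]
      refine mul_le_mul_of_nonneg_right ?_ hT10
      calc ρ / 48 = 1 / 6 * (ρ / 8) := by ring
        _ ≤ _ := mul_le_mul k1 k2 (by positivity) (by positivity)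
    linarith
  · have hσM : σ ≤ M ^ 2 := by
      rw [hσd]
      nlinarith [mul_nonneg hb10 (by linarith : (0 : ℝ) ≤ b₂), mul_nonneg hb10 (by linarith : (0 : ℝ) ≤ b₃),
        mul_nonneg (by linarith : (0 : ℝ) ≤ b₂) (by linarith : (0 : ℝ) ≤ b₃),
        mul_self_nonneg (b₁ : ℝ), mul_self_nonneg (b₂ : ℝ), mul_self_nonneg (b₃ : ℝ),
        mul_le_mul hs' hs' (by positivity) (by positivity)]
    have k1 : τ * ρ / 4 ≤ t * b₁ * b₃ := by
      rw [ht, mul_assoc, div_mul_eq_mul_div, le_div_iff₀ hσ]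
      have h1 : τ * M * (ρ * M / 2) ≤ b₁ * b₃ := mul_le_mul hτM hb3 (by positivity) hb10
      have h2 : τ * ρ / 4 * σ ≤ τ * ρ / 4 * M ^ 2 := mul_le_mul_of_nonneg_left hσM (by positivity)
      have h3 : 1 / 2 * (b₁ * b₃) ≤ m * ((b₁ : ℝ) * b₃) :=
        mul_le_mul_of_nonneg_right hm1 (by positivity)
      nlinarith
    have k2 : τ / 4 ≤ min ((b₃ : ℝ) + 1) b₁ / (b₃ + b₁) / 4 := by
      have h1 : τ * M ≤ min ((b₃ : ℝ) + 1) b₁ := le_min (by linarith) hτM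
      refine div_le_div_of_nonneg_right ?_ (by norm_num)
      rw [le_div_iff₀ (by linarith)]
      have : τ * (b₃ + b₁) ≤ τ * M := mul_le_mul_of_nonneg_left (by linarith) hτ.le
      linarith
    have k3 : τ ^ 2 * ρ / 16 * pn (range (b₃ + b₁)) φ₂ e' ≤
        t * b₁ * b₃ * (min ((b₃ : ℝ) + 1) b₁ / (b₃ + b₁) / 4 * pn (range (b₃ + b₁)) φ₂ e') := by
      rw [← mul_assoc]
      refine mul_le_mul_of_nonneg_right ?_ p4
      calc τ ^ 2 * ρ / 16 = τ * ρ / 4 * (τ / 4) := by ring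
        _ ≤ _ := mul_le_mul k1 k2 (by positivity) (by positivity)
    linarith
  · have hσM : σ ≤ M ^ 2 := by
      rw [hσd]
      nlinarith [mul_nonneg hb10 (by linarith : (0 : ℝ) ≤ b₂), mul_nonneg hb10 (by linarith : (0 : ℝ) ≤ b₃),
        mul_nonneg (by linarith : (0 : ℝ) ≤ b₂) (by linarith : (0 : ℝ) ≤ b₃),
        mul_self_nonneg (b₁ : ℝ), mul_self_nonneg (b₂ : ℝ), mul_self_nonneg (b₃ : ℝ),
        mul_le_mul hs' hs' (by positivity) (by positivity)]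
    have k1 : τ * ρ / 4 ≤ t * b₁ * b₂ := by
      rw [ht, mul_assoc, div_mul_eq_mul_div, le_div_iff₀ hσ]
      have h1 : τ * M * (ρ * M / 2) ≤ b₁ * b₂ := mul_le_mul hτM hb2 (by positivity) hb10
      have h2 : τ * ρ / 4 * σ ≤ τ * ρ / 4 * M ^ 2 := mul_le_mul_of_nonneg_left hσM (by positivity)
      have h3 : 1 / 2 * (b₁ * b₂) ≤ m * ((b₁ : ℝ) * b₂) :=
        mul_le_mul_of_nonneg_right hm1 (by positivity)
      nlinarith
    have k2 : τ / 4 ≤ min ((b₁ : ℝ) + 1) b₂ / (b₁ + b₂) / 4 := by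
      have h1 : τ * M ≤ min ((b₁ : ℝ) + 1) b₂ := le_min (by linarith) (by linarith)
      refine div_le_div_of_nonneg_right ?_ (by norm_num)
      rw [le_div_iff₀ (by linarith)]
      have : τ * (b₁ + b₂) ≤ τ * M := mul_le_mul_of_nonneg_left (by linarith) hτ.le
      linarith
    have k3 : τ ^ 2 * ρ / 16 * pn (range (b₁ + b₂)) φ₃ e'' ≤
        t * b₁ * b₂ * (min ((b₁ : ℝ) + 1) b₂ / (b₁ + b₂) / 4 * pn (range (b₁ + b₂)) φ₃ e'') := by
      rw [← mul_assoc]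
      refine mul_le_mul_of_nonneg_right ?_ p5
      calc τ ^ 2 * ρ / 16 = τ * ρ / 4 * (τ / 4) := by ring
        _ ≤ _ := mul_le_mul k1 k2 (by positivity) (by positivity)
    linarith

/-- rotation of the slack -/
theorem hexE_rot (ρ M K : ℝ) (b₁ b₂ b₃ : ℕ) (φ₁ φ₂ φ₃ : ℕ → ℤ) :
    hexE ρ M K b₂ b₃ b₁ φ₂ φ₃ φ₁ = hexE ρ M K b₁ b₂ b₃ φ₁ φ₂ φ₃ := by
  unfold hexE
  rw [add_comm b₃ b₁, add_comm b₂ b₁]
  ring

theorem hex_min {ρ β τ K : ℝ} (hρ : 0 < ρ) (hτ : 0 < τ) (hβ : 0 < β) (hτβ : τ = ρ * β / 4)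
    {M b₁ b₂ b₃ : ℕ} (hM : 2 ≤ ρ * M) (hMβ : 4 ≤ ρ * β * M)
    (hs : b₁ + b₂ + b₃ ≤ M) (h12 : b₁ ≤ b₂) (h13 : b₁ ≤ b₃) (hr₁ : ρ * M ≤ b₂ + b₃)
    (hr₂ : ρ * M ≤ b₁ + b₃) (hr₃ : ρ * M ≤ b₁ + b₂) (hK : 0 ≤ K) (φ₁ φ₂ φ₃ : ℕ → ℤ)
    (h : ∀ x ≤ b₂ + b₃, ∀ y ≤ b₁ + b₃, ∀ w ≤ b₁ + b₂, x + y + w = b₁ + b₂ + b₃ →
      0 ≤ φ₁ x + φ₂ y + φ₃ w)
    (h₁ : ∀ x ≤ b₂ + b₃, -K ≤ φ₁ x) (h₂ : ∀ y ≤ b₁ + b₃, -K ≤ φ₂ y)
    (h₃ : ∀ w ≤ b₁ + b₂, -K ≤ φ₃ w) :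
    dev (range (b₂ + b₃ + 1)) φ₁ + dev (range (b₁ + b₃ + 1)) φ₂ + dev (range (b₁ + b₂ + 1)) φ₃ - β ≤
      (144 / ρ + 32 / (τ ^ 2 * ρ)) * hexE ρ M K b₁ b₂ b₃ φ₁ φ₂ φ₃ := by
  obtain ⟨hE0, ⟨a, c, e, hace, hm⟩, hAB⟩ := hex_main hρ hτ hM hs h12 h13 hr₁ hr₂ hr₃ hK φ₁ φ₂ φ₃ h h₁ h₂ h₃
  set X := hexE ρ M K b₁ b₂ b₃ φ₁ φ₂ φ₃ with hX
  have hM0 : (0 : ℝ) < M := by
    by_contra hneg
    have : (M : ℝ) = 0 := le_antisymm (by linarith) (Nat.cast_nonneg _)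
    rw [this] at hM
    linarith
  have hρM : 0 < ρ * M := by positivity
  have p1 := pn_nonneg (range (b₂ + 1)) φ₃ a
  have p2 := pn_nonneg (range b₃) (fun i => φ₂ (b₁ + 1 + i)) c
  have p3 := pn_nonneg (range (b₂ + b₃)) φ₁ e
  have hm' : pn (range (b₂ + 1)) φ₃ a + pn (range b₃) (fun i => φ₂ (b₁ + 1 + i)) c +
      pn (range (b₂ + b₃)) φ₁ e ≤ 48 / ρ * X := by
    rw [div_mul_eq_mul_div, le_div_iff₀ hρ]; linarith
  have hnn : 0 ≤ 32 / (τ ^ 2 * ρ) * X := by positivity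
  have hβM : 1 / (ρ * M) ≤ β / 4 := by
    rw [div_le_div_iff₀ hρM (by norm_num)]; linarith
  -- the first line
  have d1 : dev (range (b₂ + b₃ + 1)) φ₁ ≤ pn (range (b₂ + b₃)) φ₁ e + β / 4 := by
    refine (dev_le _ _ e).trans ((pn_range_add (b₂ + b₃) 1 (by omega) φ₁ e).trans ?_)
    have : ((1 : ℕ) : ℝ) / (((b₂ + b₃ : ℕ) : ℝ) + (1 : ℕ)) ≤ 1 / (ρ * M) := by
      push_cast
      exact div_le_div_of_nonneg_left (by norm_num) hρM (by linarith)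
    linarith
  rcases le_or_gt (τ * M) b₁ with hcase | hcase
  · obtain ⟨e', e'', k1, k2⟩ := hAB hcase
    have hτρ : 0 < τ ^ 2 * ρ := by positivity
    have k1' : pn (range (b₃ + b₁)) φ₂ e' ≤ 16 / (τ ^ 2 * ρ) * X := by
      rw [div_mul_eq_mul_div, le_div_iff₀ hτρ]; linarith
    have k2' : pn (range (b₁ + b₂)) φ₃ e'' ≤ 16 / (τ ^ 2 * ρ) * X := by
      rw [div_mul_eq_mul_div, le_div_iff₀ hτρ]; linarith
    have hb : 1 ≤ b₁ := by
      have : (0 : ℝ) < b₁ := lt_of_lt_of_le (by positivity) hcase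
      exact_mod_cast this
    have d2 : dev (range (b₁ + b₃ + 1)) φ₂ ≤ pn (range (b₃ + b₁)) φ₂ e' + β / 4 := by
      rw [add_comm b₁ b₃]
      refine (dev_le _ _ e').trans ((pn_range_add (b₃ + b₁) 1 (by omega) φ₂ e').trans ?_)
      have : ((1 : ℕ) : ℝ) / (((b₃ + b₁ : ℕ) : ℝ) + (1 : ℕ)) ≤ 1 / (ρ * M) := by
        push_cast
        exact div_le_div_of_nonneg_left (by norm_num) hρM (by linarith)
      linarith
    have d3 : dev (range (b₁ + b₂ + 1)) φ₃ ≤ pn (range (b₁ + b₂)) φ₃ e'' + β / 4 := by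
      refine (dev_le _ _ e'').trans ((pn_range_add (b₁ + b₂) 1 (by omega) φ₃ e'').trans ?_)
      have : ((1 : ℕ) : ℝ) / (((b₁ + b₂ : ℕ) : ℝ) + (1 : ℕ)) ≤ 1 / (ρ * M) := by
        push_cast
        exact div_le_div_of_nonneg_left (by norm_num) hρM (by linarith)
      linarith
    have e1 : (144 / ρ + 32 / (τ ^ 2 * ρ)) * X = 48 / ρ * X + 96 / ρ * X +
        (16 / (τ ^ 2 * ρ) * X + 16 / (τ ^ 2 * ρ) * X) := by ring
    have e2 : 0 ≤ 96 / ρ * X := by positivity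
    rw [e1]
    linarith
  · have hb2 : ρ * M / 2 ≤ b₂ := by
      have : (b₁ : ℝ) ≤ b₂ := by exact_mod_cast h12
      linarith
    have hb3 : ρ * M / 2 ≤ b₃ := by
      have : (b₁ : ℝ) ≤ b₃ := by exact_mod_cast h13
      linarith
    have hb1 : (b₁ : ℝ) / (ρ * M) ≤ β / 4 := by
      rw [div_le_div_iff₀ hρM (by norm_num)]
      rw [hτβ] at hcase
      nlinarith
    have d3 : dev (range (b₁ + b₂ + 1)) φ₃ ≤ pn (range (b₂ + 1)) φ₃ a + β / 4 := by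
      rw [show b₁ + b₂ + 1 = b₂ + 1 + b₁ by ring]
      refine (dev_le _ _ a).trans ((pn_range_add (b₂ + 1) b₁ (by omega) φ₃ a).trans ?_)
      have : (b₁ : ℝ) / (((b₂ + 1 : ℕ) : ℝ) + b₁) ≤ b₁ / (ρ * M) := by
        push_cast
        exact div_le_div_of_nonneg_left (by positivity) hρM (by linarith)
      linarith
    have d2 : dev (range (b₁ + b₃ + 1)) φ₂ ≤ pn (range b₃) (fun i => φ₂ (b₁ + 1 + i)) c + β / 2 := by
      rw [show b₁ + b₃ + 1 = b₁ + 1 + b₃ by ring]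
      refine (dev_le _ _ c).trans ((pn_range_shift (b₁ + 1) b₃ (by omega) φ₂ c).trans ?_)
      have : (((b₁ + 1 : ℕ)) : ℝ) / (((b₁ + 1 : ℕ) : ℝ) + b₃) ≤ (b₁ + 1) / (ρ * M) := by
        push_cast
        exact div_le_div_of_nonneg_left (by positivity) hρM (by linarith)
      have h2 : ((b₁ : ℝ) + 1) / (ρ * M) = b₁ / (ρ * M) + 1 / (ρ * M) := add_div _ _ _
      linarith
    have e1 : (144 / ρ + 32 / (τ ^ 2 * ρ)) * X = 48 / ρ * X + 96 / ρ * X +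
        32 / (τ ^ 2 * ρ) * X := by ring
    have e2 : 0 ≤ 96 / ρ * X := by positivity
    rw [e1]
    linarith

theorem hex {ρ β : ℝ} (hρ : 0 < ρ) (hβ : 0 < β) : ∃ c C : ℝ, 0 < c ∧ 0 ≤ C ∧ ∃ M₀ : ℕ,
    ∀ M : ℕ, M₀ ≤ M → ∀ b₁ b₂ b₃ : ℕ, b₁ + b₂ + b₃ ≤ M → ρ * M ≤ b₂ + b₃ → ρ * M ≤ b₁ + b₃ →
    ρ * M ≤ b₁ + b₂ → ∀ φ₁ φ₂ φ₃ : ℕ → ℤ,
    (∀ x ≤ b₂ + b₃, ∀ y ≤ b₁ + b₃, ∀ w ≤ b₁ + b₂, x + y + w = b₁ + b₂ + b₃ →
      0 ≤ φ₁ x + φ₂ y + φ₃ w) →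
    ∀ K : ℝ, 0 ≤ K → (∀ x ≤ b₂ + b₃, -K ≤ φ₁ x) → (∀ y ≤ b₁ + b₃, -K ≤ φ₂ y) →
    (∀ w ≤ b₁ + b₂, -K ≤ φ₃ w) →
    c * (dev (range (b₂ + b₃ + 1)) φ₁ + dev (range (b₁ + b₃ + 1)) φ₂
        + dev (range (b₁ + b₂ + 1)) φ₃ - β) ≤
      av (range (b₂ + b₃ + 1)) (fun x => (φ₁ x : ℝ)) + av (range (b₁ + b₃ + 1)) (fun y => (φ₂ y : ℝ))
      + av (range (b₁ + b₂ + 1)) (fun w => (φ₃ w : ℝ))
      + C / M * (av (range (b₂ + b₃ + 1)) (fun x => |(φ₁ x : ℝ)|)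
        + av (range (b₁ + b₃ + 1)) (fun y => |(φ₂ y : ℝ)|)
        + av (range (b₁ + b₂ + 1)) (fun w => |(φ₃ w : ℝ)|) + K) := by
  set τ := ρ * β / 4 with hτ
  have hτ0 : 0 < τ := by positivity
  have hc0 : 0 < 144 / ρ + 32 / (τ ^ 2 * ρ) := by positivity
  refine ⟨(144 / ρ + 32 / (τ ^ 2 * ρ))⁻¹, 5 / ρ, by positivity, by positivity,
    ⌈2 / ρ + 4 / (ρ * β)⌉₊, ?_⟩
  intro M hM b₁ b₂ b₃ hs hr₁ hr₂ hr₃ φ₁ φ₂ φ₃ h K hK h₁ h₂ h₃
  have hM' : 2 / ρ + 4 / (ρ * β) ≤ M := (Nat.le_ceil _).trans (by exact_mod_cast hM)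
  have hM1 : 2 ≤ ρ * M := by
    have : 2 / ρ ≤ M := by
      have : 0 < 4 / (ρ * β) := by positivity
      linarith
    rw [div_le_iff₀ hρ] at this; linarith
  have hM2 : 4 ≤ ρ * β * M := by
    have : 4 / (ρ * β) ≤ M := by
      have : 0 < 2 / ρ := by positivity
      linarith
    rw [div_le_iff₀ (by positivity)] at this; linarith
  rw [inv_mul_le_iff₀ hc0]
  show _ ≤ (144 / ρ + 32 / (τ ^ 2 * ρ)) * hexE ρ M K b₁ b₂ b₃ φ₁ φ₂ φ₃
  rcases le_total b₁ b₂ with h12 | h12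
  · rcases le_total b₁ b₃ with h13 | h13
    · exact hex_min hρ hτ0 hβ hτ hM1 hM2 hs h12 h13 hr₁ hr₂ hr₃ hK φ₁ φ₂ φ₃ h h₁ h₂ h₃
    · -- `b₃` is the least
      have := hex_min hρ hτ0 hβ hτ hM1 hM2 (b₁ := b₃) (b₂ := b₁) (b₃ := b₂) (by omega) h13
        (h13.trans h12) (by linarith) (by linarith) (by linarith) hK φ₃ φ₁ φ₂
        (fun x hx y hy w hw hsum => by
          have := h y (by omega) w (by omega) x (by omega) (by omega)
          linarith) (fun x hx => h₃ x (by omega)) (fun x hx => h₁ x (by omega))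
          (fun x hx => h₂ x (by omega))
      rw [← hexE_rot, ← hexE_rot]
      rw [add_comm b₃ b₂, add_comm b₃ b₁] at this
      linarith
  · rcases le_total b₂ b₃ with h23 | h23
    · -- `b₂` is the least
      have := hex_min hρ hτ0 hβ hτ hM1 hM2 (b₁ := b₂) (b₂ := b₃) (b₃ := b₁) (by omega) h23
        h12 (by linarith) (by linarith) (by linarith) hK φ₂ φ₃ φ₁
        (fun x hx y hy w hw hsum => by
          have := h w (by omega) x (by omega) y (by omega) (by omega)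
          linarith) (fun x hx => h₂ x (by omega)) (fun x hx => h₃ x (by omega))
          (fun x hx => h₁ x (by omega))
      rw [← hexE_rot]
      rw [add_comm b₃ b₁, add_comm b₂ b₁] at this
      linarith
    · -- `b₃` is the least
      have := hex_min hρ hτ0 hβ hτ hM1 hM2 (b₁ := b₃) (b₂ := b₁) (b₃ := b₂) (by omega)
        (h23.trans h12) h23 (by linarith) (by linarith) (by linarith) hK φ₃ φ₁ φ₂
        (fun x hx y hy w hw hsum => by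
          have := h y (by omega) w (by omega) x (by omega) (by omega)
          linarith) (fun x hx => h₃ x (by omega)) (fun x hx => h₁ x (by omega))
          (fun x hx => h₂ x (by omega))
      rw [← hexE_rot, ← hexE_rot]
      rw [add_comm b₃ b₂, add_comm b₃ b₁] at this
      linarith

theorem hexS_min {ρ K : ℝ} (hρ : 0 < ρ) {M b₁ b₂ b₃ : ℕ} (hM : 2 ≤ ρ * M)
    (hs : b₁ + b₂ + b₃ ≤ M) (h12 : b₁ ≤ b₂) (h13 : b₁ ≤ b₃) (hr₁ : ρ * M ≤ b₂ + b₃)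
    (hr₂ : ρ * M ≤ b₁ + b₃) (hr₃ : ρ * M ≤ b₁ + b₂) (hK : 0 ≤ K) (φ₁ φ₂ φ₃ : ℕ → ℤ)
    (h : ∀ x ≤ b₂ + b₃, ∀ y ≤ b₁ + b₃, ∀ w ≤ b₁ + b₂, x + y + w = b₁ + b₂ + b₃ →
      0 ≤ φ₁ x + φ₂ y + φ₃ w)
    (h₁ : ∀ x ≤ b₂ + b₃, -K ≤ φ₁ x) (h₂ : ∀ y ≤ b₁ + b₃, -K ≤ φ₂ y)
    (h₃ : ∀ w ≤ b₁ + b₂, -K ≤ φ₃ w) {a₁ a₂ a₃ : ℤ} (ha : a₁ + a₂ + a₃ ≠ 0) :
    1 - 3 * (pn (range (b₂ + b₃ + 1)) φ₁ a₁ + pn (range (b₁ + b₃ + 1)) φ₂ a₂
        + pn (range (b₁ + b₂ + 1)) φ₃ a₃) ≤ 48 / ρ * hexE ρ M K b₁ b₂ b₃ φ₁ φ₂ φ₃ := by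
  obtain ⟨hE0, ⟨a, c, e, hace, hm⟩, -⟩ := hex_main hρ zero_lt_one hM hs h12 h13 hr₁ hr₂ hr₃ hK
    φ₁ φ₂ φ₃ h h₁ h₂ h₃
  set X := hexE ρ M K b₁ b₂ b₃ φ₁ φ₂ φ₃ with hX
  have h12' : (b₁ : ℝ) ≤ b₂ := by exact_mod_cast h12
  have h13' : (b₁ : ℝ) ≤ b₃ := by exact_mod_cast h13
  have hb2 : (1 : ℝ) ≤ b₂ := by linarith
  have hb3 : (1 : ℝ) ≤ b₃ := by linarith
  have hb2' : 1 ≤ b₂ := by exact_mod_cast hb2
  have hb3' : 1 ≤ b₃ := by exact_mod_cast hb3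
  have p1 := pn_nonneg (range (b₂ + 1)) φ₃ a
  have p2 := pn_nonneg (range b₃) (fun i => φ₂ (b₁ + 1 + i)) c
  have p3 := pn_nonneg (range (b₂ + b₃)) φ₁ e
  have hm' : pn (range (b₂ + 1)) φ₃ a + pn (range b₃) (fun i => φ₂ (b₁ + 1 + i)) c +
      pn (range (b₂ + b₃)) φ₁ e ≤ 48 / ρ * X := by
    rw [div_mul_eq_mul_div, le_div_iff₀ hρ]; linarith
  have q1 : pn (range (b₂ + b₃)) φ₁ a₁ ≤ 3 * pn (range (b₂ + b₃ + 1)) φ₁ a₁ :=
    pn_range_sub (b₂ + b₃) 1 (by omega) (by push_cast; linarith) φ₁ a₁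
  have q2 : pn (range b₃) (fun i => φ₂ (b₁ + 1 + i)) a₂ ≤ 3 * pn (range (b₁ + b₃ + 1)) φ₂ a₂ := by
    rw [show b₁ + b₃ + 1 = b₁ + 1 + b₃ by ring]
    exact pn_shift_sub (b₁ + 1) b₃ (by omega) (by push_cast; linarith) φ₂ a₂
  have q3 : pn (range (b₂ + 1)) φ₃ a₃ ≤ 3 * pn (range (b₁ + b₂ + 1)) φ₃ a₃ := by
    rw [show b₁ + b₂ + 1 = b₂ + 1 + b₁ by ring]
    exact pn_range_sub (b₂ + 1) b₁ (by omega) (by push_cast; linarith) φ₃ a₃
  have r1 := pn_nonneg (range (b₂ + b₃ + 1)) φ₁ a₁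
  have r2 := pn_nonneg (range (b₁ + b₃ + 1)) φ₂ a₂
  have r3 := pn_nonneg (range (b₁ + b₂ + 1)) φ₃ a₃
  have hne : e ≠ a₁ ∨ c ≠ a₂ ∨ a ≠ a₃ := by
    by_contra hcon
    push Not at hcon
    obtain ⟨z1, z2, z3⟩ := hcon
    apply ha
    rw [← z1, ← z2, ← z3]; linarith
  rcases hne with hne | hne | hne
  · have := pn_add_ge_one (range (b₂ + b₃)) ⟨0, by rw [mem_range]; omega⟩ φ₁ hne
    linarith
  · have := pn_add_ge_one (range b₃) ⟨0, by rw [mem_range]; omega⟩ (fun i => φ₂ (b₁ + 1 + i)) hne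
    linarith
  · have := pn_add_ge_one (range (b₂ + 1)) ⟨0, by rw [mem_range]; omega⟩ φ₃ hne
    linarith

theorem hexS {ρ : ℝ} (hρ : 0 < ρ) : ∃ c C D : ℝ, 0 < c ∧ 0 ≤ C ∧ 0 ≤ D ∧ ∃ M₀ : ℕ,
    ∀ M : ℕ, M₀ ≤ M → ∀ b₁ b₂ b₃ : ℕ, b₁ + b₂ + b₃ ≤ M → ρ * M ≤ b₂ + b₃ → ρ * M ≤ b₁ + b₃ →
    ρ * M ≤ b₁ + b₂ → ∀ φ₁ φ₂ φ₃ : ℕ → ℤ,
    (∀ x ≤ b₂ + b₃, ∀ y ≤ b₁ + b₃, ∀ w ≤ b₁ + b₂, x + y + w = b₁ + b₂ + b₃ →
      0 ≤ φ₁ x + φ₂ y + φ₃ w) →
    ∀ K : ℝ, 0 ≤ K → (∀ x ≤ b₂ + b₃, -K ≤ φ₁ x) → (∀ y ≤ b₁ + b₃, -K ≤ φ₂ y) →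
    (∀ w ≤ b₁ + b₂, -K ≤ φ₃ w) → ∀ a₁ a₂ a₃ : ℤ, a₁ + a₂ + a₃ ≠ 0 →
    c * (1 - D * (pn (range (b₂ + b₃ + 1)) φ₁ a₁ + pn (range (b₁ + b₃ + 1)) φ₂ a₂
        + pn (range (b₁ + b₂ + 1)) φ₃ a₃)) ≤
      av (range (b₂ + b₃ + 1)) (fun x => (φ₁ x : ℝ)) + av (range (b₁ + b₃ + 1)) (fun y => (φ₂ y : ℝ))
      + av (range (b₁ + b₂ + 1)) (fun w => (φ₃ w : ℝ))
      + C / M * (av (range (b₂ + b₃ + 1)) (fun x => |(φ₁ x : ℝ)|)
        + av (range (b₁ + b₃ + 1)) (fun y => |(φ₂ y : ℝ)|)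
        + av (range (b₁ + b₂ + 1)) (fun w => |(φ₃ w : ℝ)|) + K) := by
  have hc0 : 0 < 48 / ρ := by positivity
  refine ⟨(48 / ρ)⁻¹, 5 / ρ, 3, by positivity, by positivity, by norm_num, ⌈2 / ρ⌉₊, ?_⟩
  intro M hM b₁ b₂ b₃ hs hr₁ hr₂ hr₃ φ₁ φ₂ φ₃ h K hK h₁ h₂ h₃ a₁ a₂ a₃ ha
  have hM' : 2 / ρ ≤ M := (Nat.le_ceil _).trans (by exact_mod_cast hM)
  have hM1 : 2 ≤ ρ * M := by
    rw [div_le_iff₀ hρ] at hM'; linarith
  rw [inv_mul_le_iff₀ hc0]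
  show _ ≤ 48 / ρ * hexE ρ M K b₁ b₂ b₃ φ₁ φ₂ φ₃
  rcases le_total b₁ b₂ with h12 | h12
  · rcases le_total b₁ b₃ with h13 | h13
    · exact hexS_min hρ hM1 hs h12 h13 hr₁ hr₂ hr₃ hK φ₁ φ₂ φ₃ h h₁ h₂ h₃ ha
    · have := hexS_min hρ hM1 (b₁ := b₃) (b₂ := b₁) (b₃ := b₂) (by omega) h13
        (h13.trans h12) (by linarith) (by linarith) (by linarith) hK φ₃ φ₁ φ₂
        (fun x hx y hy w hw hsum => by
          have := h y (by omega) w (by omega) x (by omega) (by omega)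
          linarith) (fun x hx => h₃ x (by omega)) (fun x hx => h₁ x (by omega))
          (fun x hx => h₂ x (by omega)) (a₁ := a₃) (a₂ := a₁) (a₃ := a₂)
          (by intro h0; exact ha (by linarith))
      rw [← hexE_rot, ← hexE_rot]
      rw [add_comm b₃ b₂, add_comm b₃ b₁] at this
      linarith
  · rcases le_total b₂ b₃ with h23 | h23
    · have := hexS_min hρ hM1 (b₁ := b₂) (b₂ := b₃) (b₃ := b₁) (by omega) h23
        h12 (by linarith) (by linarith) (by linarith) hK φ₂ φ₃ φ₁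
        (fun x hx y hy w hw hsum => by
          have := h w (by omega) x (by omega) y (by omega) (by omega)
          linarith) (fun x hx => h₂ x (by omega)) (fun x hx => h₃ x (by omega))
          (fun x hx => h₁ x (by omega)) (a₁ := a₂) (a₂ := a₃) (a₃ := a₁)
          (by intro h0; exact ha (by linarith))
      rw [← hexE_rot]
      rw [add_comm b₃ b₁, add_comm b₂ b₁] at this
      linarith
    · have := hexS_min hρ hM1 (b₁ := b₃) (b₂ := b₁) (b₃ := b₂) (by omega)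
        (h23.trans h12) h23 (by linarith) (by linarith) (by linarith) hK φ₃ φ₁ φ₂
        (fun x hx y hy w hw hsum => by
          have := h y (by omega) w (by omega) x (by omega) (by omega)
          linarith) (fun x hx => h₃ x (by omega)) (fun x hx => h₁ x (by omega))
          (fun x hx => h₂ x (by omega)) (a₁ := a₃) (a₂ := a₁) (a₃ := a₂)
          (by intro h0; exact ha (by linarith))
      rw [← hexE_rot, ← hexE_rot]
      rw [add_comm b₃ b₂, add_comm b₃ b₁] at this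
      linarith

end Pool.Agent.Work.MP_0cd883_co.Rig
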