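import Pool.Agent.Work.MP_0cd883_co.Rig.Defs

/-!
Upper and lower bounds for the number of points of a level of the discrete cube.
-/

namespace Pool.Agent.Work.MP_0cd883_co.Rig

open Finset

theorem lev_upper {n : ℕ} (hn : 1 ≤ n) (M k : ℕ) :
    ((Lev.lev n M k).card : ℝ) ≤ ((M : ℝ) + 1) ^ (n - 1) := by
  obtain ⟨m, rfl⟩ : ∃ m, n = m + 1 := ⟨n - 1, by omega⟩
  have h1 : (Lev.lev (m + 1) M k).card ≤ (univ : Finset (Fin m → Fin (M + 1))).card := by
    refine card_le_card_of_injOn (fun x => Fin.tail x) (fun x _ => mem_coe.2 (mem_univ _)) ?_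
    intro x hx y hy hxy
    rw [mem_coe, Lev.mem_lev, Fin.sum_univ_succ] at hx hy
    have h1 : Fin.tail x = Fin.tail y := hxy
    have h2 : ∀ i : Fin m, x i.succ = y i.succ := fun i => congrFun h1 i
    simp only [h2] at hx
    have h0 : x 0 = y 0 := Fin.ext (by omega)
    rw [← Fin.cons_self_tail x, ← Fin.cons_self_tail y, h0, h1]
  have h2 : (univ : Finset (Fin m → Fin (M + 1))).card = (M + 1) ^ m := by
    rw [card_univ, Fintype.card_fun, Fintype.card_fin, Fintype.card_fin]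
  rw [h2] at h1
  have h3 := Nat.cast_le (α := ℝ).2 h1
  push_cast at h3
  simpa using h3

theorem lev_lower_aux {m M k q r : ℕ} (h1 : (m + 1) * q ≤ k) (h2 : k ≤ (m + 1) * q + m)
    (h3 : m * r ≤ q) (h4 : q + r ≤ M) (h5 : q + m ≤ M) :
    (r + 1) ^ m ≤ (Lev.lev (m + 1) M k).card := by
  have hcard : (univ : Finset (Fin m → Fin (r + 1))).card = (r + 1) ^ m := by
    rw [card_univ, Fintype.card_fun, Fintype.card_fin, Fintype.card_fin]
  have hs : ∀ e : Fin m → Fin (r + 1), ∑ j, (q + (e j : ℕ)) = m * q + ∑ j, (e j : ℕ) := by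
    intro e
    rw [sum_add_distrib, sum_const, card_univ, Fintype.card_fin, smul_eq_mul]
  have hs2 : ∀ e : Fin m → Fin (r + 1), ∑ j, (e j : ℕ) ≤ m * r := by
    intro e
    calc _ ≤ ∑ _j : Fin m, r := sum_le_sum fun j _ => by
          have := (e j).isLt
          omega
      _ = m * r := by rw [sum_const, card_univ, Fintype.card_fin, smul_eq_mul]
  have h6 : (m + 1) * q = m * q + q := by ring
  rw [h6] at h1 h2
  have hb : ∀ e : Fin m → Fin (r + 1), k - ∑ j, (q + (e j : ℕ)) < M + 1 := by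
    intro e
    rw [hs]
    omega
  have hb2 : ∀ (e : Fin m → Fin (r + 1)) (j : Fin m), q + (e j : ℕ) < M + 1 := by
    intro e j
    have := (e j).isLt
    omega
  rw [← hcard]
  refine card_le_card_of_injOn (fun e => (Fin.cons (⟨k - ∑ j, (q + (e j : ℕ)), hb e⟩ : Fin (M + 1))
    (fun j => (⟨q + (e j : ℕ), hb2 e j⟩ : Fin (M + 1))) : Fin (m + 1) → Fin (M + 1))) ?_ ?_
  · intro e _
    rw [mem_coe, Lev.mem_lev, Fin.sum_univ_succ]
    simp only [Fin.cons_zero, Fin.cons_succ]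
    have := hs e
    have := hs2 e
    omega
  · intro e _ e' _ h
    have h1 := (Fin.cons_injective2 h).2
    funext j
    have h2 := congrFun h1 j
    have h3 := congrArg Fin.val h2
    simp only at h3
    exact Fin.ext (by omega)

theorem lev_lower {n : ℕ} (hn : 1 ≤ n) {ρ : ℝ} (hρ : 0 < ρ) : ∃ c : ℝ, 0 < c ∧ ∃ M₀ : ℕ,
    ∀ M : ℕ, M₀ ≤ M → ∀ k : ℕ, ρ * M ≤ k → (k : ℝ) ≤ (n - ρ) * M →
    c * (M : ℝ) ^ (n - 1) ≤ ((Lev.lev n M k).card : ℝ) := by
  obtain ⟨m, rfl⟩ : ∃ m, n = m + 1 := ⟨n - 1, by omega⟩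
  have hm0 : (0 : ℝ) < (m : ℝ) + 1 := by positivity
  refine ⟨(ρ / (2 * ((m : ℝ) + 1) ^ 2)) ^ m, by positivity,
    ⌈2 * ((m : ℝ) + 1) ^ 2 / ρ⌉₊, fun M hM k hk1 hk2 => ?_⟩
  have hM1 : 2 * ((m : ℝ) + 1) ^ 2 ≤ ρ * M := by
    have h := (Nat.le_ceil (2 * ((m : ℝ) + 1) ^ 2 / ρ)).trans (Nat.cast_le (α := ℝ).2 hM)
    rw [div_le_iff₀ hρ] at h
    linarith
  obtain ⟨q, hq⟩ : ∃ q, q = k / (m + 1) := ⟨_, rfl⟩
  have hq1 : (m + 1) * q ≤ k := by
    rw [hq]
    exact Nat.mul_div_le k (m + 1)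
  have hq2 : k ≤ (m + 1) * q + m := by
    have := Nat.lt_mul_div_succ k (show 0 < m + 1 by omega)
    rw [hq]
    have h2 : (m + 1) * (k / (m + 1) + 1) = (m + 1) * (k / (m + 1)) + m + 1 := by ring
    omega
  have hq1' : ((m : ℝ) + 1) * q ≤ k := by exact_mod_cast hq1
  have hq2' : (k : ℝ) ≤ ((m : ℝ) + 1) * q + m := by exact_mod_cast hq2
  have hM0 : (0 : ℝ) ≤ M := Nat.cast_nonneg _
  obtain ⟨r, hr⟩ : ∃ r, r = ⌊ρ * M / (2 * ((m : ℝ) + 1) ^ 2)⌋₊ := ⟨_, rfl⟩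
  have hr0 : 0 ≤ ρ * M / (2 * ((m : ℝ) + 1) ^ 2) := by positivity
  have hr1 : (r : ℝ) * (2 * ((m : ℝ) + 1) ^ 2) ≤ ρ * M := by
    have h := Nat.floor_le hr0
    rw [← hr, le_div_iff₀ (by positivity)] at h
    exact h
  have hr2 : ρ * M / (2 * ((m : ℝ) + 1) ^ 2) ≤ r + 1 := by
    rw [hr]
    exact (Nat.lt_floor_add_one _).le
  have hmr : (0 : ℝ) ≤ m := Nat.cast_nonneg _
  have hrr : (0 : ℝ) ≤ r := Nat.cast_nonneg _
  -- the three inequalities
  have h3 : m * r ≤ q := by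
    have : (m : ℝ) * r ≤ q := by
      have e1 : ((m : ℝ) + 1) * (m * r) ≤ ((m : ℝ) + 1) * q := by
        have e2 : ((m : ℝ) + 1) * (m * r) ≤ ((m : ℝ) + 1) ^ 2 * r := by nlinarith
        nlinarith
      exact le_of_mul_le_mul_left e1 hm0
    exact_mod_cast this
  have h4 : q + r ≤ M := by
    have : (q : ℝ) + r ≤ M := by
      have e1 : ((m : ℝ) + 1) * (q + r) ≤ ((m : ℝ) + 1) * M := by
        have e3 : 0 ≤ ((m : ℝ) + 1) * m * r := mul_nonneg (mul_nonneg hm0.le hmr) hrr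
        have e2 : ((m : ℝ) + 1) * r ≤ ((m : ℝ) + 1) ^ 2 * r := by nlinarith
        push_cast at hk2
        nlinarith
      exact le_of_mul_le_mul_left e1 hm0
    exact_mod_cast this
  have h5 : q + m ≤ M := by
    have : (q : ℝ) + m ≤ M := by
      have e1 : ((m : ℝ) + 1) * (q + m) ≤ ((m : ℝ) + 1) * M := by
        push_cast at hk2
        nlinarith
      exact le_of_mul_le_mul_left e1 hm0
    exact_mod_cast this
  have h6 := lev_lower_aux hq1 hq2 h3 h4 h5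
  have h7 : (((r : ℝ) + 1) ^ m) ≤ ((Lev.lev (m + 1) M k).card : ℝ) := by exact_mod_cast h6
  refine le_trans ?_ h7
  rw [Nat.add_sub_cancel, ← mul_pow]
  refine pow_le_pow_left₀ (by positivity) ?_ m
  calc ρ / (2 * ((m : ℝ) + 1) ^ 2) * M = ρ * M / (2 * ((m : ℝ) + 1) ^ 2) := by ring
    _ ≤ _ := hr2

end Pool.Agent.Work.MP_0cd883_co.Rig
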