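import Pool.Agent.Work.MP_0cd883_co.Rig.SideDefs

namespace Pool.Agent.Work.MP_0cd883_co.Rig

open Finset

namespace S1

theorem pair_le {M q : ℕ} (hq : q ≤ M) (P R : Fin (M + 1) → Prop) [DecidablePred P]
    [DecidablePred R] (h : ∀ t s : Fin (M + 1), (t : ℕ) + s = q → P t → R s → False) :
    q + 1 ≤ (univ.filter fun t => ¬ P t).card + (univ.filter fun t => ¬ R t).card := by
  rw [← card_disjSum]
  let g : Fin (q + 1) → Fin (M + 1) ⊕ Fin (M + 1) := fun t =>
    if P ⟨t, by omega⟩ then Sum.inr ⟨q - t, by omega⟩ else Sum.inl ⟨t, by omega⟩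
  have hc : (univ : Finset (Fin (q + 1))).card = q + 1 := by simp
  rw [← hc]
  refine card_le_card_of_injOn g ?_ ?_
  · intro t _
    have ht := t.2
    by_cases hp : P ⟨t, by omega⟩
    · have hg : g t = Sum.inr ⟨q - t, by omega⟩ := if_pos hp
      rw [hg, mem_coe, inr_mem_disjSum, mem_filter]
      refine ⟨mem_univ _, fun hr => h _ _ ?_ hp hr⟩
      simp only
      omega
    · have hg : g t = Sum.inl ⟨t, by omega⟩ := if_neg hp
      rw [hg, mem_coe, inl_mem_disjSum, mem_filter]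
      exact ⟨mem_univ _, hp⟩
  · intro t _ t' _ hgt
    have ht := t.2
    have ht' := t'.2
    by_cases hp : P ⟨t, by omega⟩ <;> by_cases hp' : P ⟨t', by omega⟩
    · have hg : g t = Sum.inr ⟨q - t, by omega⟩ := if_pos hp
      have hg' : g t' = Sum.inr ⟨q - t', by omega⟩ := if_pos hp'
      rw [hg, hg'] at hgt
      simp only [Sum.inr.injEq, Fin.mk.injEq] at hgt
      apply Fin.ext
      omega
    · have hg : g t = Sum.inr ⟨q - t, by omega⟩ := if_pos hp
      have hg' : g t' = Sum.inl ⟨t', by omega⟩ := if_neg hp'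
      rw [hg, hg'] at hgt
      exact absurd hgt (by simp)
    · have hg : g t = Sum.inl ⟨t, by omega⟩ := if_neg hp
      have hg' : g t' = Sum.inr ⟨q - t', by omega⟩ := if_pos hp'
      rw [hg, hg'] at hgt
      exact absurd hgt (by simp)
    · have hg : g t = Sum.inl ⟨t, by omega⟩ := if_neg hp
      have hg' : g t' = Sum.inl ⟨t', by omega⟩ := if_neg hp'
      rw [hg, hg'] at hgt
      simp only [Sum.inl.injEq, Fin.mk.injEq] at hgt
      apply Fin.ext
      omega

theorem three_le {M : ℕ} (P Q R : Fin (M + 1) → Prop) [DecidablePred P] [DecidablePred Q]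
    [DecidablePred R]
    (h : ∀ t s r : Fin (M + 1), (t : ℕ) + s + r = M → P t → Q s → R r → False) :
    M + 1 ≤ (univ.filter fun t => ¬ P t).card + (univ.filter fun t => ¬ Q t).card
      + (univ.filter fun t => ¬ R t).card := by
  by_cases hex : ∃ n : ℕ, ∃ hn : n < M + 1, R ⟨n, hn⟩
  · classical
    obtain ⟨hn, hR⟩ := Nat.find_spec hex
    set c := Nat.find hex with hc
    have h1 := pair_le (M := M) (q := M - c) (by omega) P Q fun t s hts hP hQ =>
      h t s ⟨c, hn⟩ (by simp only; omega) hP hQ hR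
    have h2 : c ≤ (univ.filter fun t : Fin (M + 1) => ¬ R t).card := by
      have h3 : (Iio (⟨c, hn⟩ : Fin (M + 1))).card = c := Fin.card_Iio _
      conv_lhs => rw [← h3]
      refine card_le_card fun t ht => ?_
      rw [mem_filter]
      refine ⟨mem_univ _, fun hRt => ?_⟩
      have h5 : t < ⟨c, hn⟩ := mem_Iio.1 ht
      have h4 : (t : ℕ) < c := h5
      exact Nat.find_min hex h4 ⟨t.2, hRt⟩
    omega
  · have h3 : (univ.filter fun t : Fin (M + 1) => ¬ R t) = univ := by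
      rw [filter_eq_self]
      exact fun t _ hR => hex ⟨t, t.2, hR⟩
    rw [h3, card_univ, Fintype.card_fin]
    omega

/-- the fibre inequality -/
theorem fib {m M : ℕ} {A : Finset (Fin (m + 1) → ℕ)} (hs : SumFree A)
    {x y w : Fin m → Fin (M + 1)} (h : ∀ j, (x j : ℕ) + y j + w j = M) :
    M + 1 ≤ mis1 m M A x + mis1 m M A y + mis3 m M A w := by
  refine three_le
    (fun t => (fun i => ((Fin.cons t x : Fin (m + 1) → Fin (M + 1)) i : ℕ) + 1) ∈ A)
    (fun t => (fun i => ((Fin.cons t y : Fin (m + 1) → Fin (M + 1)) i : ℕ) + 1) ∈ A)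
    (fun t => (fun i => M + 2 - ((Fin.cons t w : Fin (m + 1) → Fin (M + 1)) i : ℕ)) ∈ A) ?_
  intro t s r htsr hP hQ hR
  refine hs _ hP _ hQ _ hR ?_
  funext i
  refine Fin.cases ?_ (fun j => ?_) i
  · simp only [Pi.add_apply, Fin.cons_zero]
    omega
  · have := h j
    simp only [Pi.add_apply, Fin.cons_succ]
    omega

end S1

/-- fibre inequality in the lifted form -/
theorem ad_fam {m M : ℕ} {A : Finset (Fin (m + 1) → ℕ)} (hs : SumFree A) {k k₃ : ℕ}
    (hk : 2 * k + k₃ = (m + 1) * M) : Ad (m + 1) M ![k, k, k₃] (fam m M A) := by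
  intro x _ hsum
  have h := S1.fib (M := M) hs (x := Fin.tail (x 0)) (y := Fin.tail (x 1)) (w := Fin.tail (x 2))
    fun j => by
      have := hsum j.succ
      rw [Fin.sum_univ_three] at this
      exact this
  have h0 := hsum 0
  rw [Fin.sum_univ_three] at h0 ⊢
  simp only [fam, Matrix.cons_val_zero, Matrix.cons_val_one, Matrix.cons_val_two, Matrix.head_cons,
    Matrix.tail_cons, Matrix.cons_val]
  unfold ph1 ph3
  omega

/-- level form of the fibre inequality, by `Lev.li` -/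
theorem lv_ge {m M : ℕ} {A : Finset (Fin (m + 1) → ℕ)} (hs : SumFree A)
    {σ₁ σ₂ σ₃ : ℕ} (hσ : σ₁ + σ₂ + σ₃ = m * M) :
    ((M : ℝ) + 1) ≤ av (Lev.lev m M σ₁) (fun x => (mis1 m M A x : ℝ))
      + av (Lev.lev m M σ₂) (fun x => (mis1 m M A x : ℝ))
      + av (Lev.lev m M σ₃) (fun w => (mis3 m M A w : ℝ)) := by
  have h := Lev.li (n := m) (M := M) (j := ![σ₁, σ₂, σ₃]) (κ := (M : ℝ) + 1)
    (g := ![fun x => (mis1 m M A x : ℝ), fun x => (mis1 m M A x : ℝ),
      fun w => (mis3 m M A w : ℝ)]) (by rw [Fin.sum_univ_three]; exact hσ) (by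
      intro x hx hsum
      have h1 := S1.fib (M := M) hs (x := x 0) (y := x 1) (w := x 2) fun j => by
        have := hsum j
        rw [Fin.sum_univ_three] at this
        exact this
      rw [Fin.sum_univ_three]
      have h2 : ((M + 1 : ℕ) : ℝ) ≤ ((mis1 m M A (x 0) + mis1 m M A (x 1) + mis3 m M A (x 2) : ℕ)
        : ℝ) := by exact_mod_cast h1
      push_cast at h2
      exact h2)
  rw [Fin.sum_univ_three] at h
  exact h

/-- the constraint given by one point `p` of `A` used as a summand -/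
theorem thr_low {m M : ℕ} {A : Finset (Fin (m + 1) → ℕ)} (hs : SumFree A) {k k₃ : ℕ}
    (hk : 2 * k + k₃ = (m + 1) * M) {p : Fin (m + 1) → ℕ} (hp : p ∈ A)
    (hp1 : ∀ j, 1 ≤ p j ∧ p j ≤ M + 1) {x w : Fin (m + 1) → Fin (M + 1)}
    (hx : x ∈ Lev.lev (m + 1) M k) (hw : w ∈ Lev.lev (m + 1) M k₃)
    (hxw : ∀ j, j ≠ 0 → (x j : ℕ) + (w j : ℕ) + p j = M + 1) :
    (k : ℤ) + m + 1 - ∑ j, (p j : ℤ) ≤ ph1 m M A x + ph3 m M A w := by
  have hp0 := hp1 0
  have h := S1.pair_le (M := M) (q := M + 1 - p 0) (by omega)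
    (fun t => (fun i => ((Fin.cons t (Fin.tail x) : Fin (m + 1) → Fin (M + 1)) i : ℕ) + 1) ∈ A)
    (fun t => (fun i => M + 2 - ((Fin.cons t (Fin.tail w) : Fin (m + 1) → Fin (M + 1)) i : ℕ)) ∈ A)
    (by
      intro t s hts hP hQ
      refine hs _ hP _ hp _ hQ ?_
      funext i
      refine Fin.cases ?_ (fun j => ?_) i
      · simp only [Pi.add_apply, Fin.cons_zero]
        omega
      · have := hxw j.succ (Fin.succ_ne_zero j)
        simp only [Pi.add_apply, Fin.cons_succ, Fin.tail]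
        omega)
  have h' : M + 1 - p 0 + 1 ≤ mis1 m M A (Fin.tail x) + mis3 m M A (Fin.tail w) := h
  have hxs : ∑ j, (x j : ℕ) = k := Lev.mem_lev.1 hx
  have hws : ∑ j, (w j : ℕ) = k₃ := Lev.mem_lev.1 hw
  rw [Fin.sum_univ_succ] at hxs hws
  have hsum : ∑ j : Fin m, ((x j.succ : ℕ) + (w j.succ : ℕ) + p j.succ) = m * (M + 1) := by
    rw [sum_congr rfl fun j _ => hxw j.succ (Fin.succ_ne_zero j)]
    simp
  rw [sum_add_distrib, sum_add_distrib] at hsum
  rw [Fin.sum_univ_succ]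
  have hpc : ∑ j : Fin m, (p j.succ : ℤ) = ((∑ j : Fin m, p j.succ : ℕ) : ℤ) := by push_cast; rfl
  rw [hpc]
  unfold ph1 ph3
  have e1 : m * (M + 1) = m * M + m := by ring
  have e2 : (m + 1) * M = m * M + M := by ring
  rw [e1] at hsum
  rw [e2] at hk
  omega

/-- the constraint given by one point `z` of `A` used as a sum -/
theorem thr_high {m M : ℕ} {A : Finset (Fin (m + 1) → ℕ)} (hs : SumFree A) {k k₃ : ℕ}
    (hk : 2 * k + k₃ = (m + 1) * M) {z : Fin (m + 1) → ℕ} (hz : z ∈ A)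
    (hz1 : ∀ j, 2 ≤ z j ∧ z j ≤ M + 2) {x y : Fin (m + 1) → Fin (M + 1)}
    (hx : x ∈ Lev.lev (m + 1) M k) (hy : y ∈ Lev.lev (m + 1) M k)
    (hxy : ∀ j, j ≠ 0 → (x j : ℕ) + (y j : ℕ) + 2 = z j) :
    (∑ j, (z j : ℤ)) - 2 * k - 2 * m - 1 ≤ ph1 m M A x + ph1 m M A y := by
  have hz0 := hz1 0
  have h := S1.pair_le (M := M) (q := z 0 - 2) (by omega)
    (fun t => (fun i => ((Fin.cons t (Fin.tail x) : Fin (m + 1) → Fin (M + 1)) i : ℕ) + 1) ∈ A)
    (fun t => (fun i => ((Fin.cons t (Fin.tail y) : Fin (m + 1) → Fin (M + 1)) i : ℕ) + 1) ∈ A)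
    (by
      intro t s hts hP hQ
      refine hs _ hP _ hQ _ hz ?_
      funext i
      refine Fin.cases ?_ (fun j => ?_) i
      · simp only [Pi.add_apply, Fin.cons_zero]
        omega
      · have := hxy j.succ (Fin.succ_ne_zero j)
        simp only [Pi.add_apply, Fin.cons_succ, Fin.tail]
        omega)
  have h' : z 0 - 2 + 1 ≤ mis1 m M A (Fin.tail x) + mis1 m M A (Fin.tail y) := h
  have hxs : ∑ j, (x j : ℕ) = k := Lev.mem_lev.1 hx
  have hys : ∑ j, (y j : ℕ) = k := Lev.mem_lev.1 hy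
  rw [Fin.sum_univ_succ] at hxs hys
  have hsum : ∑ j : Fin m, ((x j.succ : ℕ) + (y j.succ : ℕ) + 2) = ∑ j : Fin m, z j.succ :=
    sum_congr rfl fun j _ => hxy j.succ (Fin.succ_ne_zero j)
  rw [sum_add_distrib, sum_add_distrib] at hsum
  rw [Fin.sum_univ_succ]
  have hzc : ∑ j : Fin m, (z j.succ : ℤ) = ((∑ j : Fin m, z j.succ : ℕ) : ℤ) := by push_cast; rfl
  rw [hzc]
  simp only [sum_const, card_univ, Fintype.card_fin, smul_eq_mul] at hsum
  unfold ph1
  omega

end Pool.Agent.Work.MP_0cd883_co.Rig
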