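import Pool.Agent.Work.MP_0cd883_co.Rig.SideDefs

/-!
Exact counting of the missing points over the windows, below them and between them.
-/

namespace Pool.Agent.Work.MP_0cd883_co.Rig

open Finset

theorem sum_cons_eq {m M : ℕ} (F : (Fin (m + 1) → Fin (M + 1)) → ℤ) :
    ∑ x, F x = ∑ x' : Fin m → Fin (M + 1), ∑ t : Fin (M + 1), F (Fin.cons t x') := by
  rw [← (Fin.consEquiv (fun _ => Fin (M + 1))).sum_comp, Fintype.sum_prod_type, sum_comm]
  rfl

theorem sum_cons_val {m M : ℕ} (t : Fin (M + 1)) (x : Fin m → Fin (M + 1)) :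
    ∑ i, ((Fin.cons t x : Fin (m + 1) → Fin (M + 1)) i : ℕ) = (t : ℕ) + ∑ i, (x i : ℕ) := by
  rw [Fin.sum_univ_succ]
  simp

theorem mis1_le {m M : ℕ} (A : Finset (Fin (m + 1) → ℕ)) (x : Fin m → Fin (M + 1)) :
    mis1 m M A x ≤ M + 1 := by
  unfold mis1
  exact (card_filter_le _ _).trans (by simp)

theorem mis3_le {m M : ℕ} (A : Finset (Fin (m + 1) → ℕ)) (x : Fin m → Fin (M + 1)) :
    mis3 m M A x ≤ M + 1 := by
  unfold mis3
  exact (card_filter_le _ _).trans (by simp)

theorem card_lt_fin (M j : ℕ) (hj : j ≤ M + 1) :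
    (univ.filter fun t : Fin (M + 1) => (t : ℕ) < j).card = j := by
  rw [Fin.card_filter_val_lt]
  omega

/-- one line, summand coordinates -/
theorem line1 (M k σ μ : ℕ) (hμ : μ ≤ M + 1) :
    (∑ t : Fin (M + 1), if (t : ℕ) + σ = k then ((μ : ℤ) - ((t : ℕ) : ℤ)) else 0)
      + ∑ t : Fin (M + 1), (if (t : ℕ) + σ < k then (1 : ℤ) else 0)
      - (if σ + M < k then ((M + 1 - μ : ℕ) : ℤ) else 0) = if σ ≤ k then (μ : ℤ) else 0 := by
  have h1 : ∀ j : ℕ, j ≤ M + 1 →
      ∑ t : Fin (M + 1), (if (t : ℕ) < j then (1 : ℤ) else 0) = j := by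
    intro j hj
    rw [← sum_filter, sum_const, card_lt_fin M j hj]
    simp
  rcases lt_or_ge k σ with h | h
  · rw [if_neg (by omega), if_neg (by omega), sum_eq_zero, sum_eq_zero]
    · simp
    · intro t _
      rw [if_neg (by omega)]
    · intro t _
      rw [if_neg (by omega)]
  · rw [if_pos h]
    rcases lt_or_ge (σ + M) k with h2 | h2
    · rw [if_pos h2]
      have e1 : ∑ t : Fin (M + 1), (if (t : ℕ) + σ = k then ((μ : ℤ) - ((t : ℕ) : ℤ)) else 0) = 0 :=
        sum_eq_zero fun t _ => by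
          have := t.isLt
          rw [if_neg (by omega)]
      have e2 : ∑ t : Fin (M + 1), (if (t : ℕ) + σ < k then (1 : ℤ) else 0) = M + 1 := by
        have := h1 (M + 1) le_rfl
        push_cast at this
        rw [← this]
        refine sum_congr rfl fun t _ => ?_
        have := t.isLt
        rw [if_pos (by omega), if_pos (by omega)]
      rw [e1, e2, Nat.cast_sub hμ]
      push_cast
      ring
    · rw [if_neg (by omega)]
      have e1 : ∑ t : Fin (M + 1), (if (t : ℕ) + σ = k then ((μ : ℤ) - ((t : ℕ) : ℤ)) else 0)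
          = (μ : ℤ) - ((k - σ : ℕ) : ℤ) := by
        rw [sum_eq_single (⟨k - σ, by omega⟩ : Fin (M + 1))]
        · rw [if_pos (by show k - σ + σ = k; omega)]
        · intro t _ ht
          rw [if_neg]
          intro h3
          exact ht (Fin.ext (by show (t : ℕ) = k - σ; omega))
        · intro h3
          exact absurd (mem_univ _) h3
      have e2 : ∑ t : Fin (M + 1), (if (t : ℕ) + σ < k then (1 : ℤ) else 0) = ((k - σ : ℕ) : ℤ) := by
        rw [← h1 (k - σ) (by omega)]
        refine sum_congr rfl fun t _ => ?_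
        by_cases h3 : (t : ℕ) + σ < k
        · rw [if_pos h3, if_pos (by omega)]
        · rw [if_neg h3, if_neg (by omega)]
      rw [e1, e2]
      ring

/-- all lines, summand coordinates -/
theorem window1 {m M : ℕ} (A : Finset (Fin (m + 1) → ℕ)) (k : ℕ) :
    ∑ x ∈ Lev.lev (m + 1) M k, ph1 m M A x
      + ((univ.filter fun x : Fin (m + 1) → Fin (M + 1) => ∑ i, (x i : ℕ) < k).card : ℤ)
      - lowC m M A k
      = ∑ x ∈ univ.filter (fun x : Fin m → Fin (M + 1) => ∑ i, (x i : ℕ) ≤ k),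
        (mis1 m M A x : ℤ) := by
  have e1 : ∑ x ∈ Lev.lev (m + 1) M k, ph1 m M A x
      = ∑ x' : Fin m → Fin (M + 1), ∑ t : Fin (M + 1),
        if (t : ℕ) + ∑ i, (x' i : ℕ) = k then ((mis1 m M A x' : ℤ) - ((t : ℕ) : ℤ)) else 0 := by
    unfold Lev.lev
    rw [sum_filter, sum_cons_eq]
    refine sum_congr rfl fun x' _ => sum_congr rfl fun t _ => ?_
    rw [sum_cons_val]
    unfold ph1
    simp
  have e2 : ((univ.filter fun x : Fin (m + 1) → Fin (M + 1) => ∑ i, (x i : ℕ) < k).card : ℤ)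
      = ∑ x' : Fin m → Fin (M + 1), ∑ t : Fin (M + 1),
        if (t : ℕ) + ∑ i, (x' i : ℕ) < k then (1 : ℤ) else 0 := by
    rw [card_eq_sum_ones, Nat.cast_sum, sum_filter, sum_cons_eq]
    refine sum_congr rfl fun x' _ => sum_congr rfl fun t _ => ?_
    rw [sum_cons_val]
    simp
  have e3 : (lowC m M A k : ℤ) = ∑ x' : Fin m → Fin (M + 1),
      if ∑ i, (x' i : ℕ) + M < k then ((M + 1 - mis1 m M A x' : ℕ) : ℤ) else 0 := by
    unfold lowC
    rw [Nat.cast_sum, sum_filter]
  rw [e1, e2, e3, sum_filter, ← sum_add_distrib, ← sum_sub_distrib]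
  exact sum_congr rfl fun x' _ => line1 M k _ _ (mis1_le A x')

theorem window3 {m M : ℕ} (A : Finset (Fin (m + 1) → ℕ)) (k : ℕ) :
    ∑ x ∈ Lev.lev (m + 1) M k, ph3 m M A x
      + ((univ.filter fun x : Fin (m + 1) → Fin (M + 1) => ∑ i, (x i : ℕ) ≤ k).card : ℤ)
      - highC m M A k
      = ∑ x ∈ univ.filter (fun x : Fin m → Fin (M + 1) => ∑ i, (x i : ℕ) ≤ k),
        (mis3 m M A x : ℤ) := by
  have e1 : ∑ x ∈ Lev.lev (m + 1) M k, ph3 m M A x
      = ∑ x' : Fin m → Fin (M + 1), ∑ t : Fin (M + 1),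
        if (t : ℕ) + ∑ i, (x' i : ℕ) = k then ((mis3 m M A x' : ℤ) - ((t : ℕ) : ℤ) - 1) else 0 := by
    unfold Lev.lev
    rw [sum_filter, sum_cons_eq]
    refine sum_congr rfl fun x' _ => sum_congr rfl fun t _ => ?_
    rw [sum_cons_val]
    unfold ph3
    simp
  have e2 : ((univ.filter fun x : Fin (m + 1) → Fin (M + 1) => ∑ i, (x i : ℕ) ≤ k).card : ℤ)
      = ∑ x' : Fin m → Fin (M + 1), ∑ t : Fin (M + 1),
        ((if (t : ℕ) + ∑ i, (x' i : ℕ) < k then (1 : ℤ) else 0)
        + (if (t : ℕ) + ∑ i, (x' i : ℕ) = k then (1 : ℤ) else 0)) := by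
    rw [card_eq_sum_ones, Nat.cast_sum, sum_filter, sum_cons_eq]
    refine sum_congr rfl fun x' _ => sum_congr rfl fun t _ => ?_
    rw [sum_cons_val]
    rcases lt_trichotomy ((t : ℕ) + ∑ i, (x' i : ℕ)) k with h | h | h
    · rw [if_pos h.le, if_pos h, if_neg h.ne]
      simp
    · rw [if_pos h.le, if_neg (by omega), if_pos h]
      simp
    · rw [if_neg (by omega), if_neg (by omega), if_neg (by omega)]
      simp
  have e3 : (highC m M A k : ℤ) = ∑ x' : Fin m → Fin (M + 1),
      if ∑ i, (x' i : ℕ) + M < k then ((M + 1 - mis3 m M A x' : ℕ) : ℤ) else 0 := by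
    unfold highC
    rw [Nat.cast_sum, sum_filter]
  rw [e1, e2, e3, sum_filter, ← sum_add_distrib, ← sum_sub_distrib]
  refine sum_congr rfl fun x' _ => ?_
  rw [← line1 M k _ _ (mis3_le A x'), ← sum_add_distrib, ← sum_add_distrib]
  congr 1
  refine sum_congr rfl fun t _ => ?_
  by_cases h : (t : ℕ) + ∑ i, (x' i : ℕ) = k
  · rw [if_pos h, if_pos h, if_pos h, if_neg (by omega)]
    ring
  · rw [if_neg h, if_neg h, if_neg h]
    ring

/-- a summand point in coordinates -/
def E1 {d M : ℕ} (x : Fin d → Fin (M + 1)) : Fin d → ℕ := fun i => (x i : ℕ) + 1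

/-- a sum point in coordinates -/
def E3 {d M : ℕ} (x : Fin d → Fin (M + 1)) : Fin d → ℕ := fun i => M + 2 - (x i : ℕ)

theorem E1_inj {d M : ℕ} : Function.Injective (E1 : (Fin d → Fin (M + 1)) → Fin d → ℕ) := by
  intro x y h
  funext i
  apply Fin.ext
  have := congrFun h i
  unfold E1 at this
  omega

theorem E3_inj {d M : ℕ} : Function.Injective (E3 : (Fin d → Fin (M + 1)) → Fin d → ℕ) := by
  intro x y h
  funext i
  apply Fin.ext
  have := congrFun h i
  unfold E3 at this
  have h1 := (x i).isLt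
  have h2 := (y i).isLt
  omega

theorem mem_grid {d N : ℕ} {x : Fin d → ℕ} : x ∈ grid d N ↔ ∀ i, 1 ≤ x i ∧ x i ≤ N := by
  unfold grid
  simp [Fintype.mem_piFinset]

theorem E1_mem {d M : ℕ} (x : Fin d → Fin (M + 1)) : E1 x ∈ grid d (M + 2) := by
  rw [mem_grid]
  intro i
  have := (x i).isLt
  unfold E1
  omega

theorem E3_mem {d M : ℕ} (x : Fin d → Fin (M + 1)) : E3 x ∈ grid d (M + 2) := by
  rw [mem_grid]
  intro i
  have := (x i).isLt
  unfold E3
  omega

theorem sum_mis {m M : ℕ} (B : Finset (Fin m → Fin (M + 1)))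
    (E : (Fin (m + 1) → Fin (M + 1)) → Fin (m + 1) → ℕ) (A : Finset (Fin (m + 1) → ℕ)) :
    ∑ x ∈ B, (univ.filter fun t : Fin (M + 1) => E (Fin.cons t x) ∉ A).card
      = (univ.filter fun x : Fin (m + 1) → Fin (M + 1) => Fin.tail x ∈ B ∧ E x ∉ A).card := by
  have h1 : ((univ.filter fun x : Fin (m + 1) → Fin (M + 1) => Fin.tail x ∈ B ∧ E x ∉ A).card : ℤ)
      = ((∑ x ∈ B, (univ.filter fun t : Fin (M + 1) => E (Fin.cons t x) ∉ A).card : ℕ) : ℤ) := by
    rw [card_eq_sum_ones, Nat.cast_sum, sum_filter, sum_cons_eq, Nat.cast_sum,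
      ← sum_filter_add_sum_filter_not univ (· ∈ B), filter_mem_eq_inter, univ_inter,
      sum_eq_zero (s := univ.filter fun x => ¬ x ∈ B), add_zero]
    · refine sum_congr rfl fun x hx => ?_
      rw [card_eq_sum_ones, Nat.cast_sum, sum_filter]
      refine sum_congr rfl fun t _ => ?_
      by_cases h : E (Fin.cons t x) ∉ A
      · rw [if_pos ⟨by rw [Fin.tail_cons]; exact hx, h⟩, if_pos h]
      · rw [if_neg (fun h2 => h h2.2), if_neg h]
    · intro x hx
      refine sum_eq_zero fun t _ => ?_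
      rw [if_neg]
      rintro ⟨h2, -⟩
      rw [Fin.tail_cons] at h2
      exact (mem_filter.1 hx).2 h2
  exact_mod_cast h1.symm

/-- exact counting of the missing points over the windows, below them and between them -/
theorem count_ge {m M : ℕ} {A : Finset (Fin (m + 1) → ℕ)} (hA : A ⊆ grid (m + 1) (M + 2))
    {k k₃ L L' : ℕ} (hk : 2 * k + k₃ = (m + 1) * M) (hL : k ≤ L) (hL' : k₃ ≤ L')
    (hLL : L + L' < m * (M + 1)) :
    (A.card : ℤ) + (∑ x ∈ Lev.lev (m + 1) M k, ph1 m M A x
      + ∑ w ∈ Lev.lev (m + 1) M k₃, ph3 m M A w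
      - lowC m M A k - highC m M A k₃ + deepC m M A k k₃ L L')
      ≤ (Exact.Astar (m + 1) (M + 2) (k + m + 1)).card := by
  classical
  set G := grid (m + 1) (M + 2) with hG
  set n1 := (univ.filter fun x : Fin (m + 1) → Fin (M + 1) => ∑ i, (x i : ℕ) < k).card with hn1
  set n3 := (univ.filter fun x : Fin (m + 1) → Fin (M + 1) => ∑ i, (x i : ℕ) ≤ k₃).card with hn3
  -- the missing points of `Astar`
  have h1 : G.card ≤ (Exact.Astar (m + 1) (M + 2) (k + m + 1)).card + (n1 + n3) := by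
    have h2 : G ⊆ Exact.Astar (m + 1) (M + 2) (k + m + 1) ∪
        ((univ.filter fun x : Fin (m + 1) → Fin (M + 1) => ∑ i, (x i : ℕ) < k).image E1
        ∪ (univ.filter fun x : Fin (m + 1) → Fin (M + 1) => ∑ i, (x i : ℕ) ≤ k₃).image E3) := by
      intro z hz
      rw [hG, mem_grid] at hz
      by_cases h3 : z ∈ Exact.Astar (m + 1) (M + 2) (k + m + 1)
      · exact mem_union_left _ h3
      apply mem_union_right
      unfold Exact.Astar at h3
      rw [mem_filter, not_and, not_and_or] at h3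
      rcases h3 (mem_grid.2 hz) with h4 | h4
      · apply mem_union_left
        push Not at h4
        refine mem_image.2 ⟨fun i => ⟨z i - 1, ?_⟩, ?_, ?_⟩
        · have := hz i
          have := h4.2 i
          omega
        · rw [mem_filter]
          refine ⟨mem_univ _, ?_⟩
          have h5 : ∑ i, (z i - 1) + (m + 1) = ∑ i, z i := by
            have : ∑ i, z i = ∑ i, ((z i - 1) + 1) :=
              sum_congr rfl fun i _ => by have := hz i; omega
            rw [this, sum_add_distrib]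
            simp
          have h6 := h4.1
          show ∑ i, (z i - 1) < k
          omega
        · funext i
          have := hz i
          show z i - 1 + 1 = z i
          omega
      · apply mem_union_right
        push Not at h4
        refine mem_image.2 ⟨fun i => ⟨M + 2 - z i, ?_⟩, ?_, ?_⟩
        · have := hz i
          have := h4.2 i
          omega
        · rw [mem_filter]
          refine ⟨mem_univ _, ?_⟩
          have h5 : ∑ i, (M + 2 - z i) + ∑ i, z i = (m + 1) * (M + 2) := by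
            rw [← sum_add_distrib, sum_congr rfl (g := fun _ => M + 2)
              (fun i _ => by have := hz i; omega)]
            simp
          have h6 := h4.1
          have h7 : (m + 1) * (M + 2) = (m + 1) * M + 2 * (m + 1) := by ring
          show ∑ i, (M + 2 - z i) ≤ k₃
          omega
        · funext i
          have := hz i
          show M + 2 - (M + 2 - z i) = z i
          omega
    calc G.card ≤ _ := card_le_card h2
      _ ≤ _ := (card_union_le _ _).trans (add_le_add le_rfl ((card_union_le _ _).trans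
          (add_le_add card_image_le card_image_le)))
  -- the missing points of `A`
  have h2 : A.card + (∑ x ∈ univ.filter (fun x : Fin m → Fin (M + 1) => ∑ i, (x i : ℕ) ≤ L),
        mis1 m M A x
      + ∑ x ∈ univ.filter (fun x : Fin m → Fin (M + 1) => ∑ i, (x i : ℕ) ≤ L'), mis3 m M A x)
      ≤ G.card := by
    have e1 := sum_mis (univ.filter fun x : Fin m → Fin (M + 1) => ∑ i, (x i : ℕ) ≤ L) E1 A
    have e3 := sum_mis (univ.filter fun x : Fin m → Fin (M + 1) => ∑ i, (x i : ℕ) ≤ L') E3 A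
    have e1' : ∑ x ∈ univ.filter (fun x : Fin m → Fin (M + 1) => ∑ i, (x i : ℕ) ≤ L), mis1 m M A x
        = _ := e1
    have e3' : ∑ x ∈ univ.filter (fun x : Fin m → Fin (M + 1) => ∑ i, (x i : ℕ) ≤ L'), mis3 m M A x
        = _ := e3
    rw [e1', e3', ← card_image_of_injective _ (E1_inj (d := m + 1) (M := M)),
      ← card_image_of_injective _ (E3_inj (d := m + 1) (M := M)), ← card_union_of_disjoint,
      ← card_union_of_disjoint]
    · refine card_le_card (union_subset hA (union_subset ?_ ?_))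
      · intro z hz
        obtain ⟨x, -, rfl⟩ := mem_image.1 hz
        exact E1_mem x
      · intro z hz
        obtain ⟨x, -, rfl⟩ := mem_image.1 hz
        exact E3_mem x
    · rw [disjoint_left]
      intro z hz h3
      rcases mem_union.1 h3 with h3 | h3
      · obtain ⟨x, hx, rfl⟩ := mem_image.1 h3
        exact (mem_filter.1 hx).2.2 hz
      · obtain ⟨x, hx, rfl⟩ := mem_image.1 h3
        exact (mem_filter.1 hx).2.2 hz
    · rw [disjoint_left]
      intro z h3 h4
      obtain ⟨x, hx, rfl⟩ := mem_image.1 h3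
      obtain ⟨y, hy, hxy⟩ := mem_image.1 h4
      have h5 := (mem_filter.1 (mem_filter.1 hx).2.1).2
      have h6 := (mem_filter.1 (mem_filter.1 hy).2.1).2
      have h7 : ∑ i : Fin m, (((Fin.tail x i : Fin (M + 1)) : ℕ) + 1)
          + ∑ i : Fin m, ((Fin.tail y i : Fin (M + 1)) : ℕ) = m * (M + 2) := by
        rw [← sum_add_distrib, sum_congr rfl (g := fun _ => M + 2)]
        · simp
        · intro i _
          have h8 := congrFun hxy i.succ
          unfold E1 E3 at h8
          have h9 := (y i.succ).isLt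
          show (x i.succ : ℕ) + 1 + (y i.succ : ℕ) = M + 2
          omega
      rw [sum_add_distrib] at h7
      simp only [sum_const, card_univ, Fintype.card_fin, smul_eq_mul, mul_one] at h7
      have h10 : m * (M + 2) = m * (M + 1) + m := by ring
      omega
  have w1 := window1 (M := M) A k
  have w3 := window3 (M := M) A k₃
  rw [← hn1] at w1
  rw [← hn3] at w3
  have d1 : ∑ x ∈ univ.filter (fun x : Fin m → Fin (M + 1) => ∑ i, (x i : ℕ) ≤ L), mis1 m M A x
      = ∑ x ∈ univ.filter (fun x : Fin m → Fin (M + 1) => ∑ i, (x i : ℕ) ≤ k), mis1 m M A x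
      + ∑ x ∈ univ.filter (fun x : Fin m → Fin (M + 1) => k < ∑ i, (x i : ℕ) ∧
        ∑ i, (x i : ℕ) ≤ L), mis1 m M A x := by
    rw [← sum_filter_add_sum_filter_not (univ.filter fun x : Fin m → Fin (M + 1) =>
      ∑ i, (x i : ℕ) ≤ L) (fun x => ∑ i, (x i : ℕ) ≤ k), filter_filter, filter_filter]
    congr 1
    · refine sum_congr (filter_congr fun x _ => ?_) fun _ _ => rfl
      constructor
      · exact fun h => h.2
      · exact fun h => ⟨h.trans hL, h⟩
    · refine sum_congr (filter_congr fun x _ => ?_) fun _ _ => rfl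
      rw [not_le]
      exact ⟨fun h => ⟨h.2, h.1⟩, fun h => ⟨h.2, h.1⟩⟩
  have d3 : ∑ x ∈ univ.filter (fun x : Fin m → Fin (M + 1) => ∑ i, (x i : ℕ) ≤ L'), mis3 m M A x
      = ∑ x ∈ univ.filter (fun x : Fin m → Fin (M + 1) => ∑ i, (x i : ℕ) ≤ k₃), mis3 m M A x
      + ∑ x ∈ univ.filter (fun x : Fin m → Fin (M + 1) => k₃ < ∑ i, (x i : ℕ) ∧
        ∑ i, (x i : ℕ) ≤ L'), mis3 m M A x := by
    rw [← sum_filter_add_sum_filter_not (univ.filter fun x : Fin m → Fin (M + 1) =>
      ∑ i, (x i : ℕ) ≤ L') (fun x => ∑ i, (x i : ℕ) ≤ k₃), filter_filter, filter_filter]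
    congr 1
    · refine sum_congr (filter_congr fun x _ => ?_) fun _ _ => rfl
      constructor
      · exact fun h => h.2
      · exact fun h => ⟨h.trans hL', h⟩
    · refine sum_congr (filter_congr fun x _ => ?_) fun _ _ => rfl
      rw [not_le]
      exact ⟨fun h => ⟨h.2, h.1⟩, fun h => ⟨h.2, h.1⟩⟩
  have hd : (deepC m M A k k₃ L L' : ℤ)
      = (∑ x ∈ univ.filter (fun x : Fin m → Fin (M + 1) => k < ∑ i, (x i : ℕ) ∧
        ∑ i, (x i : ℕ) ≤ L), mis1 m M A x : ℕ)
      + (∑ x ∈ univ.filter (fun x : Fin m → Fin (M + 1) => k₃ < ∑ i, (x i : ℕ) ∧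
        ∑ i, (x i : ℕ) ≤ L'), mis3 m M A x : ℕ) := by
    unfold deepC
    push_cast
    rfl
  rw [d1, d3] at h2
  rw [← Nat.cast_sum] at w1 w3
  generalize ∑ x ∈ univ.filter (fun x : Fin m → Fin (M + 1) => ∑ i, (x i : ℕ) ≤ k),
    mis1 m M A x = a1 at h2 w1
  generalize ∑ x ∈ univ.filter (fun x : Fin m → Fin (M + 1) => ∑ i, (x i : ℕ) ≤ k₃),
    mis3 m M A x = a3 at h2 w3
  generalize ∑ x ∈ univ.filter (fun x : Fin m → Fin (M + 1) => k < ∑ i, (x i : ℕ) ∧
    ∑ i, (x i : ℕ) ≤ L), mis1 m M A x = b1 at h2 hd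
  generalize ∑ x ∈ univ.filter (fun x : Fin m → Fin (M + 1) => k₃ < ∑ i, (x i : ℕ) ∧
    ∑ i, (x i : ℕ) ≤ L'), mis3 m M A x = b3 at h2 hd
  rw [hd]
  zify at h1 h2
  linarith

end Pool.Agent.Work.MP_0cd883_co.Rig
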