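import Pool.Agent.Work.MP_0cd883_co.Rig.S1
import Pool.Agent.Work.MP_0cd883_co.Exact.RatAll
import Pool.Agent.Work.MP_0cd883_co.Exact.LevCount

/-!
The points below the windows are charged to the missing points between the windows.
-/

namespace Pool.Agent.Work.MP_0cd883_co.Rig

open Finset

namespace S3

theorem mis1_le (m M : ℕ) (A : Finset (Fin (m + 1) → ℕ)) (x : Fin m → Fin (M + 1)) :
    mis1 m M A x ≤ M + 1 := by
  unfold mis1
  refine (card_filter_le _ _).trans ?_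
  rw [card_univ, Fintype.card_fin]

theorem mis3_le (m M : ℕ) (A : Finset (Fin (m + 1) → ℕ)) (x : Fin m → Fin (M + 1)) :
    mis3 m M A x ≤ M + 1 := by
  unfold mis3
  refine (card_filter_le _ _).trans ?_
  rw [card_univ, Fintype.card_fin]

/-- a linear inequality with quotients -/
theorem lvl {L₀ L₁ L₂ S₁ S₂ a κ₁ κ₂ : ℝ} (h0 : 0 ≤ L₀) (h1 : 0 ≤ L₁) (h2 : 0 ≤ L₂)
    (hκ₁ : 0 ≤ κ₁) (hκ₂ : 0 ≤ κ₂)
    (hS₁ : 0 ≤ S₁) (hS₂ : 0 ≤ S₂) (hL₁ : L₀ ≤ κ₁ * L₁) (hL₂ : L₀ ≤ κ₂ * L₂)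
    (h : a ≤ S₁ / L₁ + S₂ / L₂) : L₀ * a ≤ κ₁ * S₁ + κ₂ * S₂ := by
  rcases h0.eq_or_lt with h00 | h00
  · rw [← h00, zero_mul]
    positivity
  have hp1 : 0 < L₁ := by
    rcases h1.eq_or_lt with h | h
    · rw [← h, mul_zero] at hL₁
      linarith
    · exact h
  have hp2 : 0 < L₂ := by
    rcases h2.eq_or_lt with h | h
    · rw [← h, mul_zero] at hL₂
      linarith
    · exact h
  have h3 := mul_le_mul_of_nonneg_left h h00.le
  rw [mul_add] at h3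
  have h4 : L₀ * (S₁ / L₁) ≤ κ₁ * S₁ := by
    rw [mul_div_assoc', div_le_iff₀ hp1]
    nlinarith [mul_le_mul_of_nonneg_right hL₁ hS₁]
  have h5 : L₀ * (S₂ / L₂) ≤ κ₂ * S₂ := by
    rw [mul_div_assoc', div_le_iff₀ hp2]
    nlinarith [mul_le_mul_of_nonneg_right hL₂ hS₂]
  linarith

/-- sum over the points of level at most a bound as a sum over the levels -/
theorem sum_levels {m M : ℕ} (P : ℕ → Prop) [DecidablePred P] (I : Finset ℕ)
    (hI : ∀ s, P s ↔ s ∈ I) (F : (Fin m → Fin (M + 1)) → ℝ) :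
    ∑ x ∈ univ.filter (fun x : Fin m → Fin (M + 1) => P (∑ i, (x i : ℕ))), F x
      = ∑ s ∈ I, ∑ x ∈ Lev.lev m M s, F x := by
  have h2 : ∑ s ∈ I, ∑ x ∈ Lev.lev m M s, F x
      = ∑ s ∈ I, ∑ x ∈ (univ.filter fun x : Fin m → Fin (M + 1) =>
          P (∑ i, (x i : ℕ))).filter (fun x => ∑ i, (x i : ℕ) = s), F x := by
    refine sum_congr rfl fun s hs => sum_congr ?_ fun _ _ => rfl
    ext a
    rw [Lev.mem_lev, mem_filter, mem_filter]
    constructor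
    · intro hx
      exact ⟨⟨mem_univ _, by rw [hx]; exact (hI s).2 hs⟩, hx⟩
    · exact fun hx => hx.2
  rw [h2, sum_fiberwise_of_maps_to (fun x hx => (hI _).1 (mem_filter.1 hx).2)]

/-- two to one sums -/
theorem two_one (I J : Finset ℕ) (σ : ℕ → ℕ) (hσ : ∀ s ∈ I, σ s ∈ J) {G : ℕ → ℝ}
    (hG : ∀ j, 0 ≤ G j) (hf : ∀ j, (I.filter fun s => σ s = j).card ≤ 2) :
    ∑ s ∈ I, G (σ s) ≤ 2 * ∑ j ∈ J, G j := by
  rw [← sum_fiberwise_of_maps_to hσ, mul_sum]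
  refine sum_le_sum fun j _ => ?_
  rw [sum_congr rfl (fun s hs => by rw [(mem_filter.1 hs).2] : ∀ s ∈ I.filter (fun s => σ s = j),
    G (σ s) = G j), sum_const, nsmul_eq_mul]
  refine mul_le_mul_of_nonneg_right ?_ (hG j)
  exact_mod_cast hf j

/-- the fibres of the halving maps -/
theorem half_fib (I : Finset ℕ) (σ : ℕ → ℕ) (a e q : ℕ)
    (hσ : ∀ s ∈ I, s ≤ q ∧ σ s = a + (q - s + e) / 2) (j : ℕ) :
    (I.filter fun s => σ s = j).card ≤ 2 := by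
  have hsub : (I.filter fun s => σ s = j) ⊆ {q + e + 2 * a - 2 * j, q + e + 2 * a - 2 * j - 1} := by
    intro s hs
    rw [mem_filter] at hs
    obtain ⟨hsI, hj⟩ := hs
    obtain ⟨h1, h2⟩ := hσ s hsI
    rw [mem_insert, mem_singleton]
    omega
  exact (card_le_card hsub).trans (card_insert_le _ _)

/-- one level below the first window -/
theorem low_level {m M : ℕ} {A : Finset (Fin (m + 1) → ℕ)} (hs : SumFree A) {s σ₂ σ₃ : ℕ}
    (hσ : s + σ₂ + σ₃ = m * M) {κ₁ κ₂ : ℝ} (h1 : 0 ≤ κ₁) (h2 : 0 ≤ κ₂)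
    (hL : (Exact.L m M s : ℝ) ≤ κ₁ * Exact.L m M σ₂ ∧
      (Exact.L m M s : ℝ) ≤ κ₂ * Exact.L m M σ₃) :
    ∑ x ∈ Lev.lev m M s, ((M + 1 - mis1 m M A x : ℕ) : ℝ)
      ≤ κ₁ * ∑ x ∈ Lev.lev m M σ₂, (mis1 m M A x : ℝ)
        + κ₂ * ∑ x ∈ Lev.lev m M σ₃, (mis3 m M A x : ℝ) := by
  have h := lv_ge hs hσ
  unfold av at h
  unfold Exact.L at hL
  have e1 : ∑ x ∈ Lev.lev m M s, ((M + 1 - mis1 m M A x : ℕ) : ℝ)
      = ((Lev.lev m M s).card : ℝ) * (M + 1) - ∑ x ∈ Lev.lev m M s, (mis1 m M A x : ℝ) := by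
    rw [← nsmul_eq_mul, ← sum_const, ← sum_sub_distrib]
    refine sum_congr rfl fun x _ => ?_
    rw [Nat.cast_sub (mis1_le m M A x)]
    push_cast
    ring
  rcases (Lev.lev m M s).eq_empty_or_nonempty with h0 | h0
  · rw [h0, sum_empty]
    exact add_nonneg (mul_nonneg h1 (sum_nonneg fun _ _ => Nat.cast_nonneg _))
      (mul_nonneg h2 (sum_nonneg fun _ _ => Nat.cast_nonneg _))
  have hp : (0 : ℝ) < ((Lev.lev m M s).card : ℝ) := by exact_mod_cast card_pos.2 h0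
  have h3 := lvl (a := (M + 1) - (∑ x ∈ Lev.lev m M s, (mis1 m M A x : ℝ)) /
      ((Lev.lev m M s).card : ℝ)) (S₁ := ∑ x ∈ Lev.lev m M σ₂, (mis1 m M A x : ℝ))
    (S₂ := ∑ x ∈ Lev.lev m M σ₃, (mis3 m M A x : ℝ)) hp.le (Nat.cast_nonneg _)
    (Nat.cast_nonneg _) h1 h2 (sum_nonneg fun _ _ => Nat.cast_nonneg _)
    (sum_nonneg fun _ _ => Nat.cast_nonneg _) hL.1 hL.2 (by linarith)
  rw [mul_sub, mul_div_cancel₀ _ hp.ne'] at h3
  rw [e1]
  exact h3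

/-- one level below the second window -/
theorem high_level {m M : ℕ} {A : Finset (Fin (m + 1) → ℕ)} (hs : SumFree A) {s σ₁ σ₂ : ℕ}
    (hσ : s + σ₁ + σ₂ = m * M) {κ₁ κ₂ : ℝ} (h1 : 0 ≤ κ₁) (h2 : 0 ≤ κ₂)
    (hL : (Exact.L m M s : ℝ) ≤ κ₁ * Exact.L m M σ₁ ∧
      (Exact.L m M s : ℝ) ≤ κ₂ * Exact.L m M σ₂) :
    ∑ x ∈ Lev.lev m M s, ((M + 1 - mis3 m M A x : ℕ) : ℝ)
      ≤ κ₁ * ∑ x ∈ Lev.lev m M σ₁, (mis1 m M A x : ℝ)
        + κ₂ * ∑ x ∈ Lev.lev m M σ₂, (mis1 m M A x : ℝ) := by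
  have h := lv_ge (M := M) hs (σ₁ := σ₁) (σ₂ := σ₂) (σ₃ := s) (by omega)
  unfold av at h
  unfold Exact.L at hL
  have e1 : ∑ x ∈ Lev.lev m M s, ((M + 1 - mis3 m M A x : ℕ) : ℝ)
      = ((Lev.lev m M s).card : ℝ) * (M + 1) - ∑ x ∈ Lev.lev m M s, (mis3 m M A x : ℝ) := by
    rw [← nsmul_eq_mul, ← sum_const, ← sum_sub_distrib]
    refine sum_congr rfl fun x _ => ?_
    rw [Nat.cast_sub (mis3_le m M A x)]
    push_cast
    ring
  rcases (Lev.lev m M s).eq_empty_or_nonempty with h0 | h0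
  · rw [h0, sum_empty]
    exact add_nonneg (mul_nonneg h1 (sum_nonneg fun _ _ => Nat.cast_nonneg _))
      (mul_nonneg h2 (sum_nonneg fun _ _ => Nat.cast_nonneg _))
  have hp : (0 : ℝ) < ((Lev.lev m M s).card : ℝ) := by exact_mod_cast card_pos.2 h0
  have h3 := lvl (a := (M + 1) - (∑ x ∈ Lev.lev m M s, (mis3 m M A x : ℝ)) /
      ((Lev.lev m M s).card : ℝ)) (S₁ := ∑ x ∈ Lev.lev m M σ₁, (mis1 m M A x : ℝ))
    (S₂ := ∑ x ∈ Lev.lev m M σ₂, (mis1 m M A x : ℝ)) hp.le (Nat.cast_nonneg _)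
    (Nat.cast_nonneg _) h1 h2 (sum_nonneg fun _ _ => Nat.cast_nonneg _)
    (sum_nonneg fun _ _ => Nat.cast_nonneg _) hL.1 hL.2 (by linarith)
  rw [mul_sub, mul_div_cancel₀ _ hp.ne'] at h3
  rw [e1]
  exact h3

/-- the sum of the levels of one side -/
theorem side {m M : ℕ} {I J₁ J₂ : Finset ℕ} {σ₁ σ₂ : ℕ → ℕ} {F G₁ G₂ : (Fin m → Fin (M + 1)) → ℝ}
    {κ₁ κ₂ : ℝ} (h1 : 0 ≤ κ₁) (h2 : 0 ≤ κ₂) (hG₁ : ∀ x, 0 ≤ G₁ x) (hG₂ : ∀ x, 0 ≤ G₂ x)
    (hlev : ∀ s ∈ I, ∑ x ∈ Lev.lev m M s, F x ≤ κ₁ * ∑ x ∈ Lev.lev m M (σ₁ s), G₁ x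
        + κ₂ * ∑ x ∈ Lev.lev m M (σ₂ s), G₂ x)
    (hσ₁ : ∀ s ∈ I, σ₁ s ∈ J₁) (hσ₂ : ∀ s ∈ I, σ₂ s ∈ J₂)
    (hf₁ : ∀ j, (I.filter fun s => σ₁ s = j).card ≤ 2)
    (hf₂ : ∀ j, (I.filter fun s => σ₂ s = j).card ≤ 2) :
    ∑ s ∈ I, ∑ x ∈ Lev.lev m M s, F x ≤ 2 * κ₁ * ∑ j ∈ J₁, ∑ x ∈ Lev.lev m M j, G₁ x
        + 2 * κ₂ * ∑ j ∈ J₂, ∑ x ∈ Lev.lev m M j, G₂ x := by
  have h3 := two_one I J₁ σ₁ hσ₁ (G := fun j => ∑ x ∈ Lev.lev m M j, G₁ x)
    (fun j => sum_nonneg fun x _ => hG₁ x) hf₁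
  have h4 := two_one I J₂ σ₂ hσ₂ (G := fun j => ∑ x ∈ Lev.lev m M j, G₂ x)
    (fun j => sum_nonneg fun x _ => hG₂ x) hf₂
  refine (sum_le_sum hlev).trans ?_
  rw [sum_add_distrib, ← mul_sum, ← mul_sum]
  nlinarith [mul_le_mul_of_nonneg_left h3 h1, mul_le_mul_of_nonneg_left h4 h2]

end S3

/-- the points below the windows, except the first level, are charged to the missing points
between the windows -/
theorem loads {m : ℕ} (hm : 2 ≤ m) {c u κ₁ κ₂ : ℝ} (hG : Cube.Good m c u κ₁ κ₂) :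
    ∃ ε : ℝ, 0 < ε ∧ ∃ M₀ : ℕ, ∀ M : ℕ, M₀ ≤ M → ∀ k k₃ : ℕ, 2 * k + k₃ = (m + 1) * M →
    |(k : ℝ) - c * M| ≤ ε * M → ∀ A : Finset (Fin (m + 1) → ℕ), SumFree A →
    ∀ L L' : ℕ, 3 * k ≤ 2 * L + M → 2 * k₃ + k + 1 ≤ 2 * L' + M →
    ((∑ x ∈ univ.filter (fun x : Fin m → Fin (M + 1) => ∑ i, (x i : ℕ) + M + 1 < k),
      (M + 1 - mis1 m M A x) : ℕ) : ℝ)
    + ((∑ w ∈ univ.filter (fun w : Fin m → Fin (M + 1) => ∑ i, (w i : ℕ) + M + 1 < k₃),
      (M + 1 - mis3 m M A w) : ℕ) : ℝ) ≤ 985 / 1000 * (deepC m M A k k₃ L L' : ℝ) := by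
  classical
  obtain ⟨κ₁', κ₂', κ₃', h1, h2, h3, h1', h2', h3', hload, hload2, hlow, hhigh⟩ :=
    Exact.num_k hm ⟨u, κ₁, κ₂, hG⟩ 1 le_rfl (by have := hG.one_lt; push_cast; linarith)
  have hRC : Exact.RC m := fun _ _ hf hδ => Exact.ratio_core hm hf hδ
  have hsum := hG.sum
  have h1c := hG.one_lt
  have hu0 := hG.u_pos
  have huc := hG.u_lt
  have hcd := hG.c_lt
  have hcd' : c < ((m : ℝ) + 1) / 2 := by
    have : ((m + 1 : ℕ) : ℝ) = m + 1 := by push_cast; ring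
    rwa [this] at hcd
  have hu : u = m + 1 - 2 * c := by linarith
  have hm' : m + 1 - 1 = m := by omega
  rw [hm'] at hlow hhigh
  simp only [Nat.cast_one] at hlow hhigh
  obtain ⟨e, he, M₁, hM₁⟩ := Exact.RatAll.use hm hRC (A := c - 1) (c := c) (B := u) (by linarith)
    (by linarith) (by linarith) hu0 (by linarith) (by linarith) h1 h1' h2 h2'
    (fun t ht ht' => by
      have := hlow t ht ht'
      rw [← hu] at this
      exact this) (δ := 1 / 2000) (by norm_num)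
  -- the second window
  obtain ⟨e', he', M₂, hM₂⟩ : ∃ e > 0, ∃ M₀ : ℕ, ∀ M ≥ M₀, ∀ s σ₁ σ₂ : ℕ, s + σ₁ + σ₂ = m * M →
      -(e * M) ≤ (u - 1) * M - s → |2 * (σ₁ : ℝ) + s - (2 * c + (u - 1)) * M| ≤ e * M →
      (Exact.L m M s : ℝ) ≤ (κ₃' + 1 / 2000) * Exact.L m M σ₁ ∧
      (Exact.L m M s : ℝ) ≤ (κ₃' + 1 / 2000) * Exact.L m M σ₂ := by
    rcases lt_or_ge u 1 with hu1 | hu1
    · refine ⟨(1 - u) / 2, by linarith, 1, fun M hM s σ₁ σ₂ _ hlo _ => ?_⟩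
      exfalso
      have hM0 : (1 : ℝ) ≤ M := by exact_mod_cast hM
      have hs0 : (0 : ℝ) ≤ s := Nat.cast_nonneg s
      nlinarith
    · exact Exact.RatAll.use hm hRC (A := u - 1) (c := c) (B := c) (by linarith)
        (by linarith) (by linarith) (by linarith) (by linarith) (by linarith) h3 h3' h3 h3'
        (fun t ht ht' => by
          have h5 := hhigh t ht (by linarith)
          rw [← hu] at h5
          exact ⟨h5, h5⟩) (δ := 1 / 2000) (by norm_num)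
  refine ⟨min (min (e / 4) (e' / 4)) ((c - u) / 3), by
      refine lt_min (lt_min (by positivity) (by positivity)) (by linarith),
    max (max M₁ M₂) (max (Nat.ceil (4 / e)) (Nat.ceil (4 / e')) + 1), ?_⟩
  intro M hM k k₃ hk hkc A hs L L' hL hL'
  set ε := min (min (e / 4) (e' / 4)) ((c - u) / 3) with hε
  have hε1 : ε ≤ e / 4 := (min_le_left _ _).trans (min_le_left _ _)
  have hε2 : ε ≤ e' / 4 := (min_le_left _ _).trans (min_le_right _ _)
  have hε3 : ε ≤ (c - u) / 3 := min_le_right _ _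
  have hMM₁ : M₁ ≤ M := le_trans (le_trans (le_max_left _ _) (le_max_left _ _)) hM
  have hMM₂ : M₂ ≤ M := le_trans (le_trans (le_max_right _ _) (le_max_left _ _)) hM
  have hM3 : max (Nat.ceil (4 / e)) (Nat.ceil (4 / e')) + 1 ≤ M := le_trans (le_max_right _ _) hM
  have hM4 : 4 ≤ e * M := by
    have h5 : 4 / e ≤ M := (Nat.le_ceil _).trans
      (by exact_mod_cast ((le_max_left _ _).trans ((Nat.le_succ _).trans hM3)))
    rw [div_le_iff₀ he] at h5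
    linarith
  have hM5 : 4 ≤ e' * M := by
    have h5 : 4 / e' ≤ M := (Nat.le_ceil _).trans
      (by exact_mod_cast ((le_max_right _ _).trans ((Nat.le_succ _).trans hM3)))
    rw [div_le_iff₀ he'] at h5
    linarith
  have hM0 : (0 : ℝ) < M := by
    have : 1 ≤ M := by omega
    exact_mod_cast this
  have hk1 := (abs_le.1 hkc).1
  have hk2 := (abs_le.1 hkc).2
  have he1 : ε * M ≤ e * M / 4 := by nlinarith
  have he2 : ε * M ≤ e' * M / 4 := by nlinarith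
  have he3 : ε * M ≤ (c - u) * M / 3 := by nlinarith
  have hkr : 2 * (k : ℝ) + k₃ = (m + 1) * M := by exact_mod_cast hk
  have huM : u * M = (m + 1) * M - 2 * (c * M) := by rw [hu]; ring
  -- `k₃ ≤ k`
  have hk₃k : k₃ ≤ k := by
    have : (k₃ : ℝ) ≤ k := by linarith
    exact_mod_cast this
  -- the sums over the levels
  have e1 := S3.sum_levels (m := m) (M := M) (fun s => s + M + 1 < k) (range (k - M - 1))
    (fun s => by rw [mem_range]; omega) (fun x => ((M + 1 - mis1 m M A x : ℕ) : ℝ))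
  have e2 := S3.sum_levels (m := m) (M := M) (fun s => s + M + 1 < k₃) (range (k₃ - M - 1))
    (fun s => by rw [mem_range]; omega) (fun x => ((M + 1 - mis3 m M A x : ℕ) : ℝ))
  have e3 := S3.sum_levels (m := m) (M := M) (fun s => k < s ∧ s ≤ L) (Ioc k L)
    (fun s => by rw [mem_Ioc]) (fun x => (mis1 m M A x : ℝ))
  have e4 := S3.sum_levels (m := m) (M := M) (fun s => k₃ < s ∧ s ≤ L') (Ioc k₃ L')
    (fun s => by rw [mem_Ioc]) (fun x => (mis3 m M A x : ℝ))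
  have hdeep : (deepC m M A k k₃ L L' : ℝ) = ∑ j ∈ Ioc k L, ∑ x ∈ Lev.lev m M j, (mis1 m M A x : ℝ)
      + ∑ j ∈ Ioc k₃ L', ∑ x ∈ Lev.lev m M j, (mis3 m M A x : ℝ) := by
    unfold deepC
    rw [← e3, ← e4]
    push_cast
    rfl
  have hlowS : ∑ s ∈ range (k - M - 1), ∑ x ∈ Lev.lev m M s, ((M + 1 - mis1 m M A x : ℕ) : ℝ)
      ≤ 2 * (κ₁' + 1 / 2000) * ∑ j ∈ Ioc k L, ∑ x ∈ Lev.lev m M j, (mis1 m M A x : ℝ)
        + 2 * (κ₂' + 1 / 2000) * ∑ j ∈ Ioc k₃ L', ∑ x ∈ Lev.lev m M j, (mis3 m M A x : ℝ) := by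
    refine S3.side (σ₁ := fun s => k + (k - M - s + 1) / 2) (σ₂ := fun s => k₃ + (k - M - s + 0) / 2)
      (by linarith) (by linarith) (fun x => Nat.cast_nonneg _) (fun x => Nat.cast_nonneg _)
      (fun s hs' => ?_) (fun s hs' => ?_) (fun s hs' => ?_)
      (S3.half_fib _ _ k 1 (k - M) fun s hs' => ⟨?_, rfl⟩)
      (S3.half_fib _ _ k₃ 0 (k - M) fun s hs' => ⟨?_, rfl⟩)
    · rw [mem_range] at hs'
      have hσ : s + (k + (k - M - s + 1) / 2) + (k₃ + (k - M - s + 0) / 2) = m * M := by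
        have : (m + 1) * M = m * M + M := by ring
        omega
      refine S3.low_level hs hσ (by linarith) (by linarith) (hM₁ M hMM₁ s _ _ hσ ?_ ?_)
      · have h5 : (s : ℝ) + M + 2 ≤ k := by exact_mod_cast (by omega : s + M + 2 ≤ k)
        linarith
      · have h5 : 2 * (k + (k - M - s + 1) / 2) + s + M ≤ 3 * k + 1 := by omega
        have h6 : 3 * k ≤ 2 * (k + (k - M - s + 1) / 2) + s + M := by omega
        have h5' : 2 * (((k + (k - M - s + 1) / 2 : ℕ)) : ℝ) + s + M ≤ 3 * k + 1 := by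
          exact_mod_cast h5
        have h6' : 3 * (k : ℝ) ≤ 2 * (((k + (k - M - s + 1) / 2 : ℕ)) : ℝ) + s + M := by
          exact_mod_cast h6
        rw [abs_le]
        constructor <;> linarith
    · rw [mem_range] at hs'
      rw [mem_Ioc]
      omega
    · rw [mem_range] at hs'
      rw [mem_Ioc]
      omega
    · rw [mem_range] at hs'
      omega
    · rw [mem_range] at hs'
      omega
  have hhighS : ∑ s ∈ range (k₃ - M - 1), ∑ x ∈ Lev.lev m M s, ((M + 1 - mis3 m M A x : ℕ) : ℝ)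
      ≤ 2 * (κ₃' + 1 / 2000) * ∑ j ∈ Ioc k L, ∑ x ∈ Lev.lev m M j, (mis1 m M A x : ℝ)
        + 2 * (κ₃' + 1 / 2000) * ∑ j ∈ Ioc k L, ∑ x ∈ Lev.lev m M j, (mis1 m M A x : ℝ) := by
    refine S3.side (σ₁ := fun s => k + (k₃ - M - s + 1) / 2) (σ₂ := fun s => k + (k₃ - M - s + 0) / 2)
      (by linarith) (by linarith) (fun x => Nat.cast_nonneg _) (fun x => Nat.cast_nonneg _)
      (fun s hs' => ?_) (fun s hs' => ?_) (fun s hs' => ?_)
      (S3.half_fib _ _ k 1 (k₃ - M) fun s hs' => ⟨?_, rfl⟩)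
      (S3.half_fib _ _ k 0 (k₃ - M) fun s hs' => ⟨?_, rfl⟩)
    · rw [mem_range] at hs'
      have hσ : s + (k + (k₃ - M - s + 1) / 2) + (k + (k₃ - M - s + 0) / 2) = m * M := by
        have : (m + 1) * M = m * M + M := by ring
        omega
      refine S3.high_level hs hσ (by linarith) (by linarith) (hM₂ M hMM₂ s _ _ hσ ?_ ?_)
      · have h5 : (s : ℝ) + M + 2 ≤ k₃ := by exact_mod_cast (by omega : s + M + 2 ≤ k₃)
        linarith
      · have h5 : 2 * (k + (k₃ - M - s + 1) / 2) + s ≤ m * M + 1 := by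
          have : (m + 1) * M = m * M + M := by ring
          omega
        have h6 : m * M ≤ 2 * (k + (k₃ - M - s + 1) / 2) + s := by
          have : (m + 1) * M = m * M + M := by ring
          omega
        have h5' : 2 * (((k + (k₃ - M - s + 1) / 2 : ℕ)) : ℝ) + s ≤ m * M + 1 := by
          exact_mod_cast h5
        have h6' : (m : ℝ) * M ≤ 2 * (((k + (k₃ - M - s + 1) / 2 : ℕ)) : ℝ) + s := by
          exact_mod_cast h6
        have h7 : (2 * c + (u - 1)) * (M : ℝ) = m * M := by rw [hu]; ring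
        rw [h7, abs_le]
        constructor <;> linarith
    · rw [mem_range] at hs'
      rw [mem_Ioc]
      omega
    · rw [mem_range] at hs'
      rw [mem_Ioc]
      omega
    · rw [mem_range] at hs'
      omega
    · rw [mem_range] at hs'
      omega
  push_cast at e1 e2 ⊢
  push_cast at hlowS hhighS
  rw [e1, e2, hdeep]
  have hD1 : 0 ≤ ∑ j ∈ Ioc k L, ∑ x ∈ Lev.lev m M j, (mis1 m M A x : ℝ) :=
    sum_nonneg fun _ _ => sum_nonneg fun _ _ => Nat.cast_nonneg _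
  have hD3 : 0 ≤ ∑ j ∈ Ioc k₃ L', ∑ x ∈ Lev.lev m M j, (mis3 m M A x : ℝ) :=
    sum_nonneg fun _ _ => sum_nonneg fun _ _ => Nat.cast_nonneg _
  norm_num at hload hload2
  nlinarith [mul_le_mul_of_nonneg_right hload hD1, mul_le_mul_of_nonneg_right hload2 hD3]

end Pool.Agent.Work.MP_0cd883_co.Rig
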