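import Pool.Agent.Work.MP_0cd883_co.Rig.S1
import Pool.Agent.Work.MP_0cd883_co.Rig.Lam

/-!
The first levels below the two windows.
-/

namespace Pool.Agent.Work.MP_0cd883_co.Rig

open Finset

namespace S4

/-- the first `J` sections of a level -/
theorem sec_sum {m M k J : ℕ} (hJ : J ≤ M + 1) (hJk : J ≤ k + 1)
    (G : (Fin (m + 1) → Fin (M + 1)) → ℝ) (hG : ∀ x, 0 ≤ G x)
    (g : ℕ → (Fin m → Fin (M + 1)) → ℝ)
    (hg : ∀ (t : ℕ) (ht : t < M + 1) (y : Fin m → Fin (M + 1)),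
      g t y ≤ G (Fin.cons (⟨t, ht⟩ : Fin (M + 1)) y : Fin (m + 1) → Fin (M + 1))) :
    ∑ t ∈ range J, ∑ y ∈ Lev.lev m M (k - t), g t y ≤ ∑ x ∈ Lev.lev (m + 1) M k, G x := by
  classical
  set S := (Lev.lev (m + 1) M k).filter (fun x => (x 0 : ℕ) < J) with hS
  have h1 : ∑ x ∈ S, G x ≤ ∑ x ∈ Lev.lev (m + 1) M k, G x :=
    sum_le_sum_of_subset_of_nonneg (filter_subset _ _) fun x _ _ => hG x
  refine le_trans ?_ h1
  rw [← sum_fiberwise_of_maps_to (s := S) (t := range J) (g := fun x => (x 0 : ℕ))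
    (fun x hx => mem_range.2 (mem_filter.1 hx).2)]
  refine sum_le_sum fun t ht => ?_
  have ht' : t < J := mem_range.1 ht
  have htM : t < M + 1 := by omega
  have h2 : ∑ y ∈ Lev.lev m M (k - t), g t y
      ≤ ∑ y ∈ Lev.lev m M (k - t),
        G (Fin.cons (⟨t, htM⟩ : Fin (M + 1)) y : Fin (m + 1) → Fin (M + 1)) :=
    sum_le_sum fun y _ => hg t htM y
  refine h2.trans ?_
  have hinj : Function.Injective
      (fun y : Fin m → Fin (M + 1) => (Fin.cons (⟨t, htM⟩ : Fin (M + 1)) y :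
        Fin (m + 1) → Fin (M + 1))) := by
    intro y z h
    have := congrArg (Fin.tail) h
    simpa [Fin.tail_cons] using this
  rw [← sum_image (s := Lev.lev m M (k - t)) (g := fun y : Fin m → Fin (M + 1) =>
    (Fin.cons (⟨t, htM⟩ : Fin (M + 1)) y : Fin (m + 1) → Fin (M + 1))) (f := G)
    (fun y _ z _ h => hinj h)]
  refine sum_le_sum_of_subset_of_nonneg ?_ fun x _ _ => hG x
  intro x hx
  obtain ⟨y, hy, rfl⟩ := mem_image.1 hx
  rw [mem_filter, hS, mem_filter, Lev.mem_lev]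
  rw [Lev.mem_lev] at hy
  refine ⟨⟨?_, ?_⟩, ?_⟩
  · rw [Fin.sum_univ_succ]
    simp only [Fin.cons_zero, Fin.cons_succ]
    omega
  · simpa using ht'
  · simp

/-- one side -/
theorem one_side {m M : ℕ} {k r s J : ℕ} (hJ1 : 1 ≤ J) (hJ : J ≤ M + 1) (hJr : J ≤ r + 1)
    {c₁ : ℝ} (hc₁ : 0 < c₁) (hM : 1 ≤ M)
    {pr g1 g2 : (Fin m → Fin (M + 1)) → ℝ} {h2 : (Fin (m + 1) → Fin (M + 1)) → ℝ}
    (hg1 : ∀ x, 0 ≤ g1 x)
    (H : ∀ i, 1 ≤ i → i ≤ J → av (Lev.lev m M s) pr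
      ≤ av (Lev.lev m M (k + i)) g1 + av (Lev.lev m M (r + 1 - i)) g2)
    (G : ∀ (t : ℕ) (ht : t < M + 1) (y : Fin m → Fin (M + 1)),
      g2 y ≤ |h2 (Fin.cons (⟨t, ht⟩ : Fin (M + 1)) y : Fin (m + 1) → Fin (M + 1))| + (t + 1))
    (hs : ((Lev.lev m M s).card : ℝ) ≤ ((M : ℝ) + 1) ^ (m - 1))
    (hc1 : ∀ i, 1 ≤ i → i ≤ J → c₁ * (M : ℝ) ^ (m - 1) ≤ ((Lev.lev m M (k + i)).card : ℝ))
    (hc2 : ∀ i, 1 ≤ i → i ≤ J → c₁ * (M : ℝ) ^ (m - 1) ≤ ((Lev.lev m M (r + 1 - i)).card : ℝ))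
    {D E : ℝ} (hD : ∑ i ∈ range J, ∑ x ∈ Lev.lev m M (k + (i + 1)), g1 x ≤ D)
    (hE : ∑ x ∈ Lev.lev (m + 1) M r, |h2 x| ≤ E) :
    ∑ x ∈ Lev.lev m M s, pr x
      ≤ 2 ^ (m - 1) * ((D + E) / (c₁ * J) + J * (M : ℝ) ^ (m - 1)) := by
  have hM0 : (0 : ℝ) < M := by exact_mod_cast hM
  have hM1 : (1 : ℝ) ≤ M := by exact_mod_cast hM
  have hJ0 : (0 : ℝ) < J := by exact_mod_cast hJ1
  set Q : ℝ := c₁ * (M : ℝ) ^ (m - 1) with hQ
  have hQ0 : 0 < Q := by positivity
  have hD0 : 0 ≤ D := le_trans (sum_nonneg fun i _ => sum_nonneg fun x _ => hg1 x) hD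
  have hE0 : 0 ≤ E := le_trans (sum_nonneg fun x _ => abs_nonneg _) hE
  set a := av (Lev.lev m M s) pr with ha
  -- sum over the `J` inequalities
  set g : ℕ → (Fin m → Fin (M + 1)) → ℝ := fun t y =>
    if ht : t < M + 1 then |h2 (Fin.cons (⟨t, ht⟩ : Fin (M + 1)) y : Fin (m + 1) → Fin (M + 1))|
    else 0 with hg
  have hg0 : ∀ t y, 0 ≤ g t y := by
    intro t y
    simp only [hg]
    split_ifs
    · exact abs_nonneg _
    · exact le_rfl
  have hsec : ∑ t ∈ range J, ∑ y ∈ Lev.lev m M (r - t), g t y ≤ E := by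
    refine le_trans (sec_sum hJ hJr (fun x => |h2 x|) (fun x => abs_nonneg _) g ?_) hE
    intro t ht y
    simp only [hg, dif_pos ht]
    exact le_rfl
  have h1 : (J : ℝ) * a ≤ (D + E) / Q + J * J := by
    have e1 : (J : ℝ) * a = ∑ _i ∈ range J, a := by
      rw [sum_const, card_range, nsmul_eq_mul]
    have e2 : ∀ i ∈ range J, a ≤ (∑ x ∈ Lev.lev m M (k + (i + 1)), g1 x) / Q
        + ((∑ y ∈ Lev.lev m M (r - i), g i y) / Q + (J : ℝ)) := by
      intro i hi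
      have hi' : i < J := mem_range.1 hi
      have h3 := H (i + 1) (by omega) (by omega)
      have hk := hc1 (i + 1) (by omega) (by omega)
      have hr := hc2 (i + 1) (by omega) (by omega)
      have er : r + 1 - (i + 1) = r - i := by omega
      rw [er] at h3 hr
      have f1 : av (Lev.lev m M (k + (i + 1))) g1 ≤ (∑ x ∈ Lev.lev m M (k + (i + 1)), g1 x) / Q :=
        div_le_div_of_nonneg_left (sum_nonneg fun x _ => hg1 x) hQ0 hk
      have hcr : (0 : ℝ) < ((Lev.lev m M (r - i)).card : ℝ) := lt_of_lt_of_le hQ0 hr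
      have f2 : av (Lev.lev m M (r - i)) g2
          ≤ (∑ y ∈ Lev.lev m M (r - i), g i y) / ((Lev.lev m M (r - i)).card : ℝ) + (i + 1) := by
        unfold av
        rw [div_add' _ _ _ hcr.ne']
        refine div_le_div_of_nonneg_right ?_ hcr.le
        have : (∑ y ∈ Lev.lev m M (r - i), g i y) + ((i : ℝ) + 1) * ((Lev.lev m M (r - i)).card : ℝ)
            = ∑ y ∈ Lev.lev m M (r - i), (g i y + ((i : ℝ) + 1)) := by
          rw [sum_add_distrib, sum_const, nsmul_eq_mul]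
          ring
        rw [this]
        refine sum_le_sum fun y _ => ?_
        have := G i (by omega) y
        simp only [hg, dif_pos (show i < M + 1 by omega)]
        exact this
      have f3 : (∑ y ∈ Lev.lev m M (r - i), g i y) / ((Lev.lev m M (r - i)).card : ℝ)
          ≤ (∑ y ∈ Lev.lev m M (r - i), g i y) / Q :=
        div_le_div_of_nonneg_left (sum_nonneg fun x _ => hg0 _ x) hQ0 hr
      have f4 : ((i : ℝ) + 1) ≤ J := by exact_mod_cast hi'
      linarith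
    rw [e1]
    refine (sum_le_sum e2).trans ?_
    rw [sum_add_distrib, sum_add_distrib, ← sum_div, ← sum_div, sum_const, card_range,
      nsmul_eq_mul, add_div]
    have q1 := div_le_div_of_nonneg_right hD hQ0.le
    have q2 := div_le_div_of_nonneg_right hsec hQ0.le
    linarith
  -- conclusion
  have h2' : ∑ x ∈ Lev.lev m M s, pr x = ((Lev.lev m M s).card : ℝ) * a := by
    rcases Nat.eq_zero_or_pos (Lev.lev m M s).card with h0 | h0
    · rw [h0, card_eq_zero.1 h0]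
      simp
    · have h0' : ((Lev.lev m M s).card : ℝ) ≠ 0 := by positivity
      rw [ha]
      unfold av
      field_simp
  rw [h2']
  have hb : a ≤ (D + E) / (Q * J) + J := by
    have : a = (J : ℝ) * a / J := by field_simp
    rw [this, div_le_iff₀ hJ0]
    have e3 : ((D + E) / (Q * J) + J) * J = (D + E) / Q + J * J := by
      field_simp
    rw [e3]
    exact h1
  have hb0 : 0 ≤ (D + E) / (Q * J) + J := by positivity
  have hcs : ((M : ℝ) + 1) ^ (m - 1) ≤ 2 ^ (m - 1) * (M : ℝ) ^ (m - 1) := by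
    rw [← mul_pow]
    refine pow_le_pow_left₀ (by positivity) ?_ _
    linarith
  calc ((Lev.lev m M s).card : ℝ) * a ≤ ((Lev.lev m M s).card : ℝ) * ((D + E) / (Q * J) + J) :=
        mul_le_mul_of_nonneg_left hb (Nat.cast_nonneg _)
    _ ≤ (2 ^ (m - 1) * (M : ℝ) ^ (m - 1)) * ((D + E) / (Q * J) + J) :=
        mul_le_mul_of_nonneg_right (hs.trans hcs) hb0
    _ = 2 ^ (m - 1) * ((D + E) / (c₁ * J) + J * (M : ℝ) ^ (m - 1)) := by
        rw [hQ]
        have hMp : (M : ℝ) ^ (m - 1) ≠ 0 := by positivity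
        field_simp

theorem mis1_le (m M : ℕ) (A : Finset (Fin (m + 1) → ℕ)) (x : Fin m → Fin (M + 1)) :
    mis1 m M A x ≤ M + 1 := by
  unfold mis1
  exact (card_filter_le _ _).trans (by rw [card_univ, Fintype.card_fin])

theorem mis3_le (m M : ℕ) (A : Finset (Fin (m + 1) → ℕ)) (x : Fin m → Fin (M + 1)) :
    mis3 m M A x ≤ M + 1 := by
  unfold mis3
  exact (card_filter_le _ _).trans (by rw [card_univ, Fintype.card_fin])

theorem av_nonneg' {ι : Type*} (S : Finset ι) (f : ι → ℝ) (hf : ∀ x, 0 ≤ f x) : 0 ≤ av S f :=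
  div_nonneg (sum_nonneg fun x _ => hf x) (Nat.cast_nonneg _)

/-- the average of the number of present points -/
theorem av_present {ι : Type*} (S : Finset ι) (M : ℕ) (f : ι → ℕ) (hf : ∀ x, f x ≤ M + 1) {B : ℝ}
    (hB : 0 ≤ B) (h : (M : ℝ) + 1 ≤ av S (fun x => (f x : ℝ)) + B) :
    av S (fun x => ((M + 1 - f x : ℕ) : ℝ)) ≤ B := by
  rcases Nat.eq_zero_or_pos S.card with h0 | h0
  · unfold av
    rw [h0, Nat.cast_zero, div_zero]
    exact hB
  · have h0' : (0 : ℝ) < (S.card : ℝ) := by exact_mod_cast h0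
    have e : av S (fun x => ((M + 1 - f x : ℕ) : ℝ)) = (M : ℝ) + 1 - av S (fun x => (f x : ℝ)) := by
      unfold av
      rw [eq_sub_iff_add_eq, ← add_div, ← sum_add_distrib, div_eq_iff h0'.ne', mul_comm,
        ← nsmul_eq_mul, ← sum_const]
      refine sum_congr rfl fun x _ => ?_
      rw [Nat.cast_sub (hf x)]
      push_cast
      ring
    rw [e]
    linarith

theorem deep_bound {m M : ℕ} {k L J : ℕ} (hkJ : k + J ≤ L) (g : (Fin m → Fin (M + 1)) → ℝ)
    (hg : ∀ x, 0 ≤ g x) :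
    ∑ i ∈ range J, ∑ x ∈ Lev.lev m M (k + (i + 1)), g x
      ≤ ∑ x ∈ univ.filter (fun x : Fin m → Fin (M + 1) => k < ∑ i, (x i : ℕ) ∧
          ∑ i, (x i : ℕ) ≤ L), g x := by
  classical
  set S := (univ : Finset (Fin m → Fin (M + 1))).filter
    (fun x => k < ∑ i, (x i : ℕ) ∧ ∑ i, (x i : ℕ) ≤ k + J) with hS
  have h1 : ∑ x ∈ S, g x ≤ ∑ x ∈ univ.filter (fun x : Fin m → Fin (M + 1) =>
      k < ∑ i, (x i : ℕ) ∧ ∑ i, (x i : ℕ) ≤ L), g x := by
    refine sum_le_sum_of_subset_of_nonneg ?_ fun x _ _ => hg x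
    intro x hx
    rw [hS, mem_filter] at hx
    rw [mem_filter]
    exact ⟨mem_univ _, hx.2.1, by omega⟩
  refine le_trans (le_of_eq ?_) h1
  rw [← sum_fiberwise_of_maps_to (s := S) (t := range J) (g := fun x => ∑ i, (x i : ℕ) - k - 1)
    (fun x hx => by
      rw [hS, mem_filter] at hx
      rw [mem_range]
      omega)]
  refine sum_congr rfl fun t ht => ?_
  refine sum_congr ?_ fun _ _ => rfl
  have ht' := mem_range.1 ht
  ext x
  rw [Lev.mem_lev, mem_filter, hS, mem_filter]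
  constructor
  · intro h
    exact ⟨⟨mem_univ _, by omega, by omega⟩, by omega⟩
  · rintro ⟨⟨_, h1, h2⟩, h3⟩
    omega

theorem sum_abs_le {m M k : ℕ} (hM : 1 ≤ M) {η : ℝ} (hη : 0 ≤ η)
    {h2 : (Fin (m + 1) → Fin (M + 1)) → ℝ}
    (h : av (Lev.lev (m + 1) M k) (fun x => |h2 x|) ≤ η * M) :
    ∑ x ∈ Lev.lev (m + 1) M k, |h2 x| ≤ 2 ^ m * η * (M : ℝ) ^ (m + 1) := by
  have hM1 : (1 : ℝ) ≤ M := by exact_mod_cast hM
  rcases Nat.eq_zero_or_pos (Lev.lev (m + 1) M k).card with h0 | h0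
  · rw [card_eq_zero.1 h0, sum_empty]
    positivity
  · have h0' : (0 : ℝ) < ((Lev.lev (m + 1) M k).card : ℝ) := by exact_mod_cast h0
    unfold av at h
    rw [div_le_iff₀ h0'] at h
    refine h.trans ?_
    have h1 := lev_upper (n := m + 1) (by omega) M k
    rw [Nat.add_sub_cancel] at h1
    have h3 : ((M : ℝ) + 1) ^ m ≤ 2 ^ m * (M : ℝ) ^ m := by
      rw [← mul_pow]
      refine pow_le_pow_left₀ (by positivity) ?_ _
      linarith
    calc η * M * ((Lev.lev (m + 1) M k).card : ℝ) ≤ η * M * (2 ^ m * (M : ℝ) ^ m) :=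
          mul_le_mul_of_nonneg_left (h1.trans h3) (by positivity)
      _ = 2 ^ m * η * (M : ℝ) ^ (m + 1) := by ring

end S4

/-- the first level below the windows -/
theorem bdry {m : ℕ} (hm : 2 ≤ m) {c u κ₁ κ₂ : ℝ} (hG : Cube.Good m c u κ₁ κ₂) {ζ : ℝ}
    (hζ : 0 < ζ) :
    ∃ η : ℝ, 0 < η ∧ ∃ M₀ : ℕ, ∀ M : ℕ, M₀ ≤ M → ∀ k k₃ : ℕ, 2 * k + k₃ = (m + 1) * M →
    |(k : ℝ) - c * M| ≤ η * M → ∀ A : Finset (Fin (m + 1) → ℕ), SumFree A →
    av (Lev.lev (m + 1) M k) (fun x => |(ph1 m M A x : ℝ)|) ≤ η * M →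
    av (Lev.lev (m + 1) M k₃) (fun x => |(ph3 m M A x : ℝ)|) ≤ η * M →
    ∀ L L' : ℕ, 3 * k ≤ 2 * L + M → 2 * k₃ + k + 1 ≤ 2 * L' + M →
    ((∑ x ∈ univ.filter (fun x : Fin m → Fin (M + 1) => ∑ i, (x i : ℕ) + M + 1 = k),
      (M + 1 - mis1 m M A x) : ℕ) : ℝ)
    + ((∑ w ∈ univ.filter (fun w : Fin m → Fin (M + 1) => ∑ i, (w i : ℕ) + M + 1 = k₃),
      (M + 1 - mis3 m M A w) : ℕ) : ℝ)
      ≤ 1 / 1000 * (deepC m M A k k₃ L L' : ℝ) + ζ * (M : ℝ) ^ m := by
  have hm' : (2 : ℝ) ≤ m := by exact_mod_cast hm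
  have hsum := hG.sum
  have h1c := hG.one_lt
  have hu := hG.u_pos
  have huc := hG.u_lt
  have hcm : c ≤ m - 1 / 2 := by linarith
  set ρ : ℝ := min (u / 2) (1 / 4) with hρd
  have hρ : 0 < ρ := by rw [hρd]; positivity
  have hρu : ρ ≤ u / 2 := min_le_left _ _
  have hρ4 : ρ ≤ 1 / 4 := min_le_right _ _
  obtain ⟨c₁, hc₁, M₁, hlow⟩ := lev_lower (n := m) (by omega) hρ
  set K : ℝ := 2 ^ m * (2 ^ m / c₁ + 2) with hK
  have hK0 : 0 < K := by positivity
  set τ : ℝ := min (min ((c - 1) / 8) (u / 16)) (min (1 / 32) (ζ / K)) with hτd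
  have hτ : 0 < τ := by
    rw [hτd]
    refine lt_min (lt_min (by linarith) (by positivity)) (lt_min (by norm_num) (by positivity))
  have hτ1 : τ ≤ (c - 1) / 8 := (min_le_left _ _).trans (min_le_left _ _)
  have hτ2 : τ ≤ u / 16 := (min_le_left _ _).trans (min_le_right _ _)
  have hτ3 : τ ≤ 1 / 32 := (min_le_right _ _).trans (min_le_left _ _)
  have hτ4 : τ ≤ ζ / K := (min_le_right _ _).trans (min_le_right _ _)
  have hη : τ ^ 2 ≤ τ / 32 := by nlinarith
  refine ⟨τ ^ 2, by positivity, max M₁ (⌈1 / τ + 1000 * 2 ^ m / (c₁ * τ) + 2 / (c - 1)⌉₊ + 1),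
    fun M hMM k k₃ hk hkc A hA hp1 hp3 L L' hL hL' => ?_⟩
  have hM₁ : M₁ ≤ M := (le_max_left _ _).trans hMM
  have hM2 : ⌈1 / τ + 1000 * 2 ^ m / (c₁ * τ) + 2 / (c - 1)⌉₊ + 1 ≤ M := (le_max_right _ _).trans hMM
  have hM1 : 1 ≤ M := by omega
  have hM1' : (1 : ℝ) ≤ M := by exact_mod_cast hM1
  have hM0' : (0 : ℝ) < M := by linarith
  have hMR : 1 / τ + 1000 * 2 ^ m / (c₁ * τ) + 2 / (c - 1) ≤ M := by
    refine (Nat.le_ceil _).trans ?_
    have : ⌈1 / τ + 1000 * 2 ^ m / (c₁ * τ) + 2 / (c - 1)⌉₊ ≤ M := by omega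
    exact_mod_cast this
  have p1 : 0 < 1 / τ := by positivity
  have p2 : 0 < 1000 * 2 ^ m / (c₁ * τ) := by positivity
  have p3 : 0 < 2 / (c - 1) := div_pos (by norm_num) (by linarith)
  have hMa : 1 ≤ τ * M := by
    have : 1 / τ ≤ M := by linarith
    rwa [div_le_iff₀ hτ, mul_comm] at this
  have hMb : 1000 * 2 ^ m ≤ c₁ * τ * M := by
    have h6 : 1000 * 2 ^ m / (c₁ * τ) ≤ M := by linarith
    rw [div_le_iff₀ (by positivity)] at h6
    linarith
  have hMc : 2 ≤ (c - 1) * M := by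
    have : 2 / (c - 1) ≤ M := by linarith
    rwa [div_le_iff₀ (by linarith), mul_comm] at this
  -- the number of levels used
  set J : ℕ := ⌈τ * M⌉₊ with hJ
  have hJlo : τ * M ≤ J := Nat.le_ceil _
  have hJhi : (J : ℝ) ≤ 2 * (τ * M) := by
    have := (Nat.ceil_lt_add_one (show 0 ≤ τ * (M : ℝ) by positivity)).le
    linarith
  have hJ1 : 1 ≤ J := by
    have : (1 : ℝ) ≤ J := by linarith
    exact_mod_cast this
  -- the position of `k` and `k₃`
  have hk' := abs_le.1 hkc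
  have hkR : 2 * (k : ℝ) + k₃ = (m + 1) * M := by exact_mod_cast hk
  have hτM : τ ^ 2 * M ≤ τ * M / 32 := by
    have := mul_le_mul_of_nonneg_right hη hM0'.le
    linarith
  have hτM1 : τ * M ≤ (c - 1) * M / 8 := by
    have := mul_le_mul_of_nonneg_right hτ1 hM0'.le
    linarith
  have hτM2 : τ * M ≤ u * M / 16 := by
    have := mul_le_mul_of_nonneg_right hτ2 hM0'.le
    linarith
  have hτM3 : τ * M ≤ M / 32 := by
    have := mul_le_mul_of_nonneg_right hτ3 hM0'.le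
    linarith
  have hk3lo : u * M - τ * M / 16 ≤ k₃ := by
    have e : (k₃ : ℝ) = (m + 1) * M - 2 * k := by linarith
    have e2 : (m + 1) * (M : ℝ) = 2 * (c * M) + u * M := by
      rw [← hsum]
      ring
    linarith
  have hk3hi : (k₃ : ℝ) ≤ u * M + τ * M / 16 := by
    have e : (k₃ : ℝ) = (m + 1) * M - 2 * k := by linarith
    have e2 : (m + 1) * (M : ℝ) = 2 * (c * M) + u * M := by
      rw [← hsum]
      ring
    linarith
  have huM : 0 < u * M := by positivity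
  have hcM : (c - 1) * M = c * M - M := by ring
  have hkM : M + 1 ≤ k := by
    have : (M : ℝ) + 1 ≤ k := by linarith
    exact_mod_cast this
  have hJM : J ≤ M + 1 := by
    have : (J : ℝ) ≤ (M : ℝ) + 1 := by linarith
    exact_mod_cast this
  have hJk3 : J ≤ k₃ + 1 := by
    have : (J : ℝ) ≤ (k₃ : ℝ) + 1 := by linarith
    exact_mod_cast this
  have hJk : J ≤ k + 1 := by omega
  have hkJL : k + J ≤ L := by
    have h2 : (2 : ℝ) * J ≤ k - M := by linarith
    have h3 : 2 * J + M ≤ k := by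
      have : (2 : ℝ) * J + M ≤ k := by linarith
      exact_mod_cast this
    omega
  have hcmM : c * M ≤ m * M - M / 2 := by
    have := mul_le_mul_of_nonneg_right hcm hM0'.le
    linarith
  have hρM : ρ * M ≤ M / 4 := by
    have := mul_le_mul_of_nonneg_right hρ4 hM0'.le
    linarith
  have hρuM : ρ * M ≤ u * M / 2 := by
    have := mul_le_mul_of_nonneg_right hρu hM0'.le
    linarith
  have huM' : u * M ≤ c * M := mul_le_mul_of_nonneg_right huc.le hM0'.le
  have hmρ : ((m : ℝ) - ρ) * M = m * M - ρ * M := by ring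
  have cA : ∀ i, 1 ≤ i → i ≤ J → c₁ * (M : ℝ) ^ (m - 1) ≤ ((Lev.lev m M (k + i)).card : ℝ) := by
    intro i h1 h2
    have h2' : (i : ℝ) ≤ J := by exact_mod_cast h2
    refine hlow M hM₁ (k + i) ?_ ?_
    · push_cast
      have : (0 : ℝ) ≤ i := Nat.cast_nonneg _
      linarith
    · rw [hmρ]
      push_cast
      linarith
  have cB : ∀ i, 1 ≤ i → i ≤ J → c₁ * (M : ℝ) ^ (m - 1) ≤ ((Lev.lev m M (k₃ + 1 - i)).card : ℝ) := by
    intro i h1 h2
    have h2' : (i : ℝ) ≤ J := by exact_mod_cast h2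
    have h1' : (1 : ℝ) ≤ i := by exact_mod_cast h1
    have e : ((k₃ + 1 - i : ℕ) : ℝ) = k₃ + 1 - i := by
      rw [Nat.cast_sub (by omega)]
      push_cast
      ring
    refine hlow M hM₁ (k₃ + 1 - i) ?_ ?_
    · rw [e]
      linarith
    · rw [hmρ, e]
      linarith
  have cC : ∀ i, 1 ≤ i → i ≤ J → c₁ * (M : ℝ) ^ (m - 1) ≤ ((Lev.lev m M (k + 1 - i)).card : ℝ) := by
    intro i h1 h2
    have h2' : (i : ℝ) ≤ J := by exact_mod_cast h2
    have h1' : (1 : ℝ) ≤ i := by exact_mod_cast h1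
    have e : ((k + 1 - i : ℕ) : ℝ) = k + 1 - i := by
      rw [Nat.cast_sub (by omega)]
      push_cast
      ring
    refine hlow M hM₁ (k + 1 - i) ?_ ?_
    · rw [e]
      linarith
    · rw [hmρ, e]
      linarith
  set D : ℝ := (deepC m M A k k₃ L L' : ℝ) with hD
  set E : ℝ := 2 ^ m * τ ^ 2 * (M : ℝ) ^ (m + 1) with hE
  have hDb : ∑ i ∈ range J, ∑ x ∈ Lev.lev m M (k + (i + 1)), (mis1 m M A x : ℝ) ≤ D := by
    refine (S4.deep_bound hkJL (fun x => (mis1 m M A x : ℝ)) fun x => Nat.cast_nonneg _).trans ?_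
    rw [hD]
    unfold deepC
    push_cast
    have : 0 ≤ ∑ w ∈ univ.filter (fun w : Fin m → Fin (M + 1) => k₃ < ∑ i, (w i : ℕ) ∧
        ∑ i, (w i : ℕ) ≤ L'), (mis3 m M A w : ℝ) := sum_nonneg fun x _ => Nat.cast_nonneg _
    linarith
  have hD0 : 0 ≤ D := by
    rw [hD]
    positivity
  have hE1 := S4.sum_abs_le hM1 (by positivity) hp1
  have hE3 := S4.sum_abs_le hM1 (by positivity) hp3
  have hmM : (m + 1) * M = m * M + M := by ring
  rw [hmM] at hk
  -- first side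
  have s1 : ((∑ x ∈ univ.filter (fun x : Fin m → Fin (M + 1) => ∑ i, (x i : ℕ) + M + 1 = k),
      (M + 1 - mis1 m M A x) : ℕ) : ℝ)
      ≤ 2 ^ (m - 1) * ((D + E) / (c₁ * J) + J * (M : ℝ) ^ (m - 1)) := by
    have e : (univ.filter (fun x : Fin m → Fin (M + 1) => ∑ i, (x i : ℕ) + M + 1 = k))
        = Lev.lev m M (k - M - 1) := by
      ext x
      rw [Lev.mem_lev, mem_filter]
      constructor
      · rintro ⟨_, h⟩
        omega
      · intro h
        exact ⟨mem_univ _, by omega⟩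
    rw [e]
    push_cast
    refine S4.one_side (g1 := fun x => (mis1 m M A x : ℝ)) (g2 := fun x => (mis3 m M A x : ℝ))
      (h2 := fun x => (ph3 m M A x : ℝ)) (r := k₃) hJ1 hJM hJk3 hc₁ hM1
      (fun x => Nat.cast_nonneg _) ?_ ?_ (lev_upper (by omega) _ _) cA cB hDb hE3
    · intro i h1 h2
      refine S4.av_present _ M _ (S4.mis1_le m M A) (add_nonneg
        (S4.av_nonneg' _ _ fun x => Nat.cast_nonneg _) (S4.av_nonneg' _ _ fun x => Nat.cast_nonneg _))
        ?_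
      have := lv_ge (m := m) (M := M) hA (σ₁ := k - M - 1) (σ₂ := k + i) (σ₃ := k₃ + 1 - i)
        (by omega)
      linarith
    · intro t ht y
      have e1 : (ph3 m M A (Fin.cons (⟨t, ht⟩ : Fin (M + 1)) y : Fin (m + 1) → Fin (M + 1)) : ℝ)
          = (mis3 m M A y : ℝ) - t - 1 := by
        unfold ph3
        rw [Fin.tail_cons, Fin.cons_zero]
        push_cast
        ring
      rw [e1]
      have := le_abs_self ((mis3 m M A y : ℝ) - t - 1)
      linarith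
  -- second side
  have s2 : ((∑ w ∈ univ.filter (fun w : Fin m → Fin (M + 1) => ∑ i, (w i : ℕ) + M + 1 = k₃),
      (M + 1 - mis3 m M A w) : ℕ) : ℝ)
      ≤ 2 ^ (m - 1) * ((D + E) / (c₁ * J) + J * (M : ℝ) ^ (m - 1)) := by
    rcases Nat.lt_or_ge k₃ (M + 1) with h3 | h3
    · have e : (univ.filter (fun x : Fin m → Fin (M + 1) => ∑ i, (x i : ℕ) + M + 1 = k₃)) = ∅ := by
        rw [filter_eq_empty_iff]
        intro x _
        omega
      rw [e, sum_empty, Nat.cast_zero]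
      have hE0 : 0 ≤ E := by rw [hE]; positivity
      positivity
    · have e : (univ.filter (fun x : Fin m → Fin (M + 1) => ∑ i, (x i : ℕ) + M + 1 = k₃))
          = Lev.lev m M (k₃ - M - 1) := by
        ext x
        rw [Lev.mem_lev, mem_filter]
        constructor
        · rintro ⟨_, h⟩
          omega
        · intro h
          exact ⟨mem_univ _, by omega⟩
      rw [e]
      push_cast
      refine S4.one_side (g1 := fun x => (mis1 m M A x : ℝ)) (g2 := fun x => (mis1 m M A x : ℝ))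
        (h2 := fun x => (ph1 m M A x : ℝ)) (r := k) hJ1 hJM hJk hc₁ hM1
        (fun x => Nat.cast_nonneg _) ?_ ?_ (lev_upper (by omega) _ _) cA cC hDb hE1
      · intro i h1 h2
        refine S4.av_present _ M _ (S4.mis3_le m M A) (add_nonneg
          (S4.av_nonneg' _ _ fun x => Nat.cast_nonneg _)
          (S4.av_nonneg' _ _ fun x => Nat.cast_nonneg _)) ?_
        have := lv_ge (m := m) (M := M) hA (σ₁ := k + i) (σ₂ := k + 1 - i) (σ₃ := k₃ - M - 1)
          (by omega)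
        linarith
      · intro t ht y
        have e1 : (ph1 m M A (Fin.cons (⟨t, ht⟩ : Fin (M + 1)) y : Fin (m + 1) → Fin (M + 1)) : ℝ)
            = (mis1 m M A y : ℝ) - t := by
          unfold ph1
          rw [Fin.tail_cons, Fin.cons_zero]
          push_cast
          ring
        rw [e1]
        have := le_abs_self ((mis1 m M A y : ℝ) - t)
        linarith
  -- the total
  have hJ0 : (0 : ℝ) < J := by linarith
  have t1 : D / (c₁ * J) ≤ D / (1000 * 2 ^ m) := by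
    refine div_le_div_of_nonneg_left hD0 (by positivity) ?_
    refine hMb.trans ?_
    rw [mul_assoc]
    exact mul_le_mul_of_nonneg_left hJlo hc₁.le
  have t2 : E / (c₁ * J) ≤ 2 ^ m * τ * (M : ℝ) ^ m / c₁ := by
    rw [div_le_div_iff₀ (by positivity) hc₁]
    have : E = 2 ^ m * τ * (M : ℝ) ^ m * (τ * M) := by
      rw [hE]
      ring
    rw [this]
    have h5 : 2 ^ m * τ * (M : ℝ) ^ m * (τ * M) ≤ 2 ^ m * τ * (M : ℝ) ^ m * J :=
      mul_le_mul_of_nonneg_left hJlo (by positivity)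
    calc 2 ^ m * τ * (M : ℝ) ^ m * (τ * M) * c₁ ≤ 2 ^ m * τ * (M : ℝ) ^ m * J * c₁ :=
          mul_le_mul_of_nonneg_right h5 hc₁.le
      _ = 2 ^ m * τ * (M : ℝ) ^ m * (c₁ * J) := by ring
  have t3 : (J : ℝ) * (M : ℝ) ^ (m - 1) ≤ 2 * τ * (M : ℝ) ^ m := by
    have e : (M : ℝ) ^ m = M * (M : ℝ) ^ (m - 1) := by
      rw [← pow_succ']
      congr 1
      omega
    rw [e]
    calc (J : ℝ) * (M : ℝ) ^ (m - 1) ≤ 2 * (τ * M) * (M : ℝ) ^ (m - 1) :=
          mul_le_mul_of_nonneg_right hJhi (by positivity)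
      _ = 2 * τ * (M * (M : ℝ) ^ (m - 1)) := by ring
  have e2 : (2 : ℝ) ^ m = 2 * 2 ^ (m - 1) := by
    rw [← pow_succ']
    congr 1
    omega
  have t4 : τ * K ≤ ζ := by
    rwa [le_div_iff₀ hK0] at hτ4
  have hMm : 0 < (M : ℝ) ^ m := by positivity
  have tot : (D + E) / (c₁ * J) + J * (M : ℝ) ^ (m - 1)
      ≤ D / (1000 * 2 ^ m) + 2 ^ m * τ * (M : ℝ) ^ m / c₁ + 2 * τ * (M : ℝ) ^ m := by
    rw [add_div]
    linarith
  have fin1 : 2 ^ m * (D / (1000 * 2 ^ m) + 2 ^ m * τ * (M : ℝ) ^ m / c₁ + 2 * τ * (M : ℝ) ^ m)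
      = 1 / 1000 * D + τ * K * (M : ℝ) ^ m := by
    rw [hK]
    field_simp
    ring
  calc _ ≤ 2 ^ (m - 1) * ((D + E) / (c₁ * J) + J * (M : ℝ) ^ (m - 1))
        + 2 ^ (m - 1) * ((D + E) / (c₁ * J) + J * (M : ℝ) ^ (m - 1)) := add_le_add s1 s2
    _ = 2 ^ m * ((D + E) / (c₁ * J) + J * (M : ℝ) ^ (m - 1)) := by
        rw [e2]
        ring
    _ ≤ 2 ^ m * (D / (1000 * 2 ^ m) + 2 ^ m * τ * (M : ℝ) ^ m / c₁ + 2 * τ * (M : ℝ) ^ m) :=
        mul_le_mul_of_nonneg_left tot (by positivity)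
    _ = 1 / 1000 * D + τ * K * (M : ℝ) ^ m := fin1
    _ ≤ 1 / 1000 * D + ζ * (M : ℝ) ^ m := by
        have := mul_le_mul_of_nonneg_right t4 hMm.le
        linarith

end Pool.Agent.Work.MP_0cd883_co.Rig
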