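import Pool.Agent.Work.MP_0cd883_co.Rig.S2
import Pool.Agent.Work.MP_0cd883_co.Rig.S3
import Pool.Agent.Work.MP_0cd883_co.Rig.S4
import Pool.Agent.Work.MP_0cd883_co.Exact.LevCount

/-! The linear inequality with small slack. -/

namespace Pool.Agent.Work.MP_0cd883_co.Rig

open Finset

/-- the sizes of the levels `k` and `k₃` -/
theorem S5.lam_two {m : ℕ} (hm : 2 ≤ m) {c u κ₁ κ₂ : ℝ} (hG : Cube.Good m c u κ₁ κ₂) :
    ∃ c₀ C : ℝ, 0 < c₀ ∧ 0 ≤ C ∧ ∃ M₀ : ℕ, ∀ M : ℕ, M₀ ≤ M → ∀ k k₃ : ℕ,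
    2 * k + k₃ = (m + 1) * M → |(k : ℝ) - c * M| ≤ 1 →
    c₀ * (M : ℝ) ^ m ≤ ((Lev.lev (m + 1) M k).card : ℝ) ∧
    0 < ((Lev.lev (m + 1) M k₃).card : ℝ) ∧
    |((Lev.lev (m + 1) M k).card : ℝ) - 2 * ((Lev.lev (m + 1) M k₃).card : ℝ)| ≤
      C * (M : ℝ) ^ m / M := by
  obtain ⟨C₀, hC₀, hlc⟩ := Exact.lev_count (n := m) (by omega)
  have hone := hG.one_lt
  have hsum := hG.sum
  have hu0 := hG.u_pos
  have huc := hG.u_lt
  have hcrit := hG.crit
  have hcast : ((m + 1 : ℕ) : ℝ) = m + 1 := by push_cast; ring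
  have hfc : 0 < Cube.f (m + 1) c := Cube.f_pos (by omega) (by linarith) (by rw [hcast]; linarith)
  have hfu : 0 < Cube.f (m + 1) u := Cube.f_pos (by omega) hu0 (by rw [hcast]; linarith)
  refine ⟨Cube.f (m + 1) c / 2, 3 * C₀ + 5, by positivity, by positivity,
    ⌈4 * (C₀ + 2) / Cube.f (m + 1) u⌉₊ + 1, fun M hM k k₃ hk hkc => ?_⟩
  have hM1 : 1 ≤ M := by omega
  have hM0 : (0 : ℝ) < M := by exact_mod_cast hM1
  have hP : (0 : ℝ) < (M : ℝ) ^ m := by positivity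
  have hbig : (C₀ + 2) / M ≤ Cube.f (m + 1) u / 4 := by
    have h1 : 4 * (C₀ + 2) / Cube.f (m + 1) u ≤ M :=
      (Nat.le_ceil _).trans (by exact_mod_cast (Nat.le_succ _).trans hM)
    rw [div_le_iff₀ hfu] at h1
    rw [div_le_iff₀ hM0]
    linarith
  have hkM : |(k : ℝ) / M - c| ≤ 1 / M := by
    have e : (k : ℝ) / M - c = ((k : ℝ) - c * M) / M := by field_simp
    rw [e, abs_div, abs_of_pos hM0]
    exact div_le_div_of_nonneg_right hkc hM0.le
  have hk3 : (k₃ : ℝ) = (m + 1) * M - 2 * k := by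
    have : (2 * (k : ℝ) + k₃) = (m + 1) * M := by exact_mod_cast hk
    linarith
  have hk3M : |(k₃ : ℝ) / M - u| ≤ 2 / M := by
    have e : (k₃ : ℝ) / M - u = -2 * ((k : ℝ) / M - c) := by
      rw [hk3, show u = m + 1 - 2 * c by linarith]
      field_simp
      ring
    rw [e, abs_mul, show |(-2 : ℝ)| = 2 by norm_num]
    calc 2 * |(k : ℝ) / M - c| ≤ 2 * (1 / M) := by linarith
      _ = 2 / M := by ring
  have h1 := hlc M hM1 k
  have h3 := hlc M hM1 k₃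
  have f1 := Cube.f_lip (n := m + 1) (by omega) ((k : ℝ) / M) c
  have f3 := Cube.f_lip (n := m + 1) (by omega) ((k₃ : ℝ) / M) u
  unfold Exact.L at h1 h3
  have e1 : |((Lev.lev (m + 1) M k).card : ℝ) / (M : ℝ) ^ m - Cube.f (m + 1) c| ≤ (C₀ + 1) / M := by
    have := abs_sub_le (((Lev.lev (m + 1) M k).card : ℝ) / (M : ℝ) ^ m)
      (Cube.f (m + 1) ((k : ℝ) / M)) (Cube.f (m + 1) c)
    calc _ ≤ _ := this
      _ ≤ C₀ / M + 1 / M := by linarith
      _ = (C₀ + 1) / M := by ring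
  have e3 : |((Lev.lev (m + 1) M k₃).card : ℝ) / (M : ℝ) ^ m - Cube.f (m + 1) u| ≤
      (C₀ + 2) / M := by
    have := abs_sub_le (((Lev.lev (m + 1) M k₃).card : ℝ) / (M : ℝ) ^ m)
      (Cube.f (m + 1) ((k₃ : ℝ) / M)) (Cube.f (m + 1) u)
    calc _ ≤ _ := this
      _ ≤ C₀ / M + 2 / M := by linarith
      _ = (C₀ + 2) / M := by ring
  set l1 := ((Lev.lev (m + 1) M k).card : ℝ) with hl1
  set l3 := ((Lev.lev (m + 1) M k₃).card : ℝ) with hl3
  have e1' := abs_le.1 e1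
  have e3' := abs_le.1 e3
  have hd1 : (C₀ + 1) / M ≤ (C₀ + 2) / M := by gcongr; linarith
  refine ⟨?_, ?_, ?_⟩
  · have : Cube.f (m + 1) c / 2 ≤ l1 / (M : ℝ) ^ m := by linarith
    rwa [le_div_iff₀ hP] at this
  · have : 0 < l3 / (M : ℝ) ^ m := by linarith
    by_contra hcon
    push Not at hcon
    have := div_nonpos_of_nonpos_of_nonneg hcon hP.le
    linarith
  · have e : l1 - 2 * l3 = (M : ℝ) ^ m * ((l1 / (M : ℝ) ^ m - Cube.f (m + 1) c)
        - 2 * (l3 / (M : ℝ) ^ m - Cube.f (m + 1) u)) := by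
      rw [hcrit]
      field_simp
      ring
    rw [e, abs_mul, abs_of_pos hP]
    have h5 : |(l1 / (M : ℝ) ^ m - Cube.f (m + 1) c) - 2 * (l3 / (M : ℝ) ^ m - Cube.f (m + 1) u)| ≤
        (3 * C₀ + 5) / M := by
      have e5 : (3 * C₀ + 5) / M = (C₀ + 1) / M + 2 * ((C₀ + 2) / M) := by ring
      rw [e5, abs_le]
      constructor <;> linarith [e1'.1, e1'.2, e3'.1, e3'.2]
    calc (M : ℝ) ^ m * _ ≤ (M : ℝ) ^ m * ((3 * C₀ + 5) / M) :=
          mul_le_mul_of_nonneg_left h5 hP.le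
      _ = _ := by ring

theorem S5.split {m M : ℕ} (b : (Fin m → Fin (M + 1)) → ℕ) (k : ℕ) :
    (∑ x ∈ univ.filter (fun x : Fin m → Fin (M + 1) => ∑ i, (x i : ℕ) + M < k), b x) =
    (∑ x ∈ univ.filter (fun x : Fin m → Fin (M + 1) => ∑ i, (x i : ℕ) + M + 1 < k), b x)
    + ∑ x ∈ univ.filter (fun x : Fin m → Fin (M + 1) => ∑ i, (x i : ℕ) + M + 1 = k), b x := by
  rw [← sum_union]
  · congr 1
    ext x
    simp only [mem_filter, mem_univ, true_and, mem_union]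
    omega
  · rw [disjoint_left]
    intro x hx hx'
    simp only [mem_filter, mem_univ, true_and] at hx hx'
    omega

/-- the linear inequality: the sum of the averages is small and few points are outside the
windows -/
theorem partA {m : ℕ} (hm : 2 ≤ m) {c u κ₁ κ₂ : ℝ} (hG : Cube.Good m c u κ₁ κ₂) {ζ : ℝ}
    (hζ : 0 < ζ) :
    ∃ η : ℝ, 0 < η ∧ ∃ M₀ : ℕ, ∀ M : ℕ, M₀ ≤ M → ∀ k k₃ : ℕ,
    ∀ A : Finset (Fin (m + 1) → ℕ), Nr m M k k₃ c A →
    av (Lev.lev (m + 1) M k) (fun x => |(ph1 m M A x : ℝ)|) ≤ η * M →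
    av (Lev.lev (m + 1) M k₃) (fun x => |(ph3 m M A x : ℝ)|) ≤ η * M →
    2 * av (Lev.lev (m + 1) M k) (fun x => (ph1 m M A x : ℝ))
      + av (Lev.lev (m + 1) M k₃) (fun x => (ph3 m M A x : ℝ)) ≤ ζ ∧
    (lowC m M A k : ℝ) ≤ ζ * (M : ℝ) ^ m ∧ (highC m M A k₃ : ℝ) ≤ ζ * (M : ℝ) ^ m := by
  obtain ⟨c₀, C, hc₀, hC, M₁, hlam⟩ := S5.lam_two hm hG
  obtain ⟨ε, hε, M₂, hloads⟩ := loads hm hG
  -- the small constant
  set ξ : ℝ := min (ζ * c₀ / 8) (ζ / 400) with hξ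
  have hξ0 : 0 < ξ := by positivity
  obtain ⟨η₁, hη₁, M₃, hbdry⟩ := bdry hm hG (ζ := ξ) hξ0
  set η : ℝ := min η₁ (ξ / (C + 1)) with hη
  have hη0 : 0 < η := by positivity
  refine ⟨η, hη0, max (max M₁ M₂) (max M₃ (⌈1 / ε⌉₊ + ⌈1 / η₁⌉₊ + ⌈1 / (c - 1)⌉₊ + 1)),
    fun M hM k k₃ A hA h1 h3 => ?_⟩
  have hM1 : M₁ ≤ M := (le_max_left _ _).trans ((le_max_left _ _).trans hM)
  have hM2 : M₂ ≤ M := (le_max_right _ _).trans ((le_max_left _ _).trans hM)
  have hM3 : M₃ ≤ M := (le_max_left _ _).trans ((le_max_right _ _).trans hM)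
  have hM4 : ⌈1 / ε⌉₊ + ⌈1 / η₁⌉₊ + ⌈1 / (c - 1)⌉₊ + 1 ≤ M := (le_max_right _ _).trans ((le_max_right _ _).trans hM)
  have hMpos : 1 ≤ M := by omega
  have hM0 : (0 : ℝ) < M := by exact_mod_cast hMpos
  have hP : (0 : ℝ) < (M : ℝ) ^ m := by positivity
  have hεM : 1 ≤ ε * M := by
    have : 1 / ε ≤ M := (Nat.le_ceil _).trans (by
      have : ⌈1 / ε⌉₊ ≤ M := by omega
      exact_mod_cast this)
    rwa [div_le_iff₀ hε, mul_comm] at this
  have hηM : 1 ≤ η₁ * M := by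
    have : 1 / η₁ ≤ M := (Nat.le_ceil _).trans (by
      have : ⌈1 / η₁⌉₊ ≤ M := by omega
      exact_mod_cast this)
    rwa [div_le_iff₀ hη₁, mul_comm] at this
  obtain ⟨hl1, hl3, hl13⟩ := hlam M hM1 k k₃ hA.sum hA.near
  -- the levels of the deep part
  obtain ⟨L, hL⟩ : ∃ L, L = (3 * k + 1 - M) / 2 := ⟨_, rfl⟩
  obtain ⟨L', hL'⟩ : ∃ L', L' = (2 * k₃ + k + 2 - M) / 2 := ⟨_, rfl⟩
  have hkM : M ≤ k := by
    have h4 := (abs_le.1 hA.near).1
    have h5 := hG.one_lt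
    have h6 : 1 / (c - 1) ≤ M := (Nat.le_ceil _).trans (by
      have : ⌈1 / (c - 1)⌉₊ ≤ M := by omega
      exact_mod_cast this)
    rw [div_le_iff₀ (by linarith)] at h6
    have h7 : (M : ℝ) ≤ k := by nlinarith
    exact_mod_cast h7
  have hsum := hA.sum
  have hmM : (m + 1) * M = m * M + M := by ring
  have hmM' : m * (M + 1) = m * M + m := by ring
  have hLk : k ≤ L := by omega
  have hLk' : k₃ ≤ L' := by omega
  have hLL : L + L' < m * (M + 1) := by omega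
  have hc := count_ge hA.sub hA.sum hLk hLk' hLL
  have hbig := hA.big
  have hlo := hloads M hM2 k k₃ hA.sum (hA.near.trans hεM) A hA.sf L L' (by omega) (by omega)
  have hbd := hbdry M hM3 k k₃ hA.sum (hA.near.trans hηM) A hA.sf
    (h1.trans (mul_le_mul_of_nonneg_right (min_le_left _ _) hM0.le))
    (h3.trans (mul_le_mul_of_nonneg_right (min_le_left _ _) hM0.le)) L L' (by omega) (by omega)
  -- the sums over the two levels
  set l1 := ((Lev.lev (m + 1) M k).card : ℝ) with hl1d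
  set l3 := ((Lev.lev (m + 1) M k₃).card : ℝ) with hl3d
  have hl1pos : 0 < l1 := lt_of_lt_of_le (mul_pos hc₀ hP) hl1
  set a1 := av (Lev.lev (m + 1) M k) (fun x => (ph1 m M A x : ℝ)) with ha1
  set a3 := av (Lev.lev (m + 1) M k₃) (fun x => (ph3 m M A x : ℝ)) with ha3
  have s1 : (∑ x ∈ Lev.lev (m + 1) M k, (ph1 m M A x : ℝ)) = l1 * a1 := by
    rw [ha1]
    unfold av
    rw [mul_div_cancel₀ _ hl1pos.ne']
  have s3 : (∑ x ∈ Lev.lev (m + 1) M k₃, (ph3 m M A x : ℝ)) = l3 * a3 := by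
    rw [ha3]
    unfold av
    rw [mul_div_cancel₀ _ hl3.ne']
  have hV : 0 ≤ 2 * a1 + a3 := by
    have had := ad_fam (M := M) hA.sf hA.sum
    have hli := Lev.li (n := m + 1) (M := M) (j := ![k, k, k₃]) (κ := 0)
      (g := fun i x => (fam m M A i x : ℝ)) (by
        rw [Fin.sum_univ_three]
        show k + k + k₃ = (m + 1) * M
        omega) (by
        intro x hx hs
        have h0 := had x hx hs
        have h0' : (0 : ℝ) ≤ ((∑ i, fam m M A i (x i) : ℤ) : ℝ) := by exact_mod_cast h0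
        push_cast at h0'
        exact h0')
    rw [Fin.sum_univ_three] at hli
    have e : (0 : ℝ) ≤ a1 + a1 + a3 := hli
    linarith
  have ha3abs : |a3| ≤ η * M := by
    refine le_trans ?_ h3
    rw [ha3]
    unfold av
    rw [abs_div, abs_of_pos hl3]
    exact div_le_div_of_nonneg_right (abs_sum_le_sum_abs _ _) hl3.le
  -- the counting inequality in the reals
  have hc' : (l1 * a1 + l3 * a3) - lowC m M A k - highC m M A k₃ + deepC m M A k k₃ L L' ≤ 0 := by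
    rw [← s1, ← s3]
    have h5 : (∑ x ∈ Lev.lev (m + 1) M k, ph1 m M A x + ∑ w ∈ Lev.lev (m + 1) M k₃, ph3 m M A w
      - lowC m M A k - highC m M A k₃ + deepC m M A k k₃ L L') ≤ 0 := by
      have : ((Exact.Astar (m + 1) (M + 2) (k + m + 1)).card : ℤ) ≤ A.card := by
        exact_mod_cast hbig
      linarith
    exact_mod_cast h5
  have hlow : (lowC m M A k : ℝ) =
      ((∑ x ∈ univ.filter (fun x : Fin m → Fin (M + 1) => ∑ i, (x i : ℕ) + M + 1 < k),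
        (M + 1 - mis1 m M A x) : ℕ) : ℝ)
      + ((∑ x ∈ univ.filter (fun x : Fin m → Fin (M + 1) => ∑ i, (x i : ℕ) + M + 1 = k),
        (M + 1 - mis1 m M A x) : ℕ) : ℝ) := by
    rw [lowC, S5.split]
    push_cast
    rfl
  have hhigh : (highC m M A k₃ : ℝ) =
      ((∑ x ∈ univ.filter (fun x : Fin m → Fin (M + 1) => ∑ i, (x i : ℕ) + M + 1 < k₃),
        (M + 1 - mis3 m M A x) : ℕ) : ℝ)
      + ((∑ x ∈ univ.filter (fun x : Fin m → Fin (M + 1) => ∑ i, (x i : ℕ) + M + 1 = k₃),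
        (M + 1 - mis3 m M A x) : ℕ) : ℝ) := by
    rw [highC, S5.split]
    push_cast
    rfl
  set D := (deepC m M A k k₃ L L' : ℝ) with hD
  have hD0 : 0 ≤ D := by rw [hD]; positivity
  have hlh : (lowC m M A k : ℝ) + highC m M A k₃ ≤ 986 / 1000 * D + ξ * (M : ℝ) ^ m := by
    rw [hlow, hhigh]
    linarith
  have hlow0 : (0 : ℝ) ≤ lowC m M A k := by positivity
  have hhigh0 : (0 : ℝ) ≤ highC m M A k₃ := by positivity
  -- the correction
  have hcor : |(l3 - l1 / 2) * a3| ≤ ξ * (M : ℝ) ^ m := by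
    rw [abs_mul]
    have e : |l3 - l1 / 2| = |l1 - 2 * l3| / 2 := by
      rw [show l3 - l1 / 2 = -(l1 - 2 * l3) / 2 by ring, abs_div, abs_neg,
        show |(2 : ℝ)| = 2 by norm_num]
    rw [e]
    have h6 : η * (C + 1) ≤ ξ := by
      have := min_le_right η₁ (ξ / (C + 1))
      rw [← hη, le_div_iff₀ (by linarith)] at this
      exact this
    calc |l1 - 2 * l3| / 2 * |a3| ≤ (C * (M : ℝ) ^ m / M) / 2 * (η * M) := by
          gcongr
      _ = η * C / 2 * (M : ℝ) ^ m := by field_simp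
      _ ≤ ξ * (M : ℝ) ^ m := by
          refine mul_le_mul_of_nonneg_right ?_ hP.le
          nlinarith
  have hcor' := (abs_le.1 hcor).1
  have e6 : l1 * a1 + l3 * a3 = l1 / 2 * (2 * a1 + a3) + (l3 - l1 / 2) * a3 := by ring
  have key : l1 / 2 * (2 * a1 + a3) + 14 / 1000 * D ≤ 2 * (ξ * (M : ℝ) ^ m) := by
    linarith
  have hξ1 : ξ ≤ ζ * c₀ / 8 := min_le_left _ _
  have hξ2 : ξ ≤ ζ / 400 := min_le_right _ _
  have hV1 : 0 ≤ l1 / 2 * (2 * a1 + a3) := mul_nonneg (by linarith) hV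
  have hξP : 0 ≤ ξ * (M : ℝ) ^ m := by positivity
  have hDb : D ≤ 143 * (ξ * (M : ℝ) ^ m) := by linarith
  have hζ0 : 0 ≤ ζ * (M : ℝ) ^ m := by positivity
  have hζP : ξ * (M : ℝ) ^ m ≤ ζ * (M : ℝ) ^ m / 400 := by
    calc ξ * (M : ℝ) ^ m ≤ ζ / 400 * (M : ℝ) ^ m := mul_le_mul_of_nonneg_right hξ2 hP.le
      _ = _ := by ring
  refine ⟨?_, by linarith, by linarith⟩
  · by_contra hcon
    push Not at hcon
    have h8 : c₀ * (M : ℝ) ^ m / 2 * ζ < l1 / 2 * (2 * a1 + a3) := by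
      calc c₀ * (M : ℝ) ^ m / 2 * ζ ≤ l1 / 2 * ζ := by
            refine mul_le_mul_of_nonneg_right ?_ hζ.le
            linarith
        _ < l1 / 2 * (2 * a1 + a3) := mul_lt_mul_of_pos_left hcon (by linarith)
    have h9 : 2 * (ξ * (M : ℝ) ^ m) ≤ c₀ * (M : ℝ) ^ m / 2 * ζ := by
      have h10 : 2 * ξ ≤ c₀ * ζ / 2 := by
        have : 0 < ζ * c₀ := by positivity
        linarith
      calc 2 * (ξ * (M : ℝ) ^ m) = 2 * ξ * (M : ℝ) ^ m := by ring
        _ ≤ c₀ * ζ / 2 * (M : ℝ) ^ m := mul_le_mul_of_nonneg_right h10 hP.le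
        _ = _ := by ring
    have hD1 : 0 ≤ 14 / 1000 * D := by positivity
    linarith

end Pool.Agent.Work.MP_0cd883_co.Rig
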