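import Pool.Agent.Work.MP_0cd883_co.Rig.SideDefs
import Pool.Agent.Work.MP_0cd883_co.Cube.ModS4
import Pool.Agent.Work.MP_0cd883_co.Cube.Core
import Pool.Agent.Work.MP_0cd883_co.Cube.ModO1
import Pool.Agent.Work.MP_0cd883_co.Exact.LevCount

namespace Pool.Agent.Work.MP_0cd883_co.Rig

open Finset

namespace S6

/-- the point of the fibre over `x`, summand coordinates -/
def pt1 {m M : ℕ} (t : Fin (M + 1)) (x : Fin m → Fin (M + 1)) : Fin (m + 1) → ℕ :=
  fun i => ((Fin.cons t x : Fin (m + 1) → Fin (M + 1)) i : ℕ) + 1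

/-- the point of the fibre over `w`, sum coordinates -/
def pt3 {m M : ℕ} (t : Fin (M + 1)) (w : Fin m → Fin (M + 1)) : Fin (m + 1) → ℕ :=
  fun i => M + 2 - ((Fin.cons t w : Fin (m + 1) → Fin (M + 1)) i : ℕ)

theorem pt1_zero {m M : ℕ} (t : Fin (M + 1)) (x : Fin m → Fin (M + 1)) : pt1 t x 0 = t + 1 := rfl

theorem pt1_succ {m M : ℕ} (t : Fin (M + 1)) (x : Fin m → Fin (M + 1)) (j : Fin m) :
    pt1 t x j.succ = x j + 1 := by
  simp [pt1]

theorem pt3_zero {m M : ℕ} (t : Fin (M + 1)) (x : Fin m → Fin (M + 1)) :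
    pt3 t x 0 = M + 2 - t := rfl

theorem pt3_succ {m M : ℕ} (t : Fin (M + 1)) (x : Fin m → Fin (M + 1)) (j : Fin m) :
    pt3 t x j.succ = M + 2 - x j := by
  simp [pt3]

theorem sum_pt1 {m M : ℕ} (t : Fin (M + 1)) (x : Fin m → Fin (M + 1)) :
    ∑ i, pt1 t x i = t + ∑ j, (x j : ℕ) + (m + 1) := by
  rw [Fin.sum_univ_succ, pt1_zero]
  simp only [pt1_succ, sum_add_distrib, sum_const, card_univ, Fintype.card_fin, smul_eq_mul,
    mul_one]
  ring

theorem sum_pt3 {m M : ℕ} (t : Fin (M + 1)) (x : Fin m → Fin (M + 1)) :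
    ∑ i, pt3 t x i + (t + ∑ j, (x j : ℕ)) = (m + 1) * (M + 2) := by
  rw [Fin.sum_univ_succ, pt3_zero]
  have h : ∑ j : Fin m, pt3 t x j.succ + ∑ j, (x j : ℕ) = m * (M + 2) := by
    rw [← sum_add_distrib]
    have : ∀ j : Fin m, pt3 t x j.succ + (x j : ℕ) = M + 2 := fun j => by
      have := (x j).2
      rw [pt3_succ]
      omega
    rw [sum_congr rfl fun j _ => this j]
    simp
  have ht := t.2
  have e : (m + 1) * (M + 2) = m * (M + 2) + (M + 2) := by ring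
  omega

/-- the fibres over the points of a level are disjoint -/
theorem sum_le {m M k : ℕ} (pt : Fin (M + 1) → (Fin m → Fin (M + 1)) → Fin (m + 1) → ℕ)
    (hpt : ∀ t x t' x', pt t x = pt t' x' → t = t' ∧ x = x') (D : Finset (Fin (m + 1) → ℕ)) :
    ∑ x ∈ Lev.lev (m + 1) M k, (univ.filter fun t => pt t (Fin.tail x) ∈ D).card ≤ D.card := by
  rw [← card_sigma]
  refine card_le_card_of_injOn (fun y => pt y.2 (Fin.tail y.1)) ?_ ?_
  · intro y hy
    rw [mem_coe, mem_sigma, mem_filter] at hy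
    exact hy.2.2
  · rintro ⟨x, t⟩ hy ⟨x', t'⟩ hy' h
    rw [mem_coe, mem_sigma] at hy hy'
    obtain ⟨h1, h2⟩ := hpt _ _ _ _ h
    simp only at h1 h2
    subst h1
    have hx := Lev.mem_lev.1 hy.1
    have hx' := Lev.mem_lev.1 hy'.1
    simp only at hx hx'
    rw [Fin.sum_univ_succ] at hx hx'
    have h3 : ∀ j : Fin m, x j.succ = x' j.succ := fun j => congrFun h2 j
    have h4 : x 0 = x' 0 := by
      apply Fin.ext
      rw [sum_congr rfl fun j _ => by rw [h3 j]] at hx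
      omega
    have h5 : x = x' := by
      funext i
      exact Fin.cases h4 h3 i
    subst h5
    rfl

theorem pt1_inj {m M : ℕ} (t : Fin (M + 1)) (x : Fin m → Fin (M + 1)) (t' : Fin (M + 1))
    (x' : Fin m → Fin (M + 1)) (h : pt1 t x = pt1 t' x') : t = t' ∧ x = x' := by
  constructor
  · have := congrFun h 0
    rw [pt1_zero, pt1_zero] at this
    apply Fin.ext
    omega
  · funext j
    have := congrFun h j.succ
    rw [pt1_succ, pt1_succ] at this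
    apply Fin.ext
    omega

theorem pt3_inj {m M : ℕ} (t : Fin (M + 1)) (x : Fin m → Fin (M + 1)) (t' : Fin (M + 1))
    (x' : Fin m → Fin (M + 1)) (h : pt3 t x = pt3 t' x') : t = t' ∧ x = x' := by
  constructor
  · have := congrFun h 0
    rw [pt3_zero, pt3_zero] at this
    have h1 := t.2
    have h2 := t'.2
    apply Fin.ext
    omega
  · funext j
    have := congrFun h j.succ
    rw [pt3_succ, pt3_succ] at this
    have h1 := (x j).2
    have h2 := (x' j).2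
    apply Fin.ext
    omega

theorem card_lt {M a : ℕ} : (univ.filter fun t : Fin (M + 1) => (t : ℕ) < a).card ≤ a := by
  have h := card_le_card_of_injOn (s := univ.filter fun t : Fin (M + 1) => (t : ℕ) < a)
    (t := range a) (fun t => (t : ℕ)) (fun t ht => by
      rw [mem_coe, mem_filter] at ht
      exact mem_coe.2 (mem_range.2 ht.2)) (fun t _ t' _ h => Fin.ext h)
  rwa [card_range] at h

theorem card_ge {M a C : ℕ} (ha : a ≤ M) :
    a ≤ (univ.filter fun t : Fin (M + 1) => (t : ℕ) + C ≤ a).card + C := by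
  rcases Nat.lt_or_ge a C with h | h
  · omega
  · have h1 : (range (a - C)).card ≤ (univ.filter fun t : Fin (M + 1) => (t : ℕ) + C ≤ a).card := by
      refine (card_le_card (t := (univ.filter fun t : Fin (M + 1) => (t : ℕ) + C ≤ a).image
        fun t : Fin (M + 1) => (t : ℕ)) fun n hn => ?_).trans card_image_le
      have hn1 := mem_range.1 hn
      exact mem_image.2 ⟨⟨n, by omega⟩, mem_filter.2 ⟨mem_univ _, by simp only; omega⟩, rfl⟩
    rw [card_range] at h1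
    omega

/-- a fibre of a set close to a half line -/
theorem fibre {M a C : ℕ} (ha : a ≤ M) (P Q : Fin (M + 1) → Prop) [DecidablePred P]
    [DecidablePred Q] (h1 : ∀ t : Fin (M + 1), a + C ≤ t → ¬ Q t → P t)
    (h2 : ∀ t : Fin (M + 1), (t : ℕ) + C ≤ a → ¬ Q t → ¬ P t) :
    |(((univ.filter fun t => ¬ P t).card : ℤ) : ℝ) - a| ≤ C + (univ.filter Q).card := by
  have e1 : (univ.filter fun t => ¬ P t).card ≤ (a + C) + (univ.filter Q).card := by
    refine (card_le_card (t := (univ.filter fun t : Fin (M + 1) => (t : ℕ) < a + C) ∪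
      univ.filter Q) fun t ht => ?_).trans ((card_union_le _ _).trans
        (Nat.add_le_add_right card_lt _))
    rw [mem_union, mem_filter, mem_filter]
    by_cases hQ : Q t
    · exact Or.inr ⟨mem_univ _, hQ⟩
    · left
      refine ⟨mem_univ _, ?_⟩
      by_contra hcon
      exact (mem_filter.1 ht).2 (h1 t (not_lt.1 hcon) hQ)
  have e2 : a ≤ ((univ.filter fun t => ¬ P t).card + (univ.filter Q).card) + C := by
    refine (card_ge (C := C) ha).trans (Nat.add_le_add_right ?_ _)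
    refine (card_le_card (t := (univ.filter fun t => ¬ P t) ∪ univ.filter Q) fun t ht => ?_).trans
      (card_union_le _ _)
    rw [mem_union, mem_filter, mem_filter]
    by_cases hQ : Q t
    · exact Or.inr ⟨mem_univ _, hQ⟩
    · exact Or.inl ⟨mem_univ _, h2 t (mem_filter.1 ht).2 hQ⟩
  have e1' : (((univ.filter fun t => ¬ P t).card : ℕ) : ℝ) ≤ (a + C) + (univ.filter Q).card := by
    exact_mod_cast e1
  have e2' : (a : ℝ) ≤ ((univ.filter fun t => ¬ P t).card + (univ.filter Q).card) + C := by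
    exact_mod_cast e2
  rw [abs_le]
  push_cast
  constructor <;> linarith

theorem slab_ge {d N : ℕ} (hd : 1 ≤ d) (hN : 1 ≤ N) (c : ℝ) :
    1 - ((Cube.slab d N c).card : ℝ) / (N : ℝ) ^ d ≤
      Cube.F d c + Cube.F d (d - 2 * c) + 2 * d / N := by
  have hN' : (0 : ℝ) < N := by exact_mod_cast hN
  have h1 := Cube.slab_card (d := d) hN c
  have h2 := Cube.count_upper hd hN (c - d / N)
  rw [sub_add_cancel] at h2
  have h3 := Cube.count_lower hd hN (2 * c - d / N)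
  have h4 : Cube.Av (fun x : Fin d → Fin N => Cube.ind (Cube.lev x < 2 * c - d / N)) ≤
      Cube.Av (fun x : Fin d → Fin N => Cube.ind (Cube.lev x ≤ 2 * c - d / N)) :=
    Cube.Av_mono fun x => Cube.ind_mono fun h => h.le
  have h5 := Cube.F_symm hd (2 * c)
  have h6 := abs_le.1 (Cube.F_lip hd (2 * c) (2 * c - d / N))
  have h7 : |2 * c - (2 * c - (d : ℝ) / N)| = d / N := by
    rw [sub_sub_cancel, abs_of_nonneg (by positivity)]
  rw [h7] at h6
  have h9 : (2 : ℝ) * d / N = d / N + d / N := by ring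
  have h10 : (0 : ℝ) ≤ d / N := by positivity
  rw [h9, h5]
  linarith [h6.2]

theorem slab_sub {d N v : ℕ} (hN : 1 ≤ N) :
    Cube.slab d N ((v - 1 / 2 : ℝ) / N) ⊆ Exact.Astar d N v := by
  have hN' : (0 : ℝ) < N := by exact_mod_cast hN
  intro x hx
  unfold Cube.slab at hx
  rw [mem_filter, div_mul_cancel₀ _ hN'.ne', mul_div_assoc', div_mul_cancel₀ _ hN'.ne'] at hx
  obtain ⟨h1, h2, h3⟩ := hx
  unfold Exact.Astar
  rw [mem_filter]
  have e : ∑ i, (x i : ℝ) = ((∑ i, x i : ℕ) : ℝ) := by push_cast; rfl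
  rw [e] at h2 h3
  refine ⟨h1, Or.inl ?_, Or.inl ?_⟩
  · have : (v : ℝ) < ((∑ i, x i + 1 : ℕ) : ℝ) := by push_cast at h2 ⊢; linarith
    have h4 : v < ∑ i, x i + 1 := by exact_mod_cast this
    omega
  · have : ((∑ i, x i + 1 : ℕ) : ℝ) ≤ ((2 * v : ℕ) : ℝ) := by push_cast at h3 ⊢; linarith
    exact_mod_cast this

theorem big {m : ℕ} (hm : 2 ≤ m) {c u κ₁ κ₂ : ℝ} (hG : Cube.Good m c u κ₁ κ₂) {η : ℝ}
    (hη : 0 < η) : ∃ M₀ : ℕ, ∀ M : ℕ, M₀ ≤ M → ∀ k k₃ : ℕ,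
    ∀ A : Finset (Fin (m + 1) → ℕ), Nr m M k k₃ c A →
    (1 - Cube.F (m + 1) c - Cube.F (m + 1) u - η) * ((M + 2 : ℕ) : ℝ) ^ (m + 1) ≤ A.card := by
  have hc1 := hG.one_lt
  have hsum := hG.sum
  set B : ℝ := 3 * (m + 3 / 2 + 2 * c) + 2 * (m + 1) with hB
  have hB0 : 0 < B := by positivity
  refine ⟨⌈B / η⌉₊, fun M hM k k₃ A hA => ?_⟩
  have hN' : (0 : ℝ) < ((M + 2 : ℕ) : ℝ) := by positivity
  have hBM : B / ((M + 2 : ℕ) : ℝ) ≤ η := by
    rw [div_le_iff₀ hN']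
    have h1 : B / η ≤ M := (Nat.le_ceil _).trans (by exact_mod_cast hM)
    rw [div_le_iff₀ hη] at h1
    push_cast
    nlinarith
  set c' : ℝ := (((k + m + 1 : ℕ) : ℝ) - 1 / 2) / ((M + 2 : ℕ) : ℝ) with hc'
  have h1 := slab_ge (d := m + 1) (N := M + 2) (by omega) (by omega) c'
  have h2 : ((Cube.slab (m + 1) (M + 2) c').card : ℝ) ≤ A.card := by
    exact_mod_cast (card_le_card (slab_sub (by omega))).trans hA.big
  have hcc : |c' - c| ≤ (m + 3 / 2 + 2 * c) / ((M + 2 : ℕ) : ℝ) := by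
    have e : c' - c = ((k : ℝ) - c * M + (m + 1 / 2 - 2 * c)) / ((M + 2 : ℕ) : ℝ) := by
      rw [hc', eq_div_iff hN'.ne', sub_mul, div_mul_cancel₀ _ hN'.ne']
      push_cast
      ring
    rw [e, abs_div, abs_of_pos hN']
    refine div_le_div_of_nonneg_right ?_ hN'.le
    have h3 := hA.near
    rw [abs_le] at h3 ⊢
    constructor <;> linarith [h3.1, h3.2, (Nat.cast_nonneg m : (0 : ℝ) ≤ m)]
  have h3 := abs_le.1 (Cube.F_lip (n := m + 1) (by omega) c' c)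
  have h4 := abs_le.1 (Cube.F_lip (n := m + 1) (by omega) (((m + 1 : ℕ) : ℝ) - 2 * c') u)
  have h5 : |((m + 1 : ℕ) : ℝ) - 2 * c' - u| = 2 * |c' - c| := by
    have : ((m + 1 : ℕ) : ℝ) - 2 * c' - u = -(2 * (c' - c)) := by push_cast; linarith
    rw [this, abs_neg, abs_mul, abs_of_pos (by norm_num : (0 : ℝ) < 2)]
  rw [h5] at h4
  have h6 : 1 - (A.card : ℝ) / ((M + 2 : ℕ) : ℝ) ^ (m + 1) ≤
      1 - ((Cube.slab (m + 1) (M + 2) c').card : ℝ) / ((M + 2 : ℕ) : ℝ) ^ (m + 1) :=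
    sub_le_sub_left (div_le_div_of_nonneg_right h2 (by positivity)) _
  have h7 : 3 * ((m + 3 / 2 + 2 * c) / ((M + 2 : ℕ) : ℝ)) + 2 * ((m + 1 : ℕ) : ℝ) / ((M + 2 : ℕ) : ℝ)
      = B / ((M + 2 : ℕ) : ℝ) := by
    rw [hB]
    push_cast
    ring
  have h8 : 1 - Cube.F (m + 1) c - Cube.F (m + 1) u - η ≤
      (A.card : ℝ) / ((M + 2 : ℕ) : ℝ) ^ (m + 1) := by
    linarith [h3.2, h4.2]
  rwa [le_div_iff₀ (by positivity)] at h8

theorem lev_ge {m : ℕ} (hm : 2 ≤ m) {v : ℝ} (h0 : 0 < v) (h1 : v < m + 1) (B : ℝ) (hB : 0 ≤ B) :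
    ∃ κ : ℝ, 0 < κ ∧ ∃ M₀ : ℕ, ∀ M : ℕ, M₀ ≤ M → ∀ j : ℕ, |(j : ℝ) - v * M| ≤ B →
      κ * (M : ℝ) ^ m ≤ ((Lev.lev (m + 1) M j).card : ℝ) := by
  obtain ⟨C, hC, hcount⟩ := Exact.lev_count (n := m) (by omega)
  have hf := Cube.f_pos (n := m + 1) (by omega) h0 (by push_cast; exact h1)
  refine ⟨Cube.f (m + 1) v / 2, by positivity, ⌈2 * (B + C) / Cube.f (m + 1) v⌉₊ + 1,
    fun M hM j hj => ?_⟩
  have hM0 : (0 : ℝ) < M := by
    have : 0 < M := by omega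
    exact_mod_cast this
  have h2 := (abs_le.1 (hcount M (by omega) j)).1
  have h3 := (abs_le.1 (Cube.f_lip (n := m + 1) (by omega) (j / M) v)).1
  have h4 : |(j : ℝ) / M - v| ≤ B / M := by
    have : (j : ℝ) / M - v = (j - v * M) / M := by field_simp
    rw [this, abs_div, abs_of_pos hM0]
    exact div_le_div_of_nonneg_right hj hM0.le
  have h5 : (B + C) / M ≤ Cube.f (m + 1) v / 2 := by
    rw [div_le_iff₀ hM0]
    have h6 : 2 * (B + C) / Cube.f (m + 1) v ≤ M :=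
      (Nat.le_ceil _).trans (by exact_mod_cast (Nat.le_succ _).trans hM)
    rw [div_le_iff₀ hf] at h6
    linarith
  rw [add_div] at h5
  have h6 : Cube.f (m + 1) v / 2 ≤ (Exact.L (m + 1) M j : ℝ) / (M : ℝ) ^ m := by linarith
  rwa [le_div_iff₀ (by positivity)] at h6

theorem mem_slab {d N : ℕ} {c : ℝ} {x : Fin d → ℕ} : x ∈ Cube.slab d N c ↔
    x ∈ grid d N ∧ c * N < ((∑ i, x i : ℕ) : ℝ) ∧ ((∑ i, x i : ℕ) : ℝ) ≤ 2 * c * N := by
  unfold Cube.slab
  rw [mem_filter]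
  push_cast
  rfl

theorem pt1_mem {m M : ℕ} (t : Fin (M + 1)) (x : Fin m → Fin (M + 1)) :
    pt1 t x ∈ grid (m + 1) (M + 2) := by
  unfold grid
  rw [Fintype.mem_piFinset]
  intro i
  rw [mem_Icc]
  have h := ((Fin.cons t x : Fin (m + 1) → Fin (M + 1)) i).2
  unfold pt1
  omega

theorem pt3_mem {m M : ℕ} (t : Fin (M + 1)) (x : Fin m → Fin (M + 1)) :
    pt3 t x ∈ grid (m + 1) (M + 2) := by
  unfold grid
  rw [Fintype.mem_piFinset]
  intro i
  rw [mem_Icc]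
  have h := ((Fin.cons t x : Fin (m + 1) → Fin (M + 1)) i).2
  unfold pt3
  omega

/-- one fibre, summand coordinates -/
theorem one1 {m M k k₃ : ℕ} {c : ℝ} {A : Finset (Fin (m + 1) → ℕ)} (hA : Nr m M k k₃ c A)
    (hc1 : 1 < c) {C : ℕ} (hC : 4 * c + m + 4 ≤ C) (hM : m + 2 + 4 * c ≤ (c - 1) * M)
    {x : Fin (m + 1) → Fin (M + 1)} (hx : x ∈ Lev.lev (m + 1) M k) {D : Finset (Fin (m + 1) → ℕ)}
    (hD : (A \ Cube.slab (m + 1) (M + 2) c) ∪ (Cube.slab (m + 1) (M + 2) c \ A) ⊆ D) :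
    |(ph1 m M A x : ℝ)| ≤ C + (univ.filter fun t => pt1 t (Fin.tail x) ∈ D).card := by
  have hx1 := Lev.mem_lev.1 hx
  rw [Fin.sum_univ_succ] at hx1
  have hnear := abs_le.1 hA.near
  have hx0 : (x 0 : ℕ) ≤ M := by have := (x 0).2; omega
  have hm0 : (0 : ℝ) ≤ m := Nat.cast_nonneg m
  have key : ∀ t : Fin (M + 1), ((∑ i, pt1 t (Fin.tail x) i : ℕ) : ℝ) =
      t + k - (x 0 : ℕ) + m + 1 := by
    intro t
    have h1 := sum_pt1 t (Fin.tail x)
    have h2 : ∑ j, (Fin.tail x j : ℕ) + (x 0 : ℕ) = k := by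
      rw [← hx1, add_comm]
      rfl
    have h3 : ((∑ i, pt1 t (Fin.tail x) i : ℕ) : ℝ) + (x 0 : ℕ) = t + k + m + 1 := by
      have : ∑ i, pt1 t (Fin.tail x) i + (x 0 : ℕ) = t + k + m + 1 := by omega
      exact_mod_cast this
    linarith
  have h := fibre (M := M) (a := (x 0 : ℕ)) (C := C) hx0 (fun t => pt1 t (Fin.tail x) ∈ A)
    (fun t => pt1 t (Fin.tail x) ∈ D) (fun t ht hQ => ?_) (fun t ht hQ hP => ?_)
  · unfold ph1
    have e : ((((mis1 m M A (Fin.tail x) : ℕ) : ℤ) - ((x 0 : ℕ) : ℤ) : ℤ) : ℝ) =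
        (((mis1 m M A (Fin.tail x) : ℕ) : ℤ) : ℝ) - ((x 0 : ℕ) : ℝ) := by push_cast; rfl
    rw [e]
    exact h
  · by_contra hP
    refine hQ (hD (mem_union_right _ (mem_sdiff.2 ⟨mem_slab.2 ⟨pt1_mem _ _, ?_, ?_⟩, hP⟩)))
    · rw [key]
      have ht' : ((x 0 : ℕ) : ℝ) + C ≤ (t : ℕ) := by exact_mod_cast ht
      push_cast
      nlinarith
    · rw [key]
      have ht' : ((t : ℕ) : ℝ) ≤ M := by
        have := t.2
        exact_mod_cast (by omega : (t : ℕ) ≤ M)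
      have hx0' : (0 : ℝ) ≤ ((x 0 : ℕ) : ℝ) := Nat.cast_nonneg _
      push_cast
      nlinarith
  · refine hQ (hD (mem_union_left _ (mem_sdiff.2 ⟨hP, fun hs => ?_⟩)))
    have hs1 := (mem_slab.1 hs).2.1
    rw [key] at hs1
    have ht' : ((t : ℕ) : ℝ) + C ≤ (x 0 : ℕ) := by exact_mod_cast ht
    push_cast at hs1
    nlinarith

/-- one fibre, sum coordinates -/
theorem one3 {m M k k₃ : ℕ} {c : ℝ} {A : Finset (Fin (m + 1) → ℕ)} (hA : Nr m M k k₃ c A)
    (hc1 : 1 < c) (hc2 : 2 * c ≤ m + 1) {C : ℕ} (hC : 4 * c + 2 * m + 6 ≤ C)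
    (hM : m + 2 + 4 * c ≤ (c - 1) * M)
    {x : Fin (m + 1) → Fin (M + 1)} (hx : x ∈ Lev.lev (m + 1) M k₃)
    {D : Finset (Fin (m + 1) → ℕ)}
    (hD : (A \ Cube.slab (m + 1) (M + 2) c) ∪ (Cube.slab (m + 1) (M + 2) c \ A) ⊆ D) :
    |(ph3 m M A x : ℝ)| ≤ (C + 1) + (univ.filter fun t => pt3 t (Fin.tail x) ∈ D).card := by
  have hx1 := Lev.mem_lev.1 hx
  rw [Fin.sum_univ_succ] at hx1
  have hnear := abs_le.1 hA.near
  have hx0 : (x 0 : ℕ) ≤ M := by have := (x 0).2; omega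
  have hm0 : (0 : ℝ) ≤ m := Nat.cast_nonneg m
  have hsum := hA.sum
  have key : ∀ t : Fin (M + 1), ((∑ i, pt3 t (Fin.tail x) i : ℕ) : ℝ) =
      2 * k + (x 0 : ℕ) + 2 * m + 2 - t := by
    intro t
    have h1 := sum_pt3 t (Fin.tail x)
    have h2 : ∑ j, (Fin.tail x j : ℕ) + (x 0 : ℕ) = k₃ := by
      rw [← hx1, add_comm]
      rfl
    have h3 : ((∑ i, pt3 t (Fin.tail x) i : ℕ) : ℝ) + t = 2 * k + (x 0 : ℕ) + 2 * m + 2 := by
      have e1 : (m + 1) * (M + 2) = (m + 1) * M + 2 * (m + 1) := by ring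
      have : ∑ i, pt3 t (Fin.tail x) i + (t : ℕ) = 2 * k + (x 0 : ℕ) + 2 * m + 2 := by omega
      exact_mod_cast this
    linarith
  have h := fibre (M := M) (a := (x 0 : ℕ)) (C := C) hx0 (fun t => pt3 t (Fin.tail x) ∈ A)
    (fun t => pt3 t (Fin.tail x) ∈ D) (fun t ht hQ => ?_) (fun t ht hQ hP => ?_)
  · unfold ph3
    have e : ((((mis3 m M A (Fin.tail x) : ℕ) : ℤ) - ((x 0 : ℕ) : ℤ) - 1 : ℤ) : ℝ) =
        ((((mis3 m M A (Fin.tail x) : ℕ) : ℤ) : ℝ) - ((x 0 : ℕ) : ℝ)) - 1 := by push_cast; rfl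
    rw [e]
    refine (abs_sub _ _).trans ?_
    rw [abs_one]
    have h' : |((((mis3 m M A (Fin.tail x) : ℕ) : ℤ) : ℝ) - ((x 0 : ℕ) : ℝ))| ≤
      C + (univ.filter fun t => pt3 t (Fin.tail x) ∈ D).card := h
    linarith
  · by_contra hP
    refine hQ (hD (mem_union_right _ (mem_sdiff.2 ⟨mem_slab.2 ⟨pt3_mem _ _, ?_, ?_⟩, hP⟩)))
    · rw [key]
      have ht' : ((t : ℕ) : ℝ) ≤ M := by
        have := t.2
        exact_mod_cast (by omega : (t : ℕ) ≤ M)
      have hx0' : (0 : ℝ) ≤ ((x 0 : ℕ) : ℝ) := Nat.cast_nonneg _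
      push_cast
      nlinarith
    · rw [key]
      have ht' : ((x 0 : ℕ) : ℝ) + C ≤ (t : ℕ) := by exact_mod_cast ht
      push_cast
      nlinarith
  · refine hQ (hD (mem_union_left _ (mem_sdiff.2 ⟨hP, fun hs => ?_⟩)))
    have hs1 := (mem_slab.1 hs).2.2
    rw [key] at hs1
    have ht' : ((t : ℕ) : ℝ) + C ≤ (x 0 : ℕ) := by exact_mod_cast ht
    push_cast at hs1
    nlinarith

end S6

/-- a large sum-free set is close to the slab -/
theorem near {m : ℕ} (hm : 2 ≤ m) {c u κ₁ κ₂ : ℝ} (hG : Cube.Good m c u κ₁ κ₂) {η : ℝ}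
    (hη : 0 < η) : ∃ M₀ : ℕ, ∀ M : ℕ, M₀ ≤ M → ∀ k k₃ : ℕ,
    ∀ A : Finset (Fin (m + 1) → ℕ), Nr m M k k₃ c A →
    av (Lev.lev (m + 1) M k) (fun x => |(ph1 m M A x : ℝ)|) ≤ η * M ∧
    av (Lev.lev (m + 1) M k₃) (fun x => |(ph3 m M A x : ℝ)|) ≤ η * M ∧
    (∀ p ∈ A, (∀ j, (p j : ℝ) ≤ (1 - η) * M) → (k : ℝ) - η * M < ∑ j, (p j : ℝ)) ∧
    (∀ p ∈ A, (∀ j, η * M ≤ (p j : ℝ)) → ∑ j, (p j : ℝ) < 2 * k + η * M) := by
  have hc1 := hG.one_lt
  have hs := hG.sum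
  have hu0 := hG.u_pos
  have hu1 := hG.u_lt
  have hm0 : (2 : ℝ) ≤ m := by exact_mod_cast hm
  obtain ⟨κ, hκ, Ma, hMa⟩ := S6.lev_ge hm (v := c) (by linarith) (by linarith) 1 (by norm_num)
  obtain ⟨κ', hκ', Mb, hMb⟩ := S6.lev_ge hm (v := u) hu0 (by linarith) 2 (by norm_num)
  set κm := min κ κ' with hκm
  have hκm0 : 0 < κm := lt_min hκ hκ'
  set δ := η * κm / 2 ^ (m + 2) with hδ
  have hδ0 : 0 < δ := by positivity
  obtain ⟨η1, hη1, N1, hstab⟩ := Cube.stability Cube.L_main hm hG hδ0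
  obtain ⟨K, hK, hdeep⟩ := Cube.deep_dir Cube.L_main hm hG
  have hη4 : 0 < η / 4 := by positivity
  obtain ⟨κl, hκl, Nl, hlow⟩ := Cube.excl_low (d := m + 1) (by omega) hc1
    (by push_cast; linarith) (hG.c_small hm) hη4
  obtain ⟨κh, hκh, Nh, hhigh⟩ := Cube.excl_high (d := m + 1) (by omega) hc1
    (by push_cast; linarith) (by push_cast; linarith) hη4
  set κs := min κl κh with hκs
  have hκs0 : 0 < κs := lt_min hκl hκh
  obtain ⟨M1, hbig1⟩ := S6.big hm hG hη1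
  obtain ⟨M2, hbig2⟩ := S6.big hm hG (η := κs / 100) (by positivity)
  set C : ℕ := ⌈4 * c⌉₊ + 2 * m + 6 with hC
  have hC1 : 4 * c + 2 * m + 6 ≤ C := by
    have := Nat.le_ceil (4 * c)
    rw [hC]
    push_cast
    linarith
  refine ⟨max (max (max Ma Mb) (max N1 (max Nl Nh))) (max (max M1 M2)
    (max (max ⌈(100 * K / κs) ^ 2⌉₊ ⌈(m + 2 + 4 * c) / (c - 1)⌉₊)
      (max ⌈(2 * C + 2 + 4 * (2 + 4 * c)) / η⌉₊ 2))), fun M hM k k₃ A hA => ?_⟩
  simp only [max_le_iff] at hM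
  obtain ⟨⟨⟨hM1, hM2⟩, hM3, hM4, hM5⟩, ⟨hM6, hM7⟩, ⟨hM8, hM9⟩, hM10, hM11⟩ := hM
  have hM0 : (2 : ℝ) ≤ M := by exact_mod_cast hM11
  have hN0 : (0 : ℝ) < ((M + 2 : ℕ) : ℝ) := by positivity
  have hnear := abs_le.1 hA.near
  -- numerical conditions
  have n1 : m + 2 + 4 * c ≤ (c - 1) * M := by
    have h : (m + 2 + 4 * c) / (c - 1) ≤ M := (Nat.le_ceil _).trans (by exact_mod_cast hM9)
    rw [div_le_iff₀ (by linarith)] at h
    linarith
  have n2 : 2 * C + 2 + 4 * (2 + 4 * c) ≤ η * M := by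
    have h : (2 * C + 2 + 4 * (2 + 4 * c)) / η ≤ M := (Nat.le_ceil _).trans (by exact_mod_cast hM10)
    rw [div_le_iff₀ hη] at h
    linarith
  have n3 : 50 * (κs / 100 + K / √((M + 2 : ℕ) : ℝ)) ≤ κs := by
    have h : (100 * K / κs) ^ 2 ≤ ((M + 2 : ℕ) : ℝ) := by
      refine (Nat.le_ceil _).trans ?_
      exact_mod_cast hM8.trans (by omega)
    have h1 : 100 * K / κs ≤ √((M + 2 : ℕ) : ℝ) := Real.le_sqrt_of_sq_le h
    have h2 : 0 < √((M + 2 : ℕ) : ℝ) := Real.sqrt_pos.2 hN0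
    rw [div_le_iff₀ hκs0] at h1
    have h3 : K / √((M + 2 : ℕ) : ℝ) ≤ κs / 100 := by
      rw [div_le_iff₀ h2]
      linarith
    linarith
  have hk3 : |(k₃ : ℝ) - u * M| ≤ 2 := by
    have h := hA.sum
    have h' : 2 * (k : ℝ) + k₃ = (m + 1) * M := by exact_mod_cast h
    have h'' : (k₃ : ℝ) - u * M = -(2 * (k - c * M)) := by
      have : u = m + 1 - 2 * c := by linarith
      rw [this]
      linarith
    rw [h'', abs_neg, abs_mul, abs_of_pos (by norm_num : (0 : ℝ) < 2)]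
    linarith [hA.near]
  set D := (A \ Cube.slab (m + 1) (M + 2) c) ∪ (Cube.slab (m + 1) (M + 2) c \ A) with hD
  have hDc : (D.card : ℝ) ≤ δ * ((M + 2 : ℕ) : ℝ) ^ (m + 1) :=
    hstab (M + 2) (by omega) A hA.sub hA.sf (hbig1 M hM6 k k₃ A hA)
  have hDc' : (D.card : ℝ) ≤ η / 2 * M * (κm * (M : ℝ) ^ m) := by
    refine hDc.trans ?_
    have h1 : ((M + 2 : ℕ) : ℝ) ^ (m + 1) ≤ (2 * (M : ℝ)) ^ (m + 1) :=
      pow_le_pow_left₀ (by positivity) (by push_cast; linarith) _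
    refine (mul_le_mul_of_nonneg_left h1 hδ0.le).trans (le_of_eq ?_)
    rw [hδ, mul_pow, pow_succ (M : ℝ) m, pow_succ (2 : ℝ) (m + 1)]
    field_simp
  have hav : ∀ (j : ℕ) (f : (Fin (m + 1) → Fin (M + 1)) → ℝ) (C' : ℝ)
      (pt : Fin (M + 1) → (Fin m → Fin (M + 1)) → Fin (m + 1) → ℕ),
      (∀ t x t' x', pt t x = pt t' x' → t = t' ∧ x = x') → C' ≤ η / 2 * M →
      κm * (M : ℝ) ^ m ≤ ((Lev.lev (m + 1) M j).card : ℝ) →
      (∀ x ∈ Lev.lev (m + 1) M j, f x ≤ C' + (univ.filter fun t => pt t (Fin.tail x) ∈ D).card) →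
      av (Lev.lev (m + 1) M j) f ≤ η * M := by
    intro j f C' pt hpt hC' hcard hf
    have hpos : 0 < κm * (M : ℝ) ^ m := by positivity
    unfold av
    rw [div_le_iff₀ (lt_of_lt_of_le hpos hcard)]
    have h1 : ∑ x ∈ Lev.lev (m + 1) M j, f x ≤ ∑ x ∈ Lev.lev (m + 1) M j,
        (C' + ((univ.filter fun t => pt t (Fin.tail x) ∈ D).card : ℝ)) := sum_le_sum hf
    rw [sum_add_distrib, sum_const, nsmul_eq_mul] at h1
    have h2 : ∑ x ∈ Lev.lev (m + 1) M j, ((univ.filter fun t => pt t (Fin.tail x) ∈ D).card : ℝ) ≤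
        D.card := by exact_mod_cast S6.sum_le (k := j) pt hpt D
    have h3 : η / 2 * M * (κm * (M : ℝ) ^ m) ≤ η / 2 * M * ((Lev.lev (m + 1) M j).card : ℝ) :=
      mul_le_mul_of_nonneg_left hcard (by positivity)
    have h4 : ((Lev.lev (m + 1) M j).card : ℝ) * C' ≤
        ((Lev.lev (m + 1) M j).card : ℝ) * (η / 2 * M) :=
      mul_le_mul_of_nonneg_left hC' (Nat.cast_nonneg _)
    linarith
  have hMm : (0 : ℝ) ≤ (M : ℝ) ^ m := by positivity
  refine ⟨?_, ?_, ?_, ?_⟩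
  · refine hav k _ C S6.pt1 S6.pt1_inj (by linarith) ?_ fun x hx => ?_
    · exact (mul_le_mul_of_nonneg_right (min_le_left _ _) hMm).trans (hMa M hM1 k hA.near)
    · exact S6.one1 hA hc1 (by linarith) n1 hx le_rfl
  · refine hav k₃ _ (C + 1) S6.pt3 S6.pt3_inj (by linarith) ?_ fun x hx => ?_
    · exact (mul_le_mul_of_nonneg_right (min_le_right _ _) hMm).trans (hMb M hM2 k₃ hk3)
    · exact S6.one3 hA hc1 (by linarith) hC1 n1 hx le_rfl
  · intro p hp hpj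
    have h := hlow (M + 2) (by omega) A hA.sf (fun i => ?_) p hp (hA.sub hp) (fun j => ?_)
    · push_cast at h
      nlinarith
    · refine (hdeep (M + 2) (by omega) A hA.sub hA.sf _ (hbig2 M hM7 k k₃ A hA) i).trans ?_
      exact mul_le_mul_of_nonneg_right (n3.trans (min_le_left _ _)) (by positivity)
    · refine (hpj j).trans ?_
      push_cast
      nlinarith
  · intro p hp hpj
    have h := hhigh (M + 2) (by omega) A hA.sf (fun i => ?_) p hp (hA.sub hp) (fun j => ?_)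
    · push_cast at h
      nlinarith
    · refine (hdeep (M + 2) (by omega) A hA.sub hA.sf _ (hbig2 M hM7 k k₃ A hA) i).trans ?_
      exact mul_le_mul_of_nonneg_right (n3.trans (min_le_right _ _)) (by positivity)
    · refine le_trans ?_ (hpj j)
      push_cast
      nlinarith

end Pool.Agent.Work.MP_0cd883_co.Rig
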