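import Pool.Agent.Work.MP_0cd883_co.Rig.SideDefs

/-!
S7 (helper57): the part of the two functions far below is negligible; the counting, with the
statements of S5 (partA) and S6 (near) as hypotheses.
-/

namespace Pool.Agent.Work.MP_0cd883_co.Rig

open Finset

namespace S7

/-- number of `t` such that `P` fails at the point `(t, x)` -/
def misP {m M : ℕ} (P : (Fin (m + 1) → Fin (M + 1)) → Prop) [DecidablePred P]
    (x : Fin m → Fin (M + 1)) : ℕ :=
  (univ.filter fun t : Fin (M + 1) => ¬ P (Fin.cons t x)).card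

theorem misP_add {m M : ℕ} (P : (Fin (m + 1) → Fin (M + 1)) → Prop) [DecidablePred P]
    (x : Fin m → Fin (M + 1)) :
    (univ.filter fun t : Fin (M + 1) => P (Fin.cons t x)).card + misP P x = M + 1 := by
  unfold misP
  rw [card_filter_add_card_filter_not]
  simp

theorem cut_one {m M : ℕ} (P : (Fin (m + 1) → Fin (M + 1)) → Prop) [DecidablePred P] (K : ℕ)
    (x : Fin (m + 1) → Fin (M + 1)) :
    max ((misP P (Fin.tail x) : ℤ) - ((x 0 : ℕ) : ℤ)) (-K)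
      - ((misP P (Fin.tail x) : ℤ) - ((x 0 : ℕ) : ℤ)) ≤
      ((univ.filter fun t : Fin (M + 1) => P (Fin.cons t (Fin.tail x)) ∧
        (t : ℕ) + K < (x 0 : ℕ)).card : ℤ) := by
  have h1 : (x 0 : ℕ) - K ≤ (univ.filter fun t : Fin (M + 1) => P (Fin.cons t (Fin.tail x)) ∧
      (t : ℕ) + K < (x 0 : ℕ)).card + misP P (Fin.tail x) := by
    have hx := (x 0).2
    have h2 : (x 0 : ℕ) - K = (univ.filter fun t : Fin (M + 1) => (t : ℕ) + K < (x 0 : ℕ)).card := by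
      rw [show (univ.filter fun t : Fin (M + 1) => (t : ℕ) + K < (x 0 : ℕ)) =
        Iio (⟨(x 0 : ℕ) - K, by omega⟩ : Fin (M + 1)) by
          ext t
          simp only [mem_filter, mem_univ, true_and, mem_Iio, Fin.lt_def]
          omega]
      have h3 : (Iio (⟨(x 0 : ℕ) - K, by omega⟩ : Fin (M + 1))).card = (x 0 : ℕ) - K :=
        Fin.card_Iio _
      exact h3.symm
    rw [h2]
    unfold misP
    refine le_trans (card_le_card fun t ht => ?_) (card_union_le _ _)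
    rw [mem_filter] at ht
    rw [mem_union, mem_filter, mem_filter]
    by_cases hp : P (Fin.cons t (Fin.tail x))
    · exact Or.inl ⟨mem_univ _, hp, ht.2⟩
    · exact Or.inr ⟨mem_univ _, hp⟩
  rcases le_total ((misP P (Fin.tail x) : ℤ) - ((x 0 : ℕ) : ℤ)) (-K) with h | h
  · rw [max_eq_right h]
    omega
  · rw [max_eq_left h]
    omega

theorem cut_sum {m M : ℕ} (P : (Fin (m + 1) → Fin (M + 1)) → Prop) [DecidablePred P] (K k : ℕ) :
    ∑ x ∈ Lev.lev (m + 1) M k, ((max ((misP P (Fin.tail x) : ℤ) - ((x 0 : ℕ) : ℤ)) (-K)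
      - ((misP P (Fin.tail x) : ℤ) - ((x 0 : ℕ) : ℤ)) : ℤ) : ℝ) ≤
      ((univ.filter fun y : Fin (m + 1) → Fin (M + 1) => P y ∧ ∑ i, (y i : ℕ) + K < k).card : ℝ) := by
  have h1 : ∑ x ∈ Lev.lev (m + 1) M k, (univ.filter fun t : Fin (M + 1) =>
      P (Fin.cons t (Fin.tail x)) ∧ (t : ℕ) + K < (x 0 : ℕ)).card ≤
      (univ.filter fun y : Fin (m + 1) → Fin (M + 1) => P y ∧ ∑ i, (y i : ℕ) + K < k).card := by
    rw [← card_sigma]
    refine card_le_card_of_injOn (fun z => Fin.cons z.2 (Fin.tail z.1)) ?_ ?_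
    · rintro ⟨x, t⟩ hz
      simp only [coe_sigma, Set.mem_sigma_iff, mem_coe, mem_filter, mem_univ, true_and,
        Lev.mem_lev] at hz
      obtain ⟨hx, hp, ht⟩ := hz
      simp only [coe_filter, mem_univ, true_and, Set.mem_ofPred_eq]
      refine ⟨hp, ?_⟩
      rw [Fin.sum_univ_succ] at hx ⊢
      simp only [Fin.cons_zero, Fin.cons_succ, Fin.tail] at hx ⊢
      omega
    · rintro ⟨x, t⟩ hz ⟨x', t'⟩ hz' he
      simp only [coe_sigma, Set.mem_sigma_iff, mem_coe, mem_filter, mem_univ, true_and,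
        Lev.mem_lev] at hz hz'
      obtain ⟨h2, h3⟩ := Fin.cons_inj.1 (show Fin.cons t (Fin.tail x) = Fin.cons t' (Fin.tail x') from he)
      have h4 : x = x' := by
        have h5 := hz.1
        have h6 := hz'.1
        rw [Fin.sum_univ_succ] at h5 h6
        have h7 : ∑ i : Fin m, (x (Fin.succ i) : ℕ) = ∑ i : Fin m, (x' (Fin.succ i) : ℕ) := by
          refine sum_congr rfl fun i _ => ?_
          exact congrArg (fun z : Fin m → Fin (M + 1) => (z i : ℕ)) h3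
        have h8 : x 0 = x' 0 := Fin.ext (by omega)
        rw [← Fin.cons_self_tail x, ← Fin.cons_self_tail x', h8, h3]
      subst h4
      subst h2
      rfl
  calc ∑ x ∈ Lev.lev (m + 1) M k, ((max ((misP P (Fin.tail x) : ℤ) - ((x 0 : ℕ) : ℤ)) (-K)
      - ((misP P (Fin.tail x) : ℤ) - ((x 0 : ℕ) : ℤ)) : ℤ) : ℝ)
      ≤ ∑ x ∈ Lev.lev (m + 1) M k, (((univ.filter fun t : Fin (M + 1) =>
      P (Fin.cons t (Fin.tail x)) ∧ (t : ℕ) + K < (x 0 : ℕ)).card : ℕ) : ℝ) := by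
        refine sum_le_sum fun x _ => ?_
        have := cut_one P K x
        exact_mod_cast this
    _ ≤ _ := by exact_mod_cast h1

/-- exchange of the coordinates `0` and `i` -/
def sw {m : ℕ} {α : Type*} (i : Fin (m + 1)) (y : Fin (m + 1) → α) : Fin (m + 1) → α :=
  fun j => y (Equiv.swap 0 i j)

theorem sw_sw {m : ℕ} {α : Type*} (i : Fin (m + 1)) (y : Fin (m + 1) → α) : sw i (sw i y) = y := by
  funext j
  simp [sw]

theorem sw_inj {m : ℕ} {α : Type*} (i : Fin (m + 1)) :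
    Function.Injective (sw i : (Fin (m + 1) → α) → Fin (m + 1) → α) := by
  intro y z h
  rw [← sw_sw i y, h, sw_sw]

theorem sum_sw {m : ℕ} (i : Fin (m + 1)) (y : Fin (m + 1) → ℕ) : ∑ j, sw i y j = ∑ j, y j :=
  Equiv.sum_comp (Equiv.swap 0 i) y

theorem low_count {m M : ℕ} (P : (Fin (m + 1) → Fin (M + 1)) → Prop) [DecidablePred P]
    (i : Fin (m + 1)) (k : ℕ) :
    (univ.filter fun y : Fin (m + 1) → Fin (M + 1) => P y ∧
      ∑ j, (y j : ℕ) + M < k + (y i : ℕ)).card ≤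
    ∑ x ∈ univ.filter (fun x : Fin m → Fin (M + 1) => ∑ j, (x j : ℕ) + M < k),
      (M + 1 - misP (fun y => P (sw i y)) x) := by
  have h0 : ∀ x : Fin m → Fin (M + 1), M + 1 - misP (fun y => P (sw i y)) x =
      (univ.filter fun t : Fin (M + 1) => P (sw i (Fin.cons t x))).card := by
    intro x
    have := misP_add (fun y => P (sw i y)) x
    omega
  rw [sum_congr rfl fun x _ => h0 x, ← card_sigma]
  refine card_le_card_of_injOn (fun y => ⟨Fin.tail (sw i y), sw i y 0⟩) ?_ ?_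
  · intro y hy
    simp only [coe_filter, mem_univ, true_and, Set.mem_ofPred_eq] at hy
    obtain ⟨hp, hs⟩ := hy
    simp only [coe_sigma, Set.mem_sigma_iff, mem_coe, mem_filter, mem_univ, true_and,
      Fin.cons_self_tail, sw_sw]
    refine ⟨?_, hp⟩
    have h1 : ∑ j, ((sw i y j : Fin (M + 1)) : ℕ) = ∑ j, (y j : ℕ) :=
      Equiv.sum_comp (Equiv.swap 0 i) (fun j => (y j : ℕ))
    rw [Fin.sum_univ_succ] at h1
    have h2 : sw i y 0 = y i := by simp [sw]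
    rw [h2] at h1
    simp only [Fin.tail]
    omega
  · intro y _ z _ h
    simp only [Sigma.mk.injEq, heq_eq_eq] at h
    apply sw_inj i
    rw [← Fin.cons_self_tail (sw i y), ← Fin.cons_self_tail (sw i z), h.1, h.2]

/-- the set with the coordinates `0` and `i` exchanged -/
def swA {m : ℕ} (i : Fin (m + 1)) (A : Finset (Fin (m + 1) → ℕ)) : Finset (Fin (m + 1) → ℕ) :=
  A.image (sw i)

theorem mem_swA {m : ℕ} {i : Fin (m + 1)} {A : Finset (Fin (m + 1) → ℕ)} {p : Fin (m + 1) → ℕ} :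
    p ∈ swA i A ↔ sw i p ∈ A := by
  unfold swA
  rw [mem_image]
  constructor
  · rintro ⟨q, hq, rfl⟩
    rw [sw_sw]
    exact hq
  · intro h
    exact ⟨sw i p, h, sw_sw i p⟩

theorem nr_sw {m M k k₃ : ℕ} {c : ℝ} {A : Finset (Fin (m + 1) → ℕ)} (i : Fin (m + 1))
    (h : Nr m M k k₃ c A) : Nr m M k k₃ c (swA i A) := by
  refine ⟨h.sum, h.near, ?_, ?_, ?_⟩
  · intro p hp
    have h1 := h.sub (mem_swA.1 hp)
    unfold grid at h1 ⊢
    rw [Fintype.mem_piFinset] at h1 ⊢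
    intro j
    have h2 := h1 (Equiv.swap 0 i j)
    simpa [sw] using h2
  · intro x hx y hy z hz he
    refine h.sf _ (mem_swA.1 hx) _ (mem_swA.1 hy) _ (mem_swA.1 hz) ?_
    funext j
    exact congrFun he (Equiv.swap 0 i j)
  · unfold swA
    rw [card_image_of_injective _ (sw_inj i)]
    exact h.big

theorem mis1_eq (m M : ℕ) (A : Finset (Fin (m + 1) → ℕ)) (x : Fin m → Fin (M + 1)) :
    mis1 m M A x = misP (fun y : Fin (m + 1) → Fin (M + 1) => (fun i => (y i : ℕ) + 1) ∈ A) x := rfl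

theorem mis3_eq (m M : ℕ) (A : Finset (Fin (m + 1) → ℕ)) (x : Fin m → Fin (M + 1)) :
    mis3 m M A x =
      misP (fun y : Fin (m + 1) → Fin (M + 1) => (fun i => M + 2 - (y i : ℕ)) ∈ A) x := rfl

theorem lowC_sw (m M : ℕ) (A : Finset (Fin (m + 1) → ℕ)) (k : ℕ) (i : Fin (m + 1)) :
    (univ.filter fun y : Fin (m + 1) → Fin (M + 1) => (fun i => (y i : ℕ) + 1) ∈ A ∧
      ∑ j, (y j : ℕ) + M < k + (y i : ℕ)).card ≤ lowC m M (swA i A) k := by
  refine (low_count (fun y : Fin (m + 1) → Fin (M + 1) => (fun i => (y i : ℕ) + 1) ∈ A) i k).trans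
    (le_of_eq ?_)
  unfold lowC
  refine sum_congr rfl fun x _ => ?_
  congr 1
  unfold misP mis1
  congr 1
  ext t
  simp only [mem_filter, mem_univ, true_and, mem_swA]
  rfl

theorem highC_sw (m M : ℕ) (A : Finset (Fin (m + 1) → ℕ)) (k : ℕ) (i : Fin (m + 1)) :
    (univ.filter fun y : Fin (m + 1) → Fin (M + 1) => (fun i => M + 2 - (y i : ℕ)) ∈ A ∧
      ∑ j, (y j : ℕ) + M < k + (y i : ℕ)).card ≤ highC m M (swA i A) k := by
  refine (low_count (fun y : Fin (m + 1) → Fin (M + 1) => (fun i => M + 2 - (y i : ℕ)) ∈ A) i k).trans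
    (le_of_eq ?_)
  unfold highC
  refine sum_congr rfl fun x _ => ?_
  congr 1
  unfold misP mis3
  congr 1
  ext t
  simp only [mem_filter, mem_univ, true_and, mem_swA]
  rfl

/-- a set covered by `m + 1` sets -/
theorem cover_card {m M : ℕ} (P : (Fin (m + 1) → Fin (M + 1)) → Prop) [DecidablePred P] (K k : ℕ)
    (h : ∀ y, P y → ∑ j, (y j : ℕ) + K < k → ∃ i, ∑ j, (y j : ℕ) + M < k + (y i : ℕ)) :
    (univ.filter fun y : Fin (m + 1) → Fin (M + 1) => P y ∧ ∑ j, (y j : ℕ) + K < k).card ≤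
    ∑ i, (univ.filter fun y : Fin (m + 1) → Fin (M + 1) => P y ∧
      ∑ j, (y j : ℕ) + M < k + (y i : ℕ)).card := by
  classical
  refine le_trans (card_le_card fun y hy => ?_) card_biUnion_le
  rw [mem_filter] at hy
  obtain ⟨i, hi⟩ := h y hy.2.1 hy.2.2
  rw [mem_biUnion]
  exact ⟨i, mem_univ _, mem_filter.2 ⟨mem_univ _, hy.2.1, hi⟩⟩

end S7

open S7

theorem far_of {m : ℕ} {c : ℝ} {ε ζ : ℝ}
    (hA : ∀ ζ : ℝ, 0 < ζ → ∃ η : ℝ, 0 < η ∧ ∃ M₀ : ℕ, ∀ M : ℕ, M₀ ≤ M → ∀ k k₃ : ℕ,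
      ∀ A : Finset (Fin (m + 1) → ℕ), Nr m M k k₃ c A →
      av (Lev.lev (m + 1) M k) (fun x => |(ph1 m M A x : ℝ)|) ≤ η * M →
      av (Lev.lev (m + 1) M k₃) (fun x => |(ph3 m M A x : ℝ)|) ≤ η * M →
      2 * av (Lev.lev (m + 1) M k) (fun x => (ph1 m M A x : ℝ))
        + av (Lev.lev (m + 1) M k₃) (fun x => (ph3 m M A x : ℝ)) ≤ ζ ∧
      (lowC m M A k : ℝ) ≤ ζ * (M : ℝ) ^ m ∧ (highC m M A k₃ : ℝ) ≤ ζ * (M : ℝ) ^ m)
    (hN : ∀ η : ℝ, 0 < η → ∃ M₀ : ℕ, ∀ M : ℕ, M₀ ≤ M → ∀ k k₃ : ℕ,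
      ∀ A : Finset (Fin (m + 1) → ℕ), Nr m M k k₃ c A →
      av (Lev.lev (m + 1) M k) (fun x => |(ph1 m M A x : ℝ)|) ≤ η * M ∧
      av (Lev.lev (m + 1) M k₃) (fun x => |(ph3 m M A x : ℝ)|) ≤ η * M ∧
      (∀ p ∈ A, (∀ j, (p j : ℝ) ≤ (1 - η) * M) → (k : ℝ) - η * M < ∑ j, (p j : ℝ)) ∧
      (∀ p ∈ A, (∀ j, η * M ≤ (p j : ℝ)) → ∑ j, (p j : ℝ) < 2 * k + η * M))
    (hε : 0 < ε) (hζ : 0 < ζ) : ∃ M₀ : ℕ, ∀ M : ℕ, M₀ ≤ M → ∀ k k₃ : ℕ,
    ∀ A : Finset (Fin (m + 1) → ℕ), Nr m M k k₃ c A → ∀ K : ℕ, ε * M ≤ K →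
    ∑ x ∈ Lev.lev (m + 1) M k, ((max (ph1 m M A x) (-K) - ph1 m M A x : ℤ) : ℝ)
      ≤ ζ * (M : ℝ) ^ m ∧
    ∑ w ∈ Lev.lev (m + 1) M k₃, ((max (ph3 m M A w) (-K) - ph3 m M A w : ℤ) : ℝ)
      ≤ ζ * (M : ℝ) ^ m := by
  have hm1 : (0 : ℝ) < m + 1 := by positivity
  obtain ⟨η, hη, M₁, h1⟩ := hA (ζ / (m + 1)) (by positivity)
  obtain ⟨M₂, h2⟩ := hN (min η (ε / 2)) (by positivity)
  obtain ⟨M₃, hM₃⟩ := exists_nat_gt ((2 * (m + 1) : ℝ) / ε)
  refine ⟨max (max M₁ M₂) (M₃ + 1), ?_⟩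
  intro M hM k k₃ A hNr K hK
  have hM1 : M₁ ≤ M := (le_max_left _ _).trans ((le_max_left _ _).trans hM)
  have hM2 : M₂ ≤ M := (le_max_right _ _).trans ((le_max_left _ _).trans hM)
  have hM3 : M₃ + 1 ≤ M := (le_max_right _ _).trans hM
  have hM3' : (M₃ : ℝ) + 1 ≤ M := by exact_mod_cast hM3
  have hbig : (2 * (m + 1) : ℝ) < ε * M := by
    rw [div_lt_iff₀ hε] at hM₃
    nlinarith
  have hM0 : (0 : ℝ) < M := by
    have : (0 : ℝ) ≤ M₃ := by positivity
    linarith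
  have hK1 : 1 ≤ K := by
    have : (0 : ℝ) < K := by nlinarith
    exact_mod_cast this
  have hη1 : min η (ε / 2) ≤ η := min_le_left _ _
  have hη2 : min η (ε / 2) ≤ ε / 2 := min_le_right _ _
  obtain ⟨-, -, h3, h4⟩ := h2 M hM2 k k₃ A hNr
  obtain ⟨η', hη'⟩ : ∃ η', η' = min η (ε / 2) := ⟨_, rfl⟩
  rw [← hη'] at hη1 hη2 h3 h4
  have hηM : η' * M ≤ ε / 2 * M := mul_le_mul_of_nonneg_right hη2 hM0.le
  have hsw : ∀ i, (lowC m M (swA i A) k : ℝ) ≤ ζ / (m + 1) * (M : ℝ) ^ m ∧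
      (highC m M (swA i A) k₃ : ℝ) ≤ ζ / (m + 1) * (M : ℝ) ^ m := by
    intro i
    have hN' := nr_sw i hNr
    obtain ⟨h5, h6, -, -⟩ := h2 M hM2 k k₃ _ hN'
    rw [← hη'] at h5 h6
    have h7 : η' * M ≤ η * M := mul_le_mul_of_nonneg_right hη1 hM0.le
    exact (h1 M hM1 k k₃ _ hN' (h5.trans h7) (h6.trans h7)).2
  have hsum : ∑ _i : Fin (m + 1), ζ / (m + 1) * (M : ℝ) ^ m = ζ * (M : ℝ) ^ m := by
    rw [sum_const, card_univ, Fintype.card_fin, nsmul_eq_mul]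
    push_cast
    field_simp
  constructor
  · refine le_trans (cut_sum (fun y : Fin (m + 1) → Fin (M + 1) =>
      (fun i => (y i : ℕ) + 1) ∈ A) K k) ?_
    have hc := cover_card (fun y : Fin (m + 1) → Fin (M + 1) => (fun i => (y i : ℕ) + 1) ∈ A) K k ?_
    · refine le_trans (Nat.cast_le.2 hc) ?_
      rw [← hsum]
      push_cast
      refine sum_le_sum fun i _ => ?_
      refine le_trans ?_ (hsw i).1
      exact_mod_cast lowC_sw m M A k i
    · intro y hy hs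
      by_contra hcon
      push Not at hcon
      have hs' : ((∑ j, (y j : ℕ) : ℕ) : ℝ) + K < k := by exact_mod_cast hs
      by_cases hall : ∀ j, (((y j : ℕ) + 1 : ℕ) : ℝ) ≤ (1 - η') * M
      · have h5 := h3 _ hy hall
        have h6 : ∑ j : Fin (m + 1), (((y j : ℕ) + 1 : ℕ) : ℝ) =
            ((∑ j, (y j : ℕ) : ℕ) : ℝ) + (m + 1) := by
          push_cast
          rw [sum_add_distrib]
          simp
        rw [h6] at h5
        linarith
      · push Not at hall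
        obtain ⟨j, hj⟩ := hall
        have h7 : ((k : ℝ) + (y j : ℕ)) ≤ ((∑ j, (y j : ℕ) : ℕ) : ℝ) + M := by
          exact_mod_cast hcon j
        push_cast at hj
        nlinarith
  · have heq : ∀ w : Fin (m + 1) → Fin (M + 1), (max (ph3 m M A w) (-K) - ph3 m M A w : ℤ) =
        max ((misP (fun y : Fin (m + 1) → Fin (M + 1) => (fun i => M + 2 - (y i : ℕ)) ∈ A)
          (Fin.tail w) : ℤ) - ((w 0 : ℕ) : ℤ)) (-((K - 1 : ℕ) : ℤ))
        - ((misP (fun y : Fin (m + 1) → Fin (M + 1) => (fun i => M + 2 - (y i : ℕ)) ∈ A)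
          (Fin.tail w) : ℤ) - ((w 0 : ℕ) : ℤ)) := by
      intro w
      unfold ph3
      rw [mis3_eq]
      omega
    rw [sum_congr rfl fun w _ => by rw [heq w]]
    refine le_trans (cut_sum (fun y : Fin (m + 1) → Fin (M + 1) =>
      (fun i => M + 2 - (y i : ℕ)) ∈ A) (K - 1) k₃) ?_
    have hc := cover_card (fun y : Fin (m + 1) → Fin (M + 1) =>
      (fun i => M + 2 - (y i : ℕ)) ∈ A) (K - 1) k₃ ?_
    · refine le_trans (Nat.cast_le.2 hc) ?_
      rw [← hsum]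
      push_cast
      refine sum_le_sum fun i _ => ?_
      refine le_trans ?_ (hsw i).2
      exact_mod_cast highC_sw m M A k₃ i
    · intro y hy hs
      by_contra hcon
      push Not at hcon
      have hs0 : ∑ j, (y j : ℕ) + K ≤ k₃ := by omega
      have hs' : ((∑ j, (y j : ℕ) : ℕ) : ℝ) + K ≤ k₃ := by exact_mod_cast hs0
      have hcast : ∀ j, ((M + 2 - (y j : ℕ) : ℕ) : ℝ) = (M : ℝ) + 2 - ((y j : ℕ) : ℝ) := by
        intro j
        have := (y j).2
        rw [Nat.cast_sub (by omega)]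
        push_cast
        ring
      by_cases hall : ∀ j, η' * M ≤ ((M + 2 - (y j : ℕ) : ℕ) : ℝ)
      · have h5 := h4 _ hy hall
        have h6 : ∑ j : Fin (m + 1), ((M + 2 - (y j : ℕ) : ℕ) : ℝ) =
            (m + 1) * ((M : ℝ) + 2) - ((∑ j, (y j : ℕ) : ℕ) : ℝ) := by
          rw [sum_congr rfl fun j _ => hcast j, sum_sub_distrib]
          push_cast
          simp
          ring
        rw [h6] at h5
        have h7 : (2 : ℝ) * k + k₃ = (m + 1) * M := by exact_mod_cast hNr.sum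
        nlinarith
      · push Not at hall
        obtain ⟨j, hj⟩ := hall
        rw [hcast j] at hj
        have h7 : ((k₃ : ℝ) + (y j : ℕ)) ≤ ((∑ j, (y j : ℕ) : ℕ) : ℝ) + M := by
          exact_mod_cast hcon j
        nlinarith

end Pool.Agent.Work.MP_0cd883_co.Rig
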