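import Pool.Agent.Work.MP_0cd883_co.Rig.S5
import Pool.Agent.Work.MP_0cd883_co.Rig.S6
import Pool.Agent.Work.MP_0cd883_co.Rig.S7core

namespace Pool.Agent.Work.MP_0cd883_co.Rig

open Finset

/-- the part of the two functions below `-ε M` is negligible -/
theorem far {m : ℕ} (hm : 2 ≤ m) {c u κ₁ κ₂ : ℝ} (hG : Cube.Good m c u κ₁ κ₂) {ε ζ : ℝ}
    (hε : 0 < ε) (hζ : 0 < ζ) : ∃ M₀ : ℕ, ∀ M : ℕ, M₀ ≤ M → ∀ k k₃ : ℕ,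
    ∀ A : Finset (Fin (m + 1) → ℕ), Nr m M k k₃ c A → ∀ K : ℕ, ε * M ≤ K →
    ∑ x ∈ Lev.lev (m + 1) M k, ((max (ph1 m M A x) (-K) - ph1 m M A x : ℤ) : ℝ)
      ≤ ζ * (M : ℝ) ^ m ∧
    ∑ w ∈ Lev.lev (m + 1) M k₃, ((max (ph3 m M A w) (-K) - ph3 m M A w : ℤ) : ℝ)
      ≤ ζ * (M : ℝ) ^ m :=
  far_of (c := c) (fun _ h => partA hm hG h) (fun _ h => near hm hG h) hε hζ

end Pool.Agent.Work.MP_0cd883_co.Rig
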