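import Pool.Agent.Work.MP_0cd883_co.Rig.Step
import Pool.Agent.Work.MP_0cd883_co.Rig.S7

namespace Pool.Agent.Work.MP_0cd883_co.Rig

open Finset

/-- truncation from below -/
def tr {n M : ℕ} (K : ℕ) (φ : Fin 3 → (Fin n → Fin (M + 1)) → ℤ) :
    Fin 3 → (Fin n → Fin (M + 1)) → ℤ := fun i x => max (φ i x) (-K)

theorem Ad.tr {n M : ℕ} {k : Fin 3 → ℕ} {φ : Fin 3 → (Fin n → Fin (M + 1)) → ℤ}
    (h : Ad n M k φ) (K : ℕ) : Ad n M k (Rig.tr K φ) := by
  intro x hx hs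
  have h1 := h x hx hs
  refine h1.trans (sum_le_sum fun i _ => le_max_left _ _)

theorem av_mono {ι : Type*} {S : Finset ι} {f g : ι → ℝ} (h : ∀ x ∈ S, f x ≤ g x) :
    av S f ≤ av S g :=
  div_le_div_of_nonneg_right (sum_le_sum h) (Nat.cast_nonneg _)

theorem s9_av_nonneg {ι : Type*} {S : Finset ι} {f : ι → ℝ} (h : ∀ x ∈ S, 0 ≤ f x) : 0 ≤ av S f :=
  div_nonneg (sum_nonneg h) (Nat.cast_nonneg _)

/-- if `f = a` on at least half of the points then `|a|` is at most twice the average of `|f|` -/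
theorem abs_le_of_pn {ι : Type*} {S : Finset ι} (hS : S.Nonempty) {f : ι → ℤ} {a : ℤ}
    (h : pn S f a ≤ 1 / 2) : |(a : ℝ)| ≤ 2 * av S (fun x => |(f x : ℝ)|) := by
  classical
  have hc : (0 : ℝ) < (S.card : ℝ) := by exact_mod_cast card_pos.2 hS
  have h1 : ((S.filter fun x => f x = a).card : ℝ) + ((S.filter fun x => f x ≠ a).card : ℝ)
      = S.card := by exact_mod_cast card_filter_add_card_filter_not (s := S) (fun x => f x = a)
  have h2 : ((S.filter fun x => f x ≠ a).card : ℝ) ≤ S.card / 2 := by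
    unfold pn at h
    rw [div_le_iff₀ hc] at h
    linarith
  have h3 : ((S.filter fun x => f x = a).card : ℝ) * |(a : ℝ)| ≤ ∑ x ∈ S, |(f x : ℝ)| := by
    calc ((S.filter fun x => f x = a).card : ℝ) * |(a : ℝ)|
        = ∑ x ∈ S.filter (fun x => f x = a), |(f x : ℝ)| := by
          rw [← nsmul_eq_mul, ← sum_const]
          refine sum_congr rfl fun x hx => ?_
          rw [(mem_filter.1 hx).2]
      _ ≤ ∑ x ∈ S, |(f x : ℝ)| :=
          sum_le_sum_of_subset_of_nonneg (filter_subset _ _) fun _ _ _ => abs_nonneg _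
  unfold av
  rw [mul_div_assoc', le_div_iff₀ hc]
  have h4 := abs_nonneg (a : ℝ)
  nlinarith

/-- the proportion for the truncated function -/
theorem pn_trunc {ι : Type*} {S : Finset ι} (hS : S.Nonempty) {f : ι → ℤ} {K : ℕ} {a : ℤ}
    (h : pn S (fun x => max (f x) (-K)) a ≤ 1 / 2)
    (hK : 2 * av S (fun x => |(f x : ℝ)|) < K) :
    pn S f a = pn S (fun x => max (f x) (-K)) a ∧
      |(a : ℝ)| ≤ 2 * av S (fun x => |(f x : ℝ)|) := by
  classical
  have h1 : |(a : ℝ)| ≤ 2 * av S (fun x => |((max (f x) (-K) : ℤ) : ℝ)|) := abs_le_of_pn hS h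
  have h2 : av S (fun x => |((max (f x) (-K) : ℤ) : ℝ)|) ≤ av S (fun x => |(f x : ℝ)|) := by
    refine av_mono fun x _ => ?_
    have : |max (f x) (-(K : ℤ))| ≤ |f x| := by
      rcases le_total (f x) (-(K : ℤ)) with h3 | h3
      · rw [max_eq_right h3, abs_neg, Nat.abs_cast, abs_of_nonpos (by omega)]
        omega
      · rw [max_eq_left h3]
    exact_mod_cast this
  have h3 : |(a : ℝ)| < K := by linarith
  refine ⟨?_, by linarith⟩
  have h4 : -(K : ℤ) < a := by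
    have := (abs_lt.1 h3).1
    exact_mod_cast this
  unfold pn
  congr 2
  congr 1
  refine filter_congr fun x _ => ?_
  constructor
  · intro h5 h6
    apply h5
    have h6' : max (f x) (-(K : ℤ)) = a := h6
    rcases le_total (f x) (-(K : ℤ)) with h7 | h7
    · rw [max_eq_right h7] at h6'
      omega
    · rw [max_eq_left h7] at h6'
      exact h6'
  · intro h5 h6
    apply h5
    show max (f x) (-(K : ℤ)) = a
    rw [h6, max_eq_left h4.le]

/-- the two functions are constant, with the right relation between the constants, off a small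
proportion of the points -/
theorem const {m : ℕ} (hm : 2 ≤ m) {c u κ₁ κ₂ : ℝ} (hG : Cube.Good m c u κ₁ κ₂) {δ : ℝ}
    (hδ : 0 < δ) : ∃ M₀ : ℕ, ∀ M : ℕ, M₀ ≤ M → ∀ k k₃ : ℕ,
    ∀ A : Finset (Fin (m + 1) → ℕ), Nr m M k k₃ c A →
    ∃ a : ℤ, |(a : ℝ)| ≤ δ * M ∧ pn (Lev.lev (m + 1) M k) (ph1 m M A) a ≤ δ ∧
      pn (Lev.lev (m + 1) M k₃) (ph3 m M A) (-2 * a) ≤ δ := by
  classical
  have hsum := hG.sum
  have hc1 := hG.one_lt
  have hu0 := hG.u_pos
  have huc := hG.u_lt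
  -- the constants
  set ρ : ℝ := min u 1 / 4 with hρdef
  have hρ : 0 < ρ := by
    have : 0 < min u 1 := lt_min hu0 one_pos
    positivity
  have hρu : 4 * ρ ≤ u := by rw [hρdef]; linarith [min_le_left u 1]
  have hρ1 : 4 * ρ ≤ 1 := by rw [hρdef]; linarith [min_le_right u 1]
  obtain ⟨hRD, hRS⟩ := rig_all (n := m + 1) (by omega)
  obtain ⟨cS, CS, D, hcS, hCS, hD, MS, hS⟩ := hRS ρ (1 / 4) hρ (by norm_num)
  set δ₂ : ℝ := min (min δ (1 / 4)) (1 / (12 * (D + 1))) with hδ₂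
  have hδ₂0 : 0 < δ₂ := by
    refine lt_min (lt_min hδ (by norm_num)) (by positivity)
  have hδ₂a : δ₂ ≤ δ := (min_le_left _ _).trans (min_le_left _ _)
  have hδ₂b : δ₂ ≤ 1 / 4 := (min_le_left _ _).trans (min_le_right _ _)
  have hδ₂c : D * (3 * δ₂) ≤ 1 / 4 := by
    have h1 : δ₂ ≤ 1 / (12 * (D + 1)) := min_le_right _ _
    rw [le_div_iff₀ (by positivity)] at h1
    nlinarith
  obtain ⟨cD, CD, hcD, hCD, MD, hDv⟩ := hRD ρ (δ₂ / 6) hρ (by positivity)
  obtain ⟨cl, hcl, Ml, hl⟩ := lev_lower (n := m + 1) (by omega) hρ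
  set σ : ℝ := min (cD * δ₂ / 2) (cS / 4) with hσ
  have hσ0 : 0 < σ := lt_min (by positivity) (by positivity)
  have hσD : σ ≤ cD * δ₂ / 2 := min_le_left _ _
  have hσS : σ ≤ cS / 4 := min_le_right _ _
  set C : ℝ := max CD CS with hCdef
  have hC0 : 0 ≤ C := hCD.trans (le_max_left _ _)
  have hCDC : CD ≤ C := le_max_left _ _
  have hCSC : CS ≤ C := le_max_right _ _
  set ε : ℝ := min (σ / (8 * (C + 1))) 1 with hεdef
  have hε : 0 < ε := lt_min (by positivity) one_pos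
  have hεC : C * (2 * ε) ≤ σ / 4 := by
    have h1 : ε ≤ σ / (8 * (C + 1)) := min_le_left _ _
    rw [le_div_iff₀ (by positivity)] at h1
    nlinarith
  set ζ : ℝ := σ / (4 * (1 + 3 / cl)) with hζdef
  have hζ : 0 < ζ := by positivity
  have hζ1 : ζ * (1 + 3 / cl) ≤ σ / 4 := by
    rw [hζdef]
    apply le_of_eq
    field_simp
  obtain ⟨η₁, hη₁, MA, hA⟩ := partA hm hG hζ
  set η : ℝ := min (min η₁ (ε / 4)) (min (δ / 2) (σ / (12 * (C + 1)))) with hηdef
  have hη : 0 < η := by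
    refine lt_min (lt_min hη₁ (by positivity)) (lt_min (by positivity) (by positivity))
  have hη1 : η ≤ η₁ := (min_le_left _ _).trans (min_le_left _ _)
  have hη2 : η ≤ ε / 4 := (min_le_left _ _).trans (min_le_right _ _)
  have hη3 : η ≤ δ / 2 := (min_le_right _ _).trans (min_le_left _ _)
  have hη4 : C * (3 * η) ≤ σ / 4 := by
    have h1 : η ≤ σ / (12 * (C + 1)) := (min_le_right _ _).trans (min_le_right _ _)
    rw [le_div_iff₀ (by positivity)] at h1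
    nlinarith
  obtain ⟨MN, hN⟩ := near hm hG hη
  obtain ⟨MF, hF⟩ := far hm hG hε hζ
  clear_value ρ δ₂ σ C ε ζ η
  clear hρdef hδ₂ hσ hCdef hεdef hζdef hηdef
  refine ⟨max (max (max MS MD) (max Ml MA)) (max (max MN MF) (⌈2 / ρ⌉₊ + ⌈1 / ε⌉₊ + 1)), ?_⟩
  intro M hM k k₃ A hNr
  obtain ⟨⟨⟨hMS, hMD⟩, hMl, hMA⟩, ⟨hMN, hMF⟩, hMb⟩ :
      ((MS ≤ M ∧ MD ≤ M) ∧ Ml ≤ M ∧ MA ≤ M) ∧ (MN ≤ M ∧ MF ≤ M) ∧
        ⌈2 / ρ⌉₊ + ⌈1 / ε⌉₊ + 1 ≤ M := by
    simp only [max_le_iff] at hM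
    exact hM
  have hM1 : 1 ≤ M := by omega
  have hMR : (0 : ℝ) < M := by exact_mod_cast hM1
  have hMρ : 2 ≤ ρ * M := by
    have h1 : 2 / ρ ≤ (M : ℝ) := (Nat.le_ceil _).trans (by exact_mod_cast (by omega))
    rw [div_le_iff₀ hρ] at h1
    linarith
  have hMε : 1 ≤ ε * M := by
    have h1 : 1 / ε ≤ (M : ℝ) := (Nat.le_ceil _).trans (by exact_mod_cast (by omega))
    rw [div_le_iff₀ hε] at h1
    linarith
  -- the levels
  have hk3 : (k₃ : ℝ) = (m + 1) * M - 2 * k := by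
    have := hNr.sum
    have h1 : (2 : ℝ) * k + k₃ = (m + 1) * M := by exact_mod_cast this
    linarith
  have hkc := abs_le.1 hNr.near
  have hmR : (2 : ℝ) ≤ m := by exact_mod_cast hm
  have g1 : (M : ℝ) ≤ c * M := by
    have := mul_le_mul_of_nonneg_right hc1.le hMR.le
    linarith
  have g2 : 4 * (ρ * M) ≤ M := by
    have := mul_le_mul_of_nonneg_right hρ1 hMR.le
    linarith
  have g3 : 4 * (ρ * M) ≤ u * M := by
    have := mul_le_mul_of_nonneg_right hρu hMR.le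
    linarith
  have g4 : ((m : ℝ) + 1) * M = 2 * (c * M) + u * M := by rw [← hsum]; ring
  have g5 : ((m : ℝ) + 1 - ρ) * M = ((m : ℝ) + 1) * M - ρ * M := by ring
  have g6 : u * M ≤ c * M := mul_le_mul_of_nonneg_right huc.le hMR.le
  have hcM : ρ * M ≤ k ∧ (k : ℝ) ≤ ((m : ℝ) + 1 - ρ) * M := by
    rw [g5, g4]
    constructor
    · linarith [hkc.1]
    · linarith [hkc.2]
  have huM : ρ * M ≤ k₃ ∧ (k₃ : ℝ) ≤ ((m : ℝ) + 1 - ρ) * M := by
    rw [g5, hk3, g4]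
    constructor
    · linarith [hkc.2]
    · linarith [hkc.1]
  -- the truncation level
  set K : ℕ := ⌈ε * M⌉₊ with hKdef
  have hK1 : ε * M ≤ K := Nat.le_ceil _
  have hK2 : (K : ℝ) ≤ 2 * ε * M := by
    have := (Nat.ceil_lt_add_one (by positivity : 0 ≤ ε * (M : ℝ))).le
    linarith
  clear_value K
  -- the inputs
  obtain ⟨hn1, hn3, -, -⟩ := hN M hMN k k₃ A hNr
  obtain ⟨hlin, -, -⟩ := hA M hMA k k₃ A hNr
    (hn1.trans (mul_le_mul_of_nonneg_right hη1 hMR.le))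
    (hn3.trans (mul_le_mul_of_nonneg_right hη1 hMR.le))
  obtain ⟨hf1, hf3⟩ := hF M hMF k k₃ A hNr K hK1
  set φ := fam m M A with hφ
  set kk : Fin 3 → ℕ := ![k, k, k₃] with hkk
  have hksum : ∑ i, kk i = (m + 1) * M := by
    rw [Fin.sum_univ_three]
    show k + k + k₃ = (m + 1) * M
    have := hNr.sum
    omega
  have hkr : ∀ i, ρ * M ≤ kk i ∧ (kk i : ℝ) ≤ ((m + 1 : ℕ) - ρ) * M := by
    intro i
    push_cast
    fin_cases i
    · exact hcM
    · exact hcM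
    · exact huM
  have had : Ad (m + 1) M kk (Rig.tr K φ) := (ad_fam hNr.sf hNr.sum).tr K
  have hlb : ∀ i, ∀ x ∈ Lev.lev (m + 1) M (kk i), -(K : ℝ) ≤ (Rig.tr K φ i x : ℝ) := by
    intro i x _
    have : -(K : ℤ) ≤ Rig.tr K φ i x := le_max_right _ _
    exact_mod_cast this
  have hK0 : (0 : ℝ) ≤ K := Nat.cast_nonneg _
  have hne : ∀ i, (Lev.lev (m + 1) M (kk i)).Nonempty := by
    obtain ⟨x, hx, -⟩ := Lev.exists_triple (M := M) hksum
    exact fun i => ⟨_, hx i⟩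
  -- averages of the truncated functions
  have havt : ∀ (S : Finset (Fin (m + 1) → Fin (M + 1))) (f : (Fin (m + 1) → Fin (M + 1)) → ℤ),
      cl * (M : ℝ) ^ m ≤ (S.card : ℝ) →
      ∑ x ∈ S, ((max (f x) (-K) - f x : ℤ) : ℝ) ≤ ζ * (M : ℝ) ^ m →
      av S (fun x => ((max (f x) (-K) : ℤ) : ℝ)) ≤ av S (fun x => (f x : ℝ)) + ζ / cl := by
    intro S f hS hf
    have hMm : 0 < (M : ℝ) ^ m := by positivity
    have hc : (0 : ℝ) < (S.card : ℝ) := (by positivity : 0 < cl * (M : ℝ) ^ m).trans_le hS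
    unfold av
    rw [div_add' _ _ _ hc.ne', div_le_div_iff_of_pos_right hc]
    have h1 : ∑ x ∈ S, ((max (f x) (-K) - f x : ℤ) : ℝ)
        = ∑ x ∈ S, ((max (f x) (-K) : ℤ) : ℝ) - ∑ x ∈ S, (f x : ℝ) := by
      rw [← sum_sub_distrib]
      exact sum_congr rfl fun x _ => by push_cast; ring
    have h2 : ζ * (M : ℝ) ^ m ≤ ζ / cl * S.card := by
      calc ζ * (M : ℝ) ^ m = ζ / cl * (cl * (M : ℝ) ^ m) := by field_simp
        _ ≤ ζ / cl * S.card := mul_le_mul_of_nonneg_left hS (by positivity)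
    linarith
  have hcard1 : cl * (M : ℝ) ^ m ≤ ((Lev.lev (m + 1) M k).card : ℝ) := by
    have := hl M hMl k hcM.1 (by push_cast; exact hcM.2)
    simpa using this
  have hcard3 : cl * (M : ℝ) ^ m ≤ ((Lev.lev (m + 1) M k₃).card : ℝ) := by
    have := hl M hMl k₃ huM.1 (by push_cast; exact huM.2)
    simpa using this
  have ha1 := havt (Lev.lev (m + 1) M k) (ph1 m M A) hcard1 hf1
  have ha3 := havt (Lev.lev (m + 1) M k₃) (ph3 m M A) hcard3 hf3
  have habs : ∀ (S : Finset (Fin (m + 1) → Fin (M + 1))) (f : (Fin (m + 1) → Fin (M + 1)) → ℤ),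
      av S (fun x => |((max (f x) (-K) : ℤ) : ℝ)|) ≤ av S (fun x => |(f x : ℝ)|) := by
    intro S f
    refine av_mono fun x _ => ?_
    have : |max (f x) (-(K : ℤ))| ≤ |f x| := by
      rcases le_total (f x) (-(K : ℤ)) with h3 | h3
      · rw [max_eq_right h3, abs_neg, Nat.abs_cast, abs_of_nonpos (by omega)]
        omega
      · rw [max_eq_left h3]
    exact_mod_cast this
  have hb1 := (habs (Lev.lev (m + 1) M k) (ph1 m M A)).trans hn1
  have hb3 := (habs (Lev.lev (m + 1) M k₃) (ph3 m M A)).trans hn3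
  -- the right-hand side
  have hR : ∀ C' : ℝ, 0 ≤ C' → C' ≤ C →
      ∑ i, av (Lev.lev (m + 1) M (kk i)) (fun x => (Rig.tr K φ i x : ℝ))
      + C' / M * (∑ i, av (Lev.lev (m + 1) M (kk i)) (fun x => |(Rig.tr K φ i x : ℝ)|) + K)
      ≤ σ * (3 / 4) := by
    intro C' hC'0 hC'
    rw [Fin.sum_univ_three, Fin.sum_univ_three]
    have e1 : av (Lev.lev (m + 1) M (kk 0)) (fun x => (Rig.tr K φ 0 x : ℝ))
      = av (Lev.lev (m + 1) M k) (fun x => ((max (ph1 m M A x) (-K) : ℤ) : ℝ)) := rfl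
    have e2 : av (Lev.lev (m + 1) M (kk 1)) (fun x => (Rig.tr K φ 1 x : ℝ))
      = av (Lev.lev (m + 1) M k) (fun x => ((max (ph1 m M A x) (-K) : ℤ) : ℝ)) := rfl
    have e3 : av (Lev.lev (m + 1) M (kk 2)) (fun x => (Rig.tr K φ 2 x : ℝ))
      = av (Lev.lev (m + 1) M k₃) (fun x => ((max (ph3 m M A x) (-K) : ℤ) : ℝ)) := rfl
    have e4 : av (Lev.lev (m + 1) M (kk 0)) (fun x => |(Rig.tr K φ 0 x : ℝ)|)
      = av (Lev.lev (m + 1) M k) (fun x => |((max (ph1 m M A x) (-K) : ℤ) : ℝ)|) := rfl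
    have e5 : av (Lev.lev (m + 1) M (kk 1)) (fun x => |(Rig.tr K φ 1 x : ℝ)|)
      = av (Lev.lev (m + 1) M k) (fun x => |((max (ph1 m M A x) (-K) : ℤ) : ℝ)|) := rfl
    have e6 : av (Lev.lev (m + 1) M (kk 2)) (fun x => |(Rig.tr K φ 2 x : ℝ)|)
      = av (Lev.lev (m + 1) M k₃) (fun x => |((max (ph3 m M A x) (-K) : ℤ) : ℝ)|) := rfl
    rw [e1, e2, e3, e4, e5, e6]
    have h1 : C' / M * (av (Lev.lev (m + 1) M k) (fun x => |((max (ph1 m M A x) (-K) : ℤ) : ℝ)|)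
        + av (Lev.lev (m + 1) M k) (fun x => |((max (ph1 m M A x) (-K) : ℤ) : ℝ)|)
        + av (Lev.lev (m + 1) M k₃) (fun x => |((max (ph3 m M A x) (-K) : ℤ) : ℝ)|) + K)
        ≤ C' / M * ((3 * η + 2 * ε) * M) := by
      refine mul_le_mul_of_nonneg_left ?_ (by positivity)
      linarith
    have h2 : C' / M * ((3 * η + 2 * ε) * M) = C' * (3 * η) + C' * (2 * ε) := by
      field_simp
    have h3 : C' * (3 * η) ≤ C * (3 * η) := mul_le_mul_of_nonneg_right hC' (by positivity)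
    have h4 : C' * (2 * ε) ≤ C * (2 * ε) := mul_le_mul_of_nonneg_right hC' (by positivity)
    have h5 : ζ * (1 + 3 / cl) = ζ + 3 * (ζ / cl) := by ring
    linarith
  -- rigidity
  have hD1 := hDv M hMD kk hksum hkr (Rig.tr K φ) had K hK0 hlb
  have hD2 := hD1.trans (hR CD hCD hCDC)
  rw [Fin.sum_univ_three] at hD2
  have hdev : ∀ i, dev (Lev.lev (m + 1) M (kk i)) (Rig.tr K φ i) ≤ δ₂ := by
    have h0 := dev_nonneg (Lev.lev (m + 1) M (kk 0)) (Rig.tr K φ 0)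
    have h1 := dev_nonneg (Lev.lev (m + 1) M (kk 1)) (Rig.tr K φ 1)
    have h2 := dev_nonneg (Lev.lev (m + 1) M (kk 2)) (Rig.tr K φ 2)
    have h3 : cD * (dev (Lev.lev (m + 1) M (kk 0)) (Rig.tr K φ 0) - δ₂ / 6
        + (dev (Lev.lev (m + 1) M (kk 1)) (Rig.tr K φ 1) - δ₂ / 6)
        + (dev (Lev.lev (m + 1) M (kk 2)) (Rig.tr K φ 2) - δ₂ / 6)) ≤ cD * (δ₂ / 2) := by
      linarith
    have h4 := le_of_mul_le_mul_left h3 hcD
    intro i
    fin_cases i
    · show dev (Lev.lev (m + 1) M (kk 0)) (Rig.tr K φ 0) ≤ δ₂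
      linarith
    · show dev (Lev.lev (m + 1) M (kk 1)) (Rig.tr K φ 1) ≤ δ₂
      linarith
    · show dev (Lev.lev (m + 1) M (kk 2)) (Rig.tr K φ 2) ≤ δ₂
      linarith
  obtain ⟨a, ha⟩ := exists_dev (Lev.lev (m + 1) M (kk 0)) (Rig.tr K φ 0)
  obtain ⟨b, hb⟩ := exists_dev (Lev.lev (m + 1) M (kk 2)) (Rig.tr K φ 2)
  have hpa : pn (Lev.lev (m + 1) M k) (fun x => max (ph1 m M A x) (-K)) a ≤ δ₂ := by
    have := hdev 0
    rw [← ha] at this
    exact this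
  have hpb : pn (Lev.lev (m + 1) M k₃) (fun x => max (ph3 m M A x) (-K)) b ≤ δ₂ := by
    have := hdev 2
    rw [← hb] at this
    exact this
  have hab : 2 * a + b = 0 := by
    by_contra hab
    have h1 := hS M hMS kk hksum hkr (Rig.tr K φ) had K hK0 hlb ![a, a, b] (by
      rw [Fin.sum_univ_three]
      show ¬ (a + a + b = 0)
      omega)
    have h2 := h1.trans (hR CS hCS hCSC)
    rw [Fin.sum_univ_three] at h2
    have h3 : pn (Lev.lev (m + 1) M (kk 0)) (Rig.tr K φ 0) ((![a, a, b] : Fin 3 → ℤ) 0) ≤ δ₂ :=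
      hpa
    have h4 : pn (Lev.lev (m + 1) M (kk 1)) (Rig.tr K φ 1) ((![a, a, b] : Fin 3 → ℤ) 1) ≤ δ₂ :=
      hpa
    have h5 : pn (Lev.lev (m + 1) M (kk 2)) (Rig.tr K φ 2) ((![a, a, b] : Fin 3 → ℤ) 2) ≤ δ₂ :=
      hpb
    have h6 : D * (pn (Lev.lev (m + 1) M (kk 0)) (Rig.tr K φ 0) ((![a, a, b] : Fin 3 → ℤ) 0)
        + pn (Lev.lev (m + 1) M (kk 1)) (Rig.tr K φ 1) ((![a, a, b] : Fin 3 → ℤ) 1)
        + pn (Lev.lev (m + 1) M (kk 2)) (Rig.tr K φ 2) ((![a, a, b] : Fin 3 → ℤ) 2))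
        ≤ D * (3 * δ₂) := mul_le_mul_of_nonneg_left (by linarith) hD
    have h7 : cS * (1 / 2) ≤ cS * (1 - 1 / 4
        - D * (pn (Lev.lev (m + 1) M (kk 0)) (Rig.tr K φ 0) ((![a, a, b] : Fin 3 → ℤ) 0)
        + pn (Lev.lev (m + 1) M (kk 1)) (Rig.tr K φ 1) ((![a, a, b] : Fin 3 → ℤ) 1)
        + pn (Lev.lev (m + 1) M (kk 2)) (Rig.tr K φ 2) ((![a, a, b] : Fin 3 → ℤ) 2))) :=
      mul_le_mul_of_nonneg_left (by linarith) hcS.le
    linarith
  have hKbig : ∀ S : Finset (Fin (m + 1) → Fin (M + 1)), ∀ f : (Fin (m + 1) → Fin (M + 1)) → ℤ,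
      av S (fun x => |(f x : ℝ)|) ≤ η * M → 2 * av S (fun x => |(f x : ℝ)|) < K := by
    intro S f hf
    have h1 : 2 * (η * M) < ε * M := by
      have : 2 * η < ε := by linarith
      nlinarith
    linarith
  have hr1 := pn_trunc (hne 0) (f := ph1 m M A) (K := K) (a := a)
    (hpa.trans (by linarith)) (hKbig _ _ hn1)
  have hr3 := pn_trunc (hne 2) (f := ph3 m M A) (K := K) (a := b)
    (hpb.trans (by linarith)) (hKbig _ _ hn3)
  refine ⟨a, ?_, ?_, ?_⟩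
  · refine hr1.2.trans ?_
    have h1 : av (Lev.lev (m + 1) M (kk 0)) (fun x => |(ph1 m M A x : ℝ)|) ≤ η * M := hn1
    have h2 : η * M ≤ δ / 2 * M := mul_le_mul_of_nonneg_right hη3 hMR.le
    linarith
  · have h1 : pn (Lev.lev (m + 1) M k) (ph1 m M A) a
        = pn (Lev.lev (m + 1) M k) (fun x => max (ph1 m M A x) (-K)) a := hr1.1
    rw [h1]
    linarith
  · have hb' : -2 * a = b := by linarith
    rw [hb']
    have h1 : pn (Lev.lev (m + 1) M k₃) (ph3 m M A) b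
        = pn (Lev.lev (m + 1) M k₃) (fun x => max (ph3 m M A x) (-K)) b := hr3.1
    rw [h1]
    linarith

end Pool.Agent.Work.MP_0cd883_co.Rig
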