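import Pool.Agent.Work.MP_0cd883_co.Rig.Lam

namespace Pool.Agent.Work.MP_0cd883_co.Rig

open Finset

/-- first coordinate and coordinate sum -/
def pz {n M : ℕ} (x : Fin (n + 1) → Fin (M + 1)) : Fin (M + 1) × ℕ := (x 0, ∑ i, (x i : ℕ))

/-- the point with first coordinate `t` and the others given by `y` -/
def cn {n M : ℕ} (t : Fin (M + 1)) (y : Fin n → Fin (M + 1)) : Fin (n + 1) → Fin (M + 1) :=
  Fin.cons t y

theorem cn_zero {n M : ℕ} (t : Fin (M + 1)) (y : Fin n → Fin (M + 1)) : cn t y 0 = t := rfl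

theorem cn_succ {n M : ℕ} (t : Fin (M + 1)) (y : Fin n → Fin (M + 1)) (i : Fin n) :
    cn t y i.succ = y i := rfl

theorem cn_inj {n M : ℕ} (t : Fin (M + 1)) :
    Function.Injective (cn t : (Fin n → Fin (M + 1)) → _) := by
  intro y z h
  funext i
  have := congrFun h i.succ
  simpa [cn_succ] using this

theorem cn_self {n M : ℕ} (x : Fin (n + 1) → Fin (M + 1)) : cn (x 0) (fun i => x i.succ) = x := by
  funext i
  refine Fin.cases ?_ (fun j => ?_) i
  · rfl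
  · rfl

theorem mem_lev_cn {n M k : ℕ} {t : Fin (M + 1)} {y : Fin n → Fin (M + 1)} :
    cn t y ∈ Lev.lev (n + 1) M k ↔ (t : ℕ) ≤ k ∧ y ∈ Lev.lev n M (k - t) := by
  rw [Lev.mem_lev, Lev.mem_lev, Fin.sum_univ_succ]
  simp only [cn_zero, cn_succ]
  omega

theorem fib_eq {n M k : ℕ} {x : Fin (n + 1) → Fin (M + 1)} (hx : x ∈ Lev.lev (n + 1) M k) :
    univ.filter (fun y => pz y = pz x) = (Lev.lev n M (k - x 0)).image (cn (x 0)) := by
  ext y
  simp only [mem_filter, mem_univ, true_and, mem_image, pz, Prod.mk.injEq]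
  have hx' := Lev.mem_lev.1 hx
  constructor
  · rintro ⟨h1, h2⟩
    refine ⟨fun i => y i.succ, ?_, ?_⟩
    · have h3 : cn (x 0) (fun i => y i.succ) ∈ Lev.lev (n + 1) M k := by
        rw [← h1, cn_self, Lev.mem_lev, h2, hx']
      exact (mem_lev_cn.1 h3).2
    · rw [← h1, cn_self]
  · rintro ⟨z, hz, rfl⟩
    refine ⟨rfl, ?_⟩
    have h0 : ((x 0 : Fin (M + 1)) : ℕ) ≤ k := by
      rw [← hx']
      exact single_le_sum (f := fun i => ((x i : Fin (M + 1)) : ℕ)) (fun _ _ => Nat.zero_le _)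
        (mem_univ 0)
    have h4 : cn (x 0) z ∈ Lev.lev (n + 1) M k := mem_lev_cn.2 ⟨h0, hz⟩
    rw [hx']
    exact Lev.mem_lev.1 h4

theorem lev_zero_le {n M k : ℕ} {x : Fin (n + 1) → Fin (M + 1)} (hx : x ∈ Lev.lev (n + 1) M k) :
    ((x 0 : Fin (M + 1)) : ℕ) ≤ k := by
  rw [← Lev.mem_lev.1 hx]
  exact single_le_sum (f := fun i => ((x i : Fin (M + 1)) : ℕ)) (fun _ _ => Nat.zero_le _)
    (mem_univ 0)

theorem lev_tail {n M k : ℕ} {x : Fin (n + 1) → Fin (M + 1)} (hx : x ∈ Lev.lev (n + 1) M k) :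
    (fun i => x i.succ) ∈ Lev.lev n M (k - x 0) := by
  rw [← cn_self x] at hx
  exact (mem_lev_cn.1 hx).2

theorem Rs_pz {n M k : ℕ} {x : Fin (n + 1) → Fin (M + 1)} (hx : x ∈ Lev.lev (n + 1) M k)
    (A : (Fin (n + 1) → Fin (M + 1)) → ℝ) :
    Lev.Rs pz A x = av (Lev.lev n M (k - x 0)) (fun y => A (cn (x 0) y)) := by
  unfold Lev.Rs av
  rw [fib_eq hx, sum_image (fun a _ b _ h => cn_inj _ h),
    card_image_of_injective _ (cn_inj _)]

theorem sum_Rs_pz {n M k : ℕ} (A : (Fin (n + 1) → Fin (M + 1)) → ℝ) :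
    ∑ x ∈ Lev.lev (n + 1) M k, Lev.Rs pz A x = ∑ x ∈ Lev.lev (n + 1) M k, A x := by
  have h2 := Lev.Rs_symm pz A (fun x => if x ∈ Lev.lev (n + 1) M k then (1 : ℝ) else 0)
  rw [Lev.Rs_const pz (fun x => if x ∈ Lev.lev (n + 1) M k then (1 : ℝ) else 0)
    (fun x y hxy => by
      have h3 : x ∈ Lev.lev (n + 1) M k ↔ y ∈ Lev.lev (n + 1) M k := by
        rw [Lev.mem_lev, Lev.mem_lev]
        have := (Prod.mk.inj hxy).2
        rw [this]
      simp only [h3])] at h2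
  simp only [mul_ite, mul_one, mul_zero, ← sum_filter, filter_mem_eq_inter, univ_inter] at h2
  exact h2

/-- averaging over sections -/
theorem sec_av {n M : ℕ} {k : Fin 3 → ℕ} (hk : ∑ i, k i = (n + 1) * M)
    (A : Fin 3 → (Fin (n + 1) → Fin (M + 1)) → ℝ) (bad : Fin 3 → Fin (M + 1) → Prop)
    [∀ i, DecidablePred (bad i)] (B κ : ℝ) (hB : 0 ≤ B)
    (h1 : ∀ t : Fin 3 → Fin (M + 1), ∑ i, (t i : ℕ) = M → (∀ i, (t i : ℕ) ≤ k i) →
      (∀ i, (Lev.lev n M (k i - t i)).Nonempty) → (∀ i, ¬ bad i (t i)) →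
      κ ≤ ∑ i, av (Lev.lev n M (k i - t i)) (fun y => A i (cn (t i) y)))
    (h2 : ∀ t : Fin 3 → Fin (M + 1), ∑ i, (t i : ℕ) = M → (∀ i, (t i : ℕ) ≤ k i) →
      (∀ i, (Lev.lev n M (k i - t i)).Nonempty) →
      κ - B ≤ ∑ i, av (Lev.lev n M (k i - t i)) (fun y => A i (cn (t i) y))) :
    κ ≤ ∑ i, av (Lev.lev (n + 1) M (k i)) (A i)
      + B * ∑ i, (((Lev.lev (n + 1) M (k i)).filter fun x => bad i (x 0)).card : ℝ)
          / ((Lev.lev (n + 1) M (k i)).card : ℝ) := by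
  have hrel : Lev.Rel (n + 1) M k κ
      (fun i x => Lev.Rs pz (A i) x + B * (if bad i (x 0) then (1 : ℝ) else 0)) := by
    intro x hx hs
    have hR : ∀ i, Lev.Rs pz (A i) (x i)
        = av (Lev.lev n M (k i - x i 0)) (fun y => A i (cn (x i 0) y)) := fun i =>
      Rs_pz (hx i) (A i)
    have hs0 : ∑ i, ((x i 0 : Fin (M + 1)) : ℕ) = M := hs 0
    have hle : ∀ i, ((x i 0 : Fin (M + 1)) : ℕ) ≤ k i := fun i => lev_zero_le (hx i)
    have hne : ∀ i, (Lev.lev n M (k i - x i 0)).Nonempty := fun i => ⟨_, lev_tail (hx i)⟩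
    simp only [hR]
    rw [sum_add_distrib, ← mul_sum]
    by_cases hb : ∀ i, ¬ bad i (x i 0)
    · have h3 := h1 (fun i => x i 0) hs0 hle hne hb
      have h4 : (0 : ℝ) ≤ ∑ i, (if bad i (x i 0) then (1 : ℝ) else 0) :=
        sum_nonneg fun i _ => by split_ifs <;> norm_num
      have h5 := mul_nonneg hB h4
      linarith
    · push Not at hb
      obtain ⟨i₀, hi₀⟩ := hb
      have h3 := h2 (fun i => x i 0) hs0 hle hne
      have h4 : (1 : ℝ) ≤ ∑ i, (if bad i (x i 0) then (1 : ℝ) else 0) := by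
        have := single_le_sum (f := fun i => (if bad i (x i 0) then (1 : ℝ) else 0))
          (fun i _ => by split_ifs <;> norm_num) (mem_univ i₀)
        simpa [hi₀] using this
      have h5 := mul_le_mul_of_nonneg_left h4 hB
      linarith
  have h6 := Lev.li hk hrel
  refine h6.trans (le_of_eq ?_)
  rw [mul_sum, ← sum_add_distrib]
  refine sum_congr rfl fun i _ => ?_
  unfold av
  rw [sum_add_distrib, sum_Rs_pz, ← mul_sum, sum_boole]
  ring

/-- the sections of an admissible triple are admissible -/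
theorem Ad.sec {n M : ℕ} {k : Fin 3 → ℕ} {φ : Fin 3 → (Fin (n + 1) → Fin (M + 1)) → ℤ}
    (h : Ad (n + 1) M k φ) {t : Fin 3 → Fin (M + 1)} (ht : ∑ i, (t i : ℕ) = M)
    (hle : ∀ i, (t i : ℕ) ≤ k i) :
    Ad n M (fun i => k i - t i) (fun i y => φ i (cn (t i) y)) := by
  intro x hx hs
  refine h (fun i => cn (t i) (x i)) (fun i => mem_lev_cn.2 ⟨hle i, hx i⟩) (fun j => ?_)
  refine Fin.cases ?_ (fun l => ?_) j
  · simpa [cn_zero] using ht
  · simpa [cn_succ] using hs l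

theorem sum_sub_eq {n M : ℕ} {k : Fin 3 → ℕ} (hk : ∑ i, k i = (n + 1) * M)
    {t : Fin 3 → Fin (M + 1)} (ht : ∑ i, (t i : ℕ) = M) (hle : ∀ i, (t i : ℕ) ≤ k i) :
    ∑ i, (k i - t i) = n * M := by
  rw [Fin.sum_univ_three] at hk ht ⊢
  have h0 := hle 0
  have h1 := hle 1
  have h2 := hle 2
  have : (n + 1) * M = n * M + M := by ring
  omega

theorem Ad.avg {n M : ℕ} {k : Fin 3 → ℕ} (hk : ∑ i, k i = n * M)
    {φ : Fin 3 → (Fin n → Fin (M + 1)) → ℤ} (h : Ad n M k φ) :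
    0 ≤ ∑ i, av (Lev.lev n M (k i)) (fun x => (φ i x : ℝ)) := by
  have hrel : Lev.Rel n M k 0 (fun i x => (φ i x : ℝ)) := by
    intro x hx hs
    have := h x hx hs
    show (0 : ℝ) ≤ ∑ i, ((φ i (x i) : ℤ) : ℝ)
    exact_mod_cast this
  exact Lev.li hk hrel

theorem card_sec_le {n M k : ℕ} (t : Fin (M + 1)) :
    ((Lev.lev (n + 1) M k).filter fun x => x 0 = t).card ≤ (Lev.lev n M (k - t)).card := by
  refine card_le_card_of_injOn (fun x i => x i.succ) ?_ ?_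
  · intro x hx
    have hx' := mem_filter.1 (mem_coe.1 hx)
    have := lev_tail hx'.1
    rw [hx'.2] at this
    exact mem_coe.2 this
  · intro x hx y hy hxy
    have hx' := mem_filter.1 (mem_coe.1 hx)
    have hy' := mem_filter.1 (mem_coe.1 hy)
    have h1 : (fun i : Fin n => x i.succ) = (fun i : Fin n => y i.succ) := hxy
    rw [← cn_self x, ← cn_self y, h1, hx'.2, hy'.2]

/-- few points of a level lie in sections near the ends -/
theorem bad_small {n : ℕ} (hn : 1 ≤ n) {ρ ε : ℝ} (hρ : 0 < ρ) (hε : 0 < ε) :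
    ∃ ρ' : ℝ, 0 < ρ' ∧ ∃ M₀ : ℕ, ∀ M : ℕ, M₀ ≤ M → ∀ k : ℕ, ρ * M ≤ k →
      (k : ℝ) ≤ ((n : ℝ) + 1 - ρ) * M →
      (((Lev.lev (n + 1) M k).filter fun x =>
        ¬ (ρ' * M ≤ ((k - x 0 : ℕ) : ℝ) ∧ ((k - x 0 : ℕ) : ℝ) ≤ (n - ρ') * M)).card : ℝ)
          / ((Lev.lev (n + 1) M k).card : ℝ) ≤ ε := by
  classical
  obtain ⟨c, hc, M₀, hM₀⟩ := lev_lower (n := n + 1) (by omega) hρ
  refine ⟨c * ε / 2 ^ (n + 1), by positivity, max M₀ (⌈2 ^ (n + 1) / (c * ε)⌉₊ + 1), ?_⟩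
  intro M hM k hk1 hk2
  set ρ' : ℝ := c * ε / 2 ^ (n + 1) with hρ'
  have hρ'0 : 0 < ρ' := by positivity
  have hMM : M₀ ≤ M := (le_max_left _ _).trans hM
  have hM1 : ⌈2 ^ (n + 1) / (c * ε)⌉₊ + 1 ≤ M := (le_max_right _ _).trans hM
  have hMpos : 1 ≤ M := by omega
  have hMR : (1 : ℝ) ≤ M := by exact_mod_cast hMpos
  have hMbig : 2 ^ (n + 1) / (c * ε) ≤ (M : ℝ) := by
    refine (Nat.le_ceil _).trans ?_
    exact_mod_cast (by omega : ⌈(2 : ℝ) ^ (n + 1) / (c * ε)⌉₊ ≤ M)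
  have hlow := hM₀ M hMM k hk1 (by push_cast; exact hk2)
  simp only [Nat.add_sub_cancel] at hlow
  set T : Finset (Fin (M + 1)) := univ.filter fun t =>
    (t : ℕ) ≤ k ∧ k - t ≤ n * M ∧
      ¬ (ρ' * M ≤ ((k - t : ℕ) : ℝ) ∧ ((k - t : ℕ) : ℝ) ≤ (n - ρ') * M) with hT
  -- size of `T`
  have hTcard : (T.card : ℝ) ≤ 2 * (ρ' * M + 1) := by
    set T1 : Finset (Fin (M + 1)) := univ.filter fun t =>
      (t : ℕ) ≤ k ∧ k - t < ⌈ρ' * M⌉₊ with hT1
    set T2 : Finset (Fin (M + 1)) := univ.filter fun t =>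
      (t : ℕ) ≤ k ∧ k - t ≤ n * M ∧ n * M - (k - t) < ⌈ρ' * M⌉₊ with hT2
    have hsub : T ⊆ T1 ∪ T2 := by
      intro t ht
      simp only [hT, mem_filter, mem_univ, true_and] at ht
      obtain ⟨h1, h2, h3⟩ := ht
      rw [mem_union]
      by_cases h4 : ρ' * M ≤ ((k - t : ℕ) : ℝ)
      · right
        have h5 : ¬ ((k - t : ℕ) : ℝ) ≤ (n - ρ') * M := fun h => h3 ⟨h4, h⟩
        push Not at h5
        simp only [hT2, mem_filter, mem_univ, true_and]
        refine ⟨h1, h2, ?_⟩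
        rw [Nat.lt_ceil, Nat.cast_sub h2]
        push_cast
        linarith
      · left
        push Not at h4
        simp only [hT1, mem_filter, mem_univ, true_and]
        exact ⟨h1, Nat.lt_ceil.2 h4⟩
    have hc1 : T1.card ≤ ⌈ρ' * M⌉₊ := by
      rw [← card_range ⌈ρ' * M⌉₊]
      refine card_le_card_of_injOn (fun t => k - (t : ℕ)) ?_ ?_
      · intro t ht
        have := (mem_filter.1 (mem_coe.1 ht)).2
        exact mem_coe.2 (mem_range.2 this.2)
      · intro t ht s hs hts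
        have h1 := (mem_filter.1 (mem_coe.1 ht)).2
        have h2 := (mem_filter.1 (mem_coe.1 hs)).2
        have h3 : k - (t : ℕ) = k - (s : ℕ) := hts
        exact Fin.ext (by omega)
    have hc2 : T2.card ≤ ⌈ρ' * M⌉₊ := by
      rw [← card_range ⌈ρ' * M⌉₊]
      refine card_le_card_of_injOn (fun t => n * M - (k - (t : ℕ))) ?_ ?_
      · intro t ht
        have := (mem_filter.1 (mem_coe.1 ht)).2
        exact mem_coe.2 (mem_range.2 this.2.2)
      · intro t ht s hs hts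
        have h1 := (mem_filter.1 (mem_coe.1 ht)).2
        have h2 := (mem_filter.1 (mem_coe.1 hs)).2
        have h3 : n * M - (k - (t : ℕ)) = n * M - (k - (s : ℕ)) := hts
        exact Fin.ext (by omega)
    have h6 : T.card ≤ T1.card + T2.card := (card_le_card hsub).trans (card_union_le _ _)
    have h7 : (⌈ρ' * M⌉₊ : ℝ) ≤ ρ' * M + 1 := (Nat.ceil_lt_add_one (by positivity)).le
    have h8 : (T.card : ℝ) ≤ (⌈ρ' * M⌉₊ : ℝ) + (⌈ρ' * M⌉₊ : ℝ) := by
      exact_mod_cast h6.trans (add_le_add hc1 hc2)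
    linarith
  -- size of the set of bad points
  set S := (Lev.lev (n + 1) M k).filter fun x =>
    ¬ (ρ' * M ≤ ((k - x 0 : ℕ) : ℝ) ∧ ((k - x 0 : ℕ) : ℝ) ≤ (n - ρ') * M) with hS
  have hScard : (S.card : ℝ) ≤ T.card * ((M : ℝ) + 1) ^ (n - 1) := by
    have h1 : ∀ x ∈ S, x 0 ∈ T := by
      intro x hx
      have hx' := mem_filter.1 hx
      simp only [hT, mem_filter, mem_univ, true_and]
      refine ⟨lev_zero_le hx'.1, ?_, hx'.2⟩
      rw [← Lev.mem_lev.1 (lev_tail hx'.1)]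
      calc ∑ i : Fin n, ((x i.succ : Fin (M + 1)) : ℕ) ≤ ∑ _i : Fin n, M :=
            sum_le_sum fun i _ => by
              have := (x i.succ).isLt
              omega
        _ = n * M := by simp
    rw [card_eq_sum_card_fiberwise (f := fun x : Fin (n + 1) → Fin (M + 1) => x 0) (t := T)
      (fun x hx => mem_coe.2 (h1 x (mem_coe.1 hx)))]
    push_cast
    calc ∑ t ∈ T, ((S.filter fun x => x 0 = t).card : ℝ)
        ≤ ∑ _t ∈ T, ((M : ℝ) + 1) ^ (n - 1) := by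
          refine sum_le_sum fun t _ => ?_
          have h2 : (S.filter fun x => x 0 = t).card ≤ (Lev.lev n M (k - t)).card := by
            refine (card_le_card ?_).trans (card_sec_le (k := k) t)
            intro x hx
            have hx' := mem_filter.1 hx
            exact mem_filter.2 ⟨(mem_filter.1 hx'.1).1, hx'.2⟩
          exact (by exact_mod_cast h2 : ((S.filter fun x => x 0 = t).card : ℝ)
            ≤ ((Lev.lev n M (k - t)).card : ℝ)).trans (lev_upper hn M _)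
      _ = T.card * ((M : ℝ) + 1) ^ (n - 1) := by rw [sum_const, nsmul_eq_mul]
  have hpos : 0 < c * (M : ℝ) ^ n := by positivity
  have hcard0 : (0 : ℝ) < ((Lev.lev (n + 1) M k).card : ℝ) := hpos.trans_le hlow
  rw [div_le_iff₀ hcard0]
  have hM2 : ((M : ℝ) + 1) ^ (n - 1) ≤ 2 ^ (n - 1) * (M : ℝ) ^ (n - 1) := by
    rw [← mul_pow]
    exact pow_le_pow_left₀ (by positivity) (by linarith) _
  have hkey : 2 * (ρ' * M + 1) * (2 ^ (n - 1) * (M : ℝ) ^ (n - 1)) ≤ ε * (c * (M : ℝ) ^ n) := by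
    obtain ⟨m, rfl⟩ : ∃ m, n = m + 1 := ⟨n - 1, by omega⟩
    simp only [Nat.add_sub_cancel]
    have h1 : 2 ^ (m + 1 + 1) ≤ (M : ℝ) * (c * ε) := by
      rwa [div_le_iff₀ (by positivity)] at hMbig
    have h2 : ρ' * 2 ^ (m + 1 + 1) = c * ε := by
      rw [hρ']
      field_simp
    have h3 : 2 * (ρ' * M + 1) * 2 ^ m ≤ ε * c * M := by
      have e : 2 * (ρ' * (M : ℝ) + 1) * 2 ^ m
          = (ρ' * 2 ^ (m + 1 + 1) * M + 2 ^ (m + 1 + 1)) / 2 := by ring
      rw [e, h2]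
      linarith
    calc 2 * (ρ' * M + 1) * (2 ^ m * (M : ℝ) ^ m)
        = 2 * (ρ' * M + 1) * 2 ^ m * (M : ℝ) ^ m := by ring
      _ ≤ ε * c * M * (M : ℝ) ^ m := mul_le_mul_of_nonneg_right h3 (by positivity)
      _ = ε * (c * (M : ℝ) ^ (m + 1)) := by ring
  calc (S.card : ℝ) ≤ T.card * ((M : ℝ) + 1) ^ (n - 1) := hScard
    _ ≤ 2 * (ρ' * M + 1) * (2 ^ (n - 1) * (M : ℝ) ^ (n - 1)) :=
        mul_le_mul hTcard hM2 (by positivity) (by positivity)
    _ ≤ ε * (c * (M : ℝ) ^ n) := hkey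
    _ ≤ ε * ((Lev.lev (n + 1) M k).card : ℝ) := mul_le_mul_of_nonneg_left hlow hε.le

/-- rigidity in dimension `n` applied to the sections `x 0 = t` in dimension `n + 1` -/
theorem sect {n : ℕ} (hn : 2 ≤ n) (h : RigD n) {ρ δ : ℝ} (hρ : 0 < ρ) (hδ : 0 < δ) :
    ∃ c C : ℝ, 0 < c ∧ 0 ≤ C ∧ ∃ M₀ : ℕ, ∀ M : ℕ, M₀ ≤ M → ∀ k : Fin 3 → ℕ,
    ∑ i, k i = (n + 1) * M → (∀ i, ρ * M ≤ k i ∧ (k i : ℝ) ≤ (n + 1 - ρ) * M) →
    ∀ φ : Fin 3 → (Fin (n + 1) → Fin (M + 1)) → ℤ, Ad (n + 1) M k φ →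
    ∀ K : ℝ, 0 ≤ K → (∀ i, ∀ x ∈ Lev.lev (n + 1) M (k i), -K ≤ φ i x) →
    ∃ α : Fin 3 → ℕ → ℤ,
    c * ∑ i, ((((Lev.lev (n + 1) M (k i)).filter fun x => φ i x ≠ α i (x 0)).card : ℝ)
        / ((Lev.lev (n + 1) M (k i)).card : ℝ) - δ) ≤
      ∑ i, av (Lev.lev (n + 1) M (k i)) (fun x => (φ i x : ℝ))
      + C / M * (∑ i, av (Lev.lev (n + 1) M (k i)) (fun x => |(φ i x : ℝ)|) + K) := by
  classical
  obtain ⟨ρ', hρ', M₁, hbad⟩ := bad_small (n := n) (by omega) hρ (by positivity : 0 < δ / 6)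
  obtain ⟨c, C, hc, hC, M₂, hR⟩ := h ρ' (δ / 2) hρ' (by positivity)
  refine ⟨c, C, hc, hC, max M₁ (max M₂ 1), ?_⟩
  intro M hM k hk hkr φ hφ K hK hKφ
  have hM1 : M₁ ≤ M := (le_max_left _ _).trans hM
  have hM2 : M₂ ≤ M := ((le_max_left _ _).trans (le_max_right _ _)).trans hM
  have hM3 : 1 ≤ M := ((le_max_right _ _).trans (le_max_right _ _)).trans hM
  have hMR : (0 : ℝ) < M := by exact_mod_cast hM3
  -- the constants of the sections
  have hex : ∀ (i : Fin 3) (t : ℕ), ∃ a : ℤ, ∀ h : t < M + 1,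
      pn (Lev.lev n M (k i - t)) (fun y => φ i (cn ⟨t, h⟩ y)) a
        = dev (Lev.lev n M (k i - t)) (fun y => φ i (cn ⟨t, h⟩ y)) := by
    intro i t
    by_cases h : t < M + 1
    · obtain ⟨a, ha⟩ := exists_dev (Lev.lev n M (k i - t)) (fun y => φ i (cn ⟨t, h⟩ y))
      exact ⟨a, fun _ => ha⟩
    · exact ⟨0, fun h' => absurd h' h⟩
  choose α hα using hex
  refine ⟨α, ?_⟩
  have hα' : ∀ (i : Fin 3) (t : Fin (M + 1)),
      pn (Lev.lev n M (k i - t)) (fun y => φ i (cn t y)) (α i t)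
        = dev (Lev.lev n M (k i - t)) (fun y => φ i (cn t y)) := fun i t => hα i t t.isLt
  set A : Fin 3 → (Fin (n + 1) → Fin (M + 1)) → ℝ := fun i x =>
    (φ i x : ℝ) + C / M * (|(φ i x : ℝ)| + K / 3)
      - c * ((if φ i x ≠ α i (x 0) then (1 : ℝ) else 0) - δ / 2) with hA
  -- average of `A` on a nonempty set
  have hAav : ∀ (i : Fin 3) (m : ℕ) (S : Finset (Fin m → Fin (M + 1)))
      (e : (Fin m → Fin (M + 1)) → (Fin (n + 1) → Fin (M + 1))), S.Nonempty →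
      av S (fun y => A i (e y)) = av S (fun y => (φ i (e y) : ℝ))
        + C / M * (av S (fun y => |(φ i (e y) : ℝ)|) + K / 3)
        - c * (((S.filter fun y => φ i (e y) ≠ α i (e y 0)).card : ℝ) / (S.card : ℝ)
          - δ / 2) := by
    intro i m S e hS
    have hS0 : (0 : ℝ) < (S.card : ℝ) := by exact_mod_cast card_pos.2 hS
    unfold av
    simp only [hA]
    rw [sum_sub_distrib, sum_add_distrib, ← mul_sum, ← mul_sum, sum_add_distrib, sum_sub_distrib,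
      sum_boole, sum_const, sum_const, nsmul_eq_mul, nsmul_eq_mul]
    field_simp
  have key := sec_av (n := n) (M := M) (k := k) hk A
    (fun i t => ¬ (ρ' * M ≤ ((k i - t : ℕ) : ℝ) ∧ ((k i - t : ℕ) : ℝ) ≤ (n - ρ') * M))
    (3 * c) 0 (by positivity) ?_ ?_
  · -- conclusion
    have hne : ∀ i, (Lev.lev (n + 1) M (k i)).Nonempty := by
      obtain ⟨x, hx, -⟩ := Lev.exists_triple (M := M) hk
      exact fun i => ⟨_, hx i⟩
    have hB : ∀ i, (((Lev.lev (n + 1) M (k i)).filter fun x =>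
        ¬ (ρ' * M ≤ ((k i - x 0 : ℕ) : ℝ) ∧ ((k i - x 0 : ℕ) : ℝ) ≤ (n - ρ') * M)).card : ℝ)
          / ((Lev.lev (n + 1) M (k i)).card : ℝ) ≤ δ / 6 := fun i =>
      hbad M hM1 (k i) (hkr i).1 (hkr i).2
    have hA1 : ∀ i, av (Lev.lev (n + 1) M (k i)) (A i)
        = av (Lev.lev (n + 1) M (k i)) (fun y => (φ i y : ℝ))
        + C / M * (av (Lev.lev (n + 1) M (k i)) (fun y => |(φ i y : ℝ)|) + K / 3)
        - c * ((((Lev.lev (n + 1) M (k i)).filter fun y => φ i y ≠ α i (y 0)).card : ℝ)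
          / ((Lev.lev (n + 1) M (k i)).card : ℝ) - δ / 2) := fun i =>
      hAav i (n + 1) _ id (hne i)
    rw [Fin.sum_univ_three, Fin.sum_univ_three, hA1, hA1, hA1] at key
    rw [Fin.sum_univ_three, Fin.sum_univ_three, Fin.sum_univ_three]
    have b0 := mul_le_mul_of_nonneg_left (hB 0) hc.le
    have b1 := mul_le_mul_of_nonneg_left (hB 1) hc.le
    have b2 := mul_le_mul_of_nonneg_left (hB 2) hc.le
    nlinarith [key, b0, b1, b2]
  · -- good sections
    intro t ht hle hne hgood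
    have hgood' : ∀ i, ρ' * M ≤ ((k i - t i : ℕ) : ℝ) ∧ ((k i - t i : ℕ) : ℝ) ≤ (n - ρ') * M :=
      fun i => not_not.1 (hgood i)
    have h1 := hR M hM2 (fun i => k i - t i) (sum_sub_eq hk ht hle) hgood' _ (hφ.sec ht hle) K hK
      (fun i y hy => hKφ i _ (mem_lev_cn.2 ⟨hle i, hy⟩))
    have h2 : ∀ i, av (Lev.lev n M (k i - t i)) (fun y => A i (cn (t i) y))
        = av (Lev.lev n M (k i - t i)) (fun y => (φ i (cn (t i) y) : ℝ))
        + C / M * (av (Lev.lev n M (k i - t i)) (fun y => |(φ i (cn (t i) y) : ℝ)|) + K / 3)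
        - c * (dev (Lev.lev n M (k i - t i)) (fun y => φ i (cn (t i) y)) - δ / 2) := by
      intro i
      rw [hAav i n _ (cn (t i)) (hne i), ← hα' i (t i)]
      rfl
    rw [Fin.sum_univ_three] at h1 ⊢
    rw [Fin.sum_univ_three, Fin.sum_univ_three] at h1
    rw [h2, h2, h2]
    nlinarith [h1]
  · -- all sections
    intro t ht hle hne
    have h1 := Ad.avg (sum_sub_eq hk ht hle) (hφ.sec ht hle)
    have h2 : ∀ i, av (Lev.lev n M (k i - t i)) (fun y => (φ i (cn (t i) y) : ℝ)) - c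
        ≤ av (Lev.lev n M (k i - t i)) (fun y => A i (cn (t i) y)) := by
      intro i
      have h3 : av (Lev.lev n M (k i - t i)) (fun y => A i (cn (t i) y))
        = av (Lev.lev n M (k i - t i)) (fun y => (φ i (cn (t i) y) : ℝ))
        + C / M * (av (Lev.lev n M (k i - t i)) (fun y => |(φ i (cn (t i) y) : ℝ)|) + K / 3)
        - c * (dev (Lev.lev n M (k i - t i)) (fun y => φ i (cn (t i) y)) - δ / 2) := by
        rw [hAav i n _ (cn (t i)) (hne i), ← hα' i (t i)]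
        rfl
      have h4 := dev_le_one (Lev.lev n M (k i - t i)) (fun y => φ i (cn (t i) y))
      have h5 : 0 ≤ av (Lev.lev n M (k i - t i)) (fun y => |(φ i (cn (t i) y) : ℝ)|) :=
        div_nonneg (sum_nonneg fun _ _ => abs_nonneg _) (Nat.cast_nonneg _)
      have h6 : 0 ≤ C / M * (av (Lev.lev n M (k i - t i)) (fun y => |(φ i (cn (t i) y) : ℝ)|)
          + K / 3) := by positivity
      rw [h3]
      nlinarith [mul_le_mul_of_nonneg_left h4 hc.le, mul_pos hc hδ]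
    rw [Fin.sum_univ_three] at h1 ⊢
    have := h2 0
    have := h2 1
    have := h2 2
    linarith

theorem rigS_step {n : ℕ} (hn : 2 ≤ n) (h : RigS n) : RigS (n + 1) := by
  classical
  intro ρ δ hρ hδ
  obtain ⟨ρ', hρ', M₁, hbad⟩ := bad_small (n := n) (by omega) hρ (by positivity : 0 < δ / 6)
  obtain ⟨c, C, D, hc, hC, hD, M₂, hR⟩ := h ρ' (δ / 2) hρ' (by positivity)
  refine ⟨c, C, D, hc, hC, hD, max M₁ (max M₂ 1), ?_⟩
  intro M hM k hk hkr φ hφ K hK hKφ a ha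
  have hM1 : M₁ ≤ M := (le_max_left _ _).trans hM
  have hM2 : M₂ ≤ M := ((le_max_left _ _).trans (le_max_right _ _)).trans hM
  have hM3 : 1 ≤ M := ((le_max_right _ _).trans (le_max_right _ _)).trans hM
  have hMR : (0 : ℝ) < M := by exact_mod_cast hM3
  set A : Fin 3 → (Fin (n + 1) → Fin (M + 1)) → ℝ := fun i x =>
    (φ i x : ℝ) + C / M * (|(φ i x : ℝ)| + K / 3)
      - c * ((1 - δ / 2) / 3 - D * (if φ i x ≠ a i then (1 : ℝ) else 0)) with hA
  have hAav : ∀ (i : Fin 3) (m : ℕ) (S : Finset (Fin m → Fin (M + 1)))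
      (e : (Fin m → Fin (M + 1)) → (Fin (n + 1) → Fin (M + 1))), S.Nonempty →
      av S (fun y => A i (e y)) = av S (fun y => (φ i (e y) : ℝ))
        + C / M * (av S (fun y => |(φ i (e y) : ℝ)|) + K / 3)
        - c * ((1 - δ / 2) / 3 - D * pn S (fun y => φ i (e y)) (a i)) := by
    intro i m S e hS
    have hS0 : (0 : ℝ) < (S.card : ℝ) := by exact_mod_cast card_pos.2 hS
    unfold av pn
    simp only [hA]
    rw [sum_sub_distrib, sum_add_distrib, ← mul_sum, ← mul_sum, sum_add_distrib, sum_sub_distrib,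
      ← mul_sum, sum_boole, sum_const, sum_const, nsmul_eq_mul, nsmul_eq_mul]
    field_simp
  have key := sec_av (n := n) (M := M) (k := k) hk A
    (fun i t => ¬ (ρ' * M ≤ ((k i - t : ℕ) : ℝ) ∧ ((k i - t : ℕ) : ℝ) ≤ (n - ρ') * M))
    c 0 hc.le ?_ ?_
  · -- conclusion
    have hne : ∀ i, (Lev.lev (n + 1) M (k i)).Nonempty := by
      obtain ⟨x, hx, -⟩ := Lev.exists_triple (M := M) hk
      exact fun i => ⟨_, hx i⟩
    have hB : ∀ i, (((Lev.lev (n + 1) M (k i)).filter fun x =>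
        ¬ (ρ' * M ≤ ((k i - x 0 : ℕ) : ℝ) ∧ ((k i - x 0 : ℕ) : ℝ) ≤ (n - ρ') * M)).card : ℝ)
          / ((Lev.lev (n + 1) M (k i)).card : ℝ) ≤ δ / 6 := fun i =>
      hbad M hM1 (k i) (hkr i).1 (by have := (hkr i).2; push_cast at this; exact this)
    have hA1 : ∀ i, av (Lev.lev (n + 1) M (k i)) (A i)
        = av (Lev.lev (n + 1) M (k i)) (fun y => (φ i y : ℝ))
        + C / M * (av (Lev.lev (n + 1) M (k i)) (fun y => |(φ i y : ℝ)|) + K / 3)
        - c * ((1 - δ / 2) / 3 - D * pn (Lev.lev (n + 1) M (k i)) (φ i) (a i)) := fun i =>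
      hAav i (n + 1) _ id (hne i)
    rw [Fin.sum_univ_three, Fin.sum_univ_three, hA1, hA1, hA1] at key
    rw [Fin.sum_univ_three, Fin.sum_univ_three, Fin.sum_univ_three]
    have b0 := mul_le_mul_of_nonneg_left (hB 0) hc.le
    have b1 := mul_le_mul_of_nonneg_left (hB 1) hc.le
    have b2 := mul_le_mul_of_nonneg_left (hB 2) hc.le
    nlinarith [key, b0, b1, b2]
  · -- good sections
    intro t ht hle hne hgood
    have hgood' : ∀ i, ρ' * M ≤ ((k i - t i : ℕ) : ℝ) ∧ ((k i - t i : ℕ) : ℝ) ≤ (n - ρ') * M :=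
      fun i => not_not.1 (hgood i)
    have h1 := hR M hM2 (fun i => k i - t i) (sum_sub_eq hk ht hle) hgood' _ (hφ.sec ht hle) K hK
      (fun i y hy => hKφ i _ (mem_lev_cn.2 ⟨hle i, hy⟩)) a ha
    rw [Fin.sum_univ_three, Fin.sum_univ_three, Fin.sum_univ_three] at h1
    rw [Fin.sum_univ_three, hAav 0 n _ (cn (t 0)) (hne 0), hAav 1 n _ (cn (t 1)) (hne 1),
      hAav 2 n _ (cn (t 2)) (hne 2)]
    nlinarith [h1]
  · -- all sections
    intro t ht hle hne
    have h1 := Ad.avg (sum_sub_eq hk ht hle) (hφ.sec ht hle)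
    have h2 : ∀ i, av (Lev.lev n M (k i - t i)) (fun y => (φ i (cn (t i) y) : ℝ)) - c / 3
        ≤ av (Lev.lev n M (k i - t i)) (fun y => A i (cn (t i) y)) := by
      intro i
      rw [hAav i n _ (cn (t i)) (hne i)]
      have h4 := pn_nonneg (Lev.lev n M (k i - t i)) (fun y => φ i (cn (t i) y)) (a i)
      have h5 : 0 ≤ av (Lev.lev n M (k i - t i)) (fun y => |(φ i (cn (t i) y) : ℝ)|) :=
        div_nonneg (sum_nonneg fun _ _ => abs_nonneg _) (Nat.cast_nonneg _)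
      have h6 : 0 ≤ C / M * (av (Lev.lev n M (k i - t i)) (fun y => |(φ i (cn (t i) y) : ℝ)|)
          + K / 3) := by positivity
      have h7 : 0 ≤ c * (D * pn (Lev.lev n M (k i - t i)) (fun y => φ i (cn (t i) y)) (a i)) := by
        positivity
      nlinarith [mul_pos hc hδ]
    rw [Fin.sum_univ_three] at h1 ⊢
    have := h2 0
    have := h2 1
    have := h2 2
    linarith

end Pool.Agent.Work.MP_0cd883_co.Rig
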