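import Pool.Agent.Work.MP_0cd883_co.Rig.Defs
import Pool.Agent.Work.MP_0cd883_co.Exact.Defs
import Pool.Agent.Work.MP_0cd883_co.Cube.DefsS

/-!
The two fibre functions of a sum-free set and the quantities counted in the linear inequality.
The side of the grid is `M + 2`; a summand `p` is written `x + 1` and a sum `z` is written
`M + 2 - w` with `x`, `w` in `{0..M}^(m+1)`, so that `x + y + w = M` on a Schur triple.
-/

namespace Pool.Agent.Work.MP_0cd883_co.Rig

open Finset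

/-- number of the points of the fibre over `x` missing in `A`, in summand coordinates -/
def mis1 (m M : ℕ) (A : Finset (Fin (m + 1) → ℕ)) (x : Fin m → Fin (M + 1)) : ℕ :=
  (univ.filter fun t : Fin (M + 1) =>
    (fun i => ((Fin.cons t x : Fin (m + 1) → Fin (M + 1)) i : ℕ) + 1) ∉ A).card

/-- number of the points of the fibre over `w` missing in `A`, in sum coordinates -/
def mis3 (m M : ℕ) (A : Finset (Fin (m + 1) → ℕ)) (w : Fin m → Fin (M + 1)) : ℕ :=
  (univ.filter fun t : Fin (M + 1) =>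
    (fun i => M + 2 - ((Fin.cons t w : Fin (m + 1) → Fin (M + 1)) i : ℕ)) ∉ A).card

def ph1 (m M : ℕ) (A : Finset (Fin (m + 1) → ℕ)) (x : Fin (m + 1) → Fin (M + 1)) : ℤ :=
  (mis1 m M A (Fin.tail x) : ℤ) - ((x 0 : ℕ) : ℤ)

def ph3 (m M : ℕ) (A : Finset (Fin (m + 1) → ℕ)) (w : Fin (m + 1) → Fin (M + 1)) : ℤ :=
  (mis3 m M A (Fin.tail w) : ℤ) - ((w 0 : ℕ) : ℤ) - 1

/-- the three functions of a sum-free set -/
def fam (m M : ℕ) (A : Finset (Fin (m + 1) → ℕ)) : Fin 3 → (Fin (m + 1) → Fin (M + 1)) → ℤ :=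
  ![ph1 m M A, ph1 m M A, ph3 m M A]

/-- present points of `A` below the window, in summand coordinates -/
def lowC (m M : ℕ) (A : Finset (Fin (m + 1) → ℕ)) (k : ℕ) : ℕ :=
  ∑ x ∈ univ.filter (fun x : Fin m → Fin (M + 1) => ∑ i, (x i : ℕ) + M < k),
    (M + 1 - mis1 m M A x)

/-- present points of `A` below the window, in sum coordinates -/
def highC (m M : ℕ) (A : Finset (Fin (m + 1) → ℕ)) (k₃ : ℕ) : ℕ :=
  ∑ w ∈ univ.filter (fun w : Fin m → Fin (M + 1) => ∑ i, (w i : ℕ) + M < k₃),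
    (M + 1 - mis3 m M A w)

/-- missing points of `A` over the base points between the windows -/
def deepC (m M : ℕ) (A : Finset (Fin (m + 1) → ℕ)) (k k₃ L L' : ℕ) : ℕ :=
  ∑ x ∈ univ.filter (fun x : Fin m → Fin (M + 1) => k < ∑ i, (x i : ℕ) ∧ ∑ i, (x i : ℕ) ≤ L),
    mis1 m M A x
  + ∑ w ∈ univ.filter (fun w : Fin m → Fin (M + 1) => k₃ < ∑ i, (w i : ℕ) ∧ ∑ i, (w i : ℕ) ≤ L'),
    mis3 m M A w

/-- a large sum-free set; `k` is the rounded critical level -/
structure Nr (m M k k₃ : ℕ) (c : ℝ) (A : Finset (Fin (m + 1) → ℕ)) : Prop where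
  sum : 2 * k + k₃ = (m + 1) * M
  near : |(k : ℝ) - c * M| ≤ 1
  sub : A ⊆ grid (m + 1) (M + 2)
  sf : SumFree A
  big : (Exact.Astar (m + 1) (M + 2) (k + m + 1)).card ≤ A.card

end Pool.Agent.Work.MP_0cd883_co.Rig
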