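import Pool.Agent.Work.MP_0cd883_co.Rig.Hex

/-!
Rigidity in dimension two: the levels of `{0..M}^2` are intervals.
-/

namespace Pool.Agent.Work.MP_0cd883_co.Rig

open Finset

theorem av_image {ι κ : Type*} [DecidableEq κ] {S : Finset ι} {e : ι → κ} (he : Set.InjOn e S)
    (f : κ → ℝ) : av (S.image e) f = av S (fun a => f (e a)) := by
  unfold av
  rw [sum_image he, card_image_of_injOn he]

theorem pn_image {ι κ : Type*} [DecidableEq κ] {S : Finset ι} {e : ι → κ} (he : Set.InjOn e S)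
    (f : κ → ℤ) (a : ℤ) : pn (S.image e) f a = pn S (fun x => f (e x)) a := by
  unfold pn
  rw [filter_image, card_image_of_injOn (he.mono (by exact_mod_cast filter_subset _ _)),
    card_image_of_injOn he]

theorem dev_image {ι κ : Type*} [DecidableEq κ] {S : Finset ι} {e : ι → κ} (he : Set.InjOn e S)
    (f : κ → ℤ) : dev (S.image e) f = dev S (fun x => f (e x)) := by
  unfold dev
  simp only [pn_image he]

/-- the point with first coordinate `l + a` of the level `k` of `{0..M}^2` -/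
def pt2 (M k l a : ℕ) : Fin 2 → Fin (M + 1) :=
  ![Fin.ofNat (M + 1) (l + a), Fin.ofNat (M + 1) (k - l - a)]

theorem pt2_zero {M k l a : ℕ} (h : l + a ≤ M) : (pt2 M k l a 0 : ℕ) = l + a :=
  Nat.mod_eq_of_lt (by omega)

theorem pt2_one {M k l a : ℕ} (h : k - l - a ≤ M) : (pt2 M k l a 1 : ℕ) = k - l - a :=
  Nat.mod_eq_of_lt (by omega)

theorem lev_two {M k l p : ℕ} (h1 : k - M = l) (h2 : min k M - (k - M) = p) (hk : k ≤ 2 * M) :
    Lev.lev 2 M k = (range (p + 1)).image (pt2 M k l) := by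
  ext x
  rw [Lev.mem_lev, Fin.sum_univ_two, mem_image]
  constructor
  · intro hx
    have h3 := (x 0).2
    have h4 := (x 1).2
    refine ⟨(x 0 : ℕ) - l, ?_, ?_⟩
    · rw [mem_range]
      omega
    · funext i
      apply Fin.ext
      fin_cases i
      · show (pt2 M k l ((x 0 : ℕ) - l) 0 : ℕ) = x 0
        rw [pt2_zero (by omega)]
        omega
      · show (pt2 M k l ((x 0 : ℕ) - l) 1 : ℕ) = x 1
        rw [pt2_one (by omega)]
        omega
  · rintro ⟨a, ha, rfl⟩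
    rw [mem_range] at ha
    rw [pt2_zero (by omega), pt2_one (by omega)]
    omega

theorem pt2_inj {M k l p : ℕ} (h1 : k - M = l) (h2 : min k M - (k - M) = p) (hk : k ≤ 2 * M) :
    Set.InjOn (pt2 M k l) (range (p + 1) : Finset ℕ) := by
  intro a ha a' ha' h
  rw [mem_coe, mem_range] at ha ha'
  have h3 : (pt2 M k l a 0 : ℕ) = (pt2 M k l a' 0 : ℕ) := by rw [h]
  rw [pt2_zero (by omega), pt2_zero (by omega)] at h3
  omega

/-- the three levels as the three sides of a hexagon -/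
theorem two_data {M : ℕ} {k : Fin 3 → ℕ} (hk : ∑ i, k i = 2 * M) :
    ∃ (b₁ b₂ b₃ : ℕ) (e : Fin 3 → ℕ → Fin 2 → Fin (M + 1)),
    b₁ + b₂ + b₃ ≤ M ∧
    (b₂ + b₃ = min (k 0) M - (k 0 - M)) ∧ (b₁ + b₃ = min (k 1) M - (k 1 - M)) ∧
    (b₁ + b₂ = min (k 2) M - (k 2 - M)) ∧
    Lev.lev 2 M (k 0) = (range (b₂ + b₃ + 1)).image (e 0) ∧
    Lev.lev 2 M (k 1) = (range (b₁ + b₃ + 1)).image (e 1) ∧
    Lev.lev 2 M (k 2) = (range (b₁ + b₂ + 1)).image (e 2) ∧
    Set.InjOn (e 0) (range (b₂ + b₃ + 1) : Finset ℕ) ∧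
    Set.InjOn (e 1) (range (b₁ + b₃ + 1) : Finset ℕ) ∧
    Set.InjOn (e 2) (range (b₁ + b₂ + 1) : Finset ℕ) ∧
    ∀ φ : Fin 3 → (Fin 2 → Fin (M + 1)) → ℤ, Ad 2 M k φ →
      ∀ x ≤ b₂ + b₃, ∀ y ≤ b₁ + b₃, ∀ w ≤ b₁ + b₂, x + y + w = b₁ + b₂ + b₃ →
        0 ≤ φ 0 (e 0 x) + φ 1 (e 1 y) + φ 2 (e 2 w) := by
  rw [Fin.sum_univ_three] at hk
  obtain ⟨l1, p1, a1, b1, c1, d1, e1, f1⟩ := Lev.lp_cases M (k 0) (by omega)
  obtain ⟨l2, p2, a2, b2, c2, d2, e2, f2⟩ := Lev.lp_cases M (k 1) (by omega)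
  obtain ⟨l3, p3, a3, b3, c3, d3, e3, f3⟩ := Lev.lp_cases M (k 2) (by omega)
  have hm : ∃ α β γ, p1 = β + γ ∧ p2 = α + γ ∧ p3 = α + β ∧ l1 + l2 + l3 + (α + β + γ) = M := by
    rcases f1 with f1 | f1 <;> rcases f2 with f2 | f2 <;> rcases f3 with f3 | f3 <;>
      exact ⟨M - l1 - l2 - l3 - p1, M - l1 - l2 - l3 - p2, M - l1 - l2 - l3 - p3,
        by omega, by omega, by omega, by omega⟩
  obtain ⟨α, β, γ, rfl, rfl, rfl, hm⟩ := hm
  refine ⟨α, β, γ, ![pt2 M (k 0) l1, pt2 M (k 1) l2, pt2 M (k 2) l3], by omega, b1.symm, b2.symm,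
    b3.symm, lev_two a1 b1 (by omega), lev_two a2 b2 (by omega), lev_two a3 b3 (by omega),
    pt2_inj a1 b1 (by omega), pt2_inj a2 b2 (by omega), pt2_inj a3 b3 (by omega), ?_⟩
  intro φ hφ x hx y hy w hw hxyw
  have h := hφ ![pt2 M (k 0) l1 x, pt2 M (k 1) l2 y, pt2 M (k 2) l3 w] ?_ ?_
  · rw [Fin.sum_univ_three] at h
    exact h
  · intro i
    fin_cases i
    · show pt2 M (k 0) l1 x ∈ Lev.lev 2 M (k 0)
      rw [lev_two a1 b1 (by omega)]
      exact mem_image_of_mem _ (mem_range.2 (by omega))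
    · show pt2 M (k 1) l2 y ∈ Lev.lev 2 M (k 1)
      rw [lev_two a2 b2 (by omega)]
      exact mem_image_of_mem _ (mem_range.2 (by omega))
    · show pt2 M (k 2) l3 w ∈ Lev.lev 2 M (k 2)
      rw [lev_two a3 b3 (by omega)]
      exact mem_image_of_mem _ (mem_range.2 (by omega))
  · intro j
    rw [Fin.sum_univ_three]
    show (pt2 M (k 0) l1 x j : ℕ) + (pt2 M (k 1) l2 y j : ℕ) + (pt2 M (k 2) l3 w j : ℕ) = M
    fin_cases j
    · show (pt2 M (k 0) l1 x 0 : ℕ) + (pt2 M (k 1) l2 y 0 : ℕ) + (pt2 M (k 2) l3 w 0 : ℕ) = M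
      rw [pt2_zero (by omega), pt2_zero (by omega), pt2_zero (by omega)]
      omega
    · show (pt2 M (k 0) l1 x 1 : ℕ) + (pt2 M (k 1) l2 y 1 : ℕ) + (pt2 M (k 2) l3 w 1 : ℕ) = M
      rw [pt2_one (by omega), pt2_one (by omega), pt2_one (by omega)]
      omega

theorem side_ge {ρ : ℝ} (hρ : 0 < ρ) {M k : ℕ} (h1 : ρ * M ≤ k) (h2 : (k : ℝ) ≤ (2 - ρ) * M) :
    ρ * M ≤ ((min k M - (k - M) : ℕ) : ℝ) := by
  have hM : (0 : ℝ) ≤ M := Nat.cast_nonneg _
  have h3 : (k : ℝ) ≤ 2 * M := by nlinarith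
  have h4 : k ≤ 2 * M := by exact_mod_cast h3
  rcases le_total k M with h | h
  · rw [min_eq_left h, Nat.sub_eq_zero_of_le h]
    simpa using h1
  · rw [min_eq_right h, Nat.cast_sub (by omega), Nat.cast_sub h]
    nlinarith

theorem rigD_two : RigD 2 := by
  intro ρ δ hρ hδ
  obtain ⟨c, C, hc, hC, M₀, hM⟩ := hex hρ (β := 3 * δ) (by positivity)
  refine ⟨c, C, hc, hC, M₀, fun M hM0 k hk hkρ φ hφ K hK hφK => ?_⟩
  obtain ⟨b₁, b₂, b₃, e, hb, q1, q2, q3, s1, s2, s3, i1, i2, i3, hA⟩ := two_data hk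
  have r1 := side_ge hρ (hkρ 0).1 (by simpa using (hkρ 0).2)
  have r2 := side_ge hρ (hkρ 1).1 (by simpa using (hkρ 1).2)
  have r3 := side_ge hρ (hkρ 2).1 (by simpa using (hkρ 2).2)
  rw [← q1] at r1
  rw [← q2] at r2
  rw [← q3] at r3
  push_cast at r1 r2 r3
  have key := hM M hM0 b₁ b₂ b₃ hb r1 r2 r3 (fun x => φ 0 (e 0 x)) (fun x => φ 1 (e 1 x))
    (fun x => φ 2 (e 2 x)) (hA φ hφ) K hK
    (fun x hx => hφK 0 _ (by rw [s1]; exact mem_image_of_mem _ (mem_range.2 (by omega))))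
    (fun x hx => hφK 1 _ (by rw [s2]; exact mem_image_of_mem _ (mem_range.2 (by omega))))
    (fun x hx => hφK 2 _ (by rw [s3]; exact mem_image_of_mem _ (mem_range.2 (by omega))))
  rw [Fin.sum_univ_three, Fin.sum_univ_three, Fin.sum_univ_three, s1, s2, s3, dev_image i1,
    dev_image i2, dev_image i3, av_image i1, av_image i2, av_image i3, av_image i1, av_image i2,
    av_image i3]
  refine le_trans (le_of_eq ?_) key
  ring

theorem rigS_two : RigS 2 := by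
  intro ρ δ hρ hδ
  obtain ⟨c, C, D, hc, hC, hD, M₀, hM⟩ := hexS hρ
  refine ⟨c, C, D, hc, hC, hD, M₀, fun M hM0 k hk hkρ φ hφ K hK hφK a ha => ?_⟩
  obtain ⟨b₁, b₂, b₃, e, hb, q1, q2, q3, s1, s2, s3, i1, i2, i3, hA⟩ := two_data hk
  have r1 := side_ge hρ (hkρ 0).1 (by simpa using (hkρ 0).2)
  have r2 := side_ge hρ (hkρ 1).1 (by simpa using (hkρ 1).2)
  have r3 := side_ge hρ (hkρ 2).1 (by simpa using (hkρ 2).2)
  rw [← q1] at r1
  rw [← q2] at r2
  rw [← q3] at r3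
  push_cast at r1 r2 r3
  rw [Fin.sum_univ_three] at ha
  have key := hM M hM0 b₁ b₂ b₃ hb r1 r2 r3 (fun x => φ 0 (e 0 x)) (fun x => φ 1 (e 1 x))
    (fun x => φ 2 (e 2 x)) (hA φ hφ) K hK
    (fun x hx => hφK 0 _ (by rw [s1]; exact mem_image_of_mem _ (mem_range.2 (by omega))))
    (fun x hx => hφK 1 _ (by rw [s2]; exact mem_image_of_mem _ (mem_range.2 (by omega))))
    (fun x hx => hφK 2 _ (by rw [s3]; exact mem_image_of_mem _ (mem_range.2 (by omega))))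
    (a 0) (a 1) (a 2) ha
  rw [Fin.sum_univ_three, Fin.sum_univ_three, Fin.sum_univ_three, s1, s2, s3, pn_image i1,
    pn_image i2, pn_image i3, av_image i1, av_image i2, av_image i3, av_image i1, av_image i2,
    av_image i3]
  refine le_trans ?_ key
  have : 0 ≤ c * δ := by positivity
  nlinarith

end Pool.Agent.Work.MP_0cd883_co.Rig
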