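import Pool.Agent.Work.MP_0cd883_co.Rig.Sec
import Pool.Agent.Work.MP_0cd883_co.Rig.Glue
import Pool.Agent.Work.MP_0cd883_co.Rig.Two

namespace Pool.Agent.Work.MP_0cd883_co.Rig

open Finset

/-- permutation of the coordinates -/
def cp {n M : ℕ} (σ : Equiv.Perm (Fin n)) (x : Fin n → Fin (M + 1)) : Fin n → Fin (M + 1) :=
  fun i => x (σ i)

theorem cp_cp {n M : ℕ} (σ : Equiv.Perm (Fin n)) (x : Fin n → Fin (M + 1)) :
    cp σ (cp σ⁻¹ x) = x := by
  funext i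
  simp [cp]

theorem cp_cp' {n M : ℕ} (σ : Equiv.Perm (Fin n)) (x : Fin n → Fin (M + 1)) :
    cp σ⁻¹ (cp σ x) = x := by
  funext i
  simp [cp]

theorem cp_mem {n M k : ℕ} (σ : Equiv.Perm (Fin n)) {x : Fin n → Fin (M + 1)} :
    cp σ x ∈ Lev.lev n M k ↔ x ∈ Lev.lev n M k := by
  rw [Lev.mem_lev, Lev.mem_lev]
  have : ∑ i, ((cp σ x i : Fin (M + 1)) : ℕ) = ∑ i, (x i : ℕ) :=
    Equiv.sum_comp σ (fun i => ((x i : Fin (M + 1)) : ℕ))
  rw [this]

theorem av_cp {n M k : ℕ} (σ : Equiv.Perm (Fin n)) (f : (Fin n → Fin (M + 1)) → ℝ) :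
    av (Lev.lev n M k) (fun x => f (cp σ x)) = av (Lev.lev n M k) f := by
  unfold av
  congr 1
  refine sum_nbij' (cp σ) (cp σ⁻¹) ?_ ?_ ?_ ?_ ?_
  · intro x hx
    exact (cp_mem σ).2 hx
  · intro x hx
    exact (cp_mem σ⁻¹).2 hx
  · intro x _
    exact cp_cp' σ x
  · intro x _
    exact cp_cp σ x
  · intro x _
    rfl

theorem card_cp {n M k : ℕ} (σ : Equiv.Perm (Fin n)) (P : (Fin n → Fin (M + 1)) → Prop)
    [DecidablePred P] :
    ((Lev.lev n M k).filter fun x => P (cp σ x)).card = ((Lev.lev n M k).filter P).card := by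
  refine card_nbij' (cp σ) (cp σ⁻¹) ?_ ?_ ?_ ?_
  · intro x hx
    have hx' := mem_filter.1 (mem_coe.1 hx)
    exact mem_coe.2 (mem_filter.2 ⟨(cp_mem σ).2 hx'.1, hx'.2⟩)
  · intro x hx
    have hx' := mem_filter.1 (mem_coe.1 hx)
    refine mem_coe.2 (mem_filter.2 ⟨(cp_mem σ⁻¹).2 hx'.1, ?_⟩)
    rw [cp_cp]
    exact hx'.2
  · intro x _
    exact cp_cp' σ x
  · intro x _
    exact cp_cp σ x

theorem Ad.cp {n M : ℕ} {k : Fin 3 → ℕ} {φ : Fin 3 → (Fin n → Fin (M + 1)) → ℤ}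
    (h : Ad n M k φ) (σ : Equiv.Perm (Fin n)) :
    Ad n M k (fun i x => φ i (Rig.cp σ x)) := by
  intro x hx hs
  exact h (fun i => Rig.cp σ (x i)) (fun i => (cp_mem σ).2 (hx i)) (fun j => hs (σ j))

theorem rigD_step {n : ℕ} (hn : 2 ≤ n) (h : RigD n) : RigD (n + 1) := by
  classical
  intro ρ δ hρ hδ
  obtain ⟨m, rfl⟩ : ∃ m, n = m + 1 := ⟨n - 1, by omega⟩
  obtain ⟨G, hG, M₁, hglue⟩ := glue (m := m) (by omega) hρ (by positivity : 0 < δ / 2)
  obtain ⟨c, C, hc, hC, M₂, hsec⟩ := sect hn h hρ (by positivity : 0 < δ / (4 * (G + 1)))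
  refine ⟨c / (2 * (G + 1)), C, by positivity, hC, max M₁ (max M₂ 1), ?_⟩
  intro M hM k hk hkr φ hφ K hK hKφ
  have hM1 : M₁ ≤ M := (le_max_left _ _).trans hM
  have hM2 : M₂ ≤ M := ((le_max_left _ _).trans (le_max_right _ _)).trans hM
  have hM3 : 1 ≤ M := ((le_max_right _ _).trans (le_max_right _ _)).trans hM
  have hMR : (0 : ℝ) < M := by exact_mod_cast hM3
  have hkr' : ∀ i, ρ * M ≤ k i ∧ (k i : ℝ) ≤ (((m + 1 : ℕ) : ℝ) + 1 - ρ) * M := by
    intro i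
    have := hkr i
    push_cast at this ⊢
    exact this
  obtain ⟨α, hα⟩ := hsec M hM2 k hk hkr' φ hφ K hK hKφ
  -- the same with the first two coordinates exchanged
  set σ : Equiv.Perm (Fin (m + 1 + 1)) := Equiv.swap 0 1 with hσ
  obtain ⟨β, hβ⟩ := hsec M hM2 k hk hkr' (fun i x => φ i (Rig.cp σ x)) (hφ.cp σ) K hK
    (fun i x hx => hKφ i _ ((cp_mem σ).2 hx))
  have e1 : ∀ i, av (Lev.lev (m + 1 + 1) M (k i)) (fun x => (φ i (Rig.cp σ x) : ℝ))
      = av (Lev.lev (m + 1 + 1) M (k i)) (fun x => (φ i x : ℝ)) := fun i =>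
    av_cp σ (fun x => (φ i x : ℝ))
  have e2 : ∀ i, av (Lev.lev (m + 1 + 1) M (k i)) (fun x => |(φ i (Rig.cp σ x) : ℝ)|)
      = av (Lev.lev (m + 1 + 1) M (k i)) (fun x => |(φ i x : ℝ)|) := fun i =>
    av_cp σ (fun x => |(φ i x : ℝ)|)
  have e3 : ∀ i, ((Lev.lev (m + 1 + 1) M (k i)).filter
      fun x => φ i (Rig.cp σ x) ≠ β i (x 0)).card
      = ((Lev.lev (m + 1 + 1) M (k i)).filter fun x => φ i x ≠ β i (x 1)).card := by
    intro i
    rw [← card_cp σ (fun x => φ i x ≠ β i (x 1))]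
    have : ∀ x : Fin (m + 1 + 1) → Fin (M + 1), Rig.cp σ x 1 = x 0 := fun x => by
      simp [Rig.cp, hσ]
    simp only [this]
  simp only [e1, e2, e3] at hβ
  have hg : ∀ i, dev (Lev.lev (m + 1 + 1) M (k i)) (φ i) ≤
      G * ((((Lev.lev (m + 1 + 1) M (k i)).filter fun x => φ i x ≠ α i (x 0)).card : ℝ)
          / ((Lev.lev (m + 1 + 1) M (k i)).card : ℝ)
        + (((Lev.lev (m + 1 + 1) M (k i)).filter fun x => φ i x ≠ β i (x 1)).card : ℝ)
          / ((Lev.lev (m + 1 + 1) M (k i)).card : ℝ)) + δ / 2 := by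
    intro i
    refine hglue M hM1 (k i) (hkr i).1 ?_ (φ i) (α i) (β i)
    have := (hkr i).2
    push_cast at this ⊢
    linarith
  set R := ∑ i, av (Lev.lev (m + 1 + 1) M (k i)) (fun x => (φ i x : ℝ))
      + C / M * (∑ i, av (Lev.lev (m + 1 + 1) M (k i)) (fun x => |(φ i x : ℝ)|) + K) with hRdef
  set a : Fin 3 → ℝ := fun i =>
    (((Lev.lev (m + 1 + 1) M (k i)).filter fun x => φ i x ≠ α i (x 0)).card : ℝ)
          / ((Lev.lev (m + 1 + 1) M (k i)).card : ℝ) with ha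
  set b : Fin 3 → ℝ := fun i =>
    (((Lev.lev (m + 1 + 1) M (k i)).filter fun x => φ i x ≠ β i (x 1)).card : ℝ)
          / ((Lev.lev (m + 1 + 1) M (k i)).card : ℝ) with hb
  have ha0 : ∀ i, 0 ≤ a i := fun i => by simp only [ha]; positivity
  have hb0 : ∀ i, 0 ≤ b i := fun i => by simp only [hb]; positivity
  have hα' : c * ∑ i, (a i - δ / (4 * (G + 1))) ≤ R := hα
  have hβ' : c * ∑ i, (b i - δ / (4 * (G + 1))) ≤ R := hβ
  have hg' : ∀ i, dev (Lev.lev (m + 1 + 1) M (k i)) (φ i) ≤ G * (a i + b i) + δ / 2 := hg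
  rw [Fin.sum_univ_three] at hα' hβ' ⊢
  have hG1 : 0 < G + 1 := by linarith
  have hd : δ / (4 * (G + 1)) * (4 * (G + 1)) = δ := by field_simp
  set d := δ / (4 * (G + 1)) with hd'
  have h0 := hg' 0
  have h1 := hg' 1
  have h2 := hg' 2
  -- dev - δ ≤ (G+1) (a + b - 2 d)
  have step : ∀ i, dev (Lev.lev (m + 1 + 1) M (k i)) (φ i) - δ
      ≤ (G + 1) * ((a i - d) + (b i - d)) := by
    intro i
    have := hg' i
    have := ha0 i
    have := hb0 i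
    nlinarith
  have s0 := step 0
  have s1 := step 1
  have s2 := step 2
  have hfin : dev (Lev.lev (m + 1 + 1) M (k 0)) (φ 0) - δ
      + (dev (Lev.lev (m + 1 + 1) M (k 1)) (φ 1) - δ)
      + (dev (Lev.lev (m + 1 + 1) M (k 2)) (φ 2) - δ)
      ≤ (G + 1) * ((a 0 - d + (a 1 - d) + (a 2 - d)) + (b 0 - d + (b 1 - d) + (b 2 - d))) := by
    linarith
  have hfin2 : c * ((a 0 - d + (a 1 - d) + (a 2 - d)) + (b 0 - d + (b 1 - d) + (b 2 - d)))
      ≤ 2 * R := by linarith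
  calc c / (2 * (G + 1)) * (dev (Lev.lev (m + 1 + 1) M (k 0)) (φ 0) - δ
      + (dev (Lev.lev (m + 1 + 1) M (k 1)) (φ 1) - δ)
      + (dev (Lev.lev (m + 1 + 1) M (k 2)) (φ 2) - δ))
      ≤ c / (2 * (G + 1)) * ((G + 1) * ((a 0 - d + (a 1 - d) + (a 2 - d))
          + (b 0 - d + (b 1 - d) + (b 2 - d)))) :=
        mul_le_mul_of_nonneg_left hfin (by positivity)
    _ = c * ((a 0 - d + (a 1 - d) + (a 2 - d)) + (b 0 - d + (b 1 - d) + (b 2 - d))) / 2 := by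
        field_simp
    _ ≤ R := by linarith

theorem rig_all {n : ℕ} (hn : 2 ≤ n) : RigD n ∧ RigS n := by
  induction n, hn using Nat.le_induction with
  | base => exact ⟨rigD_two, rigS_two⟩
  | succ n hn ih => exact ⟨rigD_step hn ih.1, rigS_step hn ih.2⟩

end Pool.Agent.Work.MP_0cd883_co.Rig
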